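import Pool.Agent.helper17.L9.JWire2

/-!
# Wires whose last unit has an unlabelled end: the relation is full

`wire_kk2`: the wire with the relation `kk`, or with the full relation if the end `q` of the last
unit is not labelled and there are at least two units.
-/

set_option autoImplicit false
set_option linter.unusedSectionVars false

namespace Helper17.L9

open Finset Classical Helper33.L9
open Helper42.L9 hiding near gp
open Pool.Agent.helper58.L9
open Pool.Agent.helper40.L9 (ParOK JSt Bad Tol LamU JExt)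
open Pool.Agent.helper40.L9.J (kk M3 nbm gp)

variable {V : Type*} [Fintype V] {G : SimpleGraph V} {X C L : V → Prop} {f : V → ℕ}
  {Z S : Finset V} {k : ℕ} {p u v q y : ℕ → V} {σ τ : V}

/-- the labels of unlabelled vertices do not matter -/
theorem st_vals {g : V → ℕ}
    (st : St G.Adj (qadj G C) (Helper33.L9.near G) C L (fun _ => False) f)
    (h : ∀ x, L x → g x = f x) :
    St G.Adj (qadj G C) (Helper33.L9.near G) C L (fun _ => False) g := by
  refine ⟨⟨fun v hv => ?_, fun v hv => ?_, fun u v hu hv hq => ?_, fun u v hu hv ha hX => ?_⟩,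
    fun _ h => h.elim, fun _ h => h.elim,
    fun _ _ h => h.elim, fun _ _ h => h.elim, fun _ _ h => h.elim⟩
  · rw [h v hv.1]
    exact st.par.le v hv
  · rw [h v hv.1]
    exact st.par.par v hv
  · rw [h u hu.1, h v hv.1]
    exact st.par.q u v hu hv hq
  · rw [h u hu.1, h v hv.1]
    exact st.par.cross u v hu hv ha hX

def chkT : Bool :=
  M3.all fun L => (List.range 5).all fun c =>
    !(L.testBit c) || evp.any fun ab => L.testBit (ab.1 / 2) && L.testBit (ab.2 / 2) &&
      dif ab.1 (2 * c) && dif ab.2 (2 * c)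

theorem chkT_true : chkT = true := by decide +kernel

theorem two_of_M3 {L c : ℕ} (hL : L ∈ M3) (hc : c < 5) (hb : L.testBit c = true) :
    ∃ a b, (a, b) ∈ evp ∧ L.testBit (a / 2) = true ∧ L.testBit (b / 2) = true ∧ a ≠ 2 * c ∧
      b ≠ 2 * c := by
  have h := chkT_true
  unfold chkT at h
  rw [List.all_eq_true] at h
  have h := h L hL
  rw [List.all_eq_true] at h
  have h := h c (List.mem_range.mpr hc)
  rw [hb, Bool.not_true, Bool.false_or, List.any_eq_true] at h
  obtain ⟨⟨a, b⟩, hab, h⟩ := h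
  simp only [Bool.and_eq_true, dif_iff] at h
  exact ⟨a, b, hab, h.1.1.1, h.1.1.2, h.1.2, h.2⟩

theorem ev_half {a : ℕ} (h : a ∈ evs) : 2 * (a / 2) = a ∧ a / 2 < 5 := by
  have := mem_evs.mp h
  omega

theorem T_ex (nk pk : ℕ) (h : nk % 2 = 1) :
    ∃ T, T ∈ evs ∧ T ≠ pk ∧ T + 1 ≠ nk ∧ nk + 1 ≠ T := by
  by_contra hh
  push Not at hh
  have h0 := hh 0 (by decide)
  have h2 := hh 2 (by decide)
  have h4 := hh 4 (by decide)
  have h6 := hh 6 (by decide)
  have h8 := hh 8 (by decide)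
  omega

section

variable (hcub : ∀ v, (univ.filter fun b => G.Adj v b).card = 3)
  (hw : Helper33.L9.Wire G X Z S k p u v q y σ τ) (Xσ : X σ)
  (hC : WireHyp G X C k p u v q y)

include hcub hw Xσ hC

/-- **The wire with the relation `kk`, or the full relation.** -/
theorem wire_kk2 (st : St G.Adj (qadj G C) (Helper33.L9.near G) C L (fun _ => False) f)
    (hu : ∀ i, i < k → ¬ L (u i))
    (hv : ∀ i, i < k → ¬ L (v i)) (hy : ∀ i, 0 < i → i < k → ¬ L (y i)) {La c0 n0 nk : ℕ}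
    (hc : k ≠ 0 → La ∈ M3 ∧ (∀ j, j < 5 → La.testBit j = true →
        2 * j ≠ f (p 0) ∧ 2 * j ≠ f (q 0)) ∧ c0 % 2 = 0 ∧ c0 ≤ 9 ∧ La.testBit (c0 / 2) = true ∧
        ((kk La (nk / 2)).testBit (c0 / 2) = true ∨ (2 ≤ k ∧ ¬ L (q (k - 1)))) ∧ gp c0 n0)
    (hnk : nk % 2 = 1 ∧ nk ≤ 9)
    (hσ : k ≠ 0 → L σ → C σ → f σ ≠ c0) (hτ : k ≠ 0 → L τ → ¬ C τ)
    (hy0 : k ≠ 0 → L (y 0) → f (y 0) = n0) (hyk : k ≠ 0 → L (y k) → f (y k) = nk) :
    ∃ g : V → ℕ, St G.Adj (qadj G C) (Helper33.L9.near G) C (fun x => L x ∨ WS k u v y x)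
        (fun _ => False) g ∧ (∀ x, ¬ WS k u v y x → g x = f x) ∧ (k ≠ 0 → g (u 0) = c0) := by
  by_cases hkk : k ≠ 0 → (kk La (nk / 2)).testBit (c0 / 2) = true
  · refine wire_kk hcub hw Xσ hC st hu hv hy (La := La) (n0 := n0) (nk := nk) (fun hk => ?_) hnk
      hσ hτ hy0 hyk
    obtain ⟨h1, h2, h3, h4, h5, _, h7⟩ := hc hk
    exact ⟨h1, h2, h3, h4, h5, hkk hk, h7⟩
  · push Not at hkk
    obtain ⟨hk, hkk⟩ := hkk
    obtain ⟨h1, h2, h3, h4, h5, h6, h7⟩ := hc hk
    obtain ⟨k2, hq⟩ := h6.resolve_left hkk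
    have k0 : 0 < k := Nat.pos_of_ne_zero hk
    have k1 : k - 1 < k := Nat.sub_lt k0 one_pos
    obtain ⟨e0, c5, ce⟩ := half_even h3 h4
    obtain ⟨a, b, hab, ha1, hb1, ha2, hb2⟩ := two_of_M3 h1 c5 h5
    rw [e0] at ha2 hb2
    obtain ⟨haE, hbE, habn⟩ := evp_evs hab
    have ea : 2 * (a / 2) = a ∧ a / 2 < 5 := ev_half haE
    have eb : 2 * (b / 2) = b ∧ b / 2 < 5 := ev_half hbE
    have pa := h2 (a / 2) ea.2 ha1
    have pb := h2 (b / 2) eb.2 hb1
    have pc := h2 (c0 / 2) c5 h5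
    rw [ea.1] at pa
    rw [eb.1] at pb
    rw [e0] at pc
    obtain ⟨T, hT, hTp, hT1, hT2⟩ := T_ex nk (f (p (k - 1))) hnk.1
    -- the fictitious label of the unlabelled end
    obtain ⟨w, hw1, hw2⟩ : ∃ w, T ≠ w ∧ (a = w ∨ b = w) := by
      by_cases hTa : T = a
      · exact ⟨b, fun he => habn (hTa.symm.trans he), Or.inr rfl⟩
      · exact ⟨a, hTa, Or.inl rfl⟩
    let f' : V → ℕ := fun x => if x = q (k - 1) then w else f x
    have f'q : f' (q (k - 1)) = w := if_pos rfl
    have f'n : ∀ x, x ≠ q (k - 1) → f' x = f x := fun x hx => if_neg hx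
    have st' := st_vals (g := f') st fun x hx => f'n x fun he => hq (he ▸ hx)
    have hu1 := hw.unit (k - 1) k1
    have n1 : p 0 ≠ q (k - 1) := by
      intro he
      have h10 : ownR G X (q (k - 1)) (u 0) := he ▸ (hw.unit 0 k0).pu
      have := own_one' hcub hu1.cq h10 (Helper33.L9.ownR_symm hu1.vq)
      exact hw.nuv 0 k0 (k - 1) k1 this
    have n2 : q 0 ≠ q (k - 1) := by
      intro he
      have h10 : ownR G X (q (k - 1)) (v 0) := he ▸ Helper33.L9.ownR_symm (hw.unit 0 k0).vq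
      have := own_one' hcub hu1.cq h10 (Helper33.L9.ownR_symm hu1.vq)
      exact absurd (hw.nvv 0 k0 (k - 1) k1 this) (Nat.sub_pos_of_lt k2).ne
    have n3 : p (k - 1) ≠ q (k - 1) := hu1.pq
    have hCnd : CndS a b (f' (p (k - 1))) (f' (q (k - 1))) T := by
      rw [f'n _ n3, f'q]
      refine Cnd.weak hab ⟨hT, hTp, hw1, ?_⟩
      rcases hw2 with h | h
      · exact Or.inr (Or.inr (Or.inr (Or.inl h)))
      · exact Or.inr (Or.inr (Or.inr (Or.inr (Or.inr h))))
    have ne1 : L σ → σ ≠ q (k - 1) := fun h he => hq (he ▸ h)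
    have ney : ∀ i, L (y i) → y i ≠ q (k - 1) := fun i h he => hq (he ▸ h)
    obtain ⟨g, sg, g1, g2, _⟩ := wire_fill_st hcub hw Xσ hC k0 st' hu hv hy hab ce
      (by rw [f'n _ n1, f'n _ n2]; exact pc)
      (by rw [f'n _ n1, f'n _ n2]; exact ⟨ha2, pa⟩)
      (by rw [f'n _ n1, f'n _ n2]; exact ⟨hb2, pb⟩)
      hCnd (fun hk1 => absurd k2 (by rw [hk1]; decide))
      (fun h1 h2 => by rw [f'n _ (ne1 h1)]; exact hσ hk h1 h2)
      (fun hh hc' => absurd hc' (hτ hk hh))
      (fun hh => by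
        rw [f'n _ (ney 0 hh), hy0 hk hh]
        exact gp_far h7)
      (fun hh => by
        rw [f'n _ (ney k hh), hyk hk hh]
        exact ⟨hT1, hT2⟩)
    have qW : ¬ WS k u v y (q (k - 1)) := by
      rintro (⟨i, hi, h | h⟩ | ⟨i, h0, hi, h⟩)
      · have h8 := (hw.unit i hi).cu
        have h9 := hu1.cq
        rw [h, h8] at h9
        exact absurd h9 (by decide)
      · have h8 := (hw.unit i hi).cv
        have h9 := hu1.cq
        rw [h, h8] at h9
        exact absurd h9 (by decide)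
      · exact wY hw Xσ hi.le (h ▸ wX_q hw Xσ k1)
    refine ⟨fun x => if x = q (k - 1) then f x else g x, st_vals sg fun x hx => ?_,
      fun x hx => ?_, fun _ => ?_⟩
    · refine if_neg fun he => ?_
      rcases hx with hx | hx
      · exact hq (he ▸ hx)
      · exact qW (he ▸ hx)
    · beta_reduce
      by_cases he : x = q (k - 1)
      · rw [if_pos he]
      · rw [if_neg he, g1 x hx, f'n x he]
    · beta_reduce
      rw [if_neg fun he => ?_]
      · exact g2
      · exact qW (he ▸ Or.inl ⟨0, k0, Or.inl rfl⟩)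

end

end Helper17.L9
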