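import Pool.Agent.helper17.L9.JVal
import Pool.Agent.helper17.L9.JWire3

/-!
# The `O`-mode of the joint stage

`v1` and `v5` get odd labels (wrong parity), all other vertices of the `U_5` are in parity.
`OH`: the labels of the core, the conditions on them.  `omode`: then the `U_5` can be labelled.
-/

set_option autoImplicit false
set_option linter.unusedSectionVars false

namespace Helper17.L9

open Finset Classical Helper33.L9
open Helper42.L9 hiding near gp
open Pool.Agent.helper58.L9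
open Pool.Agent.helper40.L9 (ParOK JSt Bad Tol LamU JExt)
open Pool.Agent.helper40.L9.J (kk M3 nbm gp)

variable {V : Type*} [Fintype V] {G : SimpleGraph V} {X C L : V → Prop} {f : V → ℕ}
  {Z S : Finset V} {v1 v2 v3 v4 v5 z1 z3 z5 l1 l5 : V} {kA kB : ℕ}
  {pA uA vA qA yA pB uB vB qB yB : ℕ → V}

/-! ### members of `LamU` -/

theorem lamU_uA {i : ℕ} (hi : i < kA) : LamU v1 v2 v3 v4 v5 kA kB uA vA yA uB vB yB (uA i) :=
  Or.inr (Or.inr (Or.inr (Or.inr (Or.inr (Or.inl ⟨i, hi, Or.inl rfl⟩)))))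

theorem lamU_vA {i : ℕ} (hi : i < kA) : LamU v1 v2 v3 v4 v5 kA kB uA vA yA uB vB yB (vA i) :=
  Or.inr (Or.inr (Or.inr (Or.inr (Or.inr (Or.inl ⟨i, hi, Or.inr rfl⟩)))))

theorem lamU_yA {i : ℕ} (hi : i ≤ kA) : LamU v1 v2 v3 v4 v5 kA kB uA vA yA uB vB yB (yA i) :=
  Or.inr (Or.inr (Or.inr (Or.inr (Or.inr (Or.inr (Or.inl ⟨i, hi, rfl⟩))))))

theorem lamU_uB {i : ℕ} (hi : i < kB) : LamU v1 v2 v3 v4 v5 kA kB uA vA yA uB vB yB (uB i) :=
  Or.inr (Or.inr (Or.inr (Or.inr (Or.inr (Or.inr (Or.inr (Or.inl ⟨i, hi, Or.inl rfl⟩)))))))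

theorem lamU_vB {i : ℕ} (hi : i < kB) : LamU v1 v2 v3 v4 v5 kA kB uA vA yA uB vB yB (vB i) :=
  Or.inr (Or.inr (Or.inr (Or.inr (Or.inr (Or.inr (Or.inr (Or.inl ⟨i, hi, Or.inr rfl⟩)))))))

theorem lamU_yB {i : ℕ} (hi : i ≤ kB) : LamU v1 v2 v3 v4 v5 kA kB uA vA yA uB vB yB (yB i) :=
  Or.inr (Or.inr (Or.inr (Or.inr (Or.inr (Or.inr (Or.inr (Or.inr ⟨i, hi, rfl⟩)))))))

theorem lamU_1 : LamU v1 v2 v3 v4 v5 kA kB uA vA yA uB vB yB v1 := Or.inl rfl

theorem lamU_2 : LamU v1 v2 v3 v4 v5 kA kB uA vA yA uB vB yB v2 := Or.inr (Or.inl rfl)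

theorem lamU_3 : LamU v1 v2 v3 v4 v5 kA kB uA vA yA uB vB yB v3 :=
  Or.inr (Or.inr (Or.inl rfl))

theorem lamU_4 : LamU v1 v2 v3 v4 v5 kA kB uA vA yA uB vB yB v4 :=
  Or.inr (Or.inr (Or.inr (Or.inl rfl)))

theorem lamU_5 : LamU v1 v2 v3 v4 v5 kA kB uA vA yA uB vB yB v5 :=
  Or.inr (Or.inr (Or.inr (Or.inr (Or.inl rfl))))

/-- the vertices of `LamU`: the core, the four links, the wires -/
theorem lamU_iff (x : V) : LamU v1 v2 v3 v4 v5 kA kB uA vA yA uB vB yB x ↔
    (((x = v1 ∨ x = v5 ∨ x = yA kA ∨ x = yA 0 ∨ x = yB kB ∨ x = yB 0) ∨ WS kA uA vA yA x) ∨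
      WS kB uB vB yB x) ∨ (x = v2 ∨ x = v3 ∨ x = v4) := by
  constructor
  · rintro (h | h | h | h | h | ⟨i, hi, h⟩ | ⟨i, hi, h⟩ | ⟨i, hi, h⟩ | ⟨i, hi, h⟩)
    · exact Or.inl (Or.inl (Or.inl (Or.inl h)))
    · exact Or.inr (Or.inl h)
    · exact Or.inr (Or.inr (Or.inl h))
    · exact Or.inr (Or.inr (Or.inr h))
    · exact Or.inl (Or.inl (Or.inl (Or.inr (Or.inl h))))
    · exact Or.inl (Or.inl (Or.inr (Or.inl ⟨i, hi, h⟩)))
    · rcases Nat.eq_zero_or_pos i with h0 | h0
      · subst h0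
        exact Or.inl (Or.inl (Or.inl (Or.inr (Or.inr (Or.inr (Or.inl h))))))
      · by_cases hk : i = kA
        · subst hk
          exact Or.inl (Or.inl (Or.inl (Or.inr (Or.inr (Or.inl h)))))
        · exact Or.inl (Or.inl (Or.inr (Or.inr ⟨i, h0, lt_of_le_of_ne hi hk, h⟩)))
    · exact Or.inl (Or.inr (Or.inl ⟨i, hi, h⟩))
    · rcases Nat.eq_zero_or_pos i with h0 | h0
      · subst h0
        exact Or.inl (Or.inl (Or.inl (Or.inr (Or.inr (Or.inr (Or.inr (Or.inr h)))))))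
      · by_cases hk : i = kB
        · subst hk
          exact Or.inl (Or.inl (Or.inl (Or.inr (Or.inr (Or.inr (Or.inr (Or.inl h)))))))
        · exact Or.inl (Or.inr (Or.inr ⟨i, h0, lt_of_le_of_ne hi hk, h⟩))
  · rintro (((( h | h | h | h | h | h) | h) | h) | (h | h | h))
    · exact h ▸ lamU_1
    · exact h ▸ lamU_5
    · exact h ▸ lamU_yA le_rfl
    · exact h ▸ lamU_yA (Nat.zero_le _)
    · exact h ▸ lamU_yB le_rfl
    · exact h ▸ lamU_yB (Nat.zero_le _)
    · rcases h with ⟨i, hi, h | h⟩ | ⟨i, h0, hi, h⟩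
      · exact h ▸ lamU_uA hi
      · exact h ▸ lamU_vA hi
      · exact h ▸ lamU_yA hi.le
    · rcases h with ⟨i, hi, h | h⟩ | ⟨i, h0, hi, h⟩
      · exact h ▸ lamU_uB hi
      · exact h ▸ lamU_vB hi
      · exact h ▸ lamU_yB hi.le
    · exact h ▸ lamU_2
    · exact h ▸ lamU_3
    · exact h ▸ lamU_4

/-! ### the wire for the `O`-cut -/

section

variable {w1 w3 w3' w5 ba0 bak bb0 bbk : V}
  (hcub : ∀ v, (univ.filter fun b => G.Adj v b).card = 3)
  (h5 : U5 G X Z S v1 v2 v3 v4 v5 z1 z3 z5 l1 l5 kA kB pA uA vA qA yA pB uB vB qB yB)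
  (hU : UNb G X v1 v2 v3 v4 v5 z1 z3 z5 l1 l5 w1 w3 w3' w5 (yA 0) (yA kA) (yB 0) (yB kB)
        (if 0 = kA then v1 else uA 0) (if kA = 0 then v4 else vA (kA - 1))
        (if 0 = kB then v5 else uB 0) (if kB = 0 then v2 else vB (kB - 1)) ba0 bak bb0 bbk)
  (hJ : JSt G X L f)
  (hLam : ∀ x, LamU v1 v2 v3 v4 v5 kA kB uA vA yA uB vB yB x → ¬ L x)

include hU hJ hLam in
/-- the outer neighbour of `z1` is in parity -/
theorem l1_par (h : L l1) : ¬ Bad X f l1 := by
  intro hb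
  have hn : Helper33.L9.near G l1 v1 := by
    refine ⟨fun he => hLam v1 lamU_1 (he ▸ h), Or.inr ⟨z1, hU.m1.hb.symm, hU.m1.ha⟩⟩
  obtain ⟨c2, b, hvb, hLb, _⟩ := hJ.tol l1 v1 h hb (hLam v1 lamU_1) hn
  rcases hU.n1.all b hvb.1 with h1 | h1 | h1
  · exact hLam v2 lamU_2 (h1 ▸ hLb)
  · exact hU.Z1 (h1 ▸ hvb.2.mp hU.X1)
  · exact hU.Ak (h1 ▸ hvb.2.mp hU.X1)

include hcub h5 hU hJ hLam in
/-- the end `p i` of a unit is not `v1`, `v5`, `v2`, `v3`, `v4` -/
theorem pA_ne {i : ℕ} (hi : i < kA) : (pA i ≠ v1 ∧ pA i ≠ v5) ∧ qA i ≠ v1 ∧ qA i ≠ v5 := by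
  have h1 := h5.A.unit i hi
  obtain ⟨h2, h3⟩ := h5.noA i hi
  simp only [List.mem_cons, List.not_mem_nil, or_false, not_or] at h2 h3
  refine ⟨⟨fun he => ?_, fun he => ?_⟩, fun he => ?_, fun he => ?_⟩
  · have := own_one' hcub h1.cp h1.pu (he ▸ h5.o12)
    exact h2.2.1 this
  · have := own_one' hcub h1.cp h1.pu (he ▸ Helper33.L9.ownR_symm h5.o45)
    exact h2.2.2.2.1 this
  · have := own_one' hcub h1.cq (Helper33.L9.ownR_symm h1.vq) (he ▸ h5.o12)
    exact h3.2.1 this
  · have := own_one' hcub h1.cq (Helper33.L9.ownR_symm h1.vq) (he ▸ Helper33.L9.ownR_symm h5.o45)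
    exact h3.2.2.2.1 this

include hcub h5 hU hJ hLam in
/-- **The wire `A` for the `O`-cut.** -/
theorem whyp_A (hC : ∀ x, C x ↔ cutX X L f x ∧ x ≠ v1 ∧ x ≠ v5)
    (hL : L z1 ∧ L z5 ∧ L l1 ∧ L l5)
    (hNM : ∀ i, 0 < i → i < kA → ∀ b, ownR G X (yA i) b → NMAt G X b) :
    WireHyp G X C kA pA uA vA qA yA := by
  have X4 := hU.X4
  have nv : ∀ i, i < kA → ¬ L (uA i) ∧ ¬ L (vA i) := fun i hi =>
    ⟨hLam _ (lamU_uA hi), hLam _ (lamU_vA hi)⟩
  have ny : ∀ i, i ≤ kA → ¬ L (yA i) := fun i hi => hLam _ (lamU_yA hi)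
  have cu : ∀ i, i < kA → C (uA i) := by
    intro i hi
    obtain ⟨h2, h3⟩ := h5.noA i hi
    simp only [List.mem_cons, List.not_mem_nil, or_false, not_or] at h2 h3
    exact (hC _).mpr ⟨(cutX_nL (nv i hi).1).mpr (wX_u h5.A X4 hi), h2.1, h2.2.2.2.2⟩
  have cv : ∀ i, i < kA → C (vA i) := by
    intro i hi
    obtain ⟨h2, h3⟩ := h5.noA i hi
    simp only [List.mem_cons, List.not_mem_nil, or_false, not_or] at h2 h3
    exact (hC _).mpr ⟨(cutX_nL (nv i hi).2).mpr (wX_v h5.A X4 hi), h3.1, h3.2.2.2.2⟩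
  have cp : ∀ i, i < kA → C (pA i) := by
    intro i hi
    obtain ⟨⟨h2, h3⟩, _⟩ := pA_ne hcub h5 hU hJ hLam hi
    exact (hC _).mpr ⟨(adj_ok hJ (nv i hi).1 (wN_u hcub h5.A X4 hi).ha).mpr
      (wX_p h5.A X4 hi), h2, h3⟩
  have cq : ∀ i, i < kA → C (qA i) := by
    intro i hi
    obtain ⟨_, h2, h3⟩ := pA_ne hcub h5 hU hJ hLam hi
    exact (hC _).mpr ⟨(adj_ok hJ (nv i hi).2 (wN_v hcub h5.A X4 hi).hb).mpr
      (wX_q h5.A X4 hi), h2, h3⟩
  have cy : ∀ i, i ≤ kA → ¬ C (yA i) := fun i hi hc =>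
    wY h5.A X4 hi ((cutX_nL (ny i hi)).mp ((hC _).mp hc).1)
  refine ⟨cu, cv, cp, cq, cy, ?_, ?_, ?_, ?_⟩
  · intro i hi x hn hc
    exact (near_inner hJ (nv i hi).1 (h5.A.unit i hi).cu hn).mp ((hC _).mp hc).1
  · intro i hi x hn hc
    exact (near_inner hJ (nv i hi).2 (h5.A.unit i hi).cv hn).mp ((hC _).mp hc).1
  · intro i h0 hi b hb hc
    have h1 := (adj_ok hJ (ny i hi.le) hb.1).mp ((hC _).mp hc).1
    exact wY h5.A X4 hi.le (hb.2.mpr h1)
  · intro i h0 hi
    obtain ⟨j, rfl⟩ : ∃ j, i = j + 1 := ⟨i - 1, by omega⟩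
    have hj : j < kA := by omega
    obtain ⟨b, Yb, nY⟩ := wN_y' hcub h5.A X4 hi
    have nA := wN_v hcub h5.A X4 hj
    have nC := wN_u hcub h5.A X4 hi
    have Yy : ¬ X (yA (j + 1)) := wY h5.A X4 hi.le
    have Ly := ny (j + 1) hi.le
    have hob : ownR G X (yA (j + 1)) b := ⟨nY.hc, iff_of_false Yy Yb⟩
    have c2 := h5.A.y2 (j + 1) hi.le
    -- the reduction
    have red : ∀ o', (∀ r, G.Adj b r → r ≠ yA (j + 1) → ¬ C r →
        Helper33.L9.near G (yA (j + 1)) r → r = o') →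
        ∃ o o' : V, ∀ r, qadj G C (yA (j + 1)) r → r = o ∨ r = o' := fun o' ho =>
      ⟨b, o', conf_red nY nA nC (cy _ hi.le) (cv j hj) (cu _ hi) (cu j hj) (cq j hj)
        (cp _ hi) (cv _ hi) ho⟩
    by_cases hn1 : Helper33.L9.near G v1 (yA (j + 1))
    · -- near `v1`
      have hnk : yA (j + 1) ≠ yA kA := fun he => by
        have := h5.A.nyy (j + 1) hi.le kA le_rfl he
        omega
      have Xne : ∀ {s : V}, X s → yA (j + 1) ≠ s := fun hs he => Yy (he ▸ hs)
      rcases hU.near1 hn1 with h1 | h1 | h1 | h1 | h1 | h1 | h1 | h1 | h1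
      · exact absurd h1 (Xne hU.X2)
      · exact absurd h1.symm (h5.z1y (j + 1) hi.le)
      · exact absurd h1 hnk
      · exact absurd h1 (Xne hU.X3)
      · exact absurd h1 (h5.dy (j + 1) hi.le 0 (Nat.zero_le _))
      · exact absurd h1 (Xne hU.Xl1)
      · -- own neighbour of `z1`
        have hbz : b = z1 := by
          refine own_one' hcub c2 hob ⟨?_, iff_of_false Yy hU.Z1⟩
          rw [h1]
          exact hU.m1.hc.symm
        subst hbz
        refine red v1 fun r hr hry hcr _ => ?_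
        rcases hU.m1.all r hr with h3 | h3 | h3
        · exact h3
        · exfalso
          apply hcr
          rw [h3]
          refine (hC _).mpr ⟨(cutX_ok (fun _ => l1_par hU hJ hLam hL.2.2.1)).mpr hU.Xl1, ?_, ?_⟩
          · exact fun he => hLam v1 lamU_1 (he ▸ hL.2.2.1)
          · exact fun he => hLam v5 lamU_5 (he ▸ hL.2.2.1)
        · exact absurd (h3.trans h1.symm) hry
      · exact absurd h1 (Xne hU.Xva)
      · -- own neighbour of the last link
        have hbz : b = yA kA := by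
          refine own_one' hcub c2 hob ⟨?_, iff_of_false Yy hU.Ak⟩
          rw [h1]
          exact hU.ak.hc.symm
        subst hbz
        refine red v1 fun r hr hry hcr _ => ?_
        rcases hU.ak.all r hr with h3 | h3 | h3
        · exact h3
        · exfalso
          apply hcr
          rw [h3]
          have hk0 : ¬ kA = 0 := by omega
          have hk1 : kA - 1 < kA := by omega
          rw [if_neg hk0]
          exact cv _ hk1
        · exact absurd (h3.trans h1.symm) hry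
    · by_cases hn5 : Helper33.L9.near G v5 (yA (j + 1))
      · -- near `v5`
        have hnk : yA (j + 1) ≠ yA 0 := fun he => by
          have := h5.A.nyy (j + 1) hi.le 0 (Nat.zero_le _) he
          omega
        have Xne : ∀ {s : V}, X s → yA (j + 1) ≠ s := fun hs he => Yy (he ▸ hs)
        rcases hU.near5 hn5 with h1 | h1 | h1 | h1 | h1 | h1 | h1 | h1 | h1
        · exact absurd h1 (Xne hU.X4)
        · exact absurd h1.symm (h5.z5y (j + 1) hi.le)
        · exact absurd h1 (h5.dy (j + 1) hi.le kB le_rfl)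
        · exact absurd h1 hnk
        · exact absurd h1 (Xne hU.X3)
        · exact absurd h1 (Xne hU.Xl5)
        · -- own neighbour of `z5`
          have hbz : b = z5 := by
            refine own_one' hcub c2 hob ⟨?_, iff_of_false Yy hU.Z5⟩
            rw [h1]
            exact hU.m5.hc.symm
          subst hbz
          refine red v5 fun r hr hry hcr _ => ?_
          rcases hU.m5.all r hr with h3 | h3 | h3
          · exact h3
          · exfalso
            apply hcr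
            rw [h3]
            have hUr := hU.rev
            have h4 := l1_par (kA := kB) (kB := kA) (uA := uB) (vA := vB) (yA := yB)
              (uB := uA) (vB := vA) (yB := yA) hUr hJ
              (fun x hx => hLam x ((lamU_rev x).mpr hx)) hL.2.2.2
            refine (hC _).mpr ⟨(cutX_ok (fun _ => h4)).mpr hU.Xl5, ?_, ?_⟩
            · exact fun he => hLam v1 lamU_1 (he ▸ hL.2.2.2)
            · exact fun he => hLam v5 lamU_5 (he ▸ hL.2.2.2)
          · exact absurd (h3.trans h1.symm) hry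
        · exact absurd h1 (Xne hU.Xvb)
        · -- own neighbour of the last link of `B`
          have hbz : b = yB kB := by
            refine own_one' hcub c2 hob ⟨?_, iff_of_false Yy hU.Bk⟩
            rw [h1]
            exact hU.bk.hc.symm
          subst hbz
          refine red v5 fun r hr hry hcr _ => ?_
          rcases hU.bk.all r hr with h3 | h3 | h3
          · exact h3
          · exfalso
            apply hcr
            rw [h3]
            have hvb := hU.vbv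
            simp only [List.mem_cons, List.not_mem_nil, or_false, not_or] at hvb
            have hLb : ¬ L (if kB = 0 then v2 else vB (kB - 1)) := by
              split_ifs with hk
              · exact hLam _ lamU_2
              · exact hLam _ (lamU_vB (by omega))
            exact (hC _).mpr ⟨(cutX_nL hLb).mpr hU.Xvb, hvb.1, hvb.2.2.2⟩
          · exact absurd (h3.trans h1.symm) hry
      · -- otherwise the conflicts are those of `cutX`
        obtain ⟨o, o', ho⟩ := link_conf hcub hJ (hNM (j + 1) h0 hi b hob) Ly (nv j hj).2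
          (nv (j + 1) hi).1 nY nA nC Yy Yb (wX_v h5.A X4 hj) (wX_u h5.A X4 hi)
          (wX_u h5.A X4 hj) (wX_q h5.A X4 hj) (wX_p h5.A X4 hi) (wX_v h5.A X4 hi)
        refine ⟨o, o', fun r hr => ho r ⟨?_, hr.2⟩⟩
        have h1 : ¬ cutX X L f (yA (j + 1)) := fun hh => Yy ((cutX_nL Ly).mp hh)
        refine iff_of_false h1 fun hh => ?_
        have h2 : ¬ C r := fun hc => cy _ hi.le (hr.1.mpr hc)
        apply h2
        refine (hC _).mpr ⟨hh, ?_, ?_⟩
        · rintro rfl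
          exact hn1 (Helper33.L9.near_symm hr.2)
        · rintro rfl
          exact hn5 (Helper33.L9.near_symm hr.2)

end

end Helper17.L9
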