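import Pool.Agent.helper17.L9.JOmode

/-!
# The `O`-mode of the joint stage: the core, the two ends
-/

set_option autoImplicit false
set_option linter.unusedSectionVars false

namespace Helper17.L9

open Finset Classical Helper33.L9
open Helper42.L9 hiding near gp
open Pool.Agent.helper58.L9
open Pool.Agent.helper40.L9 (ParOK JSt Bad Tol LamU JExt)
open Pool.Agent.helper40.L9.J (kk M3 nbm gp)

variable {V : Type*} [Fintype V] {G : SimpleGraph V} {X C L : V → Prop} {f : V → ℕ}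
  {Z S : Finset V} {v1 v2 v3 v4 v5 z1 z3 z5 l1 l5 : V} {kA kB : ℕ}
  {pA uA vA qA yA pB uB vB qB yB : ℕ → V}

/-- the labels of the core and their conditions -/
structure OH (G : SimpleGraph V) (L : V → Prop) (f : V → ℕ) (v1 v5 : V) (kA kB : ℕ)
    (pA qA yA pB qB yB : ℕ → V) (a e nA0 nAk nB0 nBk cA cB n2 n4 LA LB : ℕ) : Prop where
  oa : a % 2 = 1 ∧ a ≤ 9
  oe : e % 2 = 1 ∧ e ≤ 9
  oA0 : nA0 % 2 = 1 ∧ nA0 ≤ 9
  oAk : nAk % 2 = 1 ∧ nAk ≤ 9
  oB0 : nB0 % 2 = 1 ∧ nB0 ≤ 9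
  oBk : nBk % 2 = 1 ∧ nBk ≤ 9
  eA : kA = 0 → nA0 = nAk
  eB : kB = 0 → nB0 = nBk
  s1 : ∀ t, L t → Helper33.L9.near G v1 t → f t ≠ a
  s5 : ∀ t, L t → Helper33.L9.near G v5 t → f t ≠ e
  sAk : ∀ t, L t → Helper33.L9.near G (yA kA) t → f t ≠ nAk
  sA0 : ∀ t, L t → Helper33.L9.near G (yA 0) t → f t ≠ nA0
  sBk : ∀ t, L t → Helper33.L9.near G (yB kB) t → f t ≠ nBk
  sB0 : ∀ t, L t → Helper33.L9.near G (yB 0) t → f t ≠ nB0
  a1 : a ≠ nAk
  a2 : a ≠ nB0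
  a3 : Helper33.L9.near G v1 (yA 0) → a ≠ nA0
  a4 : Helper33.L9.near G v1 (yB kB) → a ≠ nBk
  e1 : e ≠ nBk
  e2 : e ≠ nA0
  e3 : Helper33.L9.near G v5 (yB 0) → e ≠ nB0
  e4 : Helper33.L9.near G v5 (yA kA) → e ≠ nAk
  dAA : Helper33.L9.near G (yA kA) (yA 0) → nAk ≠ nA0
  dBB : Helper33.L9.near G (yB kB) (yB 0) → nBk ≠ nB0
  dkk : Helper33.L9.near G (yA kA) (yB kB) → nAk ≠ nBk
  dk0 : Helper33.L9.near G (yA kA) (yB 0) → nAk ≠ nB0
  d0k : Helper33.L9.near G (yA 0) (yB kB) → nA0 ≠ nBk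
  d00 : Helper33.L9.near G (yA 0) (yB 0) → nA0 ≠ nB0
  wA : kA ≠ 0 → LA ∈ M3 ∧ (∀ j, j < 5 → LA.testBit j = true →
        2 * j ≠ f (pA 0) ∧ 2 * j ≠ f (qA 0)) ∧ cA % 2 = 0 ∧ cA ≤ 9 ∧
        LA.testBit (cA / 2) = true ∧ ((kk LA (nAk / 2)).testBit (cA / 2) = true ∨
          (2 ≤ kA ∧ ¬ L (qA (kA - 1)))) ∧ gp cA nA0
  wB : kB ≠ 0 → LB ∈ M3 ∧ (∀ j, j < 5 → LB.testBit j = true →
        2 * j ≠ f (pB 0) ∧ 2 * j ≠ f (qB 0)) ∧ cB % 2 = 0 ∧ cB ≤ 9 ∧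
        LB.testBit (cB / 2) = true ∧ ((kk LB (nBk / 2)).testBit (cB / 2) = true ∨
          (2 ≤ kB ∧ ¬ L (qB (kB - 1)))) ∧ gp cB nB0
  t2 : n2 % 2 = 0 ∧ n2 ≤ 9 ∧ gp n2 a ∧ gp n2 nB0 ∧ (kB ≠ 0 → n2 ≠ cB)
  t4 : n4 % 2 = 0 ∧ n4 ≤ 9 ∧ gp n4 e ∧ gp n4 nA0 ∧ (kA ≠ 0 → n4 ≠ cA)
  t24 : n2 ≠ n4

/-- the ends and the four links -/
def P6 (v1 v5 : V) (kA kB : ℕ) (yA yB : ℕ → V) (x : V) : Prop :=
  x = v1 ∨ x = v5 ∨ x = yA kA ∨ x = yA 0 ∨ x = yB kB ∨ x = yB 0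

theorem pairOK_F {a b : V × ℕ} (ha : ¬ C a.1) (hb : ¬ C b.1) (h1 : a.1 = b.1 → a.2 = b.2)
    (h2 : Helper33.L9.near G a.1 b.1 → a.2 ≠ b.2) : PairOK G C a b :=
  ⟨h1, fun hn _ => h2 hn, fun _ hc => absurd (iff_of_false ha hb) hc⟩

theorem pairOK_T {a b : V × ℕ} (ha : C a.1) (hb : C b.1) (h1 : a.1 ≠ b.1)
    (h2 : a.2 ≠ b.2) : PairOK G C a b :=
  ⟨fun he => absurd he h1, fun _ _ => h2, fun _ hc => absurd (iff_of_true ha hb) hc⟩

theorem n3_ex {n2 n4 z : ℕ} (hz : z % 2 = 1) (hz9 : z ≤ 9) :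
    ∃ n3, n3 % 2 = 0 ∧ n3 ≤ 9 ∧ n2 ≠ n3 ∧ n3 ≠ n4 ∧ gp n3 z := by
  unfold gp
  by_contra hh
  push Not at hh
  have h0 := hh 0 rfl (by omega)
  have h2 := hh 2 rfl (by omega)
  have h4 := hh 4 rfl (by omega)
  have h6 := hh 6 rfl (by omega)
  have h8 := hh 8 rfl (by omega)
  omega

section

variable {w1 w3 w3' w5 ba0 bak bb0 bbk : V}
  (hcub : ∀ v, (univ.filter fun b => G.Adj v b).card = 3)
  (h5 : U5 G X Z S v1 v2 v3 v4 v5 z1 z3 z5 l1 l5 kA kB pA uA vA qA yA pB uB vB qB yB)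
  (hU : UNb G X v1 v2 v3 v4 v5 z1 z3 z5 l1 l5 w1 w3 w3' w5 (yA 0) (yA kA) (yB 0) (yB kB)
        (if 0 = kA then v1 else uA 0) (if kA = 0 then v4 else vA (kA - 1))
        (if 0 = kB then v5 else uB 0) (if kB = 0 then v2 else vB (kB - 1)) ba0 bak bb0 bbk)
  (hJ : JSt G X L f)
  (hLam : ∀ x, LamU v1 v2 v3 v4 v5 kA kB uA vA yA uB vB yB x → ¬ L x)

include hLam in
theorem p6_nL {x : V} (h : P6 v1 v5 kA kB yA yB x) : ¬ L x := by
  rcases h with h | h | h | h | h | h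
  · exact hLam x (h ▸ lamU_1)
  · exact hLam x (h ▸ lamU_5)
  · exact hLam x (h ▸ lamU_yA le_rfl)
  · exact hLam x (h ▸ lamU_yA (Nat.zero_le _))
  · exact hLam x (h ▸ lamU_yB le_rfl)
  · exact hLam x (h ▸ lamU_yB (Nat.zero_le _))

include hLam in
theorem ua_nL : ¬ L (if 0 = kA then v1 else uA 0) := by
  split_ifs with h
  · exact hLam _ lamU_1
  · exact hLam _ (lamU_uA (by omega))

include hLam in
theorem va_nL : ¬ L (if kA = 0 then v4 else vA (kA - 1)) := by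
  split_ifs with h
  · exact hLam _ lamU_4
  · exact hLam _ (lamU_vA (by omega))

include hLam in
theorem ub_nL : ¬ L (if 0 = kB then v5 else uB 0) := by
  split_ifs with h
  · exact hLam _ lamU_5
  · exact hLam _ (lamU_uB (by omega))

include hLam in
theorem vb_nL : ¬ L (if kB = 0 then v2 else vB (kB - 1)) := by
  split_ifs with h
  · exact hLam _ lamU_2
  · exact hLam _ (lamU_vB (by omega))

include hU hLam in
/-- the labelled neighbours of the ends and links are on the other side -/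
theorem p6_nb {x t : V} (h : P6 v1 v5 kA kB yA yB x) (ha : G.Adj x t) (ht : L t) : ¬ X t := by
  rcases h with h | h | h | h | h | h
  · subst h
    rcases hU.n1.all t ha with h1 | h1 | h1
    · exact absurd (h1 ▸ ht) (hLam _ lamU_2)
    · exact h1 ▸ hU.Z1
    · exact h1 ▸ hU.Ak
  · subst h
    rcases hU.n5.all t ha with h1 | h1 | h1
    · exact absurd (h1 ▸ ht) (hLam _ lamU_4)
    · exact h1 ▸ hU.Z5
    · exact h1 ▸ hU.Bk
  · rw [h] at ha
    rcases hU.ak.all t ha with h1 | h1 | h1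
    · exact absurd (h1 ▸ ht) (hLam _ lamU_1)
    · exact absurd (h1 ▸ ht) (va_nL hLam)
    · exact h1 ▸ hU.Cak
  · rw [h] at ha
    rcases hU.a0.all t ha with h1 | h1 | h1
    · exact absurd (h1 ▸ ht) (hLam _ lamU_4)
    · exact absurd (h1 ▸ ht) (ua_nL hLam)
    · exact h1 ▸ hU.Ca0
  · rw [h] at ha
    rcases hU.bk.all t ha with h1 | h1 | h1
    · exact absurd (h1 ▸ ht) (hLam _ lamU_5)
    · exact absurd (h1 ▸ ht) (vb_nL hLam)
    · exact h1 ▸ hU.Cbk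
  · rw [h] at ha
    rcases hU.b0.all t ha with h1 | h1 | h1
    · exact absurd (h1 ▸ ht) (hLam _ lamU_2)
    · exact absurd (h1 ▸ ht) (ub_nL hLam)
    · exact h1 ▸ hU.Cb0

include hU hLam in
/-- `v1` and `v5` are not near -/
theorem near15 (hL5 : L l5) : ¬ Helper33.L9.near G v1 v5 := by
  intro hn
  have hnd := hU.nd
  simp only [List.nodup_cons, List.mem_cons, List.not_mem_nil, or_false, not_or,
    List.nodup_nil, and_true, not_false_eq_true] at hnd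
  obtain ⟨⟨n12, n13, n14, n15⟩, ⟨n23, n24, n25⟩, ⟨n34, n35⟩, n45⟩ := hnd
  have Xne : ∀ {s : V}, ¬ X s → v1 ≠ s := fun hs he => hs (he ▸ hU.X1)
  rcases hU.near5 (Helper33.L9.near_symm hn) with h | h | h | h | h | h | h | h | h
  · exact n14 h
  · exact Xne hU.Z5 h
  · exact Xne hU.Bk h
  · exact Xne hU.A0 h
  · exact n13 h
  · exact hLam v1 lamU_1 (h ▸ hL5)
  · exact Xne hU.W5 h
  · have := hU.vbv
    rw [← h] at this
    simp at this
  · exact Xne hU.Cbk h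

include hJ hLam in
theorem o_base (hC : ∀ x, C x ↔ cutX X L f x ∧ x ≠ v1 ∧ x ≠ v5) :
    St G.Adj (qadj G C) (Helper33.L9.near G) C L (fun _ => False) f :=
  st_recut (jst_st hJ) fun x hx => (hC x).trans
    ⟨fun h => h.1, fun h => ⟨h, fun he => hLam v1 lamU_1 (he ▸ hx),
      fun he => hLam v5 lamU_5 (he ▸ hx)⟩⟩

include hU hLam in
theorem p6_nC (hC : ∀ x, C x ↔ cutX X L f x ∧ x ≠ v1 ∧ x ≠ v5) {x : V}
    (h : P6 v1 v5 kA kB yA yB x) : ¬ C x := by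
  intro hc
  obtain ⟨h1, h2, h3⟩ := (hC x).mp hc
  have h4 := (cutX_nL (p6_nL hLam h)).mp h1
  rcases h with h | h | h | h | h | h
  · exact h2 h
  · exact h3 h
  · exact hU.Ak (h ▸ h4)
  · exact hU.A0 (h ▸ h4)
  · exact hU.Bk (h ▸ h4)
  · exact hU.B0 (h ▸ h4)

include hcub h5 hU hJ hLam in
/-- the ends and links are labelled -/
theorem o_core (hC : ∀ x, C x ↔ cutX X L f x ∧ x ≠ v1 ∧ x ≠ v5) (hL5 : L l5)
    {a e nA0 nAk nB0 nBk cA cB n2 n4 LA LB : ℕ}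
    (H : OH G L f v1 v5 kA kB pA qA yA pB qB yB a e nA0 nAk nB0 nBk cA cB n2 n4 LA LB) :
    ∃ g : V → ℕ, (g v1 = a ∧ g v5 = e ∧ g (yA kA) = nAk ∧ g (yA 0) = nA0 ∧ g (yB kB) = nBk ∧
      g (yB 0) = nB0) ∧ (∀ x, ¬ P6 v1 v5 kA kB yA yB x → g x = f x) ∧
      St G.Adj (qadj G C) (Helper33.L9.near G) C (fun x => L x ∨ P6 v1 v5 kA kB yA yB x)
        (fun _ => False) g := by
  have base := o_base hJ hLam hC
  have hmem : ∀ b ∈ [(v1, a), (v5, e), (yA kA, nAk), (yA 0, nA0), (yB kB, nBk), (yB 0, nB0)],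
      P6 v1 v5 kA kB yA yB b.1 ∧ b.2 % 2 = 1 ∧ b.2 ≤ 9 ∧
        ∀ t, L t → Helper33.L9.near G b.1 t → f t ≠ b.2 := by
    intro b hb
    simp only [List.mem_cons, List.not_mem_nil, or_false] at hb
    rcases hb with rfl | rfl | rfl | rfl | rfl | rfl
    · exact ⟨Or.inl rfl, H.oa.1, H.oa.2, H.s1⟩
    · exact ⟨Or.inr (Or.inl rfl), H.oe.1, H.oe.2, H.s5⟩
    · exact ⟨Or.inr (Or.inr (Or.inl rfl)), H.oAk.1, H.oAk.2, H.sAk⟩
    · exact ⟨Or.inr (Or.inr (Or.inr (Or.inl rfl))), H.oA0.1, H.oA0.2, H.sA0⟩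
    · exact ⟨Or.inr (Or.inr (Or.inr (Or.inr (Or.inl rfl)))), H.oBk.1, H.oBk.2, H.sBk⟩
    · exact ⟨Or.inr (Or.inr (Or.inr (Or.inr (Or.inr rfl)))), H.oB0.1, H.oB0.2, H.sB0⟩
  have nC : ∀ b ∈ [(v1, a), (v5, e), (yA kA, nAk), (yA 0, nA0), (yB kB, nBk), (yB 0, nB0)],
      ¬ C b.1 := fun b hb => p6_nC hU hLam hC (hmem b hb).1
  have n15 : v1 ≠ v5 := by
    have hnd := hU.nd
    simp only [List.nodup_cons, List.mem_cons, List.not_mem_nil, or_false, not_or,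
      List.nodup_nil, and_true, not_false_eq_true] at hnd
    exact hnd.1.2.2.2
  have xy : ∀ {s t : V}, X s → ¬ X t → s ≠ t := fun hs ht he => ht (he ▸ hs)
  have hpair : List.Pairwise (PairOK G C)
      [(v1, a), (v5, e), (yA kA, nAk), (yA 0, nA0), (yB kB, nBk), (yB 0, nB0)] := by
    have nC' := nC
    simp only [List.mem_cons, List.not_mem_nil, or_false, forall_eq_or_imp, forall_eq] at nC'
    obtain ⟨c1, c2, c3, c4, c5, c6⟩ := nC'
    simp only [List.pairwise_cons, List.mem_cons, List.not_mem_nil, or_false, forall_eq_or_imp,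
      forall_eq, false_imp_iff, implies_true, and_true, List.Pairwise.nil]
    refine ⟨⟨?_, ?_, ?_, ?_, ?_⟩, ⟨?_, ?_, ?_, ?_⟩, ⟨?_, ?_, ?_⟩, ⟨?_, ?_⟩, ?_⟩
    · exact pairOK_F c1 c2 (fun he => absurd he n15) fun hn => absurd hn (near15 hU hLam hL5)
    · exact pairOK_F c1 c3 (fun he => absurd he (xy hU.X1 hU.Ak)) fun _ => H.a1
    · exact pairOK_F c1 c4 (fun he => absurd he (xy hU.X1 hU.A0)) H.a3
    · exact pairOK_F c1 c5 (fun he => absurd he (xy hU.X1 hU.Bk)) H.a4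
    · exact pairOK_F c1 c6 (fun he => absurd he (xy hU.X1 hU.B0)) fun _ => H.a2
    · exact pairOK_F c2 c3 (fun he => absurd he (xy hU.X5 hU.Ak)) H.e4
    · exact pairOK_F c2 c4 (fun he => absurd he (xy hU.X5 hU.A0)) fun _ => H.e2
    · exact pairOK_F c2 c5 (fun he => absurd he (xy hU.X5 hU.Bk)) fun _ => H.e1
    · exact pairOK_F c2 c6 (fun he => absurd he (xy hU.X5 hU.B0)) H.e3
    · exact pairOK_F c3 c4 (fun he => (H.eA (h5.A.nyy kA le_rfl 0 (Nat.zero_le _) he)).symm)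
        H.dAA
    · exact pairOK_F c3 c5 (fun he => absurd he hU.dAB.2.2.2) H.dkk
    · exact pairOK_F c3 c6 (fun he => absurd he hU.dAB.2.2.1) H.dk0
    · exact pairOK_F c4 c5 (fun he => absurd he hU.dAB.2.1) H.d0k
    · exact pairOK_F c4 c6 (fun he => absurd he hU.dAB.1) H.d00
    · exact pairOK_F c5 c6 (fun he => (H.eB (h5.B.nyy kB le_rfl 0 (Nat.zero_le _) he)).symm)
        H.dBB
  obtain ⟨g, g1, g2, st⟩ := st_list base
    [(v1, a), (v5, e), (yA kA, nAk), (yA 0, nA0), (yB kB, nBk), (yB 0, nB0)]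
    (fun b hb => p6_nL hLam (hmem b hb).1) (fun b hb => (hmem b hb).2.2.1)
    (fun b hb => iff_of_false (nC b hb) (by
      rw [Nat.even_iff]
      have := (hmem b hb).2.1
      omega))
    (fun b hb t hn _ ht => (hmem b hb).2.2.2 t ht hn)
    (fun b hb t ha hc ht => by
      exfalso
      apply hc
      refine iff_of_false (nC b hb) fun hct => ?_
      have h1 := p6_nb hU hLam (hmem b hb).1 ha ht
      exact h1 ((adj_ok hJ (p6_nL hLam (hmem b hb).1) ha).mp ((hC t).mp hct).1))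
    hpair
  have hP : ∀ x, (∃ b ∈ [(v1, a), (v5, e), (yA kA, nAk), (yA 0, nA0), (yB kB, nBk),
      (yB 0, nB0)], x = b.1) ↔ P6 v1 v5 kA kB yA yB x := by
    intro x
    simp only [List.mem_cons, List.not_mem_nil, or_false, exists_eq_or_imp, exists_eq_left]
    rfl
  refine ⟨g, ⟨g1 (v1, a) (by simp), g1 (v5, e) (by simp), g1 (yA kA, nAk) (by simp),
    g1 (yA 0, nA0) (by simp), g1 (yB kB, nBk) (by simp), g1 (yB 0, nB0) (by simp)⟩,
    fun x hx => g2 x fun b hb he => hx ((hP x).mp ⟨b, hb, he⟩),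
    st.congr (fun x => by rw [hP x]) (fun x => Iff.rfl)⟩

include hcub h5 hU in
/-- the vertices near the bad end `v1` may be left unlabelled -/
theorem o_tol {L' : V → Prop} {g : V → ℕ} (hLL : ∀ x, L x → L' x)
    (hLL' : ∀ x, LamU v1 v2 v3 v4 v5 kA kB uA vA yA uB vB yB x → L' x)
    (hL : L z1 ∧ L l1) (hl1 : ¬ Bad X g l1)
    (hg : ∀ x, LamU v1 v2 v3 v4 v5 kA kB uA vA yA uB vB yB x → x ≠ v1 → x ≠ v5 →
      ¬ Bad X g x)
    (hw : ∀ w, ownR G X z1 w → ¬ L w → ¬ LamU v1 v2 v3 v4 v5 kA kB uA vA yA uB vB yB w →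
      cc G X w = 2)
    (hb : ∀ b, ownR G X (yA kA) b → ¬ L b →
      ¬ LamU v1 v2 v3 v4 v5 kA kB uA vA yA uB vB yB b → cc G X b = 2) :
    (∀ t, G.Adj v1 t → L' t) ∧
      ∀ t, Helper33.L9.near G v1 t → ¬ L' t → Tol G X L' g v1 t := by
  have nLam : ∀ t, ¬ L' t → ¬ LamU v1 v2 v3 v4 v5 kA kB uA vA yA uB vB yB t :=
    fun t h1 h2 => h1 (hLL' t h2)
  refine ⟨fun t ht => ?_, fun t ht hLt => ?_⟩
  · rcases hU.n1.all t ht with h1 | h1 | h1
    · exact hLL' t (h1 ▸ lamU_2)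
    · exact hLL t (h1 ▸ hL.1)
    · exact hLL' t (h1 ▸ lamU_yA le_rfl)
  · have hva : LamU v1 v2 v3 v4 v5 kA kB uA vA yA uB vB yB
        (if kA = 0 then v4 else vA (kA - 1)) := by
      split_ifs with hk
      · exact lamU_4
      · exact lamU_vA (by omega)
    rcases hU.near1 ht with h1 | h1 | h1 | h1 | h1 | h1 | h1 | h1 | h1
    · exact absurd (hLL' t (h1 ▸ lamU_2)) hLt
    · exact absurd (hLL t (h1 ▸ hL.1)) hLt
    · exact absurd (hLL' t (h1 ▸ lamU_yA le_rfl)) hLt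
    · exact absurd (hLL' t (h1 ▸ lamU_3)) hLt
    · exact absurd (hLL' t (h1 ▸ lamU_yB (Nat.zero_le _))) hLt
    · exact absurd (hLL t (h1 ▸ hL.2)) hLt
    · subst h1
      have ho : ownR G X z1 t := ⟨hU.m1.hc, iff_of_false hU.Z1 hU.W1⟩
      refine ⟨hw t ho (fun hh => hLt (hLL t hh)) (nLam t hLt), z1,
        Helper33.L9.ownR_symm ho, hLL z1 hL.1, h5.e1.2.1, ?_, fun e' he' hne => ?_⟩
      · rw [h5.cz1]
        simp
      · rw [h5.cz1, Finset.mem_insert, Finset.mem_singleton] at he'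
        rcases he' with he' | he'
        · exact absurd he' hne
        · rw [he']
          exact ⟨hLL l1 hL.2, hl1⟩
    · exact absurd (hLL' t (h1 ▸ hva)) hLt
    · subst h1
      have ho : ownR G X (yA kA) t := ⟨hU.ak.hc, iff_of_false hU.Ak hU.Cak⟩
      have hcr : cr G X (yA kA) = {if kA = 0 then v4 else vA (kA - 1), v1} := by
        have := h5.A.link kA le_rfl
        rw [this, if_pos (rfl : kA = kA)]
      refine ⟨hb t ho (fun hh => hLt (hLL t hh)) (nLam t hLt), yA kA,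
        Helper33.L9.ownR_symm ho, hLL' _ (lamU_yA le_rfl), h5.A.y2 kA le_rfl, ?_,
        fun e' he' hne => ?_⟩
      · rw [hcr]
        simp
      · rw [hcr, Finset.mem_insert, Finset.mem_singleton] at he'
        rcases he' with he' | he'
        · rw [he']
          refine ⟨hLL' _ hva, hg _ hva ?_ ?_⟩
          · rw [← he']
            exact hne
          · have := hU.vav
            simp only [List.mem_cons, List.not_mem_nil, or_false, not_or] at this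
            exact this.2.2.2
        · exact absurd he' hne

end

end Helper17.L9
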