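import Pool.Agent.helper17.L9.JOmode2

/-!
# The `O`-mode of the joint stage: assembly
-/

set_option autoImplicit false
set_option linter.unusedSectionVars false

namespace Helper17.L9

open Finset Classical Helper33.L9
open Helper42.L9 hiding near gp
open Pool.Agent.helper58.L9
open Pool.Agent.helper40.L9 (ParOK JSt Bad Tol LamU JExt)
open Pool.Agent.helper40.L9.J (kk M3 nbm gp)

variable {V : Type*} [Fintype V] {G : SimpleGraph V} {X C L : V → Prop} {f : V → ℕ}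
  {Z S : Finset V} {v1 v2 v3 v4 v5 z1 z3 z5 l1 l5 : V} {kA kB : ℕ}
  {pA uA vA qA yA pB uB vB qB yB : ℕ → V}

theorem nWS_X {k : ℕ} {u v y : ℕ → V} {x : V} (hx : X x) (hy : ∀ i, i ≤ k → ¬ X (y i))
    (h : ∀ i, i < k → x ≠ u i ∧ x ≠ v i) : ¬ WS k u v y x := by
  rintro (⟨i, hi, h1 | h1⟩ | ⟨i, h0, hi, h1⟩)
  · exact (h i hi).1 h1
  · exact (h i hi).2 h1
  · exact hy i hi.le (h1 ▸ hx)

theorem nWS_Y {k : ℕ} {u v y : ℕ → V} {x : V} (hx : ¬ X x)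
    (hu : ∀ i, i < k → X (u i) ∧ X (v i))
    (h : ∀ i, 0 < i → i < k → x ≠ y i) : ¬ WS k u v y x := by
  rintro (⟨i, hi, h1 | h1⟩ | ⟨i, h0, hi, h1⟩)
  · exact hx (h1 ▸ (hu i hi).1)
  · exact hx (h1 ▸ (hu i hi).2)
  · exact h i h0 hi h1

/-- facts about the wires of a `U_5` -/
structure UW (X : V → Prop) (v1 v2 v3 v4 v5 : V) (kA kB : ℕ)
    (uA vA yA uB vB yB : ℕ → V) : Prop where
  XA : ∀ i, i < kA → X (uA i) ∧ X (vA i)
  YA : ∀ i, i ≤ kA → ¬ X (yA i)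
  XB : ∀ i, i < kB → X (uB i) ∧ X (vB i)
  YB : ∀ i, i ≤ kB → ¬ X (yB i)
  nA : ∀ i, i < kA → (uA i ≠ v1 ∧ uA i ≠ v2 ∧ uA i ≠ v3 ∧ uA i ≠ v4 ∧ uA i ≠ v5) ∧
    (vA i ≠ v1 ∧ vA i ≠ v2 ∧ vA i ≠ v3 ∧ vA i ≠ v4 ∧ vA i ≠ v5)
  nB : ∀ i, i < kB → (uB i ≠ v1 ∧ uB i ≠ v2 ∧ uB i ≠ v3 ∧ uB i ≠ v4 ∧ uB i ≠ v5) ∧
    (vB i ≠ v1 ∧ vB i ≠ v2 ∧ vB i ≠ v3 ∧ vB i ≠ v4 ∧ vB i ≠ v5)

theorem uw_of (h5 : U5 G X Z S v1 v2 v3 v4 v5 z1 z3 z5 l1 l5 kA kB pA uA vA qA yA pB uB vB qB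
    yB) (X4 : X v4) (X2 : X v2) : UW X v1 v2 v3 v4 v5 kA kB uA vA yA uB vB yB where
  XA := fun i hi => ⟨wX_u h5.A X4 hi, wX_v h5.A X4 hi⟩
  YA := fun i hi => wY h5.A X4 hi
  XB := fun i hi => ⟨wX_u h5.B X2 hi, wX_v h5.B X2 hi⟩
  YB := fun i hi => wY h5.B X2 hi
  nA := fun i hi => by
    have := h5.noA i hi
    simp only [List.mem_cons, List.not_mem_nil, or_false, not_or] at this
    exact this
  nB := fun i hi => by
    have := h5.noB i hi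
    simp only [List.mem_cons, List.not_mem_nil, or_false, not_or] at this
    exact this

section

variable {w1 w3 w3' w5 ba0 bak bb0 bbk : V}
  (hcub : ∀ v, (univ.filter fun b => G.Adj v b).card = 3)
  (h5 : U5 G X Z S v1 v2 v3 v4 v5 z1 z3 z5 l1 l5 kA kB pA uA vA qA yA pB uB vB qB yB)
  (hU : UNb G X v1 v2 v3 v4 v5 z1 z3 z5 l1 l5 w1 w3 w3' w5 (yA 0) (yA kA) (yB 0) (yB kB)
        (if 0 = kA then v1 else uA 0) (if kA = 0 then v4 else vA (kA - 1))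
        (if 0 = kB then v5 else uB 0) (if kB = 0 then v2 else vB (kB - 1)) ba0 bak bb0 bbk)
  (hJ : JSt G X L f)
  (hLam : ∀ x, LamU v1 v2 v3 v4 v5 kA kB uA vA yA uB vB yB x → ¬ L x)

include hU in
theorem nP6_X {x : V} (hx : X x) (h1 : x ≠ v1) (h2 : x ≠ v5) : ¬ P6 v1 v5 kA kB yA yB x := by
  rintro (h | h | h | h | h | h)
  · exact h1 h
  · exact h2 h
  · exact hU.Ak (h ▸ hx)
  · exact hU.A0 (h ▸ hx)
  · exact hU.Bk (h ▸ hx)
  · exact hU.B0 (h ▸ hx)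

include hU in
theorem nP6_Y {x : V} (hx : ¬ X x) (h1 : x ≠ yA kA) (h2 : x ≠ yA 0) (h3 : x ≠ yB kB)
    (h4 : x ≠ yB 0) : ¬ P6 v1 v5 kA kB yA yB x := by
  rintro (h | h | h | h | h | h)
  · exact hx (h ▸ hU.X1)
  · exact hx (h ▸ hU.X5)
  · exact h1 h
  · exact h2 h
  · exact h3 h
  · exact h4 h

include hcub h5 hU hJ hLam in
/-- the two wires are labelled -/
theorem o_wires (hC : ∀ x, C x ↔ cutX X L f x ∧ x ≠ v1 ∧ x ≠ v5)
    (hL : L z1 ∧ L z5 ∧ L l1 ∧ L l5)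
    (hNMA : ∀ i, 0 < i → i < kA → ∀ b, ownR G X (yA i) b → NMAt G X b)
    (hNMB : ∀ i, 0 < i → i < kB → ∀ b, ownR G X (yB i) b → NMAt G X b)
    {a e nA0 nAk nB0 nBk cA cB n2 n4 LA LB : ℕ}
    (H : OH G L f v1 v5 kA kB pA qA yA pB qB yB a e nA0 nAk nB0 nBk cA cB n2 n4 LA LB) :
    ∃ g : V → ℕ, (g v1 = a ∧ g v5 = e ∧ g (yA 0) = nA0 ∧ g (yB 0) = nB0 ∧
      (kA ≠ 0 → g (uA 0) = cA) ∧ (kB ≠ 0 → g (uB 0) = cB)) ∧
      (∀ x, ¬ LamU v1 v2 v3 v4 v5 kA kB uA vA yA uB vB yB x → g x = f x) ∧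
      St G.Adj (qadj G C) (Helper33.L9.near G) C
        (fun x => ((L x ∨ P6 v1 v5 kA kB yA yB x) ∨ WS kA uA vA yA x) ∨ WS kB uB vB yB x)
        (fun _ => False) g := by
  have W := uw_of h5 hU.X4 hU.X2
  have hnd := hU.nd
  simp only [List.nodup_cons, List.mem_cons, List.not_mem_nil, or_false, not_or,
    List.nodup_nil, and_true, not_false_eq_true] at hnd
  obtain ⟨⟨n12, n13, n14, n15⟩, ⟨n23, n24, n25⟩, ⟨n34, n35⟩, n45⟩ := hnd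
  have hUr := hU.rev
  have hLamr : ∀ x, LamU v5 v4 v3 v2 v1 kB kA uB vB yB uA vA yA x → ¬ L x :=
    fun x hx => hLam x ((lamU_rev x).mpr hx)
  have WA := whyp_A hcub h5 hU hJ hLam hC hL hNMA
  have WB := whyp_A (C := C) hcub (u5_rev h5) hUr hJ hLamr
    (fun x => (hC x).trans ⟨fun h => ⟨h.1, h.2.2, h.2.1⟩, fun h => ⟨h.1, h.2.2, h.2.1⟩⟩)
    ⟨hL.2.1, hL.1, hL.2.2.2, hL.2.2.1⟩ hNMB
  obtain ⟨g1, ⟨ga, ge, gAk, gA0, gBk, gB0⟩, g1f, st1⟩ := o_core hcub h5 hU hJ hLam hC hL.2.2.2 H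
  -- wire `A`
  have uA6 : ∀ i, i < kA → ¬ P6 v1 v5 kA kB yA yB (uA i) := fun i hi =>
    nP6_X hU (W.XA i hi).1 (W.nA i hi).1.1 (W.nA i hi).1.2.2.2.2
  have vA6 : ∀ i, i < kA → ¬ P6 v1 v5 kA kB yA yB (vA i) := fun i hi =>
    nP6_X hU (W.XA i hi).2 (W.nA i hi).2.1 (W.nA i hi).2.2.2.2.2
  have yA6 : ∀ i, 0 < i → i < kA → ¬ P6 v1 v5 kA kB yA yB (yA i) := fun i h0 hi =>
    nP6_Y hU (W.YA i hi.le)
      (fun he => absurd (h5.A.nyy i hi.le kA le_rfl he) hi.ne)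
      (fun he => absurd (h5.A.nyy i hi.le 0 (Nat.zero_le _) he) h0.ne')
      (h5.dy i hi.le kB le_rfl) (h5.dy i hi.le 0 (Nat.zero_le _))
  have uB6 : ∀ i, i < kB → ¬ P6 v1 v5 kA kB yA yB (uB i) := fun i hi =>
    nP6_X hU (W.XB i hi).1 (W.nB i hi).1.1 (W.nB i hi).1.2.2.2.2
  have vB6 : ∀ i, i < kB → ¬ P6 v1 v5 kA kB yA yB (vB i) := fun i hi =>
    nP6_X hU (W.XB i hi).2 (W.nB i hi).2.1 (W.nB i hi).2.2.2.2.2
  have yB6 : ∀ i, 0 < i → i < kB → ¬ P6 v1 v5 kA kB yA yB (yB i) := fun i h0 hi =>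
    nP6_Y hU (W.YB i hi.le)
      (fun he => h5.dy kA le_rfl i hi.le he.symm)
      (fun he => h5.dy 0 (Nat.zero_le _) i hi.le he.symm)
      (fun he => absurd (h5.B.nyy i hi.le kB le_rfl he) hi.ne)
      (fun he => absurd (h5.B.nyy i hi.le 0 (Nat.zero_le _) he) h0.ne')
  have pA6 : ∀ i, i < kA → ¬ P6 v1 v5 kA kB yA yB (pA i) ∧ ¬ P6 v1 v5 kA kB yA yB (qA i) := by
    intro i hi
    obtain ⟨⟨h1, h2⟩, h3, h4⟩ := pA_ne hcub h5 hU hJ hLam hi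
    exact ⟨nP6_X hU (wX_p h5.A hU.X4 hi) h1 h2, nP6_X hU (wX_q h5.A hU.X4 hi) h3 h4⟩
  have pB6 : ∀ i, i < kB → ¬ P6 v1 v5 kA kB yA yB (pB i) ∧ ¬ P6 v1 v5 kA kB yA yB (qB i) := by
    intro i hi
    obtain ⟨⟨h1, h2⟩, h3, h4⟩ := pA_ne hcub (u5_rev h5) hUr hJ hLamr hi
    exact ⟨nP6_X hU (wX_p h5.B hU.X2 hi) h2 h1, nP6_X hU (wX_q h5.B hU.X2 hi) h4 h3⟩
  obtain ⟨g2, st2, g2f, g2u⟩ := wire_kk2 (La := LA) (c0 := cA) (n0 := nA0) (nk := nAk) hcub h5.A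
    hU.X4 WA st1
    (fun i hi => by
      rintro (h | h)
      · exact hLam _ (lamU_uA hi) h
      · exact uA6 i hi h)
    (fun i hi => by
      rintro (h | h)
      · exact hLam _ (lamU_vA hi) h
      · exact vA6 i hi h)
    (fun i h0 hi => by
      rintro (h | h)
      · exact hLam _ (lamU_yA hi.le) h
      · exact yA6 i h0 hi h)
    (fun hk => by
      obtain ⟨p1, p2⟩ := pA6 0 (Nat.pos_of_ne_zero hk)
      rw [g1f _ p1, g1f _ p2]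
      obtain ⟨q1, q2, q3, q4, q5, q6, q7⟩ := H.wA hk
      refine ⟨q1, q2, q3, q4, q5, q6.imp_right fun hh => ⟨hh.1, ?_⟩, q7⟩
      rintro (h | h)
      · exact hh.2 h
      · exact (pA6 (kA - 1) (Nat.sub_lt (Nat.pos_of_ne_zero hk) one_pos)).2 h)
    H.oAk
    (fun _ hh _ => by
      exfalso
      rcases hh with h | h
      · exact hLam _ lamU_4 h
      · exact nP6_X hU hU.X4 (Ne.symm n14) n45 h)
    (fun _ _ hc => ((hC v1).mp hc).2.1 rfl)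
    (fun _ _ => gA0) (fun _ _ => gAk)
  -- wire `B`
  have uBA : ∀ i, i < kB → ¬ WS kA uA vA yA (uB i) := fun i hi =>
    nWS_X (W.XB i hi).1 W.YA fun j hj =>
      ⟨(h5.dAB j hj i hi).1.symm, (h5.dAB j hj i hi).2.2.1.symm⟩
  have vBA : ∀ i, i < kB → ¬ WS kA uA vA yA (vB i) := fun i hi =>
    nWS_X (W.XB i hi).2 W.YA fun j hj =>
      ⟨(h5.dAB j hj i hi).2.1.symm, (h5.dAB j hj i hi).2.2.2.symm⟩
  have yBA : ∀ i, i ≤ kB → ¬ WS kA uA vA yA (yB i) := fun i hi =>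
    nWS_Y (W.YB i hi) W.XA fun j _ hj => (h5.dy j hj.le i hi).symm
  have pBA : ∀ i, i < kB → ¬ WS kA uA vA yA (pB i) ∧ ¬ WS kA uA vA yA (qB i) := by
    intro i hi
    have h1 := h5.B.unit i hi
    refine ⟨nWS_X (wX_p h5.B hU.X2 hi) W.YA fun j hj => ⟨fun he => ?_, fun he => ?_⟩,
      nWS_X (wX_q h5.B hU.X2 hi) W.YA fun j hj => ⟨fun he => ?_, fun he => ?_⟩⟩
    · have h2 := h1.cp
      have h3 := (h5.A.unit j hj).cu
      rw [he, h3] at h2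
      exact absurd h2 (by decide)
    · have h2 := h1.cp
      have h3 := (h5.A.unit j hj).cv
      rw [he, h3] at h2
      exact absurd h2 (by decide)
    · have h2 := h1.cq
      have h3 := (h5.A.unit j hj).cu
      rw [he, h3] at h2
      exact absurd h2 (by decide)
    · have h2 := h1.cq
      have h3 := (h5.A.unit j hj).cv
      rw [he, h3] at h2
      exact absurd h2 (by decide)
  have vA_ : ∀ {x : V}, x ∈ [v1, v2, v3, v4, v5] → X x → ¬ WS kA uA vA yA x := by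
    intro x hx hXx
    refine nWS_X hXx W.YA fun j hj => ⟨?_, ?_⟩
    · rintro rfl
      exact (h5.noA j hj).1 hx
    · rintro rfl
      exact (h5.noA j hj).2 hx
  have vB_ : ∀ {x : V}, x ∈ [v1, v2, v3, v4, v5] → X x → ¬ WS kB uB vB yB x := by
    intro x hx hXx
    refine nWS_X hXx W.YB fun j hj => ⟨?_, ?_⟩
    · rintro rfl
      exact (h5.noB j hj).1 hx
    · rintro rfl
      exact (h5.noB j hj).2 hx
  obtain ⟨g3, st3, g3f, g3u⟩ := wire_kk2 (La := LB) (c0 := cB) (n0 := nB0) (nk := nBk) hcub h5.B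
    hU.X2 WB st2
    (fun i hi => by
      rintro ((h | h) | h)
      · exact hLam _ (lamU_uB hi) h
      · exact uB6 i hi h
      · exact uBA i hi h)
    (fun i hi => by
      rintro ((h | h) | h)
      · exact hLam _ (lamU_vB hi) h
      · exact vB6 i hi h
      · exact vBA i hi h)
    (fun i h0 hi => by
      rintro ((h | h) | h)
      · exact hLam _ (lamU_yB hi.le) h
      · exact yB6 i h0 hi h
      · exact yBA i hi.le h)
    (fun hk => by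
      obtain ⟨p1, p2⟩ := pB6 0 (Nat.pos_of_ne_zero hk)
      obtain ⟨p3, p4⟩ := pBA 0 (Nat.pos_of_ne_zero hk)
      rw [g2f _ p3, g2f _ p4, g1f _ p1, g1f _ p2]
      obtain ⟨q1, q2, q3, q4, q5, q6, q7⟩ := H.wB hk
      have hk1 := Nat.sub_lt (Nat.pos_of_ne_zero hk) one_pos
      refine ⟨q1, q2, q3, q4, q5, q6.imp_right fun hh => ⟨hh.1, ?_⟩, q7⟩
      rintro ((h | h) | h)
      · exact hh.2 h
      · exact (pB6 (kB - 1) hk1).2 h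
      · exact (pBA (kB - 1) hk1).2 h)
    H.oBk
    (fun _ hh _ => by
      exfalso
      rcases hh with (h | h) | h
      · exact hLam _ lamU_2 h
      · exact nP6_X hU hU.X2 (Ne.symm n12) n25 h
      · exact vA_ (by simp) hU.X2 h)
    (fun _ _ hc => ((hC v5).mp hc).2.2 rfl)
    (fun _ _ => (g2f _ (yBA 0 (Nat.zero_le _))).trans gB0)
    (fun _ _ => (g2f _ (yBA kB le_rfl)).trans gBk)
  have yAA0 : ¬ WS kA uA vA yA (yA 0) := nWS_Y (W.YA 0 (Nat.zero_le _)) W.XA fun j h0 hj he =>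
    absurd (h5.A.nyy 0 (Nat.zero_le _) j hj.le he) h0.ne
  have yAB0 : ¬ WS kB uB vB yB (yA 0) := nWS_Y (W.YA 0 (Nat.zero_le _)) W.XB fun j h0 hj he =>
    h5.dy 0 (Nat.zero_le _) j hj.le he
  have yBB0 : ¬ WS kB uB vB yB (yB 0) := nWS_Y (W.YB 0 (Nat.zero_le _)) W.XB fun j h0 hj he =>
    absurd (h5.B.nyy 0 (Nat.zero_le _) j hj.le he) h0.ne
  have uAB : ∀ i, i < kA → ¬ WS kB uB vB yB (uA i) := fun i hi =>
    nWS_X (W.XA i hi).1 W.YB fun j hj => ⟨(h5.dAB i hi j hj).1, (h5.dAB i hi j hj).2.1⟩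
  refine ⟨g3, ⟨?_, ?_, ?_, ?_, fun hk => ?_, g3u⟩, fun x hx => ?_, st3⟩
  · rw [g3f _ (vB_ (by simp) hU.X1), g2f _ (vA_ (by simp) hU.X1), ga]
  · rw [g3f _ (vB_ (by simp) hU.X5), g2f _ (vA_ (by simp) hU.X5), ge]
  · rw [g3f _ yAB0, g2f _ yAA0, gA0]
  · rw [g3f _ yBB0, g2f _ (yBA 0 (Nat.zero_le _)), gB0]
  · rw [g3f _ (uAB 0 (Nat.pos_of_ne_zero hk)), g2u hk]
  · have h1 := fun hh => hx ((lamU_iff x).mpr hh)
    rw [g3f x (fun hh => h1 (Or.inl (Or.inr hh))),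
      g2f x (fun hh => h1 (Or.inl (Or.inl (Or.inr hh)))),
      g1f x (fun hh => h1 (Or.inl (Or.inl (Or.inl hh))))]

end

end Helper17.L9
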