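import Pool.Agent.helper17.L9.JOmode3

/-!
# The `O`-mode of the joint stage: the theorem
-/

set_option autoImplicit false
set_option linter.unusedSectionVars false

namespace Helper17.L9

open Finset Classical Helper33.L9
open Helper42.L9 hiding near gp
open Pool.Agent.helper58.L9
open Pool.Agent.helper40.L9 (ParOK JSt Bad Tol LamU JExt)
open Pool.Agent.helper40.L9.J (kk M3 nbm gp)

variable {V : Type*} [Fintype V] {G : SimpleGraph V} {X C L : V → Prop} {f : V → ℕ}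
  {Z S : Finset V} {v1 v2 v3 v4 v5 z1 z3 z5 l1 l5 : V} {kA kB : ℕ}
  {pA uA vA qA yA pB uB vB qB yB : ℕ → V}

theorem or_nest {a b c d e : Prop} : (((a ∨ b) ∨ c) ∨ d) ∨ e ↔ a ∨ ((b ∨ c) ∨ d) ∨ e := by
  tauto

section

variable {w1 w3 w3' w5 ba0 bak bb0 bbk : V}
  (hcub : ∀ v, (univ.filter fun b => G.Adj v b).card = 3)
  (h5 : U5 G X Z S v1 v2 v3 v4 v5 z1 z3 z5 l1 l5 kA kB pA uA vA qA yA pB uB vB qB yB)
  (hU : UNb G X v1 v2 v3 v4 v5 z1 z3 z5 l1 l5 w1 w3 w3' w5 (yA 0) (yA kA) (yB 0) (yB kB)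
        (if 0 = kA then v1 else uA 0) (if kA = 0 then v4 else vA (kA - 1))
        (if 0 = kB then v5 else uB 0) (if kB = 0 then v2 else vB (kB - 1)) ba0 bak bb0 bbk)
  (hJ : JSt G X L f)
  (hLam : ∀ x, LamU v1 v2 v3 v4 v5 kA kB uA vA yA uB vB yB x → ¬ L x)

include hcub h5 hU hJ hLam in
/-- the middle `v2, v3, v4` is labelled -/
theorem o_mid (hC : ∀ x, C x ↔ cutX X L f x ∧ x ≠ v1 ∧ x ≠ v5)
    (hL : L z1 ∧ L z3 ∧ L z5 ∧ L l1 ∧ L l5)
    (hNMA : ∀ i, 0 < i → i < kA → ∀ b, ownR G X (yA i) b → NMAt G X b)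
    (hNMB : ∀ i, 0 < i → i < kB → ∀ b, ownR G X (yB i) b → NMAt G X b)
    {a e nA0 nAk nB0 nBk cA cB n2 n4 LA LB : ℕ}
    (H : OH G L f v1 v5 kA kB pA qA yA pB qB yB a e nA0 nAk nB0 nBk cA cB n2 n4 LA LB) :
    ∃ g : V → ℕ, (∀ x, ¬ LamU v1 v2 v3 v4 v5 kA kB uA vA yA uB vB yB x → g x = f x) ∧
      St G.Adj (qadj G C) (Helper33.L9.near G) C
        (fun x => L x ∨ LamU v1 v2 v3 v4 v5 kA kB uA vA yA uB vB yB x) (fun _ => False) g := by
  have W := uw_of h5 hU.X4 hU.X2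
  have hnd := hU.nd
  simp only [List.nodup_cons, List.mem_cons, List.not_mem_nil, or_false, not_or,
    List.nodup_nil, and_true, not_false_eq_true] at hnd
  obtain ⟨⟨n12, n13, n14, n15⟩, ⟨n23, n24, n25⟩, ⟨n34, n35⟩, n45⟩ := hnd
  obtain ⟨g, ⟨ga, ge, gA0, gB0, gu, gu'⟩, gf, st⟩ := o_wires hcub h5 hU hJ hLam hC
    ⟨hL.1, hL.2.2.1, hL.2.2.2⟩ hNMA hNMB H
  have zLam : ∀ {x : V}, L x → ¬ LamU v1 v2 v3 v4 v5 kA kB uA vA yA uB vB yB x :=
    fun hx hh => hLam _ hh hx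
  have gz : g z3 = f z3 := gf z3 (zLam hL.2.1)
  -- the label of `v3`
  have z3o : f z3 % 2 = 1 := by
    have h1 := adj_par hJ (hLam v3 lamU_3) hU.n3.hc hL.2.1
    have h2 : ¬ Even (f z3) := fun hh => hU.Z3 (h1.mpr hh)
    rw [Nat.even_iff] at h2
    omega
  obtain ⟨n3, t31, t32, t33, t34, t35⟩ := n3_ex (n2 := n2) (n4 := n4) z3o (hJ.le z3 hL.2.1)
  have vA_ : ∀ {x : V}, x ∈ [v1, v2, v3, v4, v5] → X x → ¬ WS kA uA vA yA x := by
    intro x hx hXx
    refine nWS_X hXx W.YA fun j hj => ⟨?_, ?_⟩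
    · rintro rfl
      exact (h5.noA j hj).1 hx
    · rintro rfl
      exact (h5.noA j hj).2 hx
  have vB_ : ∀ {x : V}, x ∈ [v1, v2, v3, v4, v5] → X x → ¬ WS kB uB vB yB x := by
    intro x hx hXx
    refine nWS_X hXx W.YB fun j hj => ⟨?_, ?_⟩
    · rintro rfl
      exact (h5.noB j hj).1 hx
    · rintro rfl
      exact (h5.noB j hj).2 hx
  let L4 : V → Prop := fun x =>
    ((L x ∨ P6 v1 v5 kA kB yA yB x) ∨ WS kA uA vA yA x) ∨ WS kB uB vB yB x
  have nL : ∀ {x : V}, x ∈ [v1, v2, v3, v4, v5] → X x → x ≠ v1 → x ≠ v5 → ¬ L x →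
      ¬ L4 x := by
    intro x hx hXx h1 h2 h3
    rintro (((h | h) | h) | h)
    · exact h3 h
    · exact nP6_X hU hXx h1 h2 h
    · exact vA_ hx hXx h
    · exact vB_ hx hXx h
  have L2 : ¬ L4 v2 := nL (by simp) hU.X2 (Ne.symm n12) n25 (hLam _ lamU_2)
  have L3 : ¬ L4 v3 := nL (by simp) hU.X3 (Ne.symm n13) n35 (hLam _ lamU_3)
  have L4' : ¬ L4 v4 := nL (by simp) hU.X4 (Ne.symm n14) n45 (hLam _ lamU_4)
  have C2 : C v2 := (hC v2).mpr ⟨(cutX_nL (hLam _ lamU_2)).mpr hU.X2, Ne.symm n12, n25⟩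
  have C3 : C v3 := (hC v3).mpr ⟨(cutX_nL (hLam _ lamU_3)).mpr hU.X3, Ne.symm n13, n35⟩
  have C4 : C v4 := (hC v4).mpr ⟨(cutX_nL (hLam _ lamU_4)).mpr hU.X4, Ne.symm n14, n45⟩
  have nC1 : ¬ C v1 := fun hc => ((hC v1).mp hc).2.1 rfl
  have nC5 : ¬ C v5 := fun hc => ((hC v5).mp hc).2.2 rfl
  -- near vertices on the side `C` are on the side `X`
  have nearX : ∀ {s t : V}, ¬ L s → cc G X s = 3 → Helper33.L9.near G s t → C t → X t :=
    fun hs cs hn hc => (near_inner hJ hs cs hn).mp ((hC _).mp hc).1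
  have k2 := h5.c2
  have k3 := h5.c3
  have k4 := h5.c4
  have hl : ∀ b ∈ [(v2, n2), (v3, n3), (v4, n4)],
      (¬ L4 b.1 ∧ C b.1 ∧ b.2 % 2 = 0 ∧ b.2 ≤ 9) ∧
      (∀ y, Helper33.L9.near G b.1 y → C y → L4 y → g y ≠ b.2) ∧
      (∀ y, G.Adj b.1 y → ¬ C y → L4 y → gp b.2 (g y)) := by
    intro b hb
    simp only [List.mem_cons, List.not_mem_nil, or_false] at hb
    rcases hb with rfl | rfl | rfl
    · refine ⟨⟨L2, C2, H.t2.1, H.t2.2.1⟩, fun t hn hc ht => ?_, fun t ha hc ht => ?_⟩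
      · have hXt := nearX (hLam _ lamU_2) k2 hn hc
        rcases hU.near2 hn with h | h | h | h | h | h | h | h | h
        · exact absurd (h ▸ hc) nC1
        · exact absurd (h ▸ ht) L3
        · exact absurd (h ▸ hXt) hU.B0
        · exact absurd (h ▸ hXt) hU.Z1
        · exact absurd (h ▸ hXt) hU.Ak
        · exact absurd (h ▸ ht) L4'
        · exact absurd (h ▸ hXt) hU.Z3
        · by_cases hk : kB = 0
          · rw [if_pos hk.symm] at h
            exact absurd (h ▸ hc) nC5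
          · rw [if_neg (Ne.symm hk)] at h
            rw [h, gu' hk]
            exact (H.t2.2.2.2.2 hk).symm
        · exact absurd (h ▸ hXt) hU.Cb0
      · rcases hU.n2.all t ha with h | h | h
        · rw [h, ga]
          exact H.t2.2.2.1
        · exact absurd (h ▸ ht) L3
        · rw [h, gB0]
          exact H.t2.2.2.2.1
    · refine ⟨⟨L3, C3, t31, t32⟩, fun t hn hc ht => ?_, fun t ha hc ht => ?_⟩
      · have hXt := nearX (hLam _ lamU_3) k3 hn hc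
        rcases hU.near3 hn with h | h | h | h | h | h | h | h | h
        · exact absurd (h ▸ ht) L2
        · exact absurd (h ▸ ht) L4'
        · exact absurd (h ▸ hXt) hU.Z3
        · exact absurd (h ▸ hXt) hU.B0
        · exact absurd (h ▸ hc) nC1
        · exact absurd (h ▸ hc) nC5
        · exact absurd (h ▸ hXt) hU.A0
        · exact absurd (h ▸ hXt) hU.W3
        · exact absurd (h ▸ hXt) hU.W3'
      · rcases hU.n3.all t ha with h | h | h
        · exact absurd (h ▸ ht) L2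
        · exact absurd (h ▸ ht) L4'
        · rw [h, gz]
          exact t35
    · refine ⟨⟨L4', C4, H.t4.1, H.t4.2.1⟩, fun t hn hc ht => ?_, fun t ha hc ht => ?_⟩
      · have hXt := nearX (hLam _ lamU_4) k4 hn hc
        rcases hU.near4 hn with h | h | h | h | h | h | h | h | h
        · exact absurd (h ▸ ht) L3
        · exact absurd (h ▸ hc) nC5
        · exact absurd (h ▸ hXt) hU.A0
        · exact absurd (h ▸ hXt) hU.Z3
        · exact absurd (h ▸ ht) L2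
        · exact absurd (h ▸ hXt) hU.Z5
        · exact absurd (h ▸ hXt) hU.Bk
        · by_cases hk : kA = 0
          · rw [if_pos hk.symm] at h
            exact absurd (h ▸ hc) nC1
          · rw [if_neg (Ne.symm hk)] at h
            rw [h, gu hk]
            exact (H.t4.2.2.2.2 hk).symm
        · exact absurd (h ▸ hXt) hU.Ca0
      · rcases hU.n4.all t ha with h | h | h
        · exact absurd (h ▸ ht) L3
        · rw [h, ge]
          exact H.t4.2.2.1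
        · rw [h, gA0]
          exact H.t4.2.2.2.1
  have hpair : List.Pairwise (PairOK G C) [(v2, n2), (v3, n3), (v4, n4)] := by
    simp only [List.pairwise_cons, List.mem_cons, List.not_mem_nil, or_false, forall_eq_or_imp,
      forall_eq, false_imp_iff, implies_true, and_true, List.Pairwise.nil]
    exact ⟨⟨pairOK_T C2 C3 n23 t33, pairOK_T C2 C4 n24 H.t24⟩, pairOK_T C3 C4 n34 t34⟩
  obtain ⟨g', g1, g2, st'⟩ := st_list st [(v2, n2), (v3, n3), (v4, n4)]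
    (fun b hb => (hl b hb).1.1) (fun b hb => (hl b hb).1.2.2.2)
    (fun b hb => iff_of_true (hl b hb).1.2.1 (by
      rw [Nat.even_iff]
      exact (hl b hb).1.2.2.1))
    (fun b hb t hn hc ht => (hl b hb).2.1 t hn (hc.mp (hl b hb).1.2.1) ht)
    (fun b hb t ha hc ht => gp_far ((hl b hb).2.2 t ha
      (fun hct => hc (iff_of_true (hl b hb).1.2.1 hct)) ht))
    hpair
  have hP : ∀ x, (∃ b ∈ [(v2, n2), (v3, n3), (v4, n4)], x = b.1) ↔
      (x = v2 ∨ x = v3 ∨ x = v4) := by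
    intro x
    simp only [List.mem_cons, List.not_mem_nil, or_false, exists_eq_or_imp, exists_eq_left]
  refine ⟨g', fun x hx => ?_, st'.congr (fun x => ?_) (fun x => Iff.rfl)⟩
  · rw [g2 x fun b hb he => ?_, gf x hx]
    exact hx ((lamU_iff x).mpr (Or.inr ((hP x).mp ⟨b, hb, he⟩)))
  · rw [hP x, lamU_iff x]
    exact or_nest

end

/-- **The `O`-mode.** -/
theorem omode (hcub : ∀ v, (univ.filter fun b => G.Adj v b).card = 3)
    (h5 : U5 G X Z S v1 v2 v3 v4 v5 z1 z3 z5 l1 l5 kA kB pA uA vA qA yA pB uB vB qB yB)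
    (X1 : X v1)
    (hNMA : ∀ i, 0 < i → i < kA → ∀ b, ownR G X (yA i) b → NMAt G X b)
    (hNMB : ∀ i, 0 < i → i < kB → ∀ b, ownR G X (yB i) b → NMAt G X b)
    (hJ : JSt G X L f)
    (hLam : ∀ x, LamU v1 v2 v3 v4 v5 kA kB uA vA yA uB vB yB x → ¬ L x)
    (hL : L z1 ∧ L z3 ∧ L z5 ∧ L l1 ∧ L l5)
    (hw1 : ∀ w, ownR G X z1 w → ¬ L w → ¬ LamU v1 v2 v3 v4 v5 kA kB uA vA yA uB vB yB w →
      cc G X w = 2)
    (hw5 : ∀ w, ownR G X z5 w → ¬ L w → ¬ LamU v1 v2 v3 v4 v5 kA kB uA vA yA uB vB yB w →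
      cc G X w = 2)
    (hbA : ∀ b, ownR G X (yA kA) b → ¬ L b →
      ¬ LamU v1 v2 v3 v4 v5 kA kB uA vA yA uB vB yB b → cc G X b = 2)
    (hbB : ∀ b, ownR G X (yB kB) b → ¬ L b →
      ¬ LamU v1 v2 v3 v4 v5 kA kB uA vA yA uB vB yB b → cc G X b = 2)
    {a e nA0 nAk nB0 nBk cA cB n2 n4 LA LB : ℕ}
    (H : OH G L f v1 v5 kA kB pA qA yA pB qB yB a e nA0 nAk nB0 nBk cA cB n2 n4 LA LB) :
    ∃ f' : V → ℕ, JSt G X (fun x => L x ∨ LamU v1 v2 v3 v4 v5 kA kB uA vA yA uB vB yB x) f' := by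
  obtain ⟨w1, w3, w3', w5, ba0, bak, bb0, bbk, hU, _, _⟩ := U5_nb hcub h5 X1
  obtain ⟨C, hC⟩ : ∃ C : V → Prop, ∀ x, C x ↔ cutX X L f x ∧ x ≠ v1 ∧ x ≠ v5 :=
    ⟨_, fun _ => Iff.rfl⟩
  obtain ⟨g, gf, st⟩ := o_mid hcub h5 hU hJ hLam hC hL hNMA hNMB H
  have hg : ∀ x, L x → g x = f x := fun x hx => gf x fun hh => hLam x hh hx
  have hLamr : ∀ x, LamU v5 v4 v3 v2 v1 kB kA uB vB yB uA vA yA x → ¬ L x :=
    fun x hx => hLam x ((lamU_rev x).mpr hx)
  have hok : ∀ x, LamU v1 v2 v3 v4 v5 kA kB uA vA yA uB vB yB x → x ≠ v1 → x ≠ v5 →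
      ¬ Bad X g x := by
    intro x hx h1 h5' hb
    apply hb
    have h2 := st.par.par x ⟨Or.inr hx, id⟩
    rw [← h2, hC x]
    exact ⟨fun hh => ⟨(cutX_nL (hLam x hx)).mpr hh, h1, h5'⟩,
      fun hh => (cutX_nL (hLam x hx)).mp hh.1⟩
  have lb1 : ¬ Bad X g l1 := fun hb =>
    l1_par hU hJ hLam hL.2.2.2.1 ((bad_congr (hg l1 hL.2.2.2.1)).mp hb)
  have lb5 : ¬ Bad X g l5 := fun hb =>
    l1_par (kA := kB) (kB := kA) (uA := uB) (vA := vB) (yA := yB)
      (uB := uA) (vB := vA) (yB := yA) hU.rev hJ hLamr hL.2.2.2.2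
      ((bad_congr (hg l5 hL.2.2.2.2)).mp hb)
  refine ⟨g, val_of_st hJ (fun x hx => Or.inl hx) hg st fun x hx hLx hXC => ?_⟩
  have hx' : LamU v1 v2 v3 v4 v5 kA kB uA vA yA uB vB yB x := hx.resolve_left hLx
  by_cases e1 : x = v1
  · subst e1
    exact o_tol hcub h5 hU (fun x hx => Or.inl hx) (fun x hx => Or.inr hx)
      ⟨hL.1, hL.2.2.2.1⟩ lb1 hok hw1 hbA
  · by_cases e5 : x = v5
    · subst e5
      exact o_tol hcub (u5_rev h5) hU.rev (fun x hx => Or.inl hx)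
        (fun x hx => Or.inr ((lamU_rev x).mpr hx)) ⟨hL.2.2.1, hL.2.2.2.2⟩ lb5
        (fun x hx h1 h2 => hok x ((lamU_rev x).mpr hx) h2 h1)
        (fun w a b c => hw5 w a b fun hh => c ((lamU_rev w).mp hh))
        (fun w a b c => hbB w a b fun hh => c ((lamU_rev w).mp hh))
    · exfalso
      apply hXC
      rw [hC x]
      exact ⟨fun hh => ⟨(cutX_nL hLx).mpr hh, e1, e5⟩, fun hh => (cutX_nL hLx).mp hh.1⟩

end Helper17.L9
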