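import Pool.Agent.helper17.L9.JOmode4

/-!
# The `O`-mode of the joint stage: data by indices

Odd labels `2 i + 1`, even labels `2 j`.
-/

set_option autoImplicit false
set_option linter.unusedSectionVars false

namespace Helper17.L9

open Finset Classical Helper33.L9
open Helper42.L9 hiding near gp
open Pool.Agent.helper58.L9
open Pool.Agent.helper40.L9 (ParOK JSt Bad Tol LamU JExt)
open Pool.Agent.helper40.L9.J (kk M3 nbm gp)

variable {V : Type*} [Fintype V] {G : SimpleGraph V} {X C L : V → Prop} {f : V → ℕ}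
  {v1 v5 : V} {kA kB : ℕ} {pA qA yA pB qB yB : ℕ → V}

def chkS : Bool :=
  M3.all fun L => (List.range 5).all fun c => (List.range 5).all fun y =>
    !((kk L y).testBit c) || L.testBit c

theorem chkS_true : chkS = true := by decide +kernel

theorem kk_sub {L y c : ℕ} (hL : L ∈ M3) (hc : c < 5) (hy : y < 5)
    (h : (kk L y).testBit c = true) : L.testBit c = true := by
  have h0 := chkS_true
  unfold chkS at h0
  rw [List.all_eq_true] at h0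
  have h0 := h0 L hL
  rw [List.all_eq_true] at h0
  have h0 := h0 c (List.mem_range.mpr hc)
  rw [List.all_eq_true] at h0
  have h0 := h0 y (List.mem_range.mpr hy)
  rw [h, Bool.not_true, Bool.false_or] at h0
  exact h0

theorem gp_idx {n i : ℕ} (h1 : n ≠ i) (h2 : n ≠ i + 1) : gp (2 * n) (2 * i + 1) := by
  unfold gp
  omega

theorem odd_idx {i : ℕ} (h : i < 5) : (2 * i + 1) % 2 = 1 ∧ 2 * i + 1 ≤ 9 := by omega

theorem ne_idx {i j : ℕ} (h : i ≠ j) : 2 * i + 1 ≠ 2 * j + 1 := by omega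

/-- the index `i` is free at `s`: no labelled vertex near `s` has the label `2 i + 1` -/
def Fr1 (G : SimpleGraph V) (L : V → Prop) (f : V → ℕ) (s : V) (i : ℕ) : Prop :=
  i < 5 ∧ ∀ t, L t → Helper33.L9.near G s t → f t ≠ 2 * i + 1

/-- **The data of the `O`-mode by indices.** -/
theorem oh_idx {a e y x y' x' c c' n2 n4 LA LB : ℕ}
    (O1 : Fr1 G L f v1 a) (O5 : Fr1 G L f v5 e) (A : Fr1 G L f (yA kA) y)
    (B : Fr1 G L f (yA 0) x) (A' : Fr1 G L f (yB kB) y') (B' : Fr1 G L f (yB 0) x')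
    (eA : kA = 0 → x = y) (eB : kB = 0 → x' = y')
    (h : a ≠ y ∧ a ≠ x' ∧ e ≠ y' ∧ e ≠ x)
    (r1 : Helper33.L9.near G (yA kA) (yA 0) → y ≠ x)
    (r2 : Helper33.L9.near G (yB kB) (yB 0) → y' ≠ x')
    (r3 : Helper33.L9.near G (yA kA) (yB kB) → y ≠ y')
    (r4 : Helper33.L9.near G (yA kA) (yB 0) → y ≠ x')
    (r5 : Helper33.L9.near G (yA 0) (yB kB) → x ≠ y')
    (r6 : Helper33.L9.near G (yA 0) (yB 0) → x ≠ x')
    (s1 : Helper33.L9.near G v1 (yA 0) → a ≠ x)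
    (s2 : Helper33.L9.near G v1 (yB kB) → a ≠ y')
    (s3 : Helper33.L9.near G v5 (yA kA) → e ≠ y)
    (s4 : Helper33.L9.near G v5 (yB 0) → e ≠ x')
    (wA : kA ≠ 0 → LA ∈ M3 ∧ (∀ j, j < 5 → LA.testBit j = true →
        2 * j ≠ f (pA 0) ∧ 2 * j ≠ f (qA 0)) ∧ c < 5 ∧ ((kk LA y).testBit c = true ∨
          (LA.testBit c = true ∧ 2 ≤ kA ∧ ¬ L (qA (kA - 1)))) ∧ c ≠ x ∧ c ≠ x + 1)
    (wB : kB ≠ 0 → LB ∈ M3 ∧ (∀ j, j < 5 → LB.testBit j = true →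
        2 * j ≠ f (pB 0) ∧ 2 * j ≠ f (qB 0)) ∧ c' < 5 ∧ ((kk LB y').testBit c' = true ∨
          (LB.testBit c' = true ∧ 2 ≤ kB ∧ ¬ L (qB (kB - 1)))) ∧ c' ≠ x' ∧ c' ≠ x' + 1)
    (t4 : n4 < 5 ∧ n4 ≠ x ∧ n4 ≠ x + 1 ∧ n4 ≠ e ∧ n4 ≠ e + 1 ∧ (kA ≠ 0 → n4 ≠ c))
    (t2 : n2 < 5 ∧ n2 ≠ x' ∧ n2 ≠ x' + 1 ∧ n2 ≠ a ∧ n2 ≠ a + 1 ∧ (kB ≠ 0 → n2 ≠ c'))
    (t24 : n2 ≠ n4) :
    OH G L f v1 v5 kA kB pA qA yA pB qB yB (2 * a + 1) (2 * e + 1) (2 * x + 1) (2 * y + 1)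
      (2 * x' + 1) (2 * y' + 1) (2 * c) (2 * c') (2 * n2) (2 * n4) LA LB where
  oa := odd_idx O1.1
  oe := odd_idx O5.1
  oA0 := odd_idx B.1
  oAk := odd_idx A.1
  oB0 := odd_idx B'.1
  oBk := odd_idx A'.1
  eA := fun hk => by rw [eA hk]
  eB := fun hk => by rw [eB hk]
  s1 := O1.2
  s5 := O5.2
  sAk := A.2
  sA0 := B.2
  sBk := A'.2
  sB0 := B'.2
  a1 := ne_idx h.1
  a2 := ne_idx h.2.1
  a3 := fun hn => ne_idx (s1 hn)
  a4 := fun hn => ne_idx (s2 hn)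
  e1 := ne_idx h.2.2.1
  e2 := ne_idx h.2.2.2
  e3 := fun hn => ne_idx (s4 hn)
  e4 := fun hn => ne_idx (s3 hn)
  dAA := fun hn => ne_idx (r1 hn)
  dBB := fun hn => ne_idx (r2 hn)
  dkk := fun hn => ne_idx (r3 hn)
  dk0 := fun hn => ne_idx (r4 hn)
  d0k := fun hn => ne_idx (r5 hn)
  d00 := fun hn => ne_idx (r6 hn)
  wA := fun hk => by
    obtain ⟨h1, h2, h3, h4, h5, h6⟩ := wA hk
    have e1 : 2 * c / 2 = c := Nat.mul_div_cancel_left c two_pos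
    have e2 : (2 * y + 1) / 2 = y := by omega
    rw [e1, e2]
    exact ⟨h1, h2, Nat.mul_mod_right 2 c, by omega, h4.elim (kk_sub h1 h3 A.1) fun hh => hh.1,
      h4.imp_right fun hh => hh.2, gp_idx h5 h6⟩
  wB := fun hk => by
    obtain ⟨h1, h2, h3, h4, h5, h6⟩ := wB hk
    have e1 : 2 * c' / 2 = c' := Nat.mul_div_cancel_left c' two_pos
    have e2 : (2 * y' + 1) / 2 = y' := by omega
    rw [e1, e2]
    exact ⟨h1, h2, Nat.mul_mod_right 2 c', by omega, h4.elim (kk_sub h1 h3 A'.1) fun hh => hh.1,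
      h4.imp_right fun hh => hh.2, gp_idx h5 h6⟩
  t2 := ⟨Nat.mul_mod_right 2 n2, by omega, gp_idx t2.2.2.2.1 t2.2.2.2.2.1,
    gp_idx t2.2.1 t2.2.2.1, fun hk => by
      have := t2.2.2.2.2.2 hk
      omega⟩
  t4 := ⟨Nat.mul_mod_right 2 n4, by omega, gp_idx t4.2.2.2.1 t4.2.2.2.2.1,
    gp_idx t4.2.1 t4.2.2.1, fun hk => by
      have := t4.2.2.2.2.2 hk
      omega⟩
  t24 := by omega

end Helper17.L9
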