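import Pool.Agent.helper17.L9.U5Nb
import Pool.Agent.helper40.L9.JFull

/-!
# Several new vertices in parity; the wire relation in the form of index masks

`jst_set`: a set `P` of new vertices in parity.
`kk_wire`: with `kk` (helper40) the wire relation of `wire_fill_jst` is satisfied.
-/

set_option autoImplicit false
set_option linter.unusedSectionVars false

namespace Helper17.L9

open Finset Classical Helper33.L9
open Helper42.L9 hiding near
open Pool.Agent.helper58.L9
open Pool.Agent.helper40.L9 (ParOK JSt Bad Tol LamU JExt)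
open Pool.Agent.helper40.L9.J (kk M3 nbm gp)

variable {V : Type*} [Fintype V] {G : SimpleGraph V} {X L L' : V → Prop} {f g : V → ℕ}

theorem jst_congr (h : JSt G X L f) (hL : ∀ x, L x ↔ L' x) : JSt G X L' f := by
  have e : L = L' := funext fun x => propext (hL x)
  rw [← e]
  exact h

/-- a labelled neighbour of an unlabelled vertex is in parity -/
theorem adj_par (h : JSt G X L f) {u x : V} (hu : ¬ L u) (ha : G.Adj u x) (hx : L x) :
    X x ↔ Even (f x) := by
  by_contra hb
  exact hu (h.adjL x u hx hb ha.symm)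

/-- a labelled vertex near an unlabelled vertex with two own neighbours is in parity -/
theorem near_par (h : JSt G X L f) {u x : V} (hu : ¬ L u) (cu : cc G X u = 3)
    (hn : Helper33.L9.near G u x) (hx : L x) : X x ↔ Even (f x) := by
  by_contra hb
  have := (h.tol x u hx hb hu (Helper33.L9.near_symm hn)).1
  omega

/-- **Several new vertices in parity.** -/
theorem jst_set (h : JSt G X L f) (P : V → Prop) (hP : ∀ x, P x → ¬ L x)
    (hg : ∀ x, ¬ P x → g x = f x) (hle : ∀ x, P x → g x ≤ 9)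
    (hpar : ∀ x, P x → (X x ↔ Even (g x)))
    (hne : ∀ x y, P x → Helper33.L9.near G x y → (L y ∨ P y) → g x ≠ g y)
    (hgap : ∀ x y, P x → G.Adj x y → ¬ (X y ↔ X x) → (L y ∨ P y) →
      g x + 1 ≠ g y ∧ g y + 1 ≠ g x) :
    JSt G X (fun x => L x ∨ P x) g := by
  have hgL : ∀ x, L x → g x = f x := fun x hx => hg x fun hp => hP x hp hx
  have key : ∀ x y, P x → G.Adj x y → (L y ∨ P y) → g x + 2 ≤ g y ∨ g y + 2 ≤ g x := by
    intro x y hx hxy hy
    have h1 := hne x y hx ⟨hxy.ne, Or.inl hxy⟩ hy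
    have h2 : X y ↔ Even (g y) := by
      rcases hy with hy | hy
      · rw [hgL y hy]
        exact adj_par h (hP x hx) hxy hy
      · exact hpar y hy
    have h3 := hpar x hx
    by_cases hs : X y ↔ X x
    · have h4 : Even (g x) ↔ Even (g y) := h3.symm.trans (hs.symm.trans h2)
      rw [Nat.even_iff, Nat.even_iff] at h4
      omega
    · have h4 := hgap x y hx hxy hs hy
      omega
  refine ⟨?_, ?_, ?_, ?_, ?_⟩
  · rintro v (hv | hv)
    · rw [hgL v hv]
      exact h.le v hv
    · exact hle v hv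
  · rintro a b ha hb hab
    rcases ha with ha | ha
    · rcases hb with hb | hb
      · rw [hgL a ha, hgL b hb]
        exact h.adj a b ha hb hab
      · exact (key b a hb hab.symm (Or.inl ha)).symm
    · exact key a b ha hab hb
  · rintro a b ha hb hab
    rcases ha with ha | ha
    · rcases hb with hb | hb
      · rw [hgL a ha, hgL b hb]
        exact h.ne a b ha hb hab
      · exact (hne b a hb (Helper33.L9.near_symm hab) (Or.inl ha)).symm
    · exact hne a b ha hab hb
  · rintro e v he hb hev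
    rcases he with he | he
    · exact Or.inl (h.adjL e v he ((bad_congr (hgL e he)).mp hb) hev)
    · exact absurd (hpar e he) hb
  · rintro e v he hb hv hn
    rcases he with he | he
    · exact tol_mono (fun x hx => Or.inl hx) hgL
        (h.tol e v he ((bad_congr (hgL e he)).mp hb) (fun hh => hv (Or.inl hh)) hn)
    · exact absurd (hpar e he) hb

/-! ### the wire relation -/

/-- the wire relation, finite check -/
def chkW : Bool :=
  M3.all fun L => (List.range 5).all fun c => (List.range 5).all fun y =>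
    !(L.testBit c && (kk L y).testBit c) ||
    evp.any fun ab => L.testBit (ab.1 / 2) && L.testBit (ab.2 / 2) && dif ab.1 (2 * c) &&
      dif ab.2 (2 * c) &&
      (evp.all fun pq => evs.any fun T => dif T pq.1 && dif T pq.2 && far T (2 * y + 1) &&
        (Nat.beq T ab.1 || Nat.beq T ab.2 || Nat.beq ab.1 pq.1 || Nat.beq ab.1 pq.2 ||
          Nat.beq ab.2 pq.1 || Nat.beq ab.2 pq.2)) &&
      (far ab.1 (2 * y + 1) || far ab.2 (2 * y + 1))

theorem chkW_true : chkW = true := by decide +kernel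

/-- **The wire relation from `kk`.** -/
theorem kk_wire {L c y p0 q0 pk qk : ℕ} (hL : L ∈ M3) (hc5 : c < 5) (hy5 : y < 5)
    (hc : L.testBit c = true) (hk : (kk L y).testBit c = true)
    (hp : ∀ j, j < 5 → L.testBit j = true → 2 * j ≠ p0 ∧ 2 * j ≠ q0) :
    ∃ a b T, (a, b) ∈ evp ∧ (a ≠ 2 * c ∧ a ≠ p0 ∧ a ≠ q0) ∧ (b ≠ 2 * c ∧ b ≠ p0 ∧ b ≠ q0) ∧
      CndS a b pk qk T ∧ (T + 1 ≠ 2 * y + 1 ∧ 2 * y + 1 + 1 ≠ T) ∧
      (p0 = pk → q0 = qk → T ≠ 2 * c) := by
  have h := chkW_true
  unfold chkW at h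
  rw [List.all_eq_true] at h
  have h := h L hL
  rw [List.all_eq_true] at h
  have h := h c (List.mem_range.mpr hc5)
  rw [List.all_eq_true] at h
  have h := h y (List.mem_range.mpr hy5)
  rw [hc, hk, Bool.and_true, Bool.not_true, Bool.false_or, List.any_eq_true] at h
  obtain ⟨⟨a, b⟩, hab, h⟩ := h
  rw [Bool.and_eq_true, Bool.and_eq_true, Bool.and_eq_true, Bool.and_eq_true,
    Bool.and_eq_true] at h
  obtain ⟨⟨⟨⟨⟨h1, h2⟩, h3⟩, h4⟩, h5⟩, h6⟩ := h
  rw [dif_iff] at h3 h4
  obtain ⟨ha, hb, hne⟩ := evp_evs hab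
  have ha' := mem_evs.mp ha
  have hb' := mem_evs.mp hb
  have ea : 2 * (a / 2) = a := by omega
  have eb : 2 * (b / 2) = b := by omega
  have pa := hp (a / 2) (by omega) h1
  have pb := hp (b / 2) (by omega) h2
  rw [ea] at pa
  rw [eb] at pb
  have fa : (a ≠ 2 * c ∧ a ≠ p0 ∧ a ≠ q0) := ⟨h3, pa.1, pa.2⟩
  have fb : (b ≠ 2 * c ∧ b ≠ p0 ∧ b ≠ q0) := ⟨h4, pb.1, pb.2⟩
  by_cases hin : a ≠ pk ∧ a ≠ qk ∧ b ≠ pk ∧ b ≠ qk
  · -- `a` or `b`
    rw [Bool.or_eq_true] at h6
    rcases h6 with h6 | h6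
    · rw [far_iff] at h6
      exact ⟨a, b, a, hab, fa, fb, Cnd.weak hab ⟨ha, hin.1, hin.2.1, Or.inl rfl⟩, h6,
        fun _ _ => h3⟩
    · rw [far_iff] at h6
      exact ⟨a, b, b, hab, fa, fb, Cnd.weak hab ⟨hb, hin.2.2.1, hin.2.2.2,
        Or.inr (Or.inl rfl)⟩, h6, fun _ _ => h4⟩
  · obtain ⟨pq, hpq, hn⟩ := nrmE' pk qk
    rw [List.all_eq_true] at h5
    have h5 := h5 pq hpq
    rw [List.any_eq_true] at h5
    obtain ⟨T, hT, h5⟩ := h5
    simp only [Bool.and_eq_true, Bool.or_eq_true, dif_iff, far_iff, Nat.beq_eq] at h5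
    obtain ⟨⟨⟨t1, t2⟩, t3⟩, t4⟩ := h5
    refine ⟨a, b, T, hab, fa, fb, ⟨pq, hpq, hn, hT, t1, t2, ?_⟩, t3, fun e1 e2 => ?_⟩
    · tauto
    · exfalso
      apply hin
      rw [← e1, ← e2]
      exact ⟨pa.1, pa.2, pb.1, pb.2⟩

end Helper17.L9
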