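import Pool.Agent.helper33.L9.Stack

/-!
# Wires and loops in graph terms

`WireG G X k u v p q y`: units `i < k` with middle pair `u i, v i`, ends `p i`, `q i`
(own path `p i, u i, v i, q i`), links `y i` between `v i` and `u (i+1)`.
`LoopG`: a wire whose two ends are joined to the apex `t` through `z0` and `z1`.
-/

set_option autoImplicit false

namespace Helper17.L9

open Helper42.L9 Helper33.L9

variable {V : Type*} [Fintype V]

/-- a wire with `k` units in graph terms -/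
structure WireG (G : SimpleGraph V) (X : V → Prop) (k : ℕ) (u v p q y : ℕ → V) : Prop where
  cu : ∀ i, i < k → cc G X (u i) = 3
  cv : ∀ i, i < k → cc G X (v i) = 3
  cp : ∀ i, i < k → cc G X (p i) = 2
  cq : ∀ i, i < k → cc G X (q i) = 2
  up : ∀ i, i < k → ownR G X (u i) (p i)
  uv : ∀ i, i < k → ownR G X (u i) (v i)
  vq : ∀ i, i < k → ownR G X (v i) (q i)
  vy : ∀ i, i + 1 < k → G.Adj (v i) (y i) ∧ ¬ (X (y i) ↔ X (v i))
  yu : ∀ i, i + 1 < k → G.Adj (y i) (u (i + 1)) ∧ ¬ (X (y i) ↔ X (u (i + 1)))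
  uu : ∀ i j, i < k → j < k → u i = u j → i = j
  vv : ∀ i j, i < k → j < k → v i = v j → i = j
  ne : ∀ i j, i < k → j < k → u i ≠ v j

/-- a loop at `t` in graph terms -/
structure LoopG (G : SimpleGraph V) (X : V → Prop) (k : ℕ) (u v p q y : ℕ → V) (t z0 z1 : V) :
    Prop extends WireG G X k u v p q y where
  k0 : 0 < k
  ct : cc G X t = 2
  tz0 : G.Adj t z0 ∧ ¬ (X z0 ↔ X t)
  tz1 : G.Adj t z1 ∧ ¬ (X z1 ↔ X t)
  zu : G.Adj z0 (u 0) ∧ ¬ (X z0 ↔ X (u 0))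
  zv : G.Adj z1 (v (k - 1)) ∧ ¬ (X z1 ↔ X (v (k - 1)))
  zz : z0 ≠ z1
  ends : p 0 ≠ t ∧ q 0 ≠ t ∧ p (k - 1) ≠ t ∧ q (k - 1) ≠ t

end Helper17.L9
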