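import Pool.Agent.helper17.L9.LoopG
import Pool.Agent.helper58.L9.KgMain
import Pool.Agent.helper33.L9.E13

/-!
# Cuts with monochromatic neighbourhoods at the vertices of a set `D`

`OffW G X D`: the neighbourhood of `w ∉ D` is not monochromatic, all neighbours of `w ∈ D` are on
the side of `w`.
-/

set_option autoImplicit false
set_option linter.unusedSectionVars false

namespace Helper17.L9

open Finset Classical Helper33.L9
open Helper42.L9 hiding near
open Pool.Agent.helper58.L9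

variable {V : Type*} [Fintype V] {G : SimpleGraph V} {X : V → Prop} {D : V → Prop}

/-- the neighbourhood of `w` is not monochromatic -/
abbrev NMAt (G : SimpleGraph V) (X : V → Prop) (w : V) : Prop := Helper33.Off.NM G X w

/-- monochromatic neighbourhoods only at the vertices of `D`, all of whose neighbours are own -/
structure OffW (G : SimpleGraph V) (X : V → Prop) (D : V → Prop) : Prop where
  off : ∀ w, ¬ D w → NMAt G X w
  noc : ∀ w, D w → ∀ a, G.Adj w a → (X a ↔ X w)

theorem OffW.of (hX : NoMono G X) : OffW G X (fun _ => False) :=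
  ⟨fun w _ => hX w, fun _ h => h.elim⟩

theorem OffW.nD (h : OffW G X D) {w a : V} (ha : G.Adj w a) (hs : ¬ (X a ↔ X w)) : ¬ D w :=
  fun hD => hs (h.noc w hD a ha)

/-- a vertex with a cross neighbour -/
theorem OffW.crs (h : OffW G X D) {w a : V} (ha : G.Adj w a) (hs : ¬ (X a ↔ X w)) :
    NMAt G X w := h.off w (h.nD ha hs)

theorem OffW.crs' (h : OffW G X D) {w a : V} (ha : G.Adj a w) (hs : ¬ (X w ↔ X a)) :
    NMAt G X w := h.crs ha.symm (fun hh => hs hh.symm)

theorem side_at {v a b c : V} (hv : NMAt G X v) (h : Nb G v a b c) (h1 : X a ↔ X b) :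
    ¬ (X c ↔ X a) := fun h2 =>
  hv a b c h.ha h.hb h.hc h.ab h.ac h.bc ⟨h1, h2.symm⟩

theorem OffW.refl (h : OffW G X D) : OffW G (fun v => ¬ X v) D := by
  refine ⟨fun w hw a b c h1 h2 h3 h4 h5 h6 hh => ?_, fun w hw a ha => ?_⟩
  · rw [not_iff_not, not_iff_not] at hh
    exact h.off w hw a b c h1 h2 h3 h4 h5 h6 hh
  · rw [not_iff_not]
    exact h.noc w hw a ha

section

variable (hW : OffW G X D) (hcub : ∀ v, (univ.filter fun b => G.Adj v b).card = 3)

theorem cc_two' {v : V} : cc G X v = 2 ↔ (cr G X v).card = 2 := by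
  unfold cc
  split_ifs with h
  · simp [h]
  · constructor
    · intro h; omega
    · intro h'; exact absurd h' h

include hcub in
theorem own_one' {q a b : V} (hq : cc G X q = 2) (ha : ownR G X q a) (hb : ownR G X q b) :
    a = b := by
  have h1 := cc_two'.mp hq
  have h2 := cr_ow (X := X) hcub q
  obtain ⟨u, hu⟩ := Finset.card_eq_one.mp (by omega : (ow G X q).card = 1)
  have h3 := mem_ow_iff.mpr ha
  have h4 := mem_ow_iff.mpr hb
  rw [hu, Finset.mem_singleton] at h3 h4
  rw [h3, h4]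

include hcub in
/-- at most two cross neighbours -/
theorem cr_le_two (hW : OffW G X D) (v : V) : (cr G X v).card ≤ 2 := by
  have h0 := cr_ow (X := X) hcub v
  by_contra hcon
  have h6 : (cr G X v).card = 3 := by omega
  obtain ⟨a, b, c, hab, hac, hbc, he⟩ := Finset.card_eq_three.mp h6
  have ha := mem_cr.mp (he ▸ (by simp : a ∈ ({a, b, c} : Finset V)))
  have hb := mem_cr.mp (he ▸ (by simp : b ∈ ({a, b, c} : Finset V)))
  have hc' := mem_cr.mp (he ▸ (by simp : c ∈ ({a, b, c} : Finset V)))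
  exact hW.crs ha.1 ha.2 a b c ha.1 hb.1 hc'.1 hab hac hbc (by tauto)

include hW hcub in
theorem cc_end' {v a b : V} (ha : G.Adj v a) (hb : G.Adj v b) (hab : a ≠ b)
    (h1 : ¬ (X a ↔ X v)) (h2 : ¬ (X b ↔ X v)) : cc G X v = 2 := by
  rw [cc_two']
  have hsub : ({a, b} : Finset V) ⊆ cr G X v := by
    intro w hw
    rw [Finset.mem_insert, Finset.mem_singleton] at hw
    rcases hw with rfl | rfl
    · exact mem_cr.mpr ⟨ha, h1⟩
    · exact mem_cr.mpr ⟨hb, h2⟩
  have h3 := Finset.card_le_card hsub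
  rw [Finset.card_pair hab] at h3
  have h4 := cr_le_two hcub hW v
  omega

include hcub in
theorem cc_inner' {v a b : V} (ha : G.Adj v a) (hb : G.Adj v b) (hab : a ≠ b)
    (h1 : X a ↔ X v) (h2 : X b ↔ X v) : cc G X v = 3 := by
  have hsub : ({a, b} : Finset V) ⊆ ow G X v := by
    intro w hw
    rw [Finset.mem_insert, Finset.mem_singleton] at hw
    rcases hw with rfl | rfl
    · exact mem_ow.mpr ⟨ha, h1⟩
    · exact mem_ow.mpr ⟨hb, h2⟩
  have h3 := Finset.card_le_card hsub
  rw [Finset.card_pair hab] at h3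
  have h5 := cr_ow (X := X) hcub v
  unfold cc
  rw [if_neg (by omega)]

/-- the second member of a pair at `a` -/
theorem partner_at {w v : V} (hw : NMAt G X w) (hv : G.Adj w v) :
    ∃ q, ∀ x, G.Adj w x → (X x ↔ X v) → x ≠ v → x = q := by
  by_cases h : ∃ q, G.Adj w q ∧ (X q ↔ X v) ∧ q ≠ v
  · obtain ⟨q, h1, h2, h3⟩ := h
    refine ⟨q, fun x h4 h5 h6 => ?_⟩
    by_contra hne
    exact hw v q x hv h1 h4 h3.symm h6.symm (Ne.symm hne) ⟨h2.symm, h5.symm⟩
  · exact ⟨v, fun x h4 h5 h6 => absurd ⟨x, h4, h5, h6⟩ h⟩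

/-- the second member of a pair: either a dummy or a real vertex -/
theorem second_at {a b : V} (hX : NMAt G X a) (hab : G.Adj a b) :
    ∃ c, (∀ r, G.Adj a r → (X r ↔ X b) → r ≠ b → r = c) ∧
      (c = b ∨ (G.Adj a c ∧ (X c ↔ X b) ∧ c ≠ b)) := by
  by_cases h : ∃ c, G.Adj a c ∧ (X c ↔ X b) ∧ c ≠ b
  · obtain ⟨c, h1, h2, h3⟩ := h
    refine ⟨c, fun r h4 h5 h6 => ?_, Or.inr ⟨h1, h2, h3⟩⟩
    by_contra hne
    exact hX b c r hab h1 h4 h3.symm h6.symm (Ne.symm hne) ⟨h2.symm, h5.symm⟩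
  · exact ⟨b, fun r h4 h5 h6 => absurd ⟨r, h4, h5, h6⟩ h, Or.inl rfl⟩

include hW hcub in
/-- a link of two vertices of `Z` is in `Z` -/
theorem link_off {Z : Finset V} (hI : InvZ G X Z) {a b y : V} (ha : a ∈ Z) (hb : b ∈ Z)
    (hab : a ≠ b) (hya : y ∈ cr G X a) (hyb : y ∈ cr G X b) :
    y ∈ Z ∧ cc G X y = 2 ∧ cr G X y = {a, b} := by
  have h1 := mem_crs.mp hya
  have h2 := mem_crs.mp hyb
  have h3 : ({a, b} : Finset V) ⊆ cr G X y := by
    intro z hz
    rw [Finset.mem_insert, Finset.mem_singleton] at hz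
    rcases hz with rfl | rfl
    · exact h1
    · exact h2
  have h4 := Finset.card_le_card h3
  rw [Finset.card_pair hab] at h4
  have h5 := cr_le_two hcub hW y
  have h6 : cr G X y = {a, b} := by
    symm
    exact Finset.eq_of_subset_of_card_le h3 (by rw [Finset.card_pair hab]; omega)
  have h7 : cc G X y = 2 := cc_two'.mpr (by omega)
  refine ⟨?_, h7, h6⟩
  by_contra hy
  obtain ⟨x, hx1, hx2, hx3⟩ := hI.crs y hy h7
  have h8 : x ∈ cr G X y := mem_cr.mpr ⟨hx1, hx2⟩
  rw [h6, Finset.mem_insert, Finset.mem_singleton] at h8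
  rcases h8 with rfl | rfl
  · exact hx3 ha
  · exact hx3 hb

/-- no leg can be repaired (helper33's `Rep`) -/
def NoRepair (G : SimpleGraph V) (X D : V → Prop) : Prop :=
  ∀ x c : V, D x → G.Adj x c → ¬ D c → Helper33.Off.Rep G X D x c

theorem nm_of_nb {X' : V → Prop} {w p q r : V} (h : Nb G w p q r) (hpq : ¬ (X' p ↔ X' q)) :
    NMAt G X' w := by
  intro a b c ha hb hc hab hac hbc hh
  rcases h.all a ha with h1 | h1 | h1 <;> rcases h.all b hb with h2 | h2 | h2 <;>
    rcases h.all c hc with h3 | h3 | h3 <;> rw [h1, h2, h3] at hh <;>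
    first
    | exact hab (h1.trans h2.symm)
    | exact hac (h1.trans h3.symm)
    | exact hbc (h2.trans h3.symm)
    | exact hpq hh.1
    | exact hpq hh.1.symm
    | exact hpq hh.2
    | exact hpq hh.2.symm
    | exact hpq (hh.1.symm.trans hh.2)
    | exact hpq (hh.2.symm.trans hh.1)

/-- the end `z` of a long leg `a` of `x` is a link between an end `t` with an inner own neighbour
`m` and a further vertex `u`: then the leg is the only vertex of its side at its cross neighbour -/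
theorem leg_single (hcub : ∀ v, (univ.filter fun b => G.Adj v b).card = 3) (hW : OffW G X D)
    (hR : NoRepair G X D) {x a z d t z1 m m' wm u v s e : V}
    (hx : D x) (hfar : Helper33.Off.Far G D t) (nZ : Nb G z t u a) (nA : Nb G a z x d) (nT : Nb G t z z1 m)
    (nM : Nb G m t m' wm) (nZ1 : Nb G z1 t v s) (Xt : ¬ (X t ↔ X z)) (Xu : X u ↔ X t)
    (Xa : X a ↔ X z) (Xm' : X m' ↔ X t) (Xv : X v ↔ X t) (hd : ¬ (X d ↔ X a))
    (he : G.Adj d e) (hs : X e ↔ X a) : e = a := by
  by_contra hea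
  have hax : X a ↔ X x := hW.noc x hx a nA.hb.symm
  have hDa : ¬ D a := hW.nD nA.hc hd
  obtain ⟨F, hF⟩ : ∃ F : V → Prop, ∀ r, F r ↔ (r = a ∨ r = t) := ⟨_, fun _ => Iff.rfl⟩
  obtain ⟨w, hw, hn⟩ := hR x a hx nA.hb.symm hDa F ((hF a).mpr (Or.inl rfl))
    (by
      intro r hr
      rcases (hF r).mp hr with hr | hr
      · exact Or.inl hr
      · rw [hr]
        exact Or.inr ⟨fun hh => Xt (hh.trans (hax.symm.trans Xa)), hfar⟩)
  apply hn
  unfold Helper33.Off.flipS
  have hta : t ≠ a := by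
    intro hh
    rw [hh] at Xt
    exact Xt Xa
  have fa : (if F a then ¬ X a else X a) ↔ ¬ X a := by
    rw [if_pos ((hF a).mpr (Or.inl rfl))]
  have ft : (if F t then ¬ X t else X t) ↔ ¬ X t := by
    rw [if_pos ((hF t).mpr (Or.inr rfl))]
  have fo : ∀ r, r ≠ a → r ≠ t → ((if F r then ¬ X r else X r) ↔ X r) := by
    intro r h1 h2
    rw [if_neg (fun hh => ((hF r).mp hh).elim h1 h2)]
  have hua : u ≠ a := nZ.bc
  have hut : u ≠ t := nZ.ab.symm
  have hmt : m' ≠ t := nM.ab.symm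
  have hma : m' ≠ a := by
    intro hh
    rw [hh] at Xm'
    exact Xt (Xm'.symm.trans Xa)
  have hvt : v ≠ t := nZ1.ab.symm
  have hva : v ≠ a := by
    intro hh
    rw [hh] at Xv
    exact Xt (Xv.symm.trans Xa)
  have het : e ≠ t := by
    intro hh
    rw [hh] at hs
    exact Xt (hs.trans Xa)
  by_cases w1 : G.Adj w a
  · rcases nA.all w w1.symm with h1 | h1 | h1
    · subst h1
      refine nm_of_nb nZ (fun h => ?_)
      beta_reduce at h
      rw [ft, fo u hua hut] at h
      exact not_iff_self (h.trans Xu)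
    · exact absurd (h1 ▸ hx) hw
    · subst h1
      obtain ⟨e', hn'⟩ := nb_third hcub w1 he (Ne.symm hea)
      refine nm_of_nb hn' (fun h => ?_)
      beta_reduce at h
      rw [fa, fo e hea het] at h
      exact not_iff_self (h.trans hs)
  · by_cases w2 : G.Adj w t
    · rcases nT.all w w2.symm with h1 | h1 | h1
      · subst h1
        exact absurd nZ.hc w1
      · subst h1
        refine nm_of_nb nZ1 (fun h => ?_)
        beta_reduce at h
        rw [ft, fo v hva hvt] at h
        exact not_iff_self (h.trans Xv)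
      · subst h1
        refine nm_of_nb nM (fun h => ?_)
        beta_reduce at h
        rw [ft, fo m' hma hmt] at h
        exact not_iff_self (h.trans Xm')
    · intro b c b' h4 h5 h6 h7 h8 h9 hh
      have k1 := fo b (fun h => w1 (h ▸ h4)) (fun h => w2 (h ▸ h4))
      have k2 := fo c (fun h => w1 (h ▸ h5)) (fun h => w2 (h ▸ h5))
      have k3 := fo b' (fun h => w1 (h ▸ h6)) (fun h => w2 (h ▸ h6))
      refine hW.off w hw b c b' h4 h5 h6 h7 h8 h9 ?_
      beta_reduce at hh
      rw [k1, k2, k3] at hh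
      exact hh

theorem nb_one (hcub : ∀ v, (univ.filter fun b => G.Adj v b).card = 3) {v a : V}
    (ha : G.Adj v a) : ∃ b c, Nb G v a b c := by
  obtain ⟨b, hb, hba⟩ : ∃ b, G.Adj v b ∧ a ≠ b := by
    by_contra hcon
    push Not at hcon
    have h1 : (univ.filter fun b => G.Adj v b) ⊆ {a} := by
      intro b hb
      rw [Finset.mem_filter] at hb
      rw [Finset.mem_singleton]
      exact (hcon b hb.2).symm
    have h2 := Finset.card_le_card h1
    rw [hcub v, Finset.card_singleton] at h2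
    omega
  obtain ⟨c, hc⟩ := nb_third hcub ha hb hba
  exact ⟨b, c, hc⟩

/-- the conflicts of `b` behind `c` and `d`: at most two -/
def TwoConf (G : SimpleGraph V) (X : V → Prop) (b c d : V) : Prop :=
  ∃ q1 q2, ∀ r, (G.Adj c r ∨ G.Adj d r) → (X r ↔ X b) → r ≠ b → r = q1 ∨ r = q2

theorem twoConf_nm {b c d : V} (hc : NMAt G X c) (hd : NMAt G X d) (hcb : G.Adj c b)
    (hdb : G.Adj d b) : TwoConf G X b c d := by
  obtain ⟨q1, h1⟩ := partner_at (X := X) hc hcb
  obtain ⟨q2, h2⟩ := partner_at (X := X) hd hdb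
  refine ⟨q1, q2, fun r hr hs hne => ?_⟩
  rcases hr with hr | hr
  · exact Or.inl (h1 r hr hs hne)
  · exact Or.inr (h2 r hr hs hne)

theorem twoConf_D (hcub : ∀ v, (univ.filter fun b => G.Adj v b).card = 3) {b c d : V}
    (hcb : G.Adj c b) (hd : ∀ r, G.Adj d r → (X r ↔ X b) → r = b) : TwoConf G X b c d := by
  obtain ⟨e1, e2, hn⟩ := nb_one hcub hcb
  refine ⟨e1, e2, fun r hr hs hne => ?_⟩
  rcases hr with hr | hr
  · rcases hn.all r hr with h1 | h1 | h1
    · exact absurd h1 hne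
    · exact Or.inl h1
    · exact Or.inr h1
  · exact absurd (hd r hr hs) hne

theorem NoRepair.refl (h : NoRepair G X D) : NoRepair G (fun v => ¬ X v) D := by
  intro x c h1 h2 h3 F h4 h5
  obtain ⟨w, hw, hn⟩ := h x c h1 h2 h3 F h4 (by
    intro v hv
    rcases h5 v hv with h6 | h6
    · exact Or.inl h6
    · rw [not_iff_not] at h6
      exact Or.inr h6)
  refine ⟨w, hw, fun hh => hn ?_⟩
  intro a b d ha hb hd hab had hbd h7
  refine hh a b d ha hb hd hab had hbd ?_
  have key : ∀ v, (if F v then ¬ ¬ X v else ¬ X v) ↔ ¬ (if F v then ¬ X v else X v) := by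
    intro v
    by_cases hv : F v
    · rw [if_pos hv, if_pos hv]
    · rw [if_neg hv, if_neg hv]
  unfold Helper33.Off.flipS at h7 ⊢
  rw [key a, key b, key d, not_iff_not, not_iff_not]
  exact h7

theorem NoRepair.of (hX : NoMono G X) : NoRepair G X (fun _ => False) :=
  fun _ _ h => h.elim

/-- the region is the set `Lm` -/
theorem region_of' {Z : Finset V} {Lm : V → Prop} (hI : InvZ G X Z) (hsub : ∀ v, Lm v → v ∈ Z)
    {t : V} (ht : Lm t)
    (ha : ∀ w, Lm w → ∀ a b, ownR G X w a → ownR G X w b → ¬ Lm a → ¬ Lm b → a = b)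
    (hb : ∀ y, Lm y → cc G X y = 2 → ∃ x, G.Adj y x ∧ ¬ (X x ↔ X y) ∧ Lm x)
    (he : ExtZ G X Z Lm) : ∃ Lam, Region G X Z Lam ∧ ∀ v, v ∈ Lam ↔ Lm v := by
  have mem : ∀ v, v ∈ Z \ (univ.filter Lm) ↔ (v ∈ Z ∧ ¬ Lm v) := by
    intro v
    simp
  refine ⟨univ.filter Lm, ⟨?_, ⟨t, by simpa using ht⟩, ⟨?_, ?_, ?_⟩, ?_⟩, fun v => by simp⟩
  · intro v hv
    exact hsub v (by simpa using hv)
  · intro c hc i hi
    exact hI.C c hc i ((mem _).mp hi).1
  · intro w hw a b h1 h2 h3 h4
    rw [mem] at hw h3 h4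
    by_cases hl : Lm w
    · exact ha w hl a b h1 h2 h3.2 h4.2
    · exact hI.own1 w (fun hh => hw ⟨hh, hl⟩) a b h1 h2 h3.1 h4.1
  · intro y hy h2
    rw [mem] at hy
    by_cases hl : Lm y
    · obtain ⟨x, h3, h4, h5⟩ := hb y hl h2
      exact ⟨x, h3, h4, fun hh => ((mem _).mp hh).2 h5⟩
    · obtain ⟨x, h3, h4, h5⟩ := hI.crs y (fun hh => hy ⟨hh, hl⟩) h2
      exact ⟨x, h3, h4, fun hh => h5 ((mem _).mp hh).1⟩
  · intro E f st
    exact he E f (st.congr (fun v => mem v) (fun v => Iff.rfl))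

end

end Helper17.L9
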