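import Pool.Agent.helper17.L9.LoopFull
import Pool.Agent.helper17.L9.LoopG
import Pool.Agent.helper17.L9.Off

/-!
# Loops in graph terms: neighbours, and the structure `LoopR`
-/

set_option autoImplicit false
set_option linter.unusedSectionVars false

namespace Helper17.L9

open Finset Classical Helper33.L9
open Helper42.L9 hiding near
open Pool.Agent.helper58.L9

variable {V : Type*} [Fintype V] {G : SimpleGraph V} {X D : V → Prop} {k : ℕ}
  {u v p q y o : ℕ → V} {t z0 z1 m w x : V}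

/-- the neighbours of the vertices of a loop, apex in `X` -/
structure LG (G : SimpleGraph V) (X : V → Prop) (k : ℕ) (u v p q y o : ℕ → V)
    (t z0 z1 m w x : V) : Prop extends LoopG G X k u v p q y t z0 z1 where
  Xt : X t
  Z0 : ¬ X z0
  Z1 : ¬ X z1
  Xu : ∀ i, i < k → X (u i)
  Xv : ∀ i, i < k → X (v i)
  Xp : ∀ i, i < k → X (p i) ∧ X (q i)
  Yy : ∀ i, i + 1 < k → ¬ X (y i)
  nU : ∀ i, i + 1 < k → Nb G (u (i + 1)) (p (i + 1)) (v (i + 1)) (y i)
  nU0 : Nb G (u 0) (p 0) (v 0) z0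
  nV : ∀ i, i + 1 < k → Nb G (v i) (u i) (q i) (y i)
  nVk : Nb G (v (k - 1)) (u (k - 1)) (q (k - 1)) z1
  nY : ∀ i, i + 1 < k → Nb G (y i) (v i) (u (i + 1)) (o i) ∧ ¬ X (o i)
  nZ0 : Nb G z0 t (u 0) w
  nZ1 : Nb G z1 t (v (k - 1)) x
  nT : Nb G t z0 z1 m
  Xm : X m
  Yw : ¬ X w
  Yx : ¬ X x

section

variable (hW : OffW G X D) (hcub : ∀ v, (univ.filter fun b => G.Adj v b).card = 3)

include hW hcub in
theorem LoopG.lg (h : LoopG G X k u v p q y t z0 z1) (Xt : X t) :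
    ∃ (o : ℕ → V) (m w x : V), LG G X k u v p q y o t z0 z1 m w x := by
  have hdeg : ∀ v, (univ.filter fun b => G.Adj v b).card ≤ 3 := fun v => (hcub v).le
  have hk := h.k0
  have Z0 : ¬ X z0 := fun hh => h.tz0.2 (iff_of_true hh Xt)
  have Z1 : ¬ X z1 := fun hh => h.tz1.2 (iff_of_true hh Xt)
  have Xuv : ∀ i, i < k → X (u i) ∧ X (v i) := by
    intro i
    induction i with
    | zero =>
      intro hi
      have h1 : X (u 0) := by
        by_contra hh
        exact h.zu.2 (iff_of_false Z0 hh)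
      exact ⟨h1, (h.uv 0 hi).2.mp h1⟩
    | succ i ih =>
      intro hi
      have h1 := (ih (by omega)).2
      have h2 : ¬ X (y i) := fun hh => (h.vy i hi).2 (iff_of_true hh h1)
      have h3 : X (u (i + 1)) := by
        by_contra hh
        exact (h.yu i hi).2 (iff_of_false h2 hh)
      exact ⟨h3, (h.uv (i + 1) hi).2.mp h3⟩
  have Xu : ∀ i, i < k → X (u i) := fun i hi => (Xuv i hi).1
  have Xv : ∀ i, i < k → X (v i) := fun i hi => (Xuv i hi).2
  have Xp : ∀ i, i < k → X (p i) ∧ X (q i) := fun i hi =>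
    ⟨(h.up i hi).2.mp (Xu i hi), (h.vq i hi).2.mp (Xv i hi)⟩
  have Yy : ∀ i, i + 1 < k → ¬ X (y i) := fun i hi hh =>
    (h.vy i hi).2 (iff_of_true hh (Xv i (by omega)))
  have ne : ∀ {a b : V}, X a → ¬ X b → a ≠ b := fun ha hb he => hb (he ▸ ha)
  have pv : ∀ i, i < k → p i ≠ v i := by
    intro i hi he
    have h1 := h.cp i hi
    have h2 := h.cv i hi
    rw [he] at h1
    omega
  have uq : ∀ i, i < k → u i ≠ q i := by
    intro i hi he
    have h1 := h.cq i hi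
    have h2 := h.cu i hi
    rw [he] at h2
    omega
  have tu : ∀ i, i < k → t ≠ u i ∧ t ≠ v i := by
    intro i hi
    have h1 := h.cu i hi
    have h2 := h.cv i hi
    have h3 := h.ct
    exact ⟨fun he => by rw [he] at h3; omega, fun he => by rw [he] at h3; omega⟩
  have hY : ∀ i, ∃ a, i + 1 < k → Nb G (y i) (v i) (u (i + 1)) a ∧ ¬ X a := by
    intro i
    by_cases hi : i + 1 < k
    · obtain ⟨a, ha⟩ := nb_third hcub (h.vy i hi).1.symm (h.yu i hi).1
        (h.ne (i + 1) i hi (by omega)).symm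
      refine ⟨a, fun _ => ⟨ha, fun hh => ?_⟩⟩
      exact side_at (hW.crs ha.ha (fun hh => Yy i hi (hh.mp (Xv i (by omega))))) ha
        (iff_of_true (Xv i (by omega)) (Xu _ hi)) (iff_of_true hh (Xv i (by omega)))
    · exact ⟨t, fun hh => absurd hh hi⟩
  choose o ho using hY
  obtain ⟨m, hm⟩ := nb_third hcub h.tz0.1 h.tz1.1 h.zz
  obtain ⟨w, hw⟩ := nb_third hcub h.tz0.1.symm h.zu.1 (tu 0 hk).1
  obtain ⟨x, hx⟩ := nb_third hcub h.tz1.1.symm h.zv.1 (tu (k - 1) (by omega)).2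
  have Xvk := Xv (k - 1) (by omega)
  refine ⟨o, m, w, x, ⟨h, Xt, Z0, Z1, Xu, Xv, Xp, Yy, ?_, ?_, ?_, ?_, ho, hw, hx, hm, ?_, ?_,
    ?_⟩⟩
  · intro i hi
    exact nb_of hdeg (h.up _ hi).1 (h.uv _ hi).1 (h.yu i hi).1.symm (pv _ hi)
      (ne (Xp _ hi).1 (Yy i hi)) (ne (Xv _ hi) (Yy i hi))
  · exact nb_of hdeg (h.up _ hk).1 (h.uv _ hk).1 h.zu.1.symm (pv _ hk) (ne (Xp _ hk).1 Z0)
      (ne (Xv _ hk) Z0)
  · intro i hi
    exact nb_of hdeg (h.uv i (by omega)).1.symm (h.vq i (by omega)).1 (h.vy i hi).1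
      (uq i (by omega)) (ne (Xu i (by omega)) (Yy i hi)) (ne (Xp i (by omega)).2 (Yy i hi))
  · exact nb_of hdeg (h.uv _ (by omega)).1.symm (h.vq _ (by omega)).1 h.zv.1.symm
      (uq _ (by omega)) (ne (Xu _ (by omega)) Z1) (ne (Xp _ (by omega)).2 Z1)
  · by_contra hh
    exact side_at (hW.crs hm.ha (fun hh => Z0 (hh.mpr Xt))) hm (iff_of_false Z0 Z1)
      (iff_of_false hh Z0)
  · intro hh
    exact side_at (hW.crs hw.ha (fun hh => Z0 (hh.mp Xt))) hw (iff_of_true Xt (Xu 0 hk))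
      (iff_of_true hh Xt)
  · intro hh
    exact side_at (hW.crs hx.ha (fun hh => Z1 (hh.mp Xt))) hx (iff_of_true Xt Xvk)
      (iff_of_true hh Xt)

/-- the second member of a pair: either a dummy or a real vertex -/
theorem second_ex (hX : NoMono G X) {a b : V} (hab : G.Adj a b) :
    ∃ c, (∀ r, G.Adj a r → (X r ↔ X b) → r ≠ b → r = c) ∧
      (c = b ∨ (G.Adj a c ∧ (X c ↔ X b) ∧ c ≠ b)) := by
  by_cases h : ∃ c, G.Adj a c ∧ (X c ↔ X b) ∧ c ≠ b
  · obtain ⟨c, h1, h2, h3⟩ := h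
    refine ⟨c, fun r h4 h5 h6 => ?_, Or.inr ⟨h1, h2, h3⟩⟩
    by_contra hne
    exact hX a b c r hab h1 h4 h3.symm h6.symm (Ne.symm hne) ⟨h2.symm, h5.symm⟩
  · exact ⟨b, fun r h4 h5 h6 => absurd ⟨r, h4, h5, h6⟩ h, Or.inl rfl⟩

theorem q_cases {a b c d r : V} (h : Nb G a b c d) (hq : qadj G X a r) :
    (X a ↔ X r) ∧ a ≠ r ∧
      (r = b ∨ r = c ∨ r = d ∨ G.Adj b r ∨ G.Adj c r ∨ G.Adj d r) := by
  obtain ⟨h1, h2, h3 | ⟨s, h3, h4⟩⟩ := hq
  · refine ⟨h1, h2, ?_⟩
    rcases h.all r h3 with h5 | h5 | h5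
    · exact Or.inl h5
    · exact Or.inr (Or.inl h5)
    · exact Or.inr (Or.inr (Or.inl h5))
  · refine ⟨h1, h2, ?_⟩
    rcases h.all s h3 with h5 | h5 | h5
    · exact Or.inr (Or.inr (Or.inr (Or.inl (h5 ▸ h4))))
    · exact Or.inr (Or.inr (Or.inr (Or.inr (Or.inl (h5 ▸ h4)))))
    · exact Or.inr (Or.inr (Or.inr (Or.inr (Or.inr (h5 ▸ h4)))))

theorem near_cases {a b c d r : V} (h : Nb G a b c d) (hq : Helper33.L9.near G a r) :
    a ≠ r ∧ (r = b ∨ r = c ∨ r = d ∨ G.Adj b r ∨ G.Adj c r ∨ G.Adj d r) := by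
  obtain ⟨h2, h3 | ⟨s, h3, h4⟩⟩ := hq
  · refine ⟨h2, ?_⟩
    rcases h.all r h3 with h5 | h5 | h5
    · exact Or.inl h5
    · exact Or.inr (Or.inl h5)
    · exact Or.inr (Or.inr (Or.inl h5))
  · refine ⟨h2, ?_⟩
    rcases h.all s h3 with h5 | h5 | h5
    · exact Or.inr (Or.inr (Or.inr (Or.inl (h5 ▸ h4))))
    · exact Or.inr (Or.inr (Or.inr (Or.inr (Or.inl (h5 ▸ h4)))))
    · exact Or.inr (Or.inr (Or.inr (Or.inr (Or.inr (h5 ▸ h4)))))

variable (h : LG G X k u v p q y o t z0 z1 m w x)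

include h in
theorem LG.adj_u {i : ℕ} (hi : i < k) {r : V} (hr : G.Adj (u i) r) (hXr : X r) :
    r = p i ∨ r = v i := by
  rcases Nat.eq_zero_or_pos i with h0 | h0
  · subst h0
    rcases h.nU0.all r hr with h1 | h1 | h1
    · exact Or.inl h1
    · exact Or.inr h1
    · exact absurd (h1 ▸ hXr) h.Z0
  · obtain ⟨j, rfl⟩ : ∃ j, i = j + 1 := ⟨i - 1, by omega⟩
    rcases (h.nU j hi).all r hr with h1 | h1 | h1
    · exact Or.inl h1
    · exact Or.inr h1
    · exact absurd (h1 ▸ hXr) (h.Yy j hi)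

include h in
theorem LG.adj_v {i : ℕ} (hi : i < k) {r : V} (hr : G.Adj (v i) r) (hXr : X r) :
    r = u i ∨ r = q i := by
  by_cases h0 : i + 1 < k
  · rcases (h.nV i h0).all r hr with h1 | h1 | h1
    · exact Or.inl h1
    · exact Or.inr h1
    · exact absurd (h1 ▸ hXr) (h.Yy i h0)
  · have : i = k - 1 := by omega
    subst this
    rcases h.nVk.all r hr with h1 | h1 | h1
    · exact Or.inl h1
    · exact Or.inr h1
    · exact absurd (h1 ▸ hXr) h.Z1

include h hcub in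
theorem LG.adj_p {i : ℕ} (hi : i < k) {r : V} (hr : G.Adj (p i) r) (hXr : X r) : r = u i :=
  own_one' hcub (h.cp i hi) ⟨hr, iff_of_true (h.Xp i hi).1 hXr⟩
    ⟨(h.up i hi).1.symm, (h.up i hi).2.symm⟩

include h hcub in
theorem LG.adj_q {i : ℕ} (hi : i < k) {r : V} (hr : G.Adj (q i) r) (hXr : X r) : r = v i :=
  own_one' hcub (h.cq i hi) ⟨hr, iff_of_true (h.Xp i hi).2 hXr⟩
    ⟨(h.vq i hi).1.symm, (h.vq i hi).2.symm⟩

include h in
theorem LG.t_ne {i : ℕ} (hi : i < k) : t ≠ u i ∧ t ≠ v i := by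
  have h1 := h.cu i hi
  have h2 := h.cv i hi
  have h3 := h.ct
  exact ⟨fun he => by rw [he] at h3; omega, fun he => by rw [he] at h3; omega⟩

include h in
theorem LG.z_ne {i : ℕ} (hi : i + 1 < k) : z0 ≠ y i ∧ z1 ≠ y i := by
  have key : ∀ z, G.Adj z t → z ≠ y i := by
    rintro z hz rfl
    rcases (h.nY i hi).1.all t hz with h1 | h1 | h1
    · exact (h.t_ne (by omega)).2 h1
    · exact (h.t_ne hi).1 h1
    · exact (h.nY i hi).2 (h1 ▸ h.Xt)
  exact ⟨key z0 h.nZ0.ha, key z1 h.nZ1.ha⟩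

include h hcub in
/-- **The structure `LoopR`.** -/
theorem LG.loopR {o' : ℕ → V} {m' w' x' : V}
    (ho : ∀ i, i + 1 < k → ∀ r, G.Adj (o i) r → (X r ↔ X (y i)) → r ≠ y i → r = o' i)
    (hm : ∀ r, G.Adj m r → (X r ↔ X t) → r ≠ t → r = m')
    (hw : ∀ r, G.Adj w r → (X r ↔ X z0) → r ≠ z0 → r = w')
    (hx : ∀ r, G.Adj x r → (X r ↔ X z1) → r ≠ z1 → r = x') :
    LoopR G.Adj (qadj G X) X k u v p q y o o' t z0 z1 m m' w w' x x' := by
  have hk := h.k0
  have hk1 : k - 1 < k := by omega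
  have sX : ∀ {a r}, (X a ↔ X r) → X a → X r := fun hh ha => hh.mp ha
  refine
    { Xu := h.Xu, Xv := h.Xv, Yy := h.Yy, uu := h.uu, vv := h.vv, uv := h.ne, yy := ?_, pn := ?_
      qn := ?_, qU := ?_, qV := ?_, cU := ?_, cV := ?_, qY := ?_, cY := ?_, k0 := hk, Xp := h.Xp
      Xt := h.Xt, Z0 := h.Z0, Z1 := h.Z1, zz := h.zz, tn := fun i hi => h.t_ne hi
      zn := fun i hi => h.z_ne hi, ends := h.ends, Qt := ?_, Qu := ?_, Qv := ?_, Qz := ?_
      Qz' := ?_, At := ?_, Au := ?_, Av := ?_, Az := ?_, Az' := ?_ }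
  · intro i j hi hj he
    have h1 := (h.nY i hi).1.ha
    rw [he] at h1
    rcases (h.nY j hj).1.all _ h1 with h2 | h2 | h2
    · exact h.vv i j (by omega) (by omega) h2
    · exact absurd h2.symm (h.ne (j + 1) i hj (by omega))
    · exact absurd (h2 ▸ h.Xv i (by omega)) (h.nY j hj).2
  · intro i j hi hj
    have h1 := h.cu j hj
    have h2 := h.cv j hj
    have h3 := h.cp i hi
    exact ⟨fun he => by rw [he] at h3; omega, fun he => by rw [he] at h3; omega⟩
  · intro i j hi hj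
    have h1 := h.cu j hj
    have h2 := h.cv j hj
    have h3 := h.cq i hi
    exact ⟨fun he => by rw [he] at h3; omega, fun he => by rw [he] at h3; omega⟩
  · intro i hi r hr
    obtain ⟨h1, h2, h3 | h3 | h3 | h3 | h3 | h3⟩ := q_cases (h.nU i hi) hr
    all_goals have hXr := sX h1 (h.Xu _ hi)
    · exact Or.inl h3
    · exact Or.inr (Or.inr (Or.inl h3))
    · exact absurd (h3 ▸ hXr) (h.Yy i hi)
    · exact absurd (h.adj_p hcub hi h3 hXr).symm h2
    · rcases h.adj_v hi h3 hXr with h4 | h4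
      · exact absurd h4.symm h2
      · exact Or.inr (Or.inl h4)
    · rcases (h.nY i hi).1.all r h3 with h4 | h4 | h4
      · exact Or.inr (Or.inr (Or.inr h4))
      · exact absurd h4.symm h2
      · exact absurd (h4 ▸ hXr) (h.nY i hi).2
  · intro i hi r hr
    obtain ⟨h1, h2, h3 | h3 | h3 | h3 | h3 | h3⟩ := q_cases (h.nV i hi) hr
    all_goals have hXr := sX h1 (h.Xv i (by omega))
    · exact Or.inr (Or.inr (Or.inl h3))
    · exact Or.inr (Or.inl h3)
    · exact absurd (h3 ▸ hXr) (h.Yy i hi)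
    · rcases h.adj_u (by omega) h3 hXr with h4 | h4
      · exact Or.inl h4
      · exact absurd h4.symm h2
    · exact absurd (h.adj_q hcub (by omega) h3 hXr).symm h2
    · rcases (h.nY i hi).1.all r h3 with h4 | h4 | h4
      · exact absurd h4.symm h2
      · exact Or.inr (Or.inr (Or.inr h4))
      · exact absurd (h4 ▸ hXr) (h.nY i hi).2
  · intro i hi r hr hXr
    rcases (h.nU i hi).all r hr with h1 | h1 | h1
    · exact absurd (h1 ▸ (h.Xp _ hi).1) hXr
    · exact absurd (h1 ▸ h.Xv _ hi) hXr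
    · exact h1
  · intro i hi r hr hXr
    rcases (h.nV i hi).all r hr with h1 | h1 | h1
    · exact absurd (h1 ▸ h.Xu i (by omega)) hXr
    · exact absurd (h1 ▸ (h.Xp i (by omega)).2) hXr
    · exact h1
  · intro i hi r hr
    have Yi := h.Yy i hi
    obtain ⟨h1, h2, h3 | h3 | h3 | h3 | h3 | h3⟩ := q_cases (h.nY i hi).1 hr
    all_goals have hXr : ¬ X r := fun hh => Yi (h1.mpr hh)
    · exact absurd (h3 ▸ h.Xv i (by omega)) hXr
    · exact absurd (h3 ▸ h.Xu _ hi) hXr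
    · exact Or.inl h3
    · rcases (h.nV i hi).all r h3 with h4 | h4 | h4
      · exact absurd (h4 ▸ h.Xu i (by omega)) hXr
      · exact absurd (h4 ▸ (h.Xp i (by omega)).2) hXr
      · exact absurd h4.symm h2
    · rcases (h.nU i hi).all r h3 with h4 | h4 | h4
      · exact absurd (h4 ▸ (h.Xp _ hi).1) hXr
      · exact absurd (h4 ▸ h.Xv _ hi) hXr
      · exact absurd h4.symm h2
    · exact Or.inr (ho i hi r h3 (iff_of_false hXr Yi) h2.symm)
  · intro i hi r hr hXr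
    rcases (h.nY i hi).1.all r hr with h1 | h1 | h1
    · exact Or.inl h1
    · exact Or.inr h1
    · exact absurd (h1 ▸ hXr) (h.nY i hi).2
  · intro r hr
    obtain ⟨h1, h2, h3 | h3 | h3 | h3 | h3 | h3⟩ := q_cases h.nT hr
    all_goals have hXr := sX h1 h.Xt
    · exact absurd (h3 ▸ hXr) h.Z0
    · exact absurd (h3 ▸ hXr) h.Z1
    · exact Or.inr (Or.inr (Or.inl h3))
    · rcases h.nZ0.all r h3 with h4 | h4 | h4
      · exact absurd h4.symm h2
      · exact Or.inl h4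
      · exact absurd (h4 ▸ hXr) h.Yw
    · rcases h.nZ1.all r h3 with h4 | h4 | h4
      · exact absurd h4.symm h2
      · exact Or.inr (Or.inl h4)
      · exact absurd (h4 ▸ hXr) h.Yx
    · exact Or.inr (Or.inr (Or.inr (hm r h3 (iff_of_true hXr h.Xt) h2.symm)))
  · intro r hr
    obtain ⟨h1, h2, h3 | h3 | h3 | h3 | h3 | h3⟩ := q_cases h.nU0 hr
    all_goals have hXr := sX h1 (h.Xu _ hk)
    · exact Or.inl h3
    · exact Or.inr (Or.inr (Or.inl h3))
    · exact absurd (h3 ▸ hXr) h.Z0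
    · exact absurd (h.adj_p hcub hk h3 hXr).symm h2
    · rcases h.adj_v hk h3 hXr with h4 | h4
      · exact absurd h4.symm h2
      · exact Or.inr (Or.inl h4)
    · rcases h.nZ0.all r h3 with h4 | h4 | h4
      · exact Or.inr (Or.inr (Or.inr h4))
      · exact absurd h4.symm h2
      · exact absurd (h4 ▸ hXr) h.Yw
  · intro r hr
    obtain ⟨h1, h2, h3 | h3 | h3 | h3 | h3 | h3⟩ := q_cases h.nVk hr
    all_goals have hXr := sX h1 (h.Xv _ hk1)
    · exact Or.inr (Or.inr (Or.inl h3))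
    · exact Or.inr (Or.inl h3)
    · exact absurd (h3 ▸ hXr) h.Z1
    · rcases h.adj_u hk1 h3 hXr with h4 | h4
      · exact Or.inl h4
      · exact absurd h4.symm h2
    · exact absurd (h.adj_q hcub hk1 h3 hXr).symm h2
    · rcases h.nZ1.all r h3 with h4 | h4 | h4
      · exact Or.inr (Or.inr (Or.inr h4))
      · exact absurd h4.symm h2
      · exact absurd (h4 ▸ hXr) h.Yx
  · intro r hr
    obtain ⟨h1, h2, h3 | h3 | h3 | h3 | h3 | h3⟩ := q_cases h.nZ0 hr
    all_goals have hXr : ¬ X r := fun hh => h.Z0 (h1.mpr hh)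
    · exact absurd (h3 ▸ h.Xt) hXr
    · exact absurd (h3 ▸ h.Xu _ hk) hXr
    · exact Or.inr (Or.inl h3)
    · rcases h.nT.all r h3 with h4 | h4 | h4
      · exact absurd h4.symm h2
      · exact Or.inl h4
      · exact absurd (h4 ▸ h.Xm) hXr
    · rcases h.nU0.all r h3 with h4 | h4 | h4
      · exact absurd (h4 ▸ (h.Xp _ hk).1) hXr
      · exact absurd (h4 ▸ h.Xv _ hk) hXr
      · exact absurd h4.symm h2
    · exact Or.inr (Or.inr (hw r h3 (iff_of_false hXr h.Z0) h2.symm))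
  · intro r hr
    obtain ⟨h1, h2, h3 | h3 | h3 | h3 | h3 | h3⟩ := q_cases h.nZ1 hr
    all_goals have hXr : ¬ X r := fun hh => h.Z1 (h1.mpr hh)
    · exact absurd (h3 ▸ h.Xt) hXr
    · exact absurd (h3 ▸ h.Xv _ hk1) hXr
    · exact Or.inr (Or.inl h3)
    · rcases h.nT.all r h3 with h4 | h4 | h4
      · exact Or.inl h4
      · exact absurd h4.symm h2
      · exact absurd (h4 ▸ h.Xm) hXr
    · rcases h.nVk.all r h3 with h4 | h4 | h4
      · exact absurd (h4 ▸ h.Xu _ hk1) hXr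
      · exact absurd (h4 ▸ (h.Xp _ hk1).2) hXr
      · exact absurd h4.symm h2
    · exact Or.inr (Or.inr (hx r h3 (iff_of_false hXr h.Z1) h2.symm))
  · intro r hr hXr
    rcases h.nT.all r hr with h1 | h1 | h1
    · exact Or.inl h1
    · exact Or.inr h1
    · exact absurd (h1 ▸ h.Xm) hXr
  · intro r hr hXr
    rcases h.nU0.all r hr with h1 | h1 | h1
    · exact absurd (h1 ▸ (h.Xp _ hk).1) hXr
    · exact absurd (h1 ▸ h.Xv _ hk) hXr
    · exact h1
  · intro r hr hXr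
    rcases h.nVk.all r hr with h1 | h1 | h1
    · exact absurd (h1 ▸ h.Xu _ hk1) hXr
    · exact absurd (h1 ▸ (h.Xp _ hk1).2) hXr
    · exact h1
  · intro r hr hXr
    rcases h.nZ0.all r hr with h1 | h1 | h1
    · exact Or.inl h1
    · exact Or.inr h1
    · exact absurd (h1 ▸ hXr) h.Yw
  · intro r hr hXr
    rcases h.nZ1.all r hr with h1 | h1 | h1
    · exact Or.inl h1
    · exact Or.inr h1
    · exact absurd (h1 ▸ hXr) h.Yx

end

end Helper17.L9
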