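import Pool.Agent.helper40.L9.JDefs
import Pool.Agent.helper17.L9.LoopGraph

/-!
# States of the joint stage as parity states for a changed cut

`cutX X L f`: labelled vertices are on the side given by the parity of their label.  A state of
the joint stage is a parity state for this cut (`jst_st`), and an extension in parity of this
parity state gives a state of the joint stage (`st_jst`).

`near_inner`: an unlabelled vertex with two own neighbours is not near a bad vertex.
`link_conf`: an unlabelled link has at most two conflicts besides its ends.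
-/

set_option autoImplicit false
set_option linter.unusedSectionVars false

namespace Helper17.L9

open Finset Classical Helper33.L9
open Helper42.L9 hiding near
open Pool.Agent.helper58.L9
open Pool.Agent.helper40.L9 (ParOK JSt Bad Tol)

variable {V : Type*} [Fintype V] {G : SimpleGraph V} {X L : V → Prop} {f : V → ℕ}

/-- the cut of a state -/
def cutX (X L : V → Prop) (f : V → ℕ) (v : V) : Prop := (L v ∧ Even (f v)) ∨ (¬ L v ∧ X v)

theorem cutX_L {v : V} (h : L v) : cutX X L f v ↔ Even (f v) := by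
  unfold cutX
  tauto

theorem cutX_nL {v : V} (h : ¬ L v) : cutX X L f v ↔ X v := by
  unfold cutX
  tauto

theorem cutX_ok {v : V} (h : L v → ¬ Bad X f v) : cutX X L f v ↔ X v := by
  by_cases hv : L v
  · have := h hv
    unfold Bad at this
    rw [cutX_L hv]
    tauto
  · exact cutX_nL hv

theorem jst_st (h : JSt G X L f) :
    St G.Adj (qadj G (cutX X L f)) (Helper33.L9.near G) (cutX X L f) L (fun _ => False) f := by
  refine ⟨⟨fun v hv => h.le v hv.1, fun v hv => cutX_L hv.1, fun u v hu hv hq =>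
    h.ne u v hu.1 hv.1 hq.2, fun u v hu hv ha _ he => ?_⟩, fun _ h => h.elim, fun _ h => h.elim,
    fun _ _ h => h.elim, fun _ _ h => h.elim, fun _ _ h => h.elim⟩
  rcases h.adj u v hu.1 hv.1 ha with h1 | h1 <;> omega

theorem st_jst {L' : V → Prop} {g : V → ℕ} (h : JSt G X L f) (hLL : ∀ x, L x → L' x)
    (hg : ∀ x, L x → g x = f x)
    (st : St G.Adj (qadj G (cutX X L f)) (Helper33.L9.near G) (cutX X L f) L'
      (fun _ => False) g) : JSt G X L' g := by
  have par : ∀ x, L' x → (cutX X L f x ↔ Even (g x)) := fun x hx => st.par.par x ⟨hx, id⟩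
  have old : ∀ e, L' e → Bad X g e → L e := by
    intro e he hb
    by_contra hn
    exact hb ((cutX_nL hn).symm.trans (par e he))
  have hne : ∀ u v, L' u → L' v → Helper33.L9.near G u v → g u ≠ g v := by
    intro u v hu hv hn
    by_cases hc : cutX X L f u ↔ cutX X L f v
    · exact st.par.q u v ⟨hu, id⟩ ⟨hv, id⟩ ⟨hc, hn⟩
    · intro he
      apply hc
      rw [par u hu, par v hv, he]
  refine ⟨fun v hv => st.par.le v ⟨hv, id⟩, fun u v hu hv ha => ?_, hne, ?_, ?_⟩
  · have h0 := hne u v hu hv ⟨ha.ne, Or.inl ha⟩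
    by_cases hc : cutX X L f u ↔ cutX X L f v
    · have h1 := par u hu
      have h2 := par v hv
      have h3 : Even (g u) ↔ Even (g v) := h1.symm.trans (hc.trans h2)
      rw [Nat.even_iff, Nat.even_iff] at h3
      omega
    · have h1 := st.par.cross u v ⟨hu, id⟩ ⟨hv, id⟩ ha hc
      have h2 := st.par.cross v u ⟨hv, id⟩ ⟨hu, id⟩ ha.symm (fun hh => hc hh.symm)
      omega
  · intro e v he hb ha
    have h1 := old e he hb
    have h2 : Bad X f e := by
      unfold Bad at hb ⊢
      rwa [hg e h1] at hb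
    exact hLL v (h.adjL e v h1 h2 ha)
  · intro e v he hb hv hn
    have h1 := old e he hb
    have h2 : Bad X f e := by
      unfold Bad at hb ⊢
      rwa [hg e h1] at hb
    obtain ⟨c2, b, hvb, hLb, cb, heb, hall⟩ := h.tol e v h1 h2 (fun hh => hv (hLL v hh)) hn
    refine ⟨c2, b, hvb, hLL b hLb, cb, heb, fun e' he' hne' => ?_⟩
    obtain ⟨k1, k2⟩ := hall e' he' hne'
    refine ⟨hLL e' k1, fun hbad => k2 ?_⟩
    unfold Bad at hbad ⊢
    rwa [hg e' k1] at hbad

/-- an unlabelled vertex with two own neighbours is not near a bad vertex -/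
theorem near_inner (h : JSt G X L f) {u x : V} (hu : ¬ L u) (cu : cc G X u = 3)
    (hn : Helper33.L9.near G u x) : cutX X L f x ↔ X x := by
  refine cutX_ok fun hx hb => ?_
  have := (h.tol x u hx hb hu (Helper33.L9.near_symm hn)).1
  omega

/-- a neighbour of an unlabelled vertex is not bad -/
theorem adj_ok (h : JSt G X L f) {u x : V} (hu : ¬ L u) (ha : G.Adj u x) :
    cutX X L f x ↔ X x := by
  refine cutX_ok fun hx hb => hu (h.adjL x u hx hb ha.symm)

section

variable (hcub : ∀ v, (univ.filter fun b => G.Adj v b).card = 3)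

include hcub in
/-- conflicts of an unlabelled link `y` with the unlabelled neighbours `a`, `c` on the other side,
which have no further cross neighbours, and the own neighbour `b` -/
theorem link_conf (h : JSt G X L f) {a b c y a1 a2 c1 c2 : V} (hb : NMAt G X b) (hy : ¬ L y)
    (ha : ¬ L a) (hc : ¬ L c) (nY : Nb G y a c b) (nA : Nb G a a1 a2 y) (nC : Nb G c c1 c2 y)
    (Yy : ¬ X y) (Yb : ¬ X b) (Xa : X a) (Xc : X c) (Xa1 : X a1) (Xa2 : X a2) (Xc1 : X c1)
    (Xc2 : X c2) :
    ∃ o o' : V, ∀ r, qadj G (cutX X L f) y r → r = o ∨ r = o' := by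
  have cy : ¬ cutX X L f y := fun hh => Yy ((cutX_nL hy).mp hh)
  have ca : cutX X L f a := (cutX_nL ha).mpr Xa
  have cc' : cutX X L f c := (cutX_nL hc).mpr Xc
  have ca1 : cutX X L f a1 := (adj_ok h ha nA.ha).mpr Xa1
  have ca2 : cutX X L f a2 := (adj_ok h ha nA.hb).mpr Xa2
  have cc1 : cutX X L f c1 := (adj_ok h hc nC.ha).mpr Xc1
  have cc2 : cutX X L f c2 := (adj_ok h hc nC.hb).mpr Xc2
  -- reduction to the neighbours of `b`
  have red : ∀ o' : V, (∀ r, G.Adj b r → r ≠ y → ¬ cutX X L f r →
      Helper33.L9.near G y r → r = o') →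
      ∀ r, qadj G (cutX X L f) y r → r = b ∨ r = o' := by
    intro o' ho r hr
    obtain ⟨h1, h2, h3⟩ := q_cases nY hr
    have h4 : ¬ cutX X L f r := fun hh => cy (h1.mpr hh)
    rcases h3 with h3 | h3 | h3 | h3 | h3 | h3
    · exact absurd (h3 ▸ ca) h4
    · exact absurd (h3 ▸ cc') h4
    · exact Or.inl h3
    · rcases nA.all r h3 with h5 | h5 | h5
      · exact absurd (h5 ▸ ca1) h4
      · exact absurd (h5 ▸ ca2) h4
      · exact absurd h5.symm h2
    · rcases nC.all r h3 with h5 | h5 | h5
      · exact absurd (h5 ▸ cc1) h4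
      · exact absurd (h5 ▸ cc2) h4
      · exact absurd h5.symm h2
    · exact Or.inr (ho r h3 h2.symm h4 hr.2)
  by_cases hex : ∃ e, L e ∧ Bad X f e ∧ Helper33.L9.near G e y
  · obtain ⟨e, he, hbe, hn⟩ := hex
    obtain ⟨cc2y, b', hyb', hLb', cb', heb', hall⟩ := h.tol e y he hbe hy hn
    have hbb : b' = b := own_one' hcub cc2y hyb' ⟨nY.hc, iff_of_false Yy Yb⟩
    subst hbb
    refine ⟨b', e, red e fun r hr hry hcr _ => ?_⟩
    by_cases hs : X r ↔ X b'
    · exact absurd (own_one' hcub cb' ⟨hr, hs.symm⟩ (Helper33.L9.ownR_symm hyb')) hry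
    · by_contra hre
      obtain ⟨k1, k2⟩ := hall r (mem_cr.mpr ⟨hr, hs⟩) hre
      have hXr : X r := by
        by_contra hh
        exact hs (iff_of_false hh Yb)
      exact hcr ((cutX_ok (fun _ => k2)).mpr hXr)
  · obtain ⟨c', hc', _⟩ := second_at hb nY.hc.symm
    refine ⟨b, c', red c' fun r hr hry hcr hn => ?_⟩
    have hok : cutX X L f r ↔ X r :=
      cutX_ok fun hL hB => hex ⟨r, hL, hB, Helper33.L9.near_symm hn⟩
    have hXr : ¬ X r := fun hh => hcr (hok.mpr hh)
    exact hc' r hr (iff_of_false hXr Yy) hry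

end

end Helper17.L9
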