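import Pool.Agent.helper17.L9.LoopMain
import Pool.Agent.helper33.L9.LoopRecog

/-!
# The region theorem for loops: both sides
-/

set_option autoImplicit false
set_option linter.unusedSectionVars false

namespace Helper17.L9

open Finset Classical Helper33.L9
open Helper42.L9 hiding near
open Pool.Agent.helper58.L9

variable {V : Type*} [Fintype V] {G : SimpleGraph V} {X D : V → Prop} {k : ℕ}
  {u v p q y : ℕ → V} {t z0 z1 : V}

theorem cc_refl : cc G (fun v => ¬ X v) = cc G X := by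
  funext v
  have e3 : cr G (fun v => ¬ X v) v = cr G X v := by
    unfold cr
    ext w
    simp only [Finset.mem_filter, Finset.mem_univ, true_and, not_iff_not]
  unfold cc
  rw [e3]

theorem ownR_refl : ownR G (fun v => ¬ X v) = ownR G X := by
  funext a b
  unfold ownR
  rw [not_iff_not]

theorem invZ_refl {Z : Finset V} (h : InvZ G X Z) : InvZ G (fun v => ¬ X v) Z := by
  refine ⟨fun c hc i => ?_, ?_, ?_⟩
  · refine h.C c ⟨⟨hc.cyc.inj, hc.cyc.adj, fun j => ?_⟩, fun j u h1 h2 => ?_,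
      fun j u x h1 h2 h3 h4 => ?_⟩ i
    · have := hc.cyc.side j
      rw [not_iff_not] at this
      exact this
    · exact hc.own j u h1 (by rw [not_iff_not]; exact h2)
    · have := hc.out j u x h1 (by rw [not_iff_not]; exact h2) h3 h4
      rw [not_iff_not] at this
      exact this
  · intro w hw a b ha hb
    rw [ownR_refl] at ha hb
    exact h.own1 w hw a b ha hb
  · intro y hy h2
    rw [cc_refl] at h2
    obtain ⟨r, h3, h4, h5⟩ := h.crs y hy h2
    exact ⟨r, h3, by rw [not_iff_not]; exact h4, h5⟩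

theorem not_not_fun : (fun v => ¬ ¬ X v) = X := by
  funext v
  simp

theorem region_refl {Z Lam : Finset V} (h : Region G (fun v => ¬ X v) Z Lam) :
    Region G X Z Lam := by
  refine ⟨h.sub, h.ne, ?_, fun E f st => ?_⟩
  · have := invZ_refl h.inv
    rw [not_not_fun] at this
    exact this
  · have h1 : StG G (fun v => ¬ X v) (fun v => v ∈ Z \ Lam) E (fun v => 9 - f v) := by
      have := st.refl relG
      rw [← qadj_refl] at this
      exact this
    obtain ⟨E', f', st'⟩ := h.ext E _ h1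
    refine ⟨E', fun v => 9 - f' v, ?_⟩
    have st2 := st'.refl relG
    rw [not_not_fun, qadj_refl] at st2
    exact st2

theorem LoopG.refl (h : LoopG G X k u v p q y t z0 z1) :
    LoopG G (fun v => ¬ X v) k u v p q y t z0 z1 where
  cu := by rw [cc_refl]; exact h.cu
  cv := by rw [cc_refl]; exact h.cv
  cp := by rw [cc_refl]; exact h.cp
  cq := by rw [cc_refl]; exact h.cq
  up := by rw [ownR_refl]; exact h.up
  uv := by rw [ownR_refl]; exact h.uv
  vq := by rw [ownR_refl]; exact h.vq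
  vy := fun i hi => ⟨(h.vy i hi).1, by rw [not_iff_not]; exact (h.vy i hi).2⟩
  yu := fun i hi => ⟨(h.yu i hi).1, by rw [not_iff_not]; exact (h.yu i hi).2⟩
  uu := h.uu
  vv := h.vv
  ne := h.ne
  k0 := h.k0
  ct := by rw [cc_refl]; exact h.ct
  tz0 := ⟨h.tz0.1, by rw [not_iff_not]; exact h.tz0.2⟩
  tz1 := ⟨h.tz1.1, by rw [not_iff_not]; exact h.tz1.2⟩
  zu := ⟨h.zu.1, by rw [not_iff_not]; exact h.zu.2⟩
  zv := ⟨h.zv.1, by rw [not_iff_not]; exact h.zv.2⟩
  zz := h.zz
  ends := h.ends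

/-- the vertices of `D` are not own neighbours of the apex and of the link vertices -/
def LA (G : SimpleGraph V) (X D : V → Prop) (k : ℕ) (y : ℕ → V) (t z0 z1 : V) : Prop :=
  ∀ r a, (r = t ∨ r = z0 ∨ r = z1 ∨ ∃ i, i + 1 < k ∧ r = y i) → ownR G X r a → ¬ D a

theorem loopG_region_pos (hW : OffW G X D)
    (hcub : ∀ v, (univ.filter fun b => G.Adj v b).card = 3)
    (h : LoopG G X k u v p q y t z0 z1) {Z : Finset V} (hI : InvZ G X Z) (htZ : t ∈ Z)
    (hZ : ∀ i, i < k → u i ∈ Z ∧ v i ∈ Z ∧ p i ∈ Z ∧ q i ∈ Z)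
    (hA : LA G X D k y t z0 z1) (hR : NoRepair G X D) (Xt : X t) :
    ∃ Lam, Region G X Z Lam ∧ ∀ r ∈ Lam, Helper33.Off.Far G D r := by
  obtain ⟨o, m, w, x, hg⟩ := h.lg hW hcub Xt
  have hk := h.k0
  have hk1 : k - 1 < k := by omega
  have link : ∀ {a b c : V}, a ∈ Z → b ∈ Z → a ≠ b → G.Adj a c → G.Adj b c → X a → X b →
      ¬ X c → c ∈ Z := by
    intro a b c ha hb hab h1 h2 Xa Xb Xc
    exact (link_off hW hcub hI ha hb hab (mem_cr.mpr ⟨h1, fun hh => Xc (hh.mpr Xa)⟩)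
      (mem_cr.mpr ⟨h2, fun hh => Xc (hh.mpr Xb)⟩)).1
  have nend : ∀ a, cc G X a = 2 → ¬ D a := by
    intro a ha
    have h1 := cc_two'.mp ha
    obtain ⟨b, hb⟩ : (cr G X a).Nonempty := by
      rw [← Finset.card_pos]
      omega
    have h2 := mem_cr.mp hb
    exact hW.nD h2.1 h2.2
  have nu : ∀ i, i < k → ¬ D (u i) := by
    intro i hi
    rcases Nat.eq_zero_or_pos i with h0 | h0
    · subst h0
      exact hW.nD h.zu.1.symm (fun hh => hg.Z0 (hh.mpr (hg.Xu 0 hi)))
    · obtain ⟨j, rfl⟩ : ∃ j, i = j + 1 := ⟨i - 1, by omega⟩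
      exact hW.nD (h.yu j hi).1.symm (h.yu j hi).2
  have nv : ∀ i, i < k → ¬ D (v i) := by
    intro i hi
    by_cases h0 : i + 1 < k
    · exact hW.nD (h.vy i h0).1 (h.vy i h0).2
    · have : i = k - 1 := by omega
      subst this
      exact hW.nD h.zv.1.symm (fun hh => hg.Z1 (hh.mpr (hg.Xv _ hi)))
  refine hg.region hW hcub hI ?_ (fun i hi => ⟨(hZ i hi).2.2.1, (hZ i hi).2.2.2⟩) ?_ hR
  · intro r hr
    rcases (LSet_iff hk r).mp hr with h1 | h1 | h1 | ⟨i, hi, h1 | h1⟩ | ⟨i, hi, h1⟩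
    · rw [h1]; exact htZ
    · rw [h1]
      exact link htZ (hZ 0 hk).1 (hg.t_ne hk).1 h.tz0.1 h.zu.1.symm Xt (hg.Xu 0 hk) hg.Z0
    · rw [h1]
      exact link htZ (hZ _ hk1).2.1 (hg.t_ne hk1).2 h.tz1.1 h.zv.1.symm Xt (hg.Xv _ hk1) hg.Z1
    · rw [h1]; exact (hZ i hi).1
    · rw [h1]; exact (hZ i hi).2.1
    · rw [h1]
      exact link (hZ i (by omega)).2.1 (hZ _ hi).1 (h.ne _ _ hi (by omega)).symm (h.vy i hi).1
        (h.yu i hi).1.symm (hg.Xv i (by omega)) (hg.Xu _ hi) (hg.Yy i hi)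
  · intro r a hr ha
    rcases (LSet_iff hk r).mp hr with h1 | h1 | h1 | ⟨i, hi, h1 | h1⟩ | ⟨i, hi, h1⟩
    · exact hA r a (Or.inl h1) ha
    · exact hA r a (Or.inr (Or.inl h1)) ha
    · exact hA r a (Or.inr (Or.inr (Or.inl h1))) ha
    · rw [h1] at ha
      rcases hg.adj_u hi ha.1 (ha.2.mp (hg.Xu i hi)) with h2 | h2
      · rw [h2]; exact nend _ (h.cp i hi)
      · rw [h2]; exact nv i hi
    · rw [h1] at ha
      rcases hg.adj_v hi ha.1 (ha.2.mp (hg.Xv i hi)) with h2 | h2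
      · rw [h2]; exact nu i hi
      · rw [h2]; exact nend _ (h.cq i hi)
    · exact hA r a (Or.inr (Or.inr (Or.inr ⟨i, hi, h1⟩))) ha

/-- **A loop whose vertices are in `Z` gives a region**, for a cut with monochromatic
neighbourhoods in `D`; the apex and the link vertices are not legs; the region contains no root
and no leg. -/
theorem loopG_region_all (hW : OffW G X D)
    (hcub : ∀ v, (univ.filter fun b => G.Adj v b).card = 3)
    (h : LoopG G X k u v p q y t z0 z1) {Z : Finset V} (hI : InvZ G X Z) (htZ : t ∈ Z)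
    (hZ : ∀ i, i < k → u i ∈ Z ∧ v i ∈ Z ∧ p i ∈ Z ∧ q i ∈ Z)
    (hA : LA G X D k y t z0 z1) (hR : NoRepair G X D) :
    ∃ Lam, Region G X Z Lam ∧ ∀ r ∈ Lam, Helper33.Off.Far G D r := by
  by_cases Xt : X t
  · exact loopG_region_pos hW hcub h hI htZ hZ hA hR Xt
  · have hA' : LA G (fun v => ¬ X v) D k y t z0 z1 := by
      intro r a hr ha
      rw [ownR_refl] at ha
      exact hA r a hr ha
    obtain ⟨Lam, hL, hF⟩ := loopG_region_pos hW.refl hcub h.refl (invZ_refl hI) htZ hZ hA'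
      hR.refl Xt
    exact ⟨Lam, region_refl hL, hF⟩

/-- the same with the (not needed) hypothesis that the apex is not the end of a long leg -/
theorem loopG_region_off (hW : OffW G X D)
    (hcub : ∀ v, (univ.filter fun b => G.Adj v b).card = 3)
    (h : LoopG G X k u v p q y t z0 z1) {Z : Finset V} (hI : InvZ G X Z) (htZ : t ∈ Z)
    (hZ : ∀ i, i < k → u i ∈ Z ∧ v i ∈ Z ∧ p i ∈ Z ∧ q i ∈ Z)
    (hA : LA G X D k y t z0 z1) (_hT : ∀ a b, ownR G X t a → ownR G X a b → ¬ D b)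
    (hR : NoRepair G X D) : ∃ Lam, Region G X Z Lam ∧ ∀ r ∈ Lam, Helper33.Off.Far G D r :=
  loopG_region_all hW hcub h hI htZ hZ hA hR

/-- **A loop whose vertices are in `Z` gives a region.** -/
theorem loopG_region (hX : NoMono G X)
    (hcub : ∀ v, (univ.filter fun b => G.Adj v b).card = 3)
    (h : LoopG G X k u v p q y t z0 z1) {Z : Finset V} (hI : InvZ G X Z) (htZ : t ∈ Z)
    (hZ : ∀ i, i < k → u i ∈ Z ∧ v i ∈ Z ∧ p i ∈ Z ∧ q i ∈ Z) :
    ∃ Lam, Region G X Z Lam := by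
  obtain ⟨Lam, hL, _⟩ := loopG_region_all (OffW.of hX) hcub h hI htZ hZ (fun _ _ _ _ hh => hh)
    (NoRepair.of hX)
  exact ⟨Lam, hL⟩

/-- **The region theorem for loops.** -/
theorem loop_region (hX : NoMono G X) (hcub : ∀ v, (univ.filter fun b => G.Adj v b).card = 3)
    (hst : ∀ v, StarAt G X v) : LoopRegion G X := by
  intro Z S hI hS t h2 hL
  obtain ⟨k, u, v, p, q, y, z0, z1, h, htS, hmem⟩ := loopG_of hX hcub hI hS hst h2 hL
  exact loopG_region hX hcub h hI (hS.1 htS) (fun i hi =>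
    ⟨hS.1 (hmem i hi).1, hS.1 (hmem i hi).2.1, hS.1 (hmem i hi).2.2.1, hS.1 (hmem i hi).2.2.2⟩)

end Helper17.L9
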