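import Pool.Agent.helper17.L9.JState
import Pool.Agent.helper17.L9.LoopRegion

/-!
# Steps and reflection for states of the joint stage

`jst_step`: one more vertex; `jst_one`: in parity; `jst_bad`: in wrong parity.
`jst_refl`, `wire_refl`, `u5_refl`, `jextAt_refl`: reflection.
-/

set_option autoImplicit false
set_option linter.unusedSectionVars false

namespace Helper17.L9

open Finset Classical Helper33.L9
open Helper42.L9 hiding near
open Pool.Agent.helper58.L9
open Pool.Agent.helper40.L9 (ParOK JSt Bad Tol LamU JExt)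

variable {V : Type*} [Fintype V] {G : SimpleGraph V} {X L L' : V → Prop} {f g : V → ℕ}

theorem bad_congr {e : V} (h : g e = f e) : Bad X g e ↔ Bad X f e := by
  unfold Bad
  rw [h]

theorem tol_mono {e v : V} (hLL : ∀ x, L x → L' x) (hg : ∀ x, L x → g x = f x)
    (h : Tol G X L f e v) : Tol G X L' g e v := by
  obtain ⟨c2, b, hvb, hLb, cb, heb, hall⟩ := h
  refine ⟨c2, b, hvb, hLL b hLb, cb, heb, fun e' he' hne' => ?_⟩
  obtain ⟨k1, k2⟩ := hall e' he' hne'
  exact ⟨hLL e' k1, fun hbad => k2 ((bad_congr (hg e' k1)).mp hbad)⟩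

/-- one more vertex -/
theorem jst_step (h : JSt G X L f) {u : V} {l : ℕ} (hu : ¬ L u) (hl : l ≤ 9)
    (hadj : ∀ x, G.Adj u x → L x → l + 2 ≤ f x ∨ f x + 2 ≤ l)
    (hne : ∀ x, Helper33.L9.near G u x → L x → f x ≠ l)
    (hbad : ¬ (X u ↔ Even l) → (∀ x, G.Adj u x → L x) ∧
      ∀ x, Helper33.L9.near G u x → ¬ L x →
        Tol G X (fun x => L x ∨ x = u) (fun x => if x = u then l else f x) u x) :
    JSt G X (fun x => L x ∨ x = u) (fun x => if x = u then l else f x) := by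
  have hg : ∀ x, L x → (if x = u then l else f x) = f x := by
    intro x hx
    have hxu : x ≠ u := fun he => hu (he ▸ hx)
    rw [if_neg hxu]
  have hg' : (if u = u then l else f u) = l := if_pos rfl
  refine ⟨?_, ?_, ?_, ?_, ?_⟩
  · rintro v (hv | rfl)
    · beta_reduce
      rw [hg v hv]
      exact h.le v hv
    · beta_reduce
      rw [if_pos rfl]
      exact hl
  · rintro a b (ha | rfl) (hb | rfl) hab
    · beta_reduce
      rw [hg a ha, hg b hb]
      exact h.adj a b ha hb hab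
    · beta_reduce
      rw [hg a ha, if_pos rfl]
      exact (hadj a hab.symm ha).symm
    · beta_reduce
      rw [hg b hb, if_pos rfl]
      exact hadj b hab hb
    · exact absurd hab (G.loopless.irrefl _)
  · rintro a b (ha | rfl) (hb | rfl) hab
    · beta_reduce
      rw [hg a ha, hg b hb]
      exact h.ne a b ha hb hab
    · beta_reduce
      rw [hg a ha, if_pos rfl]
      exact hne a (Helper33.L9.near_symm hab) ha
    · beta_reduce
      rw [hg b hb, if_pos rfl]
      exact (hne b hab hb).symm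
    · exact absurd rfl hab.1
  · rintro e v (he | rfl) hb hev
    · exact Or.inl (h.adjL e v he ((bad_congr (hg e he)).mp hb) hev)
    · have hb' : ¬ (X e ↔ Even l) := by
        unfold Bad at hb
        beta_reduce at hb
        rw [if_pos rfl] at hb
        exact hb
      exact Or.inl ((hbad hb').1 v hev)
  · rintro e v (he | rfl) hb hv hn
    · exact tol_mono (fun x hx => Or.inl hx) hg
        (h.tol e v he ((bad_congr (hg e he)).mp hb) (fun hh => hv (Or.inl hh)) hn)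
    · have hb' : ¬ (X e ↔ Even l) := by
        unfold Bad at hb
        beta_reduce at hb
        rw [if_pos rfl] at hb
        exact hb
      exact (hbad hb').2 v hn (fun hh => hv (Or.inl hh))

/-- one more vertex, in parity -/
theorem jst_one (h : JSt G X L f) {u : V} {l : ℕ} (hu : ¬ L u) (hl : l ≤ 9)
    (hpar : X u ↔ Even l)
    (hadj : ∀ x, G.Adj u x → L x → l + 2 ≤ f x ∨ f x + 2 ≤ l)
    (hne : ∀ x, Helper33.L9.near G u x → L x → f x ≠ l) :
    ∃ g : V → ℕ, g u = l ∧ (∀ x, x ≠ u → g x = f x) ∧ JSt G X (fun x => L x ∨ x = u) g :=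
  ⟨fun x => if x = u then l else f x, if_pos rfl, fun _ hx => if_neg hx,
    jst_step h hu hl hadj hne (fun hh => absurd hpar hh)⟩

/-- one more vertex, in wrong parity -/
theorem jst_bad (h : JSt G X L f) {u : V} {l : ℕ} (hu : ¬ L u) (hl : l ≤ 9)
    (hadj : ∀ x, G.Adj u x → L x → l + 2 ≤ f x ∨ f x + 2 ≤ l)
    (hne : ∀ x, Helper33.L9.near G u x → L x → f x ≠ l)
    (hN : ∀ x, G.Adj u x → L x)
    (hT : ∀ x, Helper33.L9.near G u x → ¬ L x → cc G X x = 2 ∧ ∃ b, ownR G X x b ∧ L b ∧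
      cc G X b = 2 ∧ u ∈ cr G X b ∧ ∀ e' ∈ cr G X b, e' ≠ u → L e' ∧ ¬ Bad X f e') :
    ∃ g : V → ℕ, g u = l ∧ (∀ x, x ≠ u → g x = f x) ∧ JSt G X (fun x => L x ∨ x = u) g := by
  refine ⟨fun x => if x = u then l else f x, if_pos rfl, fun _ hx => if_neg hx,
    jst_step h hu hl hadj hne (fun _ => ⟨hN, fun x hx hLx => ?_⟩)⟩
  obtain ⟨c2, b, hvb, hLb, cb, heb, hall⟩ := hT x hx hLx
  refine ⟨c2, b, hvb, Or.inl hLb, cb, heb, fun e' he' hne' => ?_⟩
  obtain ⟨k1, k2⟩ := hall e' he' hne'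
  refine ⟨Or.inl k1, fun hb => k2 ?_⟩
  refine (bad_congr ?_).mp hb
  rw [if_neg hne']

/-! ### reflection -/

theorem even_nine_sub {n : ℕ} (h : n ≤ 9) : Even (9 - n) ↔ ¬ Even n := by
  rw [Nat.even_iff, Nat.even_iff]
  omega

theorem bad_refl {e : V} (h : f e ≤ 9) :
    Bad (fun v => ¬ X v) (fun v => 9 - f v) e ↔ Bad X f e := by
  unfold Bad
  beta_reduce
  rw [even_nine_sub h]
  tauto

theorem cr_refl {v : V} : cr G (fun v => ¬ X v) v = cr G X v := by
  unfold cr
  ext w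
  simp only [Finset.mem_filter, Finset.mem_univ, true_and, not_iff_not]

theorem jst_refl (h : JSt G X L f) : JSt G (fun v => ¬ X v) L (fun v => 9 - f v) := by
  refine ⟨fun v _ => by omega, ?_, ?_, ?_, ?_⟩
  · intro a b ha hb hab
    have h1 := h.le a ha
    have h2 := h.le b hb
    rcases h.adj a b ha hb hab with h3 | h3 <;> omega
  · intro a b ha hb hab
    have h1 := h.le a ha
    have h2 := h.le b hb
    have h3 := h.ne a b ha hb hab
    beta_reduce
    omega
  · intro e v he hb hev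
    exact h.adjL e v he ((bad_refl (h.le e he)).mp hb) hev
  · intro e v he hb hv hn
    obtain ⟨c2, b, hvb, hLb, cb, heb, hall⟩ := h.tol e v he ((bad_refl (h.le e he)).mp hb) hv hn
    refine ⟨by rw [cc_refl]; exact c2, b, by rw [ownR_refl]; exact hvb, hLb,
      by rw [cc_refl]; exact cb, by rw [cr_refl]; exact heb, fun e' he' hne' => ?_⟩
    rw [cr_refl] at he'
    obtain ⟨k1, k2⟩ := hall e' he' hne'
    exact ⟨k1, fun hh => k2 ((bad_refl (h.le e' k1)).mp hh)⟩

theorem jst_refl' (h : JSt G (fun v => ¬ X v) L f) : JSt G X L (fun v => 9 - f v) := by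
  have := jst_refl h
  rw [not_not_fun] at this
  exact this

variable {Z S : Finset V} {k : ℕ} {p u v q y : ℕ → V} {σ τ : V}

theorem P4_refl {a b c d : V} (h : P4 G X a b c d) : P4 G (fun v => ¬ X v) a b c d where
  pu := by rw [ownR_refl]; exact h.pu
  uv := by rw [ownR_refl]; exact h.uv
  vq := by rw [ownR_refl]; exact h.vq
  cp := by rw [cc_refl]; exact h.cp
  cu := by rw [cc_refl]; exact h.cu
  cv := by rw [cc_refl]; exact h.cv
  cq := by rw [cc_refl]; exact h.cq
  pq := h.pq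

theorem wire_refl (h : Helper33.L9.Wire G X Z S k p u v q y σ τ) :
    Helper33.L9.Wire G (fun v => ¬ X v) Z S k p u v q y σ τ where
  σS := h.σS
  τS := h.τS
  side := by rw [not_iff_not]; exact h.side
  unit := fun i hi => P4_refl (h.unit i hi)
  sides := fun i hi => by rw [not_iff_not]; exact h.sides i hi
  mem := h.mem
  cu := fun i hi => by rw [cr_refl]; exact h.cu i hi
  cv := fun i hi => by rw [cr_refl]; exact h.cv i hi
  link := fun i hi => by rw [cr_refl]; exact h.link i hi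
  lne := h.lne
  yZ := h.yZ
  y2 := fun i hi => by rw [cc_refl]; exact h.y2 i hi
  nuu := h.nuu
  nvv := h.nvv
  nuv := h.nuv
  nσ := h.nσ
  nτ := h.nτ
  nyy := h.nyy
  p0 := h.p0
  pk := h.pk

theorem u5_refl {v1 v2 v3 v4 v5 z1 z3 z5 l1 l5 : V} {kA kB : ℕ}
    {pA uA vA qA yA pB uB vB qB yB : ℕ → V}
    (h : U5 G X Z S v1 v2 v3 v4 v5 z1 z3 z5 l1 l5 kA kB pA uA vA qA yA pB uB vB qB yB) :
    U5 G (fun v => ¬ X v) Z S v1 v2 v3 v4 v5 z1 z3 z5 l1 l5 kA kB pA uA vA qA yA pB uB vB qB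
      yB where
  o12 := by rw [ownR_refl]; exact h.o12
  o23 := by rw [ownR_refl]; exact h.o23
  o34 := by rw [ownR_refl]; exact h.o34
  o45 := by rw [ownR_refl]; exact h.o45
  c1 := by rw [cc_refl]; exact h.c1
  c2 := by rw [cc_refl]; exact h.c2
  c3 := by rw [cc_refl]; exact h.c3
  c4 := by rw [cc_refl]; exact h.c4
  c5 := by rw [cc_refl]; exact h.c5
  nd := h.nd
  mem := h.mem
  A := wire_refl h.A
  B := wire_refl h.B
  cr1 := by rw [cr_refl]; exact h.cr1
  cr2 := by rw [cr_refl]; exact h.cr2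
  cr3 := by rw [cr_refl]; exact h.cr3
  cr4 := by rw [cr_refl]; exact h.cr4
  cr5 := by rw [cr_refl]; exact h.cr5
  cz1 := by rw [cr_refl]; exact h.cz1
  cz3 := by rw [cr_refl]; exact h.cz3
  cz5 := by rw [cr_refl]; exact h.cz5
  e1 := by rw [cc_refl]; exact h.e1
  e3 := by rw [cc_refl]; exact h.e3
  e5 := by rw [cc_refl]; exact h.e5
  z1y := h.z1y
  z1y' := h.z1y'
  z5y := h.z5y
  z5y' := h.z5y'
  dAB := h.dAB
  dy := h.dy
  noA := h.noA
  noB := h.noB

theorem stuckZ_refl (h : StuckZ G X Z S) : StuckZ G (fun v => ¬ X v) Z S := by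
  refine ⟨h.1, fun v hv => ?_⟩
  have h1 := h.2 v hv
  have e1 : Dq G (fun v => ¬ X v) S v = Dq G X S v := by
    unfold Dq
    rw [qadj_refl]
  have e2 : crW G.Adj (fun v => ¬ X v) Z v = crW G.Adj X Z v := by
    unfold crW
    ext w
    simp only [Finset.mem_filter, not_iff_not]
  rw [e1, e2]
  exact h1

/-- the conclusion of `JExt` for one `U_5` -/
def JExtAt (G : SimpleGraph V) (X : V → Prop) (v1 v2 v3 v4 v5 z1 z3 z5 l1 l5 : V) (kA kB : ℕ)
    (uA vA yA uB vB yB : ℕ → V) : Prop :=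
  ∀ (L : V → Prop) (f : V → ℕ), JSt G X L f →
    (∀ x, LamU v1 v2 v3 v4 v5 kA kB uA vA yA uB vB yB x → ¬ L x) →
    L z1 → L z3 → L z5 → L l1 → L l5 →
    (∀ w, ownR G X z1 w → ¬ L w → ¬ LamU v1 v2 v3 v4 v5 kA kB uA vA yA uB vB yB w →
      cc G X w = 2) →
    (∀ w, ownR G X z5 w → ¬ L w → ¬ LamU v1 v2 v3 v4 v5 kA kB uA vA yA uB vB yB w →
      cc G X w = 2) →
    (∀ b, ownR G X (yA kA) b → ¬ L b → ¬ LamU v1 v2 v3 v4 v5 kA kB uA vA yA uB vB yB b →
      cc G X b = 2) →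
    (∀ b, ownR G X (yB kB) b → ¬ L b → ¬ LamU v1 v2 v3 v4 v5 kA kB uA vA yA uB vB yB b →
      cc G X b = 2) →
    (∀ b, ownR G X (yA kA) b → L b → cc G X b = 3 → ∀ d ∈ cr G X b, ¬ L d → cc G X d = 3) →
    (∀ b, ownR G X (yB kB) b → L b → cc G X b = 3 → ∀ d ∈ cr G X b, ¬ L d → cc G X d = 3) →
    ∃ f' : V → ℕ, JSt G X (fun x => L x ∨ LamU v1 v2 v3 v4 v5 kA kB uA vA yA uB vB yB x) f'

/-- reflection of the conclusion -/
theorem jextAt_refl {v1 v2 v3 v4 v5 z1 z3 z5 l1 l5 : V} {kA kB : ℕ}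
    {uA vA yA uB vB yB : ℕ → V}
    (h : JExtAt G (fun v => ¬ X v) v1 v2 v3 v4 v5 z1 z3 z5 l1 l5 kA kB uA vA yA uB vB yB) :
    JExtAt G X v1 v2 v3 v4 v5 z1 z3 z5 l1 l5 kA kB uA vA yA uB vB yB := by
  intro L f hf h1 h2 h3 h4 h5 h6 h7 h8 h9 h10 h11 h12
  obtain ⟨f', hf'⟩ := h L _ (jst_refl hf) h1 h2 h3 h4 h5 h6 (by rw [ownR_refl, cc_refl]; exact h7)
    (by rw [ownR_refl, cc_refl]; exact h8) (by rw [ownR_refl, cc_refl]; exact h9)
    (by rw [ownR_refl, cc_refl]; exact h10)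
    (by
      intro b hb hLb cb d hd hLd
      rw [cc_refl] at cb ⊢
      rw [cr_refl] at hd
      rw [ownR_refl] at hb
      exact h11 b hb hLb cb d hd hLd)
    (by
      intro b hb hLb cb d hd hLd
      rw [cc_refl] at cb ⊢
      rw [cr_refl] at hd
      rw [ownR_refl] at hb
      exact h12 b hb hLb cb d hd hLd)
  exact ⟨_, jst_refl' hf'⟩

end Helper17.L9
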