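import Pool.Agent.helper17.L9.JWire2

/-!
# Lists of new vertices in parity for a cut; states of the joint stage from parity states

`st_recut`: the cut may be changed at unlabelled vertices.
`st_list`: a list of new vertices with their labels.
`val_of_st`: a parity state for a cut gives a state of the joint stage, if the new vertices where
the cut differs from `X` are allowed to be bad.
-/

set_option autoImplicit false
set_option linter.unusedSectionVars false

namespace Helper17.L9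

open Finset Classical Helper33.L9
open Helper42.L9 hiding near gp
open Pool.Agent.helper58.L9
open Pool.Agent.helper40.L9 (ParOK JSt Bad Tol LamU JExt)

variable {V : Type*} [Fintype V] {G : SimpleGraph V} {X C C' L L' : V → Prop} {f g : V → ℕ}

/-- the cut may be changed at unlabelled vertices -/
theorem st_recut (st : St G.Adj (qadj G C) (Helper33.L9.near G) C L (fun _ => False) f)
    (h : ∀ x, L x → (C' x ↔ C x)) :
    St G.Adj (qadj G C') (Helper33.L9.near G) C' L (fun _ => False) f := by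
  refine ⟨⟨st.par.le, fun v hv => (h v hv.1).trans (st.par.par v hv), fun u v hu hv hq =>
    st.par.q u v hu hv ⟨(h u hu.1).symm.trans (hq.1.trans (h v hv.1)), hq.2⟩,
    fun u v hu hv ha hX => st.par.cross u v hu hv ha fun hh =>
      hX ((h u hu.1).trans (hh.trans (h v hv.1).symm))⟩,
    fun _ h => h.elim, fun _ h => h.elim,
    fun _ _ h => h.elim, fun _ _ h => h.elim, fun _ _ h => h.elim⟩

/-- compatible labels of two new vertices -/
def PairOK (G : SimpleGraph V) (C : V → Prop) (a b : V × ℕ) : Prop :=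
  (a.1 = b.1 → a.2 = b.2) ∧ (Helper33.L9.near G a.1 b.1 → (C a.1 ↔ C b.1) → a.2 ≠ b.2) ∧
  (G.Adj a.1 b.1 → ¬ (C a.1 ↔ C b.1) → a.2 + 1 ≠ b.2 ∧ b.2 + 1 ≠ a.2)


theorem PairOK.symm {a b : V × ℕ} (h : PairOK G C a b) : PairOK G C b a :=
  ⟨fun he => (h.1 he.symm).symm, fun hn hc => (h.2.1 (Helper33.L9.near_symm hn) hc.symm).symm,
    fun ha hc => (h.2.2 ha.symm fun hh => hc hh.symm).symm⟩


theorem PairOK.refl (a : V × ℕ) : PairOK G C a a :=
  ⟨fun _ => rfl, fun hn _ => absurd rfl hn.1, fun _ hc => absurd Iff.rfl hc⟩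

/-- **A list of new vertices with their labels.** -/
theorem st_list (st : St G.Adj (qadj G C) (Helper33.L9.near G) C L (fun _ => False) f)
    (l : List (V × ℕ)) (hL : ∀ a ∈ l, ¬ L a.1) (h9 : ∀ a ∈ l, a.2 ≤ 9)
    (hpar : ∀ a ∈ l, (C a.1 ↔ Even a.2))
    (hq : ∀ a ∈ l, ∀ y, Helper33.L9.near G a.1 y → (C a.1 ↔ C y) → L y → f y ≠ a.2)
    (hc : ∀ a ∈ l, ∀ y, G.Adj a.1 y → ¬ (C a.1 ↔ C y) → L y → a.2 + 1 ≠ f y ∧ f y + 1 ≠ a.2)
    (hp : l.Pairwise (PairOK G C)) :
    ∃ g : V → ℕ, (∀ a ∈ l, g a.1 = a.2) ∧ (∀ x, (∀ a ∈ l, x ≠ a.1) → g x = f x) ∧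
      St G.Adj (qadj G C) (Helper33.L9.near G) C (fun x => L x ∨ ∃ a ∈ l, x = a.1)
        (fun _ => False) g := by
  have : Std.Symm (PairOK G C) := ⟨fun _ _ h => PairOK.symm h⟩
  have hp' : ∀ a ∈ l, ∀ b ∈ l, PairOK G C a b := fun a ha b hb =>
    hp.forall_of_forall (fun a _ => PairOK.refl a) ha hb
  let g : V → ℕ := fun x => if h : ∃ a ∈ l, x = a.1 then (Classical.choose h).2 else f x
  have g1 : ∀ a ∈ l, g a.1 = a.2 := by
    intro a ha
    have hex : ∃ b ∈ l, a.1 = b.1 := ⟨a, ha, rfl⟩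
    have hs := Classical.choose_spec hex
    show (if h : ∃ b ∈ l, a.1 = b.1 then (Classical.choose h).2 else f a.1) = a.2
    rw [dif_pos hex]
    exact ((hp' a ha _ hs.1).1 hs.2).symm
  have g2 : ∀ x, (¬ ∃ a ∈ l, x = a.1) → g x = f x := fun x hx => dif_neg hx
  have gL : ∀ x, L x → g x = f x := by
    intro x hx
    refine g2 x ?_
    rintro ⟨a, ha, he⟩
    exact hL a ha (he ▸ hx)
  have := st.extend relG (fun x => ∃ a ∈ l, x = a.1) (fun _ => False) g
    (by rintro v ⟨a, ha, rfl⟩; exact hL a ha) (fun v hv => hv.elim)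
    (fun v hv _ => g2 v hv)
    (by
      rintro v (⟨a, ha, rfl⟩ | hv)
      · rw [g1 a ha]
        exact h9 a ha
      · exact hv.elim)
    (by
      rintro v ⟨a, ha, rfl⟩
      rw [g1 a ha]
      exact hpar a ha)
    (by
      rintro p q ⟨a, ha, rfl⟩ hq1 (h1 | ⟨b, hb, rfl⟩)
      · rw [g1 a ha, gL q h1.1]
        exact (hq a ha q hq1.2 hq1.1 h1.1).symm
      · rw [g1 a ha, g1 b hb]
        exact (hp' a ha b hb).2.1 hq1.2 hq1.1)
    (by
      rintro p q ⟨a, ha, rfl⟩ hq1 hX (h1 | ⟨b, hb, rfl⟩)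
      · rw [g1 a ha, gL q h1.1]
        exact hc a ha q hq1 hX h1.1
      · rw [g1 a ha, g1 b hb]
        exact (hp' a ha b hb).2.2 hq1 hX)
    (fun _ _ h => h.elim) (fun _ _ h => h.elim) (fun _ _ h => h.elim)
  refine ⟨g, g1, fun x hx => g2 x ?_, this.congr (fun x => by simp) (fun x => by simp)⟩
  rintro ⟨a, ha, he⟩
  exact hx a ha he

/-- **A parity state for a cut gives a state of the joint stage.** -/
theorem val_of_st (h : JSt G X L f) (hLL : ∀ x, L x → L' x) (hg : ∀ x, L x → g x = f x)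
    (st : St G.Adj (qadj G C) (Helper33.L9.near G) C L' (fun _ => False) g)
    (hnew : ∀ x, L' x → ¬ L x → ¬ (X x ↔ C x) → (∀ y, G.Adj x y → L' y) ∧
      ∀ y, Helper33.L9.near G x y → ¬ L' y → Tol G X L' g x y) : JSt G X L' g := by
  have par : ∀ x, L' x → (C x ↔ Even (g x)) := fun x hx => st.par.par x ⟨hx, id⟩
  have hne : ∀ u v, L' u → L' v → Helper33.L9.near G u v → g u ≠ g v := by
    intro u v hu hv hn
    by_cases hc : C u ↔ C v
    · exact st.par.q u v ⟨hu, id⟩ ⟨hv, id⟩ ⟨hc, hn⟩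
    · intro he
      apply hc
      rw [par u hu, par v hv, he]
  have hb' : ∀ e, L e → Bad X g e → Bad X f e := fun e he hb => (bad_congr (hg e he)).mp hb
  have hcb : ∀ e, L' e → Bad X g e → ¬ (X e ↔ C e) := by
    intro e he hb hh
    exact hb (hh.trans (par e he))
  refine ⟨fun v hv => st.par.le v ⟨hv, id⟩, fun u v hu hv ha => ?_, hne, ?_, ?_⟩
  · have h0 := hne u v hu hv ⟨ha.ne, Or.inl ha⟩
    by_cases hc : C u ↔ C v
    · have h1 := par u hu
      have h2 := par v hv
      have h3 : Even (g u) ↔ Even (g v) := h1.symm.trans (hc.trans h2)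
      rw [Nat.even_iff, Nat.even_iff] at h3
      omega
    · have h1 := st.par.cross u v ⟨hu, id⟩ ⟨hv, id⟩ ha hc
      have h2 := st.par.cross v u ⟨hv, id⟩ ⟨hu, id⟩ ha.symm (fun hh => hc hh.symm)
      omega
  · intro e v he hb ha
    by_cases h1 : L e
    · exact hLL v (h.adjL e v h1 (hb' e h1 hb) ha)
    · exact (hnew e he h1 (hcb e he hb)).1 v ha
  · intro e v he hb hv hn
    by_cases h1 : L e
    · exact tol_mono hLL hg (h.tol e v h1 (hb' e h1 hb) (fun hh => hv (hLL v hh)) hn)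
    · exact (hnew e he h1 (hcb e he hb)).2 v hn hv

/-- the conflicts of a vertex `y` with the neighbours `a`, `c` on the other side -/
theorem conf_red {a b c y a1 a2 c1 c2 o' : V} (nY : Nb G y a c b) (nA : Nb G a a1 a2 y)
    (nC : Nb G c c1 c2 y) (cy : ¬ C y) (ca : C a) (cc' : C c) (ca1 : C a1) (ca2 : C a2)
    (cc1 : C c1) (cc2 : C c2)
    (ho : ∀ r, G.Adj b r → r ≠ y → ¬ C r → Helper33.L9.near G y r → r = o') :
    ∀ r, qadj G C y r → r = b ∨ r = o' := by
  intro r hr
  obtain ⟨h1, h2, h3⟩ := q_cases nY hr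
  have h4 : ¬ C r := fun hh => cy (h1.mpr hh)
  rcases h3 with h3 | h3 | h3 | h3 | h3 | h3
  · exact absurd (h3 ▸ ca) h4
  · exact absurd (h3 ▸ cc') h4
  · exact Or.inl h3
  · rcases nA.all r h3 with h5 | h5 | h5
    · exact absurd (h5 ▸ ca1) h4
    · exact absurd (h5 ▸ ca2) h4
    · exact absurd h5.symm h2
  · rcases nC.all r h3 with h5 | h5 | h5
    · exact absurd (h5 ▸ cc1) h4
    · exact absurd (h5 ▸ cc2) h4
    · exact absurd h5.symm h2
  · exact Or.inr (ho r h3 h2.symm h4 hr.2)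

end Helper17.L9
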