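import Pool.Agent.helper17.L9.JState

/-!
# Wires in the joint stage

`wire_cut`: a wire of `helper33` whose units and inner links are unlabelled is a wire (in the sense
of `Helper17.L9.Wire`) for the changed cut.
`wire_fill_jst`: the units and inner links of a wire can be labelled with given labels of `u 0` and
`v (k-1)` if these satisfy the wire relation.
-/

set_option autoImplicit false
set_option linter.unusedSectionVars false

namespace Helper17.L9

open Finset Classical Helper33.L9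
open Helper42.L9 hiding near
open Pool.Agent.helper58.L9
open Pool.Agent.helper40.L9 (ParOK JSt Bad Tol)

variable {V : Type*} [Fintype V] {G : SimpleGraph V} {X L : V → Prop} {f : V → ℕ}
  {Z S : Finset V} {k : ℕ} {p u v q y : ℕ → V} {σ τ : V}

/-- the units and the inner links of a wire -/
def WS (k : ℕ) (u v y : ℕ → V) (x : V) : Prop :=
  (∃ i, i < k ∧ (x = u i ∨ x = v i)) ∨ ∃ i, 0 < i ∧ i < k ∧ x = y i

section

variable (hcub : ∀ v, (univ.filter fun b => G.Adj v b).card = 3)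
  (hw : Helper33.L9.Wire G X Z S k p u v q y σ τ) (Xσ : X σ)

include hw Xσ

theorem wX_u {i : ℕ} (hi : i < k) : X (u i) := (hw.sides i hi).mpr Xσ

theorem wX_v {i : ℕ} (hi : i < k) : X (v i) := (hw.unit i hi).uv.2.mp (wX_u hw Xσ hi)

theorem wX_p {i : ℕ} (hi : i < k) : X (p i) := (hw.unit i hi).pu.2.mpr (wX_u hw Xσ hi)

theorem wX_q {i : ℕ} (hi : i < k) : X (q i) := (hw.unit i hi).vq.2.mp (wX_v hw Xσ hi)

theorem wY {i : ℕ} (hi : i ≤ k) : ¬ X (y i) := by
  have h1 : (if i = k then τ else u i) ∈ cr G X (y i) := by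
    rw [hw.link i hi]
    simp
  have h2 := (mem_cr.mp h1).2
  intro hy
  apply h2
  by_cases h : i = k
  · rw [if_pos h]
    exact iff_of_true (hw.side.mpr Xσ) hy
  · rw [if_neg h]
    exact iff_of_true (wX_u hw Xσ (by omega)) hy

include hcub

theorem wN_u {i : ℕ} (hi : i < k) : Nb G (u i) (p i) (v i) (y i) := by
  have h1 := hw.unit i hi
  have h2 : y i ∈ cr G X (u i) := by
    rw [hw.cu i hi]
    simp
  have ne : ∀ {a b : V}, X a → ¬ X b → a ≠ b := fun ha hb he => hb (he ▸ ha)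
  have hY := wY hw Xσ (i := i) (by omega)
  exact nb_of (fun v => (hcub v).le) h1.pu.1.symm h1.uv.1 (mem_cr.mp h2).1 h1.pv
    (ne (wX_p hw Xσ hi) hY) (ne (wX_v hw Xσ hi) hY)

theorem wN_v {i : ℕ} (hi : i < k) : Nb G (v i) (u i) (q i) (y (i + 1)) := by
  have h1 := hw.unit i hi
  have h2 : y (i + 1) ∈ cr G X (v i) := by
    rw [hw.cv i hi]
    simp
  have ne : ∀ {a b : V}, X a → ¬ X b → a ≠ b := fun ha hb he => hb (he ▸ ha)
  have hY := wY hw Xσ (i := i + 1) (by omega)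
  exact nb_of (fun v => (hcub v).le) h1.uv.1.symm h1.vq.1 (mem_cr.mp h2).1 h1.uq
    (ne (wX_u hw Xσ hi) hY) (ne (wX_q hw Xσ hi) hY)

/-- the neighbours of a link -/
theorem wN_y {i : ℕ} (hi : i ≤ k) : ∃ b, ¬ X b ∧
    Nb G (y i) (if i = 0 then σ else v (i - 1)) (if i = k then τ else u i) b := by
  have h1 : (if i = 0 then σ else v (i - 1)) ∈ cr G X (y i) := by
    rw [hw.link i hi]
    simp
  have h2 : (if i = k then τ else u i) ∈ cr G X (y i) := by
    rw [hw.link i hi]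
    simp
  obtain ⟨b, hb⟩ := nb_third hcub (mem_cr.mp h1).1 (mem_cr.mp h2).1 (hw.lne i hi)
  refine ⟨b, fun hXb => ?_, hb⟩
  have h3 : b ∈ cr G X (y i) :=
    mem_cr.mpr ⟨hb.hc, fun hh => wY hw Xσ hi (hh.mp hXb)⟩
  rw [hw.link i hi, Finset.mem_insert, Finset.mem_singleton] at h3
  rcases h3 with h3 | h3
  · exact hb.ac h3.symm
  · exact hb.bc h3.symm

/-- the neighbours of an inner link -/
theorem wN_y' {i : ℕ} (hi : i + 1 < k) : ∃ b, ¬ X b ∧
    Nb G (y (i + 1)) (v i) (u (i + 1)) b := by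
  have h := wN_y hcub hw Xσ (i := i + 1) (by omega)
  have h1 : ¬ (i + 1 = k) := by omega
  simpa [h1] using h

/-- own neighbours of the end of a unit -/
theorem w_adj_p {i : ℕ} (hi : i < k) {r : V} (hr : G.Adj (p i) r) (hXr : X r) : r = u i :=
  own_one' hcub (hw.unit i hi).cp ⟨hr, iff_of_true (wX_p hw Xσ hi) hXr⟩ (hw.unit i hi).pu

theorem w_adj_q {i : ℕ} (hi : i < k) {r : V} (hr : G.Adj (q i) r) (hXr : X r) : r = v i :=
  own_one' hcub (hw.unit i hi).cq ⟨hr, iff_of_true (wX_q hw Xσ hi) hXr⟩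
    (Helper33.L9.ownR_symm (hw.unit i hi).vq)

/-- the conflicts of `u i` for the changed cut -/
theorem w_conf_u (h : JSt G X L f) {i : ℕ} (hi : i < k) (hu : ¬ L (u i)) {r : V}
    (hr : qadj G (cutX X L f) (u i) r) : X r ∧ u i ≠ r ∧
      (r = p i ∨ r = q i ∨ r = v i ∨ G.Adj (y i) r) := by
  obtain ⟨h1, h2, h3⟩ := q_cases (wN_u hcub hw Xσ hi) hr
  have hok : cutX X L f r ↔ X r := near_inner h hu (hw.unit i hi).cu hr.2
  have hXr : X r := hok.mp (h1.mp ((cutX_nL hu).mpr (wX_u hw Xσ hi)))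
  refine ⟨hXr, h2, ?_⟩
  rcases h3 with h3 | h3 | h3 | h3 | h3 | h3
  · exact Or.inl h3
  · exact Or.inr (Or.inr (Or.inl h3))
  · exact absurd (h3 ▸ hXr) (wY hw Xσ (by omega))
  · exact absurd (w_adj_p hcub hw Xσ hi h3 hXr).symm h2
  · rcases (wN_v hcub hw Xσ hi).all r h3 with h4 | h4 | h4
    · exact absurd h4.symm h2
    · exact Or.inr (Or.inl h4)
    · exact absurd (h4 ▸ hXr) (wY hw Xσ (by omega))
  · exact Or.inr (Or.inr (Or.inr h3))

/-- the conflicts of `v i` for the changed cut -/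
theorem w_conf_v (h : JSt G X L f) {i : ℕ} (hi : i < k) (hv : ¬ L (v i)) {r : V}
    (hr : qadj G (cutX X L f) (v i) r) : X r ∧ v i ≠ r ∧
      (r = p i ∨ r = q i ∨ r = u i ∨ G.Adj (y (i + 1)) r) := by
  obtain ⟨h1, h2, h3⟩ := q_cases (wN_v hcub hw Xσ hi) hr
  have hok : cutX X L f r ↔ X r := near_inner h hv (hw.unit i hi).cv hr.2
  have hXr : X r := hok.mp (h1.mp ((cutX_nL hv).mpr (wX_v hw Xσ hi)))
  refine ⟨hXr, h2, ?_⟩
  rcases h3 with h3 | h3 | h3 | h3 | h3 | h3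
  · exact Or.inr (Or.inr (Or.inl h3))
  · exact Or.inr (Or.inl h3)
  · exact absurd (h3 ▸ hXr) (wY hw Xσ (by omega))
  · rcases (wN_u hcub hw Xσ hi).all r h3 with h4 | h4 | h4
    · exact Or.inl h4
    · exact absurd h4.symm h2
    · exact absurd (h4 ▸ hXr) (wY hw Xσ (by omega))
  · exact absurd (w_adj_q hcub hw Xσ hi h3 hXr).symm h2
  · exact Or.inr (Or.inr (Or.inr h3))

/-- the wire for the changed cut -/
theorem wire_cut (h : JSt G X L f) (hu : ∀ i, i < k → ¬ L (u i)) (hv : ∀ i, i < k → ¬ L (v i))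
    (hy : ∀ i, 0 < i → i < k → ¬ L (y i))
    (hNM : ∀ i, 0 < i → i < k → ∀ b, ownR G X (y i) b → NMAt G X b) :
    ∃ o o' : ℕ → V, Helper17.L9.Wire G.Adj (qadj G (cutX X L f)) (cutX X L f) k u v p q
      (fun i => y (i + 1)) o o' := by
  have hconf : ∀ i, ∃ oo : V × V, i + 1 < k →
      ∀ r, qadj G (cutX X L f) (y (i + 1)) r → r = oo.1 ∨ r = oo.2 := by
    intro i
    by_cases hi : i + 1 < k
    · obtain ⟨b, Yb, hb⟩ := wN_y' hcub hw Xσ hi
      have Yy := wY hw Xσ (i := i + 1) (by omega)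
      obtain ⟨o, o', ho⟩ := link_conf hcub h (hNM (i + 1) (by omega) hi b
        ⟨hb.hc, iff_of_false Yy Yb⟩) (hy (i + 1) (by omega) hi) (hv i (by omega))
        (hu (i + 1) hi) hb (wN_v hcub hw Xσ (i := i) (by omega)) (wN_u hcub hw Xσ hi) Yy Yb
        (wX_v hw Xσ (by omega)) (wX_u hw Xσ hi) (wX_u hw Xσ (by omega))
        (wX_q hw Xσ (by omega)) (wX_p hw Xσ hi) (wX_v hw Xσ hi)
      exact ⟨(o, o'), fun _ => ho⟩
    · exact ⟨(σ, σ), fun hh => absurd hh hi⟩
  choose oo hoo using hconf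
  refine ⟨fun i => (oo i).1, fun i => (oo i).2, ?_⟩
  have Xu : ∀ i, i < k → cutX X L f (u i) := fun i hi =>
    (cutX_nL (hu i hi)).mpr (wX_u hw Xσ hi)
  have Xv : ∀ i, i < k → cutX X L f (v i) := fun i hi =>
    (cutX_nL (hv i hi)).mpr (wX_v hw Xσ hi)
  have Xp : ∀ i, i < k → cutX X L f (p i) := fun i hi =>
    (adj_ok h (hu i hi) (wN_u hcub hw Xσ hi).ha).mpr (wX_p hw Xσ hi)
  have Xq : ∀ i, i < k → cutX X L f (q i) := fun i hi =>
    (adj_ok h (hv i hi) (wN_v hcub hw Xσ hi).hb).mpr (wX_q hw Xσ hi)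
  refine
    { Xu := Xu, Xv := Xv, Yy := ?_, uu := ?_, vv := ?_, uv := ?_, yy := ?_, pn := ?_, qn := ?_
      qU := ?_, qV := ?_, cU := ?_, cV := ?_, qY := hoo, cY := ?_ }
  · intro i hi hh
    exact wY hw Xσ (i := i + 1) (by omega) ((cutX_nL (hy (i + 1) (by omega) hi)).mp hh)
  · intro i j hi hj he
    exact hw.nuu i hi j hj he
  · intro i j hi hj he
    exact hw.nvv i hi j hj he
  · intro i j hi hj
    exact hw.nuv i hi j hj
  · intro i j hi hj he
    have := hw.nyy (i + 1) (by omega) (j + 1) (by omega) he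
    omega
  · intro i j hi hj
    have h1 := (hw.unit i hi).cp
    have h2 := (hw.unit j hj).cu
    have h3 := (hw.unit j hj).cv
    exact ⟨fun he => by rw [he] at h1; omega, fun he => by rw [he] at h1; omega⟩
  · intro i j hi hj
    have h1 := (hw.unit i hi).cq
    have h2 := (hw.unit j hj).cu
    have h3 := (hw.unit j hj).cv
    exact ⟨fun he => by rw [he] at h1; omega, fun he => by rw [he] at h1; omega⟩
  · intro i hi r hr
    obtain ⟨hXr, h2, h3⟩ := w_conf_u hcub hw Xσ h hi (hu _ hi) hr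
    rcases h3 with h3 | h3 | h3 | h3
    · exact Or.inl h3
    · exact Or.inr (Or.inl h3)
    · exact Or.inr (Or.inr (Or.inl h3))
    · obtain ⟨b, Yb, hb⟩ := wN_y' hcub hw Xσ hi
      rcases hb.all r h3 with h4 | h4 | h4
      · exact Or.inr (Or.inr (Or.inr h4))
      · exact absurd h4.symm h2
      · exact absurd (h4 ▸ hXr) Yb
  · intro i hi r hr
    obtain ⟨hXr, h2, h3⟩ := w_conf_v hcub hw Xσ h (by omega) (hv i (by omega)) hr
    rcases h3 with h3 | h3 | h3 | h3
    · exact Or.inl h3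
    · exact Or.inr (Or.inl h3)
    · exact Or.inr (Or.inr (Or.inl h3))
    · obtain ⟨b, Yb, hb⟩ := wN_y' hcub hw Xσ hi
      rcases hb.all r h3 with h4 | h4 | h4
      · exact absurd h4.symm h2
      · exact Or.inr (Or.inr (Or.inr h4))
      · exact absurd (h4 ▸ hXr) Yb
  · intro i hi r hr hXr
    rcases (wN_u hcub hw Xσ hi).all r hr with h1 | h1 | h1
    · exact absurd (h1 ▸ Xp _ hi) hXr
    · exact absurd (h1 ▸ Xv _ hi) hXr
    · exact h1
  · intro i hi r hr hXr
    rcases (wN_v hcub hw Xσ (i := i) (by omega)).all r hr with h1 | h1 | h1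
    · exact absurd (h1 ▸ Xu i (by omega)) hXr
    · exact absurd (h1 ▸ Xq i (by omega)) hXr
    · exact h1
  · intro i hi r hr hXr
    obtain ⟨b, Yb, hb⟩ := wN_y' hcub hw Xσ hi
    rcases hb.all r hr with h1 | h1 | h1
    · exact Or.inl h1
    · exact Or.inr h1
    · exfalso
      have h2 := (adj_ok h (hy (i + 1) (by omega) hi) hb.hc).mp (h1 ▸ hXr)
      exact Yb h2

/-- **Wires can be labelled in the joint stage.** -/
theorem wire_fill_jst (hk : 0 < k) (h : JSt G X L f) (hu : ∀ i, i < k → ¬ L (u i))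
    (hv : ∀ i, i < k → ¬ L (v i)) (hy : ∀ i, 0 < i → i < k → ¬ L (y i))
    (hNM : ∀ i, 0 < i → i < k → ∀ b, ownR G X (y i) b → NMAt G X b) {a b c0 T : ℕ}
    (hab : (a, b) ∈ evp) (hc0 : c0 ∈ evs) (hcp : c0 ≠ f (p 0) ∧ c0 ≠ f (q 0))
    (ha : a ≠ c0 ∧ a ≠ f (p 0) ∧ a ≠ f (q 0)) (hb : b ≠ c0 ∧ b ≠ f (p 0) ∧ b ≠ f (q 0))
    (hT : CndS a b (f (p (k - 1))) (f (q (k - 1))) T) (hT1 : k = 1 → T ≠ c0)
    (hσ : L σ → f σ ≠ c0) (hτ : L τ → f τ ≠ T)
    (hy0 : L (y 0) → c0 + 1 ≠ f (y 0) ∧ f (y 0) + 1 ≠ c0)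
    (hyk : L (y k) → T + 1 ≠ f (y k) ∧ f (y k) + 1 ≠ T) :
    ∃ g : V → ℕ, JSt G X (fun x => L x ∨ WS k u v y x) g ∧ (∀ x, ¬ WS k u v y x → g x = f x) ∧
      g (u 0) = c0 ∧ g (v (k - 1)) = T ∧ ∀ x, WS k u v y x → (X x ↔ Even (g x)) := by
  obtain ⟨o, o', hW⟩ := wire_cut hcub hw Xσ h hu hv hy hNM
  have st := jst_st h
  have hR : Rel G.Adj (qadj G (cutX X L f)) (Helper33.L9.near G) (cutX X L f) := relG
  have hQne : ∀ v, ¬ qadj G (cutX X L f) v v := fun v hq => hq.2.1 rfl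
  have hk1 : k - 1 < k := by omega
  have ek : k - 1 + 1 = k := by omega
  have hTm := hT.mem
  have hT' := mem_evs.mp hTm.1
  have cutv : cutX X L f (v (k - 1)) := (cutX_nL (hv _ hk1)).mpr (wX_v hw Xσ hk1)
  have cutu : cutX X L f (u 0) := (cutX_nL (hu _ hk)).mpr (wX_u hw Xσ hk)
  have Yk := wY hw Xσ (i := k) le_rfl
  have Y0 := wY hw Xσ (i := 0) (Nat.zero_le _)
  -- label the last vertex
  obtain ⟨f1, e1, f10, st1⟩ := st.one hR hQne (v (k - 1)) T (hv _ hk1) (by omega)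
    (by rw [Nat.even_iff]; exact ⟨fun _ => hT'.1, fun _ => cutv⟩)
    (by
      intro x hx hLx _
      obtain ⟨hXr, h2, h3⟩ := w_conf_v hcub hw Xσ h hk1 (hv _ hk1) hx
      rcases h3 with rfl | rfl | rfl | h3
      · exact hTm.2.1.symm
      · exact hTm.2.2.symm
      · exact absurd hLx (hu _ hk1)
      · rw [ek] at h3
        obtain ⟨b', Yb, hb'⟩ := wN_y hcub hw Xσ (i := k) le_rfl
        have hk0 : ¬ (k = 0) := by omega
        rw [if_neg hk0, if_pos rfl] at hb'
        rcases hb'.all x h3 with h4 | h4 | h4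
        · exact absurd h4.symm h2
        · subst h4
          exact hτ hLx
        · exact absurd (h4 ▸ hXr) Yb)
    (by
      intro x hx hX hLx _
      rcases (wN_v hcub hw Xσ hk1).all x hx with h1 | h1 | h1
      · exact absurd (h1 ▸ hLx) (hu _ hk1)
      · exfalso
        apply hX
        rw [h1]
        exact iff_of_true cutv ((adj_ok h (hv _ hk1) (wN_v hcub hw Xσ hk1).hb).mpr
          (wX_q hw Xσ hk1))
      · rw [ek] at h1
        rw [h1] at hLx ⊢
        exact hyk hLx)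
  have nW : ∀ x, Wset k u v (fun i => y (i + 1)) 0 x → x ≠ v (k - 1) ∧ ¬ L x := by
    rintro x ⟨i, h1, _, h2 | h2 | h2⟩
    · rw [h2]
      exact ⟨hw.nuv _ h1 _ hk1, hu _ h1⟩
    · rw [h2]
      refine ⟨fun he => ?_, hy (i + 1) (by omega) h1⟩
      have he' : y (i + 1) = v (k - 1) := he
      exact wY hw Xσ (i := i + 1) (by omega) (he' ▸ wX_v hw Xσ hk1)
    · rw [h2]
      exact ⟨fun he => by
        have := hw.nvv i (by omega) (k - 1) hk1 he
        omega, hv i (by omega)⟩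
  have pv : p 0 ≠ v (k - 1) := (hW.pn 0 (k - 1) hk hk1).2
  have qv : q 0 ≠ v (k - 1) := (hW.qn 0 (k - 1) hk hk1).2
  have pvk : p (k - 1) ≠ v (k - 1) := (hW.pn (k - 1) (k - 1) hk1 hk1).2
  have qvk : q (k - 1) ≠ v (k - 1) := (hW.qn (k - 1) (k - 1) hk1 hk1).2
  obtain ⟨g, g1, st2, g2⟩ := hW.fill hR hQne hk st1
    (by
      rintro (h1 | h1)
      · exact hu 0 hk h1
      · exact hw.nuv 0 hk (k - 1) hk1 h1)
    (by
      intro x hx
      rintro (h1 | h1)
      · exact (nW x hx).2 h1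
      · exact (nW x hx).1 h1) hab hc0
    (by rw [f10 _ pv, f10 _ qv]; exact hcp) (by rw [f10 _ pv, f10 _ qv]; exact ha)
    (by rw [f10 _ pv, f10 _ qv]; exact hb)
    (by
      intro x hx
      obtain ⟨hXr, h2, h3⟩ := w_conf_u hcub hw Xσ h hk (hu _ hk) hx
      rcases h3 with h3 | h3 | h3 | h3
      · exact Or.inl h3
      · exact Or.inr (Or.inl h3)
      · exact Or.inr (Or.inr (Or.inl h3))
      · obtain ⟨b', Yb, hb'⟩ := wN_y hcub hw Xσ (i := 0) (Nat.zero_le _)
        have hk0 : ¬ (0 = k) := by omega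
        rw [if_pos rfl, if_neg hk0] at hb'
        rcases hb'.all x h3 with h4 | h4 | h4
        · subst h4
          refine Or.inr (Or.inr (Or.inr ⟨?_, ?_⟩))
          · rintro ⟨i, h5, _, h6 | h6 | h6⟩
            · exact (hw.nσ _ h5).1 h6.symm
            · have h7 := Xσ
              rw [h6] at h7
              exact wY hw Xσ (i := i + 1) (by omega) h7
            · exact (hw.nσ i (by omega)).2 h6.symm
          · rintro (h5 | h5) _
            · rw [f10 _ (fun he => (hw.nσ _ hk1).2 he.symm)]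
              exact hσ h5
            · exact absurd h5.symm (hw.nσ _ hk1).2
        · exact absurd h4.symm h2
        · exact absurd (h4 ▸ hXr) Yb)
    (by
      intro x hx hXx
      rcases (wN_u hcub hw Xσ hk).all x hx with h1 | h1 | h1
      · exact absurd (h1 ▸ (adj_ok h (hu 0 hk) (wN_u hcub hw Xσ hk).ha).mpr (wX_p hw Xσ hk)) hXx
      · exact absurd (h1 ▸ (cutX_nL (hv 0 hk)).mpr (wX_v hw Xσ hk)) hXx
      · subst h1
        have hne : y 0 ≠ v (k - 1) := fun he => Y0 (he ▸ wX_v hw Xσ hk1)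
        refine ⟨?_, ?_⟩
        · rintro ⟨i, h5, _, h6 | h6 | h6⟩
          · exact Y0 (h6 ▸ wX_u hw Xσ h5)
          · have := hw.nyy 0 (by omega) (i + 1) (by omega) h6
            omega
          · exact Y0 (h6 ▸ wX_v hw Xσ (i := i) (by omega))
        · rintro (h5 | h5) _
          · rw [f10 _ hne]
            exact hy0 h5
          · exact absurd h5 hne)
    (by rw [f10 _ pvk, f10 _ qvk, e1]; exact hT)
    (by
      intro h1
      subst h1
      rw [show (1 - 1 : ℕ) = 0 from rfl] at e1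
      rw [e1]
      exact hT1 rfl)
  have hWS : ∀ x, WS k u v y x ↔
      (x = v (k - 1) ∨ Wset k u v (fun i => y (i + 1)) 0 x ∨ x = u 0) := by
    intro x
    constructor
    · rintro (⟨i, hi, rfl | rfl⟩ | ⟨i, h0, hi, rfl⟩)
      · rcases Nat.eq_zero_or_pos i with h1 | h1
        · subst h1
          exact Or.inr (Or.inr rfl)
        · refine Or.inr (Or.inl ⟨i - 1, by omega, Nat.zero_le _, Or.inl ?_⟩)
          rw [Nat.sub_add_cancel h1]
      · by_cases h1 : i = k - 1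
        · subst h1
          exact Or.inl rfl
        · exact Or.inr (Or.inl ⟨i, by omega, Nat.zero_le _, Or.inr (Or.inr rfl)⟩)
      · refine Or.inr (Or.inl ⟨i - 1, by omega, Nat.zero_le _, Or.inr (Or.inl ?_)⟩)
        show y i = y (i - 1 + 1)
        rw [Nat.sub_add_cancel h0]
    · rintro (h1 | ⟨i, h1, _, h2 | h2 | h2⟩ | h1)
      · exact Or.inl ⟨k - 1, hk1, Or.inr h1⟩
      · exact Or.inl ⟨i + 1, h1, Or.inl h2⟩
      · exact Or.inr ⟨i + 1, by omega, h1, h2⟩
      · exact Or.inl ⟨i, by omega, Or.inr h2⟩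
      · exact Or.inl ⟨0, hk, Or.inl h1⟩
  have nWL : ∀ x, WS k u v y x → ¬ L x := by
    rintro x (⟨i, hi, rfl | rfl⟩ | ⟨i, h0, hi, rfl⟩)
    · exact hu i hi
    · exact hv i hi
    · exact hy i h0 hi
  have hgf : ∀ x, ¬ WS k u v y x → g x = f x := by
    intro x hx
    have h1 := fun hh => hx ((hWS x).mpr hh)
    rw [g2 x (fun hh => h1 (Or.inr (Or.inl hh))) (fun hh => h1 (Or.inr (Or.inr hh))),
      f10 x (fun hh => h1 (Or.inl hh))]
  have st3 : St G.Adj (qadj G (cutX X L f)) (Helper33.L9.near G) (cutX X L f)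
      (fun x => L x ∨ WS k u v y x) (fun _ => False) g :=
    st2.congr (fun x => by rw [hWS x]; tauto) (fun x => Iff.rfl)
  refine ⟨g, st_jst h (fun x hx => Or.inl hx) (fun x hx => hgf x (fun hh => nWL x hh hx)) st3,
    hgf, g1, ?_, fun x hx => ?_⟩
  · rw [g2 (v (k - 1)) (fun hh => (nW _ hh).1 rfl) (fun he => hw.nuv 0 hk (k - 1) hk1 he.symm),
      e1]
  · exact (cutX_nL (X := X) (f := f) (nWL x hx)).symm.trans
      (st3.par.par x ⟨Or.inr hx, id⟩)

end

end Helper17.L9
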