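import Pool.Agent.helper17.L9.JSet

/-!
# Wires for an arbitrary cut

`WireHyp G X C k u v p q y`: conditions of a cut `C` along a wire (for the original cut `X` with
`σ` in `X`).
`wire_fill_st`: the units and inner links of a wire can be labelled in parity for `C`.
-/

set_option autoImplicit false
set_option linter.unusedSectionVars false

namespace Helper17.L9

open Finset Classical Helper33.L9
open Helper42.L9 hiding near gp
open Pool.Agent.helper58.L9
open Pool.Agent.helper40.L9 (ParOK JSt Bad Tol LamU JExt)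
open Pool.Agent.helper40.L9.J (kk M3 nbm gp)

variable {V : Type*} [Fintype V] {G : SimpleGraph V} {X C L : V → Prop} {f : V → ℕ}
  {Z S : Finset V} {k : ℕ} {p u v q y : ℕ → V} {σ τ : V}

/-- conditions of a cut along a wire -/
structure WireHyp (G : SimpleGraph V) (X C : V → Prop) (k : ℕ) (p u v q y : ℕ → V) : Prop where
  cu : ∀ i, i < k → C (u i)
  cv : ∀ i, i < k → C (v i)
  cp : ∀ i, i < k → C (p i)
  cq : ∀ i, i < k → C (q i)
  cy : ∀ i, i ≤ k → ¬ C (y i)
  nu : ∀ i, i < k → ∀ x, Helper33.L9.near G (u i) x → C x → X x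
  nv : ∀ i, i < k → ∀ x, Helper33.L9.near G (v i) x → C x → X x
  cb : ∀ i, 0 < i → i < k → ∀ b, ownR G X (y i) b → ¬ C b
  conf : ∀ i, 0 < i → i < k → ∃ o o' : V, ∀ r, qadj G C (y i) r → r = o ∨ r = o'

section

variable (hcub : ∀ v, (univ.filter fun b => G.Adj v b).card = 3)
  (hw : Helper33.L9.Wire G X Z S k p u v q y σ τ) (Xσ : X σ)
  (hC : WireHyp G X C k p u v q y)

include hcub hw Xσ hC

/-- the conflicts of `u i` for the cut `C` -/
theorem w_conf_u' {i : ℕ} (hi : i < k) {r : V} (hr : qadj G C (u i) r) : X r ∧ u i ≠ r ∧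
      (r = p i ∨ r = q i ∨ r = v i ∨ G.Adj (y i) r) := by
  obtain ⟨h1, h2, h3⟩ := q_cases (wN_u hcub hw Xσ hi) hr
  have hXr : X r := hC.nu i hi r hr.2 (h1.mp (hC.cu i hi))
  refine ⟨hXr, h2, ?_⟩
  rcases h3 with h3 | h3 | h3 | h3 | h3 | h3
  · exact Or.inl h3
  · exact Or.inr (Or.inr (Or.inl h3))
  · exact absurd (h3 ▸ hXr) (wY hw Xσ (by omega))
  · exact absurd (w_adj_p hcub hw Xσ hi h3 hXr).symm h2
  · rcases (wN_v hcub hw Xσ hi).all r h3 with h4 | h4 | h4
    · exact absurd h4.symm h2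
    · exact Or.inr (Or.inl h4)
    · exact absurd (h4 ▸ hXr) (wY hw Xσ (by omega))
  · exact Or.inr (Or.inr (Or.inr h3))

/-- the conflicts of `v i` for the cut `C` -/
theorem w_conf_v' {i : ℕ} (hi : i < k) {r : V} (hr : qadj G C (v i) r) : X r ∧ v i ≠ r ∧
      (r = p i ∨ r = q i ∨ r = u i ∨ G.Adj (y (i + 1)) r) := by
  obtain ⟨h1, h2, h3⟩ := q_cases (wN_v hcub hw Xσ hi) hr
  have hXr : X r := hC.nv i hi r hr.2 (h1.mp (hC.cv i hi))
  refine ⟨hXr, h2, ?_⟩
  rcases h3 with h3 | h3 | h3 | h3 | h3 | h3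
  · exact Or.inr (Or.inr (Or.inl h3))
  · exact Or.inr (Or.inl h3)
  · exact absurd (h3 ▸ hXr) (wY hw Xσ (by omega))
  · rcases (wN_u hcub hw Xσ hi).all r h3 with h4 | h4 | h4
    · exact Or.inl h4
    · exact absurd h4.symm h2
    · exact absurd (h4 ▸ hXr) (wY hw Xσ (by omega))
  · exact absurd (w_adj_q hcub hw Xσ hi h3 hXr).symm h2
  · exact Or.inr (Or.inr (Or.inr h3))

/-- the wire for the cut `C` -/
theorem wire_cut' : ∃ o o' : ℕ → V, Helper17.L9.Wire G.Adj (qadj G C) C k u v p q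
      (fun i => y (i + 1)) o o' := by
  have hconf : ∀ i, ∃ oo : V × V, i + 1 < k →
      ∀ r, qadj G C (y (i + 1)) r → r = oo.1 ∨ r = oo.2 := by
    intro i
    by_cases hi : i + 1 < k
    · obtain ⟨o, o', ho⟩ := hC.conf (i + 1) (by omega) hi
      exact ⟨(o, o'), fun _ => ho⟩
    · exact ⟨(σ, σ), fun hh => absurd hh hi⟩
  choose oo hoo using hconf
  refine ⟨fun i => (oo i).1, fun i => (oo i).2, ?_⟩
  refine
    { Xu := hC.cu, Xv := hC.cv, Yy := ?_, uu := ?_, vv := ?_, uv := ?_, yy := ?_, pn := ?_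
      qn := ?_, qU := ?_, qV := ?_, cU := ?_, cV := ?_, qY := hoo, cY := ?_ }
  · intro i hi
    exact hC.cy (i + 1) (by omega)
  · intro i j hi hj he
    exact hw.nuu i hi j hj he
  · intro i j hi hj he
    exact hw.nvv i hi j hj he
  · intro i j hi hj
    exact hw.nuv i hi j hj
  · intro i j hi hj he
    have := hw.nyy (i + 1) (by omega) (j + 1) (by omega) he
    omega
  · intro i j hi hj
    have h1 := (hw.unit i hi).cp
    have h2 := (hw.unit j hj).cu
    have h3 := (hw.unit j hj).cv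
    exact ⟨fun he => by rw [he] at h1; omega, fun he => by rw [he] at h1; omega⟩
  · intro i j hi hj
    have h1 := (hw.unit i hi).cq
    have h2 := (hw.unit j hj).cu
    have h3 := (hw.unit j hj).cv
    exact ⟨fun he => by rw [he] at h1; omega, fun he => by rw [he] at h1; omega⟩
  · intro i hi r hr
    obtain ⟨hXr, h2, h3⟩ := w_conf_u' hcub hw Xσ hC hi hr
    rcases h3 with h3 | h3 | h3 | h3
    · exact Or.inl h3
    · exact Or.inr (Or.inl h3)
    · exact Or.inr (Or.inr (Or.inl h3))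
    · obtain ⟨b, Yb, hb⟩ := wN_y' hcub hw Xσ hi
      rcases hb.all r h3 with h4 | h4 | h4
      · exact Or.inr (Or.inr (Or.inr h4))
      · exact absurd h4.symm h2
      · exact absurd (h4 ▸ hXr) Yb
  · intro i hi r hr
    obtain ⟨hXr, h2, h3⟩ := w_conf_v' hcub hw Xσ hC (by omega) hr
    rcases h3 with h3 | h3 | h3 | h3
    · exact Or.inl h3
    · exact Or.inr (Or.inl h3)
    · exact Or.inr (Or.inr (Or.inl h3))
    · obtain ⟨b, Yb, hb⟩ := wN_y' hcub hw Xσ hi
      rcases hb.all r h3 with h4 | h4 | h4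
      · exact absurd h4.symm h2
      · exact Or.inr (Or.inr (Or.inr h4))
      · exact absurd (h4 ▸ hXr) Yb
  · intro i hi r hr hXr
    rcases (wN_u hcub hw Xσ hi).all r hr with h1 | h1 | h1
    · exact absurd (h1 ▸ hC.cp _ hi) hXr
    · exact absurd (h1 ▸ hC.cv _ hi) hXr
    · exact h1
  · intro i hi r hr hXr
    rcases (wN_v hcub hw Xσ (i := i) (by omega)).all r hr with h1 | h1 | h1
    · exact absurd (h1 ▸ hC.cu i (by omega)) hXr
    · exact absurd (h1 ▸ hC.cq i (by omega)) hXr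
    · exact h1
  · intro i hi r hr hXr
    obtain ⟨b, Yb, hb⟩ := wN_y' hcub hw Xσ hi
    rcases hb.all r hr with h1 | h1 | h1
    · exact Or.inl h1
    · exact Or.inr h1
    · exact absurd (h1 ▸ hXr) (hC.cb (i + 1) (by omega) hi b
        ⟨hb.hc, iff_of_false (wY hw Xσ (by omega)) Yb⟩)

/-- **Wires can be labelled in parity for the cut `C`.** -/
theorem wire_fill_st (hk : 0 < k)
    (st : St G.Adj (qadj G C) (Helper33.L9.near G) C L (fun _ => False) f)
    (hu : ∀ i, i < k → ¬ L (u i))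
    (hv : ∀ i, i < k → ¬ L (v i)) (hy : ∀ i, 0 < i → i < k → ¬ L (y i)) {a b c0 T : ℕ}
    (hab : (a, b) ∈ evp) (hc0 : c0 ∈ evs) (hcp : c0 ≠ f (p 0) ∧ c0 ≠ f (q 0))
    (ha : a ≠ c0 ∧ a ≠ f (p 0) ∧ a ≠ f (q 0)) (hb : b ≠ c0 ∧ b ≠ f (p 0) ∧ b ≠ f (q 0))
    (hT : CndS a b (f (p (k - 1))) (f (q (k - 1))) T) (hT1 : k = 1 → T ≠ c0)
    (hσ : L σ → C σ → f σ ≠ c0) (hτ : L τ → C τ → f τ ≠ T)
    (hy0 : L (y 0) → c0 + 1 ≠ f (y 0) ∧ f (y 0) + 1 ≠ c0)
    (hyk : L (y k) → T + 1 ≠ f (y k) ∧ f (y k) + 1 ≠ T) :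
    ∃ g : V → ℕ, St G.Adj (qadj G C) (Helper33.L9.near G) C (fun x => L x ∨ WS k u v y x)
        (fun _ => False) g ∧ (∀ x, ¬ WS k u v y x → g x = f x) ∧
      g (u 0) = c0 ∧ g (v (k - 1)) = T := by
  obtain ⟨o, o', hW⟩ := wire_cut' hcub hw Xσ hC
  have hR : Rel G.Adj (qadj G C) (Helper33.L9.near G) C := relG
  have hQne : ∀ v, ¬ qadj G C v v := fun v hq => hq.2.1 rfl
  have hk1 : k - 1 < k := by omega
  have ek : k - 1 + 1 = k := by omega
  have hTm := hT.mem
  have hT' := mem_evs.mp hTm.1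
  have cutv : C (v (k - 1)) := hC.cv _ hk1
  have cutu : C (u 0) := hC.cu _ hk
  have Yk := wY hw Xσ (i := k) le_rfl
  have Y0 := wY hw Xσ (i := 0) (Nat.zero_le _)
  -- label the last vertex
  obtain ⟨f1, e1, f10, st1⟩ := st.one hR hQne (v (k - 1)) T (hv _ hk1) (by omega)
    (by rw [Nat.even_iff]; exact ⟨fun _ => hT'.1, fun _ => cutv⟩)
    (by
      intro x hx hLx _
      have hCx : C x := hx.1.mp cutv
      obtain ⟨hXr, h2, h3⟩ := w_conf_v' hcub hw Xσ hC hk1 hx
      rcases h3 with rfl | rfl | rfl | h3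
      · exact hTm.2.1.symm
      · exact hTm.2.2.symm
      · exact absurd hLx (hu _ hk1)
      · rw [ek] at h3
        obtain ⟨b', Yb, hb'⟩ := wN_y hcub hw Xσ (i := k) le_rfl
        have hk0 : ¬ (k = 0) := by omega
        rw [if_neg hk0, if_pos rfl] at hb'
        rcases hb'.all x h3 with h4 | h4 | h4
        · exact absurd h4.symm h2
        · subst h4
          exact hτ hLx hCx
        · exact absurd (h4 ▸ hXr) Yb)
    (by
      intro x hx hX hLx _
      rcases (wN_v hcub hw Xσ hk1).all x hx with h1 | h1 | h1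
      · exact absurd (h1 ▸ hLx) (hu _ hk1)
      · exfalso
        apply hX
        rw [h1]
        exact iff_of_true cutv (hC.cq _ hk1)
      · rw [ek] at h1
        rw [h1] at hLx ⊢
        exact hyk hLx)
  have nW : ∀ x, Wset k u v (fun i => y (i + 1)) 0 x → x ≠ v (k - 1) ∧ ¬ L x := by
    rintro x ⟨i, h1, _, h2 | h2 | h2⟩
    · rw [h2]
      exact ⟨hw.nuv _ h1 _ hk1, hu _ h1⟩
    · rw [h2]
      refine ⟨fun he => ?_, hy (i + 1) (by omega) h1⟩
      have he' : y (i + 1) = v (k - 1) := he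
      exact wY hw Xσ (i := i + 1) (by omega) (he' ▸ wX_v hw Xσ hk1)
    · rw [h2]
      exact ⟨fun he => by
        have := hw.nvv i (by omega) (k - 1) hk1 he
        omega, hv i (by omega)⟩
  have pv : p 0 ≠ v (k - 1) := (hW.pn 0 (k - 1) hk hk1).2
  have qv : q 0 ≠ v (k - 1) := (hW.qn 0 (k - 1) hk hk1).2
  have pvk : p (k - 1) ≠ v (k - 1) := (hW.pn (k - 1) (k - 1) hk1 hk1).2
  have qvk : q (k - 1) ≠ v (k - 1) := (hW.qn (k - 1) (k - 1) hk1 hk1).2
  obtain ⟨g, g1, st2, g2⟩ := hW.fill hR hQne hk st1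
    (by
      rintro (h1 | h1)
      · exact hu 0 hk h1
      · exact hw.nuv 0 hk (k - 1) hk1 h1)
    (by
      intro x hx
      rintro (h1 | h1)
      · exact (nW x hx).2 h1
      · exact (nW x hx).1 h1) hab hc0
    (by rw [f10 _ pv, f10 _ qv]; exact hcp) (by rw [f10 _ pv, f10 _ qv]; exact ha)
    (by rw [f10 _ pv, f10 _ qv]; exact hb)
    (by
      intro x hx
      have hCx : C x := hx.1.mp cutu
      obtain ⟨hXr, h2, h3⟩ := w_conf_u' hcub hw Xσ hC hk hx
      rcases h3 with h3 | h3 | h3 | h3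
      · exact Or.inl h3
      · exact Or.inr (Or.inl h3)
      · exact Or.inr (Or.inr (Or.inl h3))
      · obtain ⟨b', Yb, hb'⟩ := wN_y hcub hw Xσ (i := 0) (Nat.zero_le _)
        have hk0 : ¬ (0 = k) := by omega
        rw [if_pos rfl, if_neg hk0] at hb'
        rcases hb'.all x h3 with h4 | h4 | h4
        · subst h4
          refine Or.inr (Or.inr (Or.inr ⟨?_, ?_⟩))
          · rintro ⟨i, h5, _, h6 | h6 | h6⟩
            · exact (hw.nσ _ h5).1 h6.symm
            · have h7 := Xσ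
              rw [h6] at h7
              exact wY hw Xσ (i := i + 1) (by omega) h7
            · exact (hw.nσ i (by omega)).2 h6.symm
          · rintro (h5 | h5) _
            · rw [f10 _ (fun he => (hw.nσ _ hk1).2 he.symm)]
              exact hσ h5 hCx
            · exact absurd h5.symm (hw.nσ _ hk1).2
        · exact absurd h4.symm h2
        · exact absurd (h4 ▸ hXr) Yb)
    (by
      intro x hx hXx
      rcases (wN_u hcub hw Xσ hk).all x hx with h1 | h1 | h1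
      · exact absurd (h1 ▸ hC.cp 0 hk) hXx
      · exact absurd (h1 ▸ hC.cv 0 hk) hXx
      · subst h1
        have hne : y 0 ≠ v (k - 1) := fun he => Y0 (he ▸ wX_v hw Xσ hk1)
        refine ⟨?_, ?_⟩
        · rintro ⟨i, h5, _, h6 | h6 | h6⟩
          · exact Y0 (h6 ▸ wX_u hw Xσ h5)
          · have := hw.nyy 0 (by omega) (i + 1) (by omega) h6
            omega
          · exact Y0 (h6 ▸ wX_v hw Xσ (i := i) (by omega))
        · rintro (h5 | h5) _
          · rw [f10 _ hne]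
            exact hy0 h5
          · exact absurd h5 hne)
    (by rw [f10 _ pvk, f10 _ qvk, e1]; exact hT)
    (by
      intro h1
      subst h1
      rw [show (1 - 1 : ℕ) = 0 from rfl] at e1
      rw [e1]
      exact hT1 rfl)
  have hWS : ∀ x, WS k u v y x ↔
      (x = v (k - 1) ∨ Wset k u v (fun i => y (i + 1)) 0 x ∨ x = u 0) := by
    intro x
    constructor
    · rintro (⟨i, hi, rfl | rfl⟩ | ⟨i, h0, hi, rfl⟩)
      · rcases Nat.eq_zero_or_pos i with h1 | h1
        · subst h1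
          exact Or.inr (Or.inr rfl)
        · refine Or.inr (Or.inl ⟨i - 1, by omega, Nat.zero_le _, Or.inl ?_⟩)
          rw [Nat.sub_add_cancel h1]
      · by_cases h1 : i = k - 1
        · subst h1
          exact Or.inl rfl
        · exact Or.inr (Or.inl ⟨i, by omega, Nat.zero_le _, Or.inr (Or.inr rfl)⟩)
      · refine Or.inr (Or.inl ⟨i - 1, by omega, Nat.zero_le _, Or.inr (Or.inl ?_)⟩)
        show y i = y (i - 1 + 1)
        rw [Nat.sub_add_cancel h0]
    · rintro (h1 | ⟨i, h1, _, h2 | h2 | h2⟩ | h1)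
      · exact Or.inl ⟨k - 1, hk1, Or.inr h1⟩
      · exact Or.inl ⟨i + 1, h1, Or.inl h2⟩
      · exact Or.inr ⟨i + 1, by omega, h1, h2⟩
      · exact Or.inl ⟨i, by omega, Or.inr h2⟩
      · exact Or.inl ⟨0, hk, Or.inl h1⟩
  refine ⟨g, st2.congr (fun x => by rw [hWS x]; exact or_assoc) (fun x => Iff.rfl),
    fun x hx => ?_, g1, ?_⟩
  · have h1 := fun hh => hx ((hWS x).mpr hh)
    rw [g2 x (fun hh => h1 (Or.inr (Or.inl hh))) (fun hh => h1 (Or.inr (Or.inr hh))),
      f10 x (fun hh => h1 (Or.inl hh))]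
  · rw [g2 (v (k - 1)) (fun hh => (nW _ hh).1 rfl) (fun he => hw.nuv 0 hk (k - 1) hk1 he.symm),
      e1]

omit [Fintype V] hcub hw Xσ hC in
theorem gp_far {m n : ℕ} (h : gp m n) : m + 1 ≠ n ∧ n + 1 ≠ m := by
  unfold gp at h
  omega

omit [Fintype V] hcub hw Xσ hC in
theorem half_even {c : ℕ} (h : c % 2 = 0) (h9 : c ≤ 9) : 2 * (c / 2) = c ∧ c / 2 < 5 ∧
    c ∈ evs := by
  refine ⟨by omega, by omega, mem_evs.mpr ⟨h, by omega⟩⟩

omit [Fintype V] hcub hw Xσ hC in
theorem half_odd {c : ℕ} (h : c % 2 = 1) (h9 : c ≤ 9) : 2 * (c / 2) + 1 = c ∧ c / 2 < 5 := by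
  refine ⟨by omega, by omega⟩

/-- **The wire with the relation `kk`**, also for `k = 0`. -/
theorem wire_kk (st : St G.Adj (qadj G C) (Helper33.L9.near G) C L (fun _ => False) f)
    (hu : ∀ i, i < k → ¬ L (u i))
    (hv : ∀ i, i < k → ¬ L (v i)) (hy : ∀ i, 0 < i → i < k → ¬ L (y i)) {La c0 n0 nk : ℕ}
    (hc : k ≠ 0 → La ∈ M3 ∧ (∀ j, j < 5 → La.testBit j = true →
        2 * j ≠ f (p 0) ∧ 2 * j ≠ f (q 0)) ∧ c0 % 2 = 0 ∧ c0 ≤ 9 ∧ La.testBit (c0 / 2) = true ∧
        (kk La (nk / 2)).testBit (c0 / 2) = true ∧ gp c0 n0)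
    (hnk : nk % 2 = 1 ∧ nk ≤ 9)
    (hσ : k ≠ 0 → L σ → C σ → f σ ≠ c0) (hτ : k ≠ 0 → L τ → ¬ C τ)
    (hy0 : k ≠ 0 → L (y 0) → f (y 0) = n0) (hyk : k ≠ 0 → L (y k) → f (y k) = nk) :
    ∃ g : V → ℕ, St G.Adj (qadj G C) (Helper33.L9.near G) C (fun x => L x ∨ WS k u v y x)
        (fun _ => False) g ∧ (∀ x, ¬ WS k u v y x → g x = f x) ∧ (k ≠ 0 → g (u 0) = c0) := by
  by_cases hk : k = 0
  · subst hk
    have hemp : ∀ x, ¬ WS 0 u v y x := by
      rintro x (⟨i, hi, _⟩ | ⟨i, _, hi, _⟩) <;> omega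
    exact ⟨f, st.congr (fun x => by simp [hemp x]) (fun x => Iff.rfl), fun _ _ => rfl,
      fun hh => absurd rfl hh⟩
  · obtain ⟨h1, h2, h3, h4, h5, h6, h7⟩ := hc hk
    obtain ⟨e0, c5, ce⟩ := half_even h3 h4
    obtain ⟨ek, k5⟩ := half_odd hnk.1 hnk.2
    obtain ⟨a, b, T, hab, ha, hb, hT, fT, hT1⟩ := kk_wire (pk := f (p (k - 1)))
      (qk := f (q (k - 1))) h1 c5 k5 h5 h6 h2
    rw [e0] at ha hb hT1
    rw [ek] at fT
    have hcp := h2 (c0 / 2) c5 h5
    rw [e0] at hcp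
    obtain ⟨g, st', g1, g2, _⟩ := wire_fill_st hcub hw Xσ hC (Nat.pos_of_ne_zero hk) st hu hv
      hy hab ce hcp ha hb hT
      (fun hk1 => hT1 (by rw [hk1]) (by rw [hk1]))
      (hσ hk) (fun hh hc' => absurd hc' (hτ hk hh))
      (fun hh => by
        rw [hy0 hk hh]
        exact gp_far h7)
      (fun hh => by
        rw [hyk hk hh]
        exact fT)
    exact ⟨g, st', g1, fun _ => g2⟩

end

end Helper17.L9
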