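import Pool.Agent.helper17.L9.LoopOdd

/-!
# Loops in states: the link `z1` gets an even label
-/

set_option autoImplicit false

namespace Helper17.L9

open Pool.Agent.helper58.L9 Pool.Agent.helper40.L9

variable {V : Type*} {A Q N : V → V → Prop} {X L E : V → Prop} {f : V → ℕ} {k n : ℕ}
  {u v p q y o o' : ℕ → V} {t z0 z1 m m' w w' x x' : V}

/-- the first units of a wire -/
theorem Wire.trunc (hw : Wire A Q X (k + 1) u v p q y o o') : Wire A Q X k u v p q y o o' where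
  Xu := fun i h => hw.Xu i (by omega)
  Xv := fun i h => hw.Xv i (by omega)
  Yy := fun i h => hw.Yy i (by omega)
  uu := fun i j h h' => hw.uu i j (by omega) (by omega)
  vv := fun i j h h' => hw.vv i j (by omega) (by omega)
  uv := fun i j h h' => hw.uv i j (by omega) (by omega)
  yy := fun i j h h' => hw.yy i j (by omega) (by omega)
  pn := fun i j h h' => hw.pn i j (by omega) (by omega)
  qn := fun i j h h' => hw.qn i j (by omega) (by omega)
  qU := fun i h => hw.qU i (by omega)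
  qV := fun i h => hw.qV i (by omega)
  cU := fun i h => hw.cU i (by omega)
  cV := fun i h => hw.cV i (by omega)
  qY := fun i h => hw.qY i (by omega)
  cY := fun i h => hw.cY i (by omega)

theorem Wset_last (r : V) : Wset (n + 2) u v y 0 r ↔
    Wset (n + 1) u v y 0 r ∨ r = u (n + 1) ∨ r = y n ∨ r = v n := by
  constructor
  · rintro ⟨i, h1, h2, h3⟩
    by_cases hi : i = n
    · subst hi
      exact Or.inr h3
    · exact Or.inl ⟨i, by omega, h2, h3⟩
  · rintro (⟨i, h1, h2, h3⟩ | h3)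
    · exact ⟨i, by omega, h2, h3⟩
    · exact ⟨n, by omega, Nat.zero_le _, h3⟩

theorem re_evn (l a b c d e g w u z : Prop) :
    ((((((((l ∨ a) ∨ b) ∨ c) ∨ d) ∨ e) ∨ g) ∨ w ∨ u) ∨ z) ↔
      (l ∨ a ∨ b ∨ z ∨ c ∨ u ∨ (w ∨ d ∨ e ∨ g)) := by
  constructor
  · rintro ((((((((h | h) | h) | h) | h) | h) | h) | h | h) | h)
    · exact Or.inl h
    · exact Or.inr (Or.inl h)
    · exact Or.inr (Or.inr (Or.inl h))
    · exact Or.inr (Or.inr (Or.inr (Or.inr (Or.inl h))))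
    · exact Or.inr (Or.inr (Or.inr (Or.inr (Or.inr (Or.inr (Or.inr (Or.inl h)))))))
    · exact Or.inr (Or.inr (Or.inr (Or.inr (Or.inr (Or.inr (Or.inr (Or.inr (Or.inl h))))))))
    · exact Or.inr (Or.inr (Or.inr (Or.inr (Or.inr (Or.inr (Or.inr (Or.inr (Or.inr h))))))))
    · exact Or.inr (Or.inr (Or.inr (Or.inr (Or.inr (Or.inr (Or.inl h))))))
    · exact Or.inr (Or.inr (Or.inr (Or.inr (Or.inr (Or.inl h)))))
    · exact Or.inr (Or.inr (Or.inr (Or.inl h)))
  · rintro (h | h | h | h | h | h | h | h | h | h)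
    · exact Or.inl (Or.inl (Or.inl (Or.inl (Or.inl (Or.inl (Or.inl (Or.inl h)))))))
    · exact Or.inl (Or.inl (Or.inl (Or.inl (Or.inl (Or.inl (Or.inl (Or.inr h)))))))
    · exact Or.inl (Or.inl (Or.inl (Or.inl (Or.inl (Or.inl (Or.inr h))))))
    · exact Or.inr h
    · exact Or.inl (Or.inl (Or.inl (Or.inl (Or.inl (Or.inr h)))))
    · exact Or.inl (Or.inr (Or.inr h))
    · exact Or.inl (Or.inr (Or.inl h))
    · exact Or.inl (Or.inl (Or.inl (Or.inl (Or.inr h))))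
    · exact Or.inl (Or.inl (Or.inl (Or.inr h)))
    · exact Or.inl (Or.inl (Or.inr h))

/-- **Even label at `z1`.** -/
theorem LoopR.evn (hR : Rel A Q N X) (hQne : ∀ v, ¬ Q v v)
    (hl : LoopR A Q X (n + 2) u v p q y o o' t z0 z1 m m' w w' x x') (h : St A Q N X L E f)
    (hL : ∀ r, LSet (n + 2) u v y t z0 z1 r → ¬ L r) {e a b0 c α β T' y' u' T : ℕ}
    (ha : a ∈ evs) (hb0 : b0 ∈ ods) (hc : c ∈ evs) (hab : (α, β) ∈ evp)
    (fa0 : a + 1 ≠ b0 ∧ b0 + 1 ≠ a) (hcp : c ≠ f (p 0) ∧ c ≠ f (q 0) ∧ c ≠ a)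
    (fc : c + 1 ≠ b0 ∧ b0 + 1 ≠ c)
    (hα : α ≠ c ∧ α ≠ f (p 0) ∧ α ≠ f (q 0)) (hβ : β ≠ c ∧ β ≠ f (p 0) ∧ β ≠ f (q 0))
    (hT' : CndS α β (f (p n)) (f (q n)) T') (hT1 : n = 0 → T' ≠ c)
    (hy' : y' ∈ ods) (hy1 : y' ≠ f (o n) ∧ y' ≠ f (o' n))
    (fT' : T' + 1 ≠ y' ∧ y' + 1 ≠ T') (fu' : u' + 1 ≠ y' ∧ y' + 1 ≠ u')
    (hu' : u' ∈ evs ∧ u' ≠ f (p (n + 1)) ∧ u' ≠ f (q (n + 1)) ∧ u' ≠ T ∧ u' ≠ T')
    (hT : T ∈ evs ∧ T ≠ f (p (n + 1)) ∧ T ≠ f (q (n + 1)) ∧ T ≠ a)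
    (he : e ∈ evs ∧ e ≠ a ∧ e ≠ T ∧ e ≠ u')
    (hm : ∀ r, r = m ∨ r = m' → L r → ¬ E r → f r ≠ a)
    (hw : ∀ r, r = w ∨ r = w' → L r → ¬ E r → f r ≠ b0)
    (hpt : p n ≠ t ∧ q n ≠ t) (hyz : ¬ Q (y n) z0)
    (hNz : ∀ r, N z1 r → r = t ∨ r = v (n + 1) ∨ r = z0 ∨ r = u (n + 1) ∨ (L r ∧ f r ≠ e))
    (hAz : ∀ r, A z1 r → r = t ∨ r = v (n + 1) ∨ (L r ∧ (e + 2 ≤ f r ∨ f r + 2 ≤ e))) :
    ∃ g : V → ℕ, St A Q N X (fun r => L r ∨ LSet (n + 2) u v y t z0 z1 r)
        (fun r => E r ∨ r = z1) g ∧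
      (∀ r, ¬ LSet (n + 2) u v y t z0 z1 r → g r = f r) := by
  have ha' := mem_evs.mp ha
  have hb0' := mem_ods.mp hb0
  have hc' := mem_evs.mp hc
  have hy'' := mem_ods.mp hy'
  have hu'' := mem_evs.mp hu'.1
  have hTe := mem_evs.mp hT.1
  have hee := mem_evs.mp he.1
  have hTm := hT'.mem
  have hTe' := mem_evs.mp hTm.1
  have i0 : 0 < n + 2 := by omega
  have i1 : n < n + 2 := by omega
  have i2 : n + 1 < n + 2 := by omega
  have qX : ∀ z r, X z → Q z r → X r := fun z r hz hq => (hR.QX _ _ hq).mp hz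
  have qY : ∀ z r, ¬ X z → Q z r → ¬ X r := fun z r hz hq hr => hz ((hR.QX _ _ hq).mpr hr)
  have n1 : t ≠ z0 := fun he => hl.Z0 (he ▸ hl.Xt)
  have n2 : t ≠ z1 := fun he => hl.Z1 (he ▸ hl.Xt)
  have Xvk : X (v (n + 1)) := hl.Xv _ i2
  have Xvn : X (v n) := hl.Xv _ i1
  have Xuk : X (u (n + 1)) := hl.Xu _ i2
  have Xun : X (u n) := hl.Xu _ i1
  have Xu0 : X (u 0) := hl.Xu _ i0
  have Yn : ¬ X (y n) := hl.Yy n i2
  have n3 : v (n + 1) ≠ z0 := fun he => hl.Z0 (he ▸ Xvk)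
  have n4 : v (n + 1) ≠ z1 := fun he => hl.Z1 (he ▸ Xvk)
  have n5 : t ≠ v (n + 1) := (hl.tn _ i2).2
  have z0vn : z0 ≠ v n := fun he => hl.Z0 (he ▸ Xvn)
  have z0uk : z0 ≠ u (n + 1) := fun he => hl.Z0 (he ▸ Xuk)
  have lt : ¬ L t := hL _ (Or.inl rfl)
  have lz0 : ¬ L z0 := hL _ (Or.inr (Or.inl rfl))
  have lz1 : ¬ L z1 := hL _ (Or.inr (Or.inr (Or.inl rfl)))
  have lv : ¬ L (v (n + 1)) := hL _ (LSet_v i2)
  have lvn : ¬ L (v n) := hL _ (LSet_v i1)
  have lu : ¬ L (u 0) := hL _ (LSet_u i0)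
  have luk : ¬ L (u (n + 1)) := hL _ (LSet_u i2)
  have lun : ¬ L (u n) := hL _ (LSet_u i1)
  have lyn : ¬ L (y n) := hL _ (LSet_y i2)
  -- apex
  obtain ⟨g1, e1, g10, st1⟩ := h.one hR hQne t a lt (by omega)
    (by rw [Nat.even_iff]; exact ⟨fun _ => ha'.1, fun _ => hl.Xt⟩)
    (by
      intro r hr hLr hEr
      rcases hl.Qt r hr with rfl | rfl | hr1 | hr1
      · exact absurd hLr lu
      · exact absurd hLr lv
      · exact hm r (Or.inl hr1) hLr hEr
      · exact hm r (Or.inr hr1) hLr hEr)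
    (by
      intro r hr hX hLr _
      rcases hl.At r hr (fun hh => hX (iff_of_true hl.Xt hh)) with rfl | rfl
      · exact absurd hLr lz0
      · exact absurd hLr lz1)
  -- `z0`
  obtain ⟨g2, e2, g20, st2⟩ := st1.one hR hQne z0 b0
    (by rintro (h1 | h1)
        · exact lz0 h1
        · exact n1 h1.symm) (by omega)
    (by rw [Nat.even_iff]; exact ⟨fun hh => absurd hh hl.Z0, fun hh => by omega⟩)
    (by
      intro r hr hLr hEr
      have hXr := qY _ _ hl.Z0 hr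
      have hrt : r ≠ t := fun he => hXr (he ▸ hl.Xt)
      have hLr' : L r := hLr.resolve_right hrt
      rw [g10 r hrt]
      rcases hl.Qz r hr with rfl | hr1 | hr1
      · exact absurd hLr' lz1
      · exact hw r (Or.inl hr1) hLr' hEr
      · exact hw r (Or.inr hr1) hLr' hEr)
    (by
      intro r hr hX hLr _
      have hXr : X r := by
        by_contra hh
        exact hX (iff_of_false hl.Z0 hh)
      rcases hl.Az r hr hXr with rfl | rfl
      · rw [e1]
        exact ⟨fa0.2, fa0.1⟩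
      · exfalso
        rcases hLr with h1 | h1
        · exact lu h1
        · exact (hl.tn 0 i0).1 h1.symm)
  have keep2 : ∀ r, X r → r ≠ t → g2 r = f r := by
    intro r hr hrt
    rw [g20 r (fun he => hl.Z0 (he ▸ hr)), g10 r hrt]
  -- `v (n+1)`
  obtain ⟨g3, e3, g30, st3⟩ := st2.one hR hQne (v (n + 1)) T
    (by rintro ((h1 | h1) | h1)
        · exact lv h1
        · exact n5 h1.symm
        · exact n3 h1) (by omega)
    (by rw [Nat.even_iff]; exact ⟨fun _ => hTe.1, fun _ => Xvk⟩)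
    (by
      intro r hr hLr _
      have hXr := qX _ _ Xvk hr
      rcases hl.Qv r hr with h1 | h1 | h1 | h1
      · rw [keep2 r hXr (fun he => hl.ends.2.2.1 (h1.symm.trans he)), h1]
        exact hT.2.1.symm
      · rw [keep2 r hXr (fun he => hl.ends.2.2.2 (h1.symm.trans he)), h1]
        exact hT.2.2.1.symm
      · exfalso
        rw [h1] at hLr
        rcases hLr with (h2 | h2) | h2
        · exact luk h2
        · exact (hl.tn _ i2).1 h2.symm
        · exact hl.Z0 (h2 ▸ Xuk)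
      · rw [h1, g20 _ n1, e1]
        exact hT.2.2.2.symm)
    (by
      intro r hr hX hLr _
      have h1 := hl.Av r hr (fun hh => hX (iff_of_true Xvk hh))
      exfalso
      subst h1
      rcases hLr with (h2 | h2) | h2
      · exact lz1 h2
      · exact n2 h2.symm
      · exact hl.zz h2.symm)
  -- `u (n+1)`
  obtain ⟨g4, e4, g40, st4⟩ := st3.one hR hQne (u (n + 1)) u'
    (by rintro (((h1 | h1) | h1) | h1)
        · exact luk h1
        · exact (hl.tn _ i2).1 h1.symm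
        · exact hl.Z0 (h1 ▸ Xuk)
        · exact hl.uv _ _ i2 i2 h1) (by omega)
    (by rw [Nat.even_iff]; exact ⟨fun _ => hu''.1, fun _ => Xuk⟩)
    (by
      intro r hr hLr _
      have hXr := qX _ _ Xuk hr
      rcases hl.qU n i2 r hr with h1 | h1 | h1 | h1
      · have : r ≠ v (n + 1) := fun he => (hl.pn _ _ i2 i2).2 (h1.symm.trans he)
        rw [g30 r this, keep2 r hXr (fun he => hl.ends.2.2.1 (h1.symm.trans he)), h1]
        exact hu'.2.1.symm
      · have : r ≠ v (n + 1) := fun he => (hl.qn _ _ i2 i2).2 (h1.symm.trans he)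
        rw [g30 r this, keep2 r hXr (fun he => hl.ends.2.2.2 (h1.symm.trans he)), h1]
        exact hu'.2.2.1.symm
      · rw [h1, e3]
        exact hu'.2.2.2.1.symm
      · exfalso
        rw [h1] at hLr
        rcases hLr with ((h2 | h2) | h2) | h2
        · exact lvn h2
        · exact (hl.tn _ i1).2 h2.symm
        · exact hl.Z0 (h2 ▸ Xvn)
        · have := hl.vv _ _ i1 i2 h2
          omega)
    (by
      intro r hr hX hLr _
      have h1 := hl.cU n i2 r hr (fun hh => hX (iff_of_true Xuk hh))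
      exfalso
      subst h1
      rcases hLr with ((h2 | h2) | h2) | h2
      · exact lyn h2
      · exact Yn (h2 ▸ hl.Xt)
      · exact (hl.zn n i2).1 h2.symm
      · exact Yn (h2 ▸ Xvk))
  -- `y n`
  obtain ⟨g5, e5, g50, st5⟩ := st4.one hR hQne (y n) y'
    (by rintro ((((h1 | h1) | h1) | h1) | h1)
        · exact lyn h1
        · exact Yn (h1 ▸ hl.Xt)
        · exact (hl.zn n i2).1 h1.symm
        · exact Yn (h1 ▸ Xvk)
        · exact Yn (h1 ▸ Xuk)) (by omega)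
    (by rw [Nat.even_iff]; exact ⟨fun hh => absurd hh Yn, fun hh => by omega⟩)
    (by
      intro r hr _ _
      have hXr := qY _ _ Yn hr
      have hrz : r ≠ z0 := fun he => hyz (he ▸ hr)
      rw [g40 r (fun he => hXr (he ▸ Xuk)), g30 r (fun he => hXr (he ▸ Xvk)), g20 r hrz,
        g10 r (fun he => hXr (he ▸ hl.Xt))]
      rcases hl.qY n i2 r hr with rfl | rfl
      · exact hy1.1.symm
      · exact hy1.2.symm)
    (by
      intro r hr hX hLr _
      have hXr : X r := by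
        by_contra hh
        exact hX (iff_of_false Yn hh)
      rcases hl.cY n i2 r hr hXr with h1 | h1
      · exfalso
        rw [h1] at hLr
        rcases hLr with (((h2 | h2) | h2) | h2) | h2
        · exact lvn h2
        · exact (hl.tn _ i1).2 h2.symm
        · exact hl.Z0 (h2 ▸ Xvn)
        · have := hl.vv _ _ i1 i2 h2
          omega
        · exact hl.uv _ _ i2 i1 h2.symm
      · rw [h1, e4]
        exact ⟨fu'.2, fu'.1⟩)
  have keep5 : ∀ r, X r → r ≠ t → r ≠ v (n + 1) → r ≠ u (n + 1) → g5 r = f r := by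
    intro r hr h1 h2 h3
    rw [g50 r (fun he => Yn (he ▸ hr)), g40 r h3, g30 r h2, keep2 r hr h1]
  have nvn : v n ≠ v (n + 1) := by
    intro he
    have := hl.vv _ _ i1 i2 he
    omega
  -- `v n`
  obtain ⟨g6, e6, g60, st6⟩ := st5.one hR hQne (v n) T'
    (by rintro (((((h1 | h1) | h1) | h1) | h1) | h1)
        · exact lvn h1
        · exact (hl.tn _ i1).2 h1.symm
        · exact hl.Z0 (h1 ▸ Xvn)
        · exact nvn h1
        · exact hl.uv _ _ i2 i1 h1.symm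
        · exact Yn (h1 ▸ Xvn)) (by omega)
    (by rw [Nat.even_iff]; exact ⟨fun _ => hTe'.1, fun _ => Xvn⟩)
    (by
      intro r hr hLr _
      have hXr := qX _ _ Xvn hr
      rcases hl.qV n i2 r hr with h1 | h1 | h1 | h1
      · rw [keep5 r hXr (fun he => hpt.1 (h1.symm.trans he))
          (fun he => (hl.pn _ _ i1 i2).2 (h1.symm.trans he))
          (fun he => (hl.pn _ _ i1 i2).1 (h1.symm.trans he)), h1]
        exact hTm.2.1.symm
      · rw [keep5 r hXr (fun he => hpt.2 (h1.symm.trans he))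
          (fun he => (hl.qn _ _ i1 i2).2 (h1.symm.trans he))
          (fun he => (hl.qn _ _ i1 i2).1 (h1.symm.trans he)), h1]
        exact hTm.2.2.symm
      · exfalso
        rw [h1] at hLr
        rcases hLr with ((((h2 | h2) | h2) | h2) | h2) | h2
        · exact lun h2
        · exact (hl.tn _ i1).1 h2.symm
        · exact hl.Z0 (h2 ▸ Xun)
        · exact hl.uv _ _ i1 i2 h2
        · have := hl.uu _ _ i1 i2 h2
          omega
        · exact Yn (h2 ▸ Xun)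
      · rw [h1, g50 _ (fun he => Yn (he ▸ Xuk)), e4]
        exact hu'.2.2.2.2)
    (by
      intro r hr hX _ _
      have h1 := hl.cV n i2 r hr (fun hh => hX (iff_of_true Xvn hh))
      rw [h1, e5]
      exact fT')
  have keep6 : ∀ r, X r → r ≠ t → r ≠ v (n + 1) → r ≠ u (n + 1) → r ≠ v n → g6 r = f r := by
    intro r hr h1 h2 h3 h4
    rw [g60 r h4, keep5 r hr h1 h2 h3]
  have kp0 : g6 (p 0) = f (p 0) := keep6 _ (hl.Xp 0 i0).1 hl.ends.1 (hl.pn _ _ i0 i2).2
    (hl.pn _ _ i0 i2).1 (hl.pn _ _ i0 i1).2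
  have kq0 : g6 (q 0) = f (q 0) := keep6 _ (hl.Xp 0 i0).2 hl.ends.2.1 (hl.qn _ _ i0 i2).2
    (hl.qn _ _ i0 i2).1 (hl.qn _ _ i0 i1).2
  have kpn : g6 (p n) = f (p n) := keep6 _ (hl.Xp n i1).1 hpt.1 (hl.pn _ _ i1 i2).2
    (hl.pn _ _ i1 i2).1 (hl.pn _ _ i1 i1).2
  have kqn : g6 (q n) = f (q n) := keep6 _ (hl.Xp n i1).2 hpt.2 (hl.qn _ _ i1 i2).2
    (hl.qn _ _ i1 i2).1 (hl.qn _ _ i1 i1).2
  have u0n : u 0 ≠ u (n + 1) := by
    intro he
    have := hl.uu _ _ i0 i2 he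
    omega
  have hwt : Wire A Q X (n + 1) u v p q y o o' := hl.toWire.trunc
  have wW : ∀ r, Wset (n + 1) u v y 0 r → Wset (n + 2) u v y 0 r := fun r hr =>
    (Wset_last r).mpr (Or.inl hr)
  have wt : ¬ Wset (n + 1) u v y 0 t := fun hh => hl.W_t (wW _ hh)
  have wz0 : ¬ Wset (n + 1) u v y 0 z0 := fun hh => hl.W_z0 (wW _ hh)
  have wz1 : ¬ Wset (n + 1) u v y 0 z1 := fun hh => hl.W_z1 (wW _ hh)
  have wv1 : ¬ Wset (n + 1) u v y 0 (v (n + 1)) := fun hh => hl.W_v (wW _ hh)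
  have wvn : ¬ Wset (n + 1) u v y 0 (v n) := hwt.not_v (by omega) (Or.inr (by omega))
  have wun : ¬ Wset (n + 1) u v y 0 (u (n + 1)) := by
    rintro ⟨i, h1, _, h2 | h2 | h2⟩
    · have := hl.uu _ _ i2 (by omega) h2
      omega
    · exact hl.Yy i (by omega) (h2 ▸ Xuk)
    · exact hl.uv _ _ i2 (by omega) h2
  have wyn : ¬ Wset (n + 1) u v y 0 (y n) := by
    rintro ⟨i, h1, _, h2 | h2 | h2⟩
    · exact Yn (h2 ▸ hl.Xu _ (by omega))
    · have := hl.yy _ _ i2 (by omega) h2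
      omega
    · exact Yn (h2 ▸ hl.Xv _ (by omega))
  obtain ⟨g7, e7, st7, g70⟩ := hwt.fill hR hQne (by omega) st6 (c0 := c) (a := α) (b := β)
    (by rintro ((((((h1 | h1) | h1) | h1) | h1) | h1) | h1)
        · exact lu h1
        · exact (hl.tn 0 i0).1 h1.symm
        · exact hl.Z0 (h1 ▸ Xu0)
        · exact hl.uv _ _ i0 i2 h1
        · exact u0n h1
        · exact Yn (h1 ▸ Xu0)
        · exact hl.uv _ _ i0 i1 h1)
    (by
      rintro r hr ((((((h1 | h1) | h1) | h1) | h1) | h1) | h1)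
      · exact hL r (Or.inr (Or.inr (Or.inr (Or.inr (Or.inr (wW r hr)))))) h1
      · exact wt (h1 ▸ hr)
      · exact wz0 (h1 ▸ hr)
      · exact wv1 (h1 ▸ hr)
      · exact wun (h1 ▸ hr)
      · exact wyn (h1 ▸ hr)
      · exact wvn (h1 ▸ hr))
    hab hc (by rw [kp0, kq0]; exact ⟨hcp.1, hcp.2.1⟩) (by rw [kp0, kq0]; exact hα)
    (by rw [kp0, kq0]; exact hβ)
    (by
      intro r hr
      rcases hl.Qu r hr with h1 | h1 | h1 | h1
      · exact Or.inl h1
      · exact Or.inr (Or.inl h1)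
      · exact Or.inr (Or.inr (Or.inl h1))
      · refine Or.inr (Or.inr (Or.inr ?_))
        rw [h1]
        refine ⟨wt, fun _ _ => ?_⟩
        rw [g60 _ (hl.tn _ i1).2, g50 _ (fun he => Yn (he ▸ hl.Xt)), g40 _ (hl.tn _ i2).1,
          g30 _ n5, g20 _ n1, e1]
        exact hcp.2.2.symm)
    (by
      intro r hr hXr
      have h1 := hl.Au r hr hXr
      rw [h1]
      refine ⟨wz0, fun _ _ => ?_⟩
      rw [g60 _ z0vn, g50 _ (hl.zn n i2).1, g40 _ z0uk, g30 _ n3.symm, e2]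
      exact fc)
    (by
      show CndS α β (g6 (p n)) (g6 (q n)) (g6 (v n))
      rw [kpn, kqn, e6]; exact hT')
    (by
      intro hk2
      have hn0 : n = 0 := by omega
      have : v 0 = v n := by rw [hn0]
      rw [this, e6]
      exact hT1 hn0)
  -- final values
  have Xne : ∀ {r}, ¬ X r → r ≠ u 0 := fun hr he => hr (he ▸ Xu0)
  have t7 : g7 t = a := by
    rw [g70 _ wt (hl.tn 0 i0).1, g60 _ (hl.tn _ i1).2, g50 _ (fun he => Yn (he ▸ hl.Xt)),
      g40 _ (hl.tn _ i2).1, g30 _ n5, g20 _ n1, e1]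
  have v7 : g7 (v (n + 1)) = T := by
    rw [g70 _ wv1 (hl.uv _ _ i0 i2).symm, g60 _ nvn.symm, g50 _ (fun he => Yn (he ▸ Xvk)),
      g40 _ (hl.uv _ _ i2 i2).symm, e3]
  have u7 : g7 (u (n + 1)) = u' := by
    rw [g70 _ wun u0n.symm, g60 _ (hl.uv _ _ i2 i1), g50 _ (fun he => Yn (he ▸ Xuk)), e4]
  have z7 : g7 z0 = b0 := by
    rw [g70 _ wz0 (Xne hl.Z0), g60 _ z0vn, g50 _ (hl.zn n i2).1, g40 _ z0uk, g30 _ n3.symm, e2]
  have keep7 : ∀ r, L r → g7 r = f r := by
    intro r hr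
    rw [g70 r (fun hh => hL r (Or.inr (Or.inr (Or.inr (Or.inr (Or.inr (wW r hh)))))) hr)
      (fun he => lu (he ▸ hr)), g60 r (fun he => lvn (he ▸ hr)), g50 r (fun he => lyn (he ▸ hr)),
      g40 r (fun he => luk (he ▸ hr)), g30 r (fun he => lv (he ▸ hr)),
      g20 r (fun he => lz0 (he ▸ hr)), g10 r (fun he => lt (he ▸ hr))]
  obtain ⟨g8, _, g80, st8⟩ := stInv1 hR st7 z1 e
    (by
      rintro (((((((h1 | h1) | h1) | h1) | h1) | h1) | h1) | h1 | h1)
      · exact lz1 h1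
      · exact n2 h1.symm
      · exact hl.zz h1.symm
      · exact n4 h1.symm
      · exact hl.Z1 (h1 ▸ Xuk)
      · exact (hl.zn n i2).2 h1
      · exact hl.Z1 (h1 ▸ Xvn)
      · exact wz1 h1
      · exact hl.Z1 (h1 ▸ Xu0)) (by omega)
    (by
      intro r hr
      rcases hNz r hr with h1 | h1 | h1 | h1 | ⟨h1, h2⟩
      · rw [h1, t7]
        exact ⟨Or.inl (Or.inl (Or.inl (Or.inl (Or.inl (Or.inl (Or.inr rfl)))))), he.2.1.symm⟩
      · rw [h1, v7]
        exact ⟨Or.inl (Or.inl (Or.inl (Or.inl (Or.inr rfl)))), he.2.2.1.symm⟩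
      · rw [h1, z7]
        refine ⟨Or.inl (Or.inl (Or.inl (Or.inl (Or.inl (Or.inr rfl))))), ?_⟩
        clear * - hb0' hee
        omega
      · rw [h1, u7]
        exact ⟨Or.inl (Or.inl (Or.inl (Or.inr rfl))), he.2.2.2.symm⟩
      · rw [keep7 r h1]
        exact ⟨Or.inl (Or.inl (Or.inl (Or.inl (Or.inl (Or.inl (Or.inl h1)))))), h2⟩)
    (by
      intro r hr
      rcases hAz r hr with h1 | h1 | ⟨h1, h2⟩
      · rw [h1, t7]
        have h3 := he.2.1
        clear * - ha' hee h3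
        omega
      · rw [h1, v7]
        have h3 := he.2.2.1
        clear * - hTe hee h3
        omega
      · rw [keep7 r h1]
        exact h2)
  refine ⟨g8, st8.congr (fun r => ?_) (fun r => Iff.rfl), fun r hr => ?_⟩
  · unfold LSet
    rw [Wset_last r]
    exact re_evn _ _ _ _ _ _ _ _ _ _
  · unfold LSet at hr
    rw [Wset_last r] at hr
    push Not at hr
    obtain ⟨h1, h2, h3, h4, h5, h6, h7, h8, h9⟩ := hr
    have h4' : r ≠ v (n + 1) := h4
    rw [g80 r h3, g70 r h6 h5, g60 r h9, g50 r h8, g40 r h7, g30 r h4', g20 r h2, g10 r h1]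

end Helper17.L9
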