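import Pool.Agent.helper17.L9.WireNum

/-!
# Loops: the finite checks

The apex `t` has label `a`, the links `z0`, `z1` at `t` have the labels `b0`, `b1`; `c` is the
label of the first vertex `u 0` of the wire, `T` the label of the last vertex.
-/

set_option autoImplicit false

namespace Helper17.L9

/-- apex and its two links in parity -/
def trip : List (ℕ × ℕ × ℕ) :=
  evs.flatMap fun a => (ods.filter (far a)).flatMap fun b =>
    (ods.filter fun c => far a c && dif b c).map fun c => (a, b, c)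

/-- odd apex -/
def tripO : List (ℕ × ℕ × ℕ) :=
  ods.flatMap fun a => (ods.filter (dif a)).flatMap fun b =>
    (ods.filter fun c => dif a c && dif b c).map fun c => (a, b, c)

/-- the wire can be closed -/
def okT (p0 q0 pk qk a b0 b1 : ℕ) : Bool :=
  evs.any fun c => dif c p0 && dif c q0 && dif c a && far c b0 &&
    evp.any fun ab => dif ab.1 c && dif ab.1 p0 && dif ab.1 q0 && dif ab.2 c && dif ab.2 p0 &&
      dif ab.2 q0 &&
      evs.any fun T => dif T pk && dif T qk && dif T a && far T b1 &&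
        (Nat.beq T ab.1 || Nat.beq T ab.2 || Nat.beq ab.1 pk || Nat.beq ab.1 qk ||
          Nat.beq ab.2 pk || Nat.beq ab.2 qk)

/-- the closable triples -/
def S3 (P0 Pk : ℕ × ℕ) : List (ℕ × ℕ × ℕ) :=
  trip.filter fun s => okT P0.1 P0.2 Pk.1 Pk.2 s.1 s.2.1 s.2.2

/-- the closable triples with odd apex -/
def S3O (P0 Pk : ℕ × ℕ) : List (ℕ × ℕ × ℕ) :=
  tripO.filter fun s => okT P0.1 P0.2 Pk.1 Pk.2 100 s.2.1 s.2.2

/-- avoid a pair -/
def av (x : ℕ) (P : ℕ × ℕ) : Bool := dif x P.1 && dif x P.2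

/-- four labels at the apex -/
def chk1 : Bool :=
  evp.all fun P0 => evp.all fun Pk =>
    (fun S : List (ℕ × ℕ × ℕ) => evs.all fun m => odp.all fun W => odp.all fun W1 =>
      S.any fun s => dif s.1 m && av s.2.1 W && av s.2.2 W1) (S3 P0 Pk)

/-- four labels at `z0` -/
def chk2 : Bool :=
  evp.all fun P0 => evp.all fun Pk =>
    (fun S : List (ℕ × ℕ × ℕ) => evp.all fun M => ods.all fun w => odp.all fun W1 =>
      S.any fun s => av s.1 M && dif s.2.1 w && av s.2.2 W1) (S3 P0 Pk)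

/-- four labels at `z1` -/
def chk3 : Bool :=
  evp.all fun P0 => evp.all fun Pk =>
    (fun S : List (ℕ × ℕ × ℕ) => evp.all fun M => odp.all fun W => ods.all fun w =>
      S.any fun s => av s.1 M && av s.2.1 W && dif s.2.2 w) (S3 P0 Pk)

/-- check 1 for one pair of wire ends -/
def chk1c (P0 Pk : ℕ × ℕ) : Bool :=
    (fun S : List (ℕ × ℕ × ℕ) => evs.all fun m => odp.all fun W => odp.all fun W1 =>
      S.any fun s => dif s.1 m && av s.2.1 W && av s.2.2 W1) (S3 P0 Pk)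

theorem c1_0_0 : chk1c (0, 2) (0, 2) = true := by decide +kernel
theorem c1_0_1 : chk1c (0, 2) (0, 4) = true := by decide +kernel
theorem c1_0_2 : chk1c (0, 2) (0, 6) = true := by decide +kernel
theorem c1_0_3 : chk1c (0, 2) (0, 8) = true := by decide +kernel
theorem c1_0_4 : chk1c (0, 2) (2, 4) = true := by decide +kernel
theorem c1_0_5 : chk1c (0, 2) (2, 6) = true := by decide +kernel
theorem c1_0_6 : chk1c (0, 2) (2, 8) = true := by decide +kernel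
theorem c1_0_7 : chk1c (0, 2) (4, 6) = true := by decide +kernel
theorem c1_0_8 : chk1c (0, 2) (4, 8) = true := by decide +kernel
theorem c1_0_9 : chk1c (0, 2) (6, 8) = true := by decide +kernel
theorem c1_1_0 : chk1c (0, 4) (0, 2) = true := by decide +kernel
theorem c1_1_1 : chk1c (0, 4) (0, 4) = true := by decide +kernel
theorem c1_1_2 : chk1c (0, 4) (0, 6) = true := by decide +kernel
theorem c1_1_3 : chk1c (0, 4) (0, 8) = true := by decide +kernel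
theorem c1_1_4 : chk1c (0, 4) (2, 4) = true := by decide +kernel
theorem c1_1_5 : chk1c (0, 4) (2, 6) = true := by decide +kernel
theorem c1_1_6 : chk1c (0, 4) (2, 8) = true := by decide +kernel
theorem c1_1_7 : chk1c (0, 4) (4, 6) = true := by decide +kernel
theorem c1_1_8 : chk1c (0, 4) (4, 8) = true := by decide +kernel
theorem c1_1_9 : chk1c (0, 4) (6, 8) = true := by decide +kernel
theorem c1_2_0 : chk1c (0, 6) (0, 2) = true := by decide +kernel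
theorem c1_2_1 : chk1c (0, 6) (0, 4) = true := by decide +kernel
theorem c1_2_2 : chk1c (0, 6) (0, 6) = true := by decide +kernel
theorem c1_2_3 : chk1c (0, 6) (0, 8) = true := by decide +kernel
theorem c1_2_4 : chk1c (0, 6) (2, 4) = true := by decide +kernel
theorem c1_2_5 : chk1c (0, 6) (2, 6) = true := by decide +kernel
theorem c1_2_6 : chk1c (0, 6) (2, 8) = true := by decide +kernel
theorem c1_2_7 : chk1c (0, 6) (4, 6) = true := by decide +kernel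
theorem c1_2_8 : chk1c (0, 6) (4, 8) = true := by decide +kernel
theorem c1_2_9 : chk1c (0, 6) (6, 8) = true := by decide +kernel
theorem c1_3_0 : chk1c (0, 8) (0, 2) = true := by decide +kernel
theorem c1_3_1 : chk1c (0, 8) (0, 4) = true := by decide +kernel
theorem c1_3_2 : chk1c (0, 8) (0, 6) = true := by decide +kernel
theorem c1_3_3 : chk1c (0, 8) (0, 8) = true := by decide +kernel
theorem c1_3_4 : chk1c (0, 8) (2, 4) = true := by decide +kernel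
theorem c1_3_5 : chk1c (0, 8) (2, 6) = true := by decide +kernel
theorem c1_3_6 : chk1c (0, 8) (2, 8) = true := by decide +kernel
theorem c1_3_7 : chk1c (0, 8) (4, 6) = true := by decide +kernel
theorem c1_3_8 : chk1c (0, 8) (4, 8) = true := by decide +kernel
theorem c1_3_9 : chk1c (0, 8) (6, 8) = true := by decide +kernel
theorem c1_4_0 : chk1c (2, 4) (0, 2) = true := by decide +kernel
theorem c1_4_1 : chk1c (2, 4) (0, 4) = true := by decide +kernel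
theorem c1_4_2 : chk1c (2, 4) (0, 6) = true := by decide +kernel
theorem c1_4_3 : chk1c (2, 4) (0, 8) = true := by decide +kernel
theorem c1_4_4 : chk1c (2, 4) (2, 4) = true := by decide +kernel
theorem c1_4_5 : chk1c (2, 4) (2, 6) = true := by decide +kernel
theorem c1_4_6 : chk1c (2, 4) (2, 8) = true := by decide +kernel
theorem c1_4_7 : chk1c (2, 4) (4, 6) = true := by decide +kernel
theorem c1_4_8 : chk1c (2, 4) (4, 8) = true := by decide +kernel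
theorem c1_4_9 : chk1c (2, 4) (6, 8) = true := by decide +kernel
theorem c1_5_0 : chk1c (2, 6) (0, 2) = true := by decide +kernel
theorem c1_5_1 : chk1c (2, 6) (0, 4) = true := by decide +kernel
theorem c1_5_2 : chk1c (2, 6) (0, 6) = true := by decide +kernel
theorem c1_5_3 : chk1c (2, 6) (0, 8) = true := by decide +kernel
theorem c1_5_4 : chk1c (2, 6) (2, 4) = true := by decide +kernel
theorem c1_5_5 : chk1c (2, 6) (2, 6) = true := by decide +kernel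
theorem c1_5_6 : chk1c (2, 6) (2, 8) = true := by decide +kernel
theorem c1_5_7 : chk1c (2, 6) (4, 6) = true := by decide +kernel
theorem c1_5_8 : chk1c (2, 6) (4, 8) = true := by decide +kernel
theorem c1_5_9 : chk1c (2, 6) (6, 8) = true := by decide +kernel
theorem c1_6_0 : chk1c (2, 8) (0, 2) = true := by decide +kernel
theorem c1_6_1 : chk1c (2, 8) (0, 4) = true := by decide +kernel
theorem c1_6_2 : chk1c (2, 8) (0, 6) = true := by decide +kernel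
theorem c1_6_3 : chk1c (2, 8) (0, 8) = true := by decide +kernel
theorem c1_6_4 : chk1c (2, 8) (2, 4) = true := by decide +kernel
theorem c1_6_5 : chk1c (2, 8) (2, 6) = true := by decide +kernel
theorem c1_6_6 : chk1c (2, 8) (2, 8) = true := by decide +kernel
theorem c1_6_7 : chk1c (2, 8) (4, 6) = true := by decide +kernel
theorem c1_6_8 : chk1c (2, 8) (4, 8) = true := by decide +kernel
theorem c1_6_9 : chk1c (2, 8) (6, 8) = true := by decide +kernel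
theorem c1_7_0 : chk1c (4, 6) (0, 2) = true := by decide +kernel
theorem c1_7_1 : chk1c (4, 6) (0, 4) = true := by decide +kernel
theorem c1_7_2 : chk1c (4, 6) (0, 6) = true := by decide +kernel
theorem c1_7_3 : chk1c (4, 6) (0, 8) = true := by decide +kernel
theorem c1_7_4 : chk1c (4, 6) (2, 4) = true := by decide +kernel
theorem c1_7_5 : chk1c (4, 6) (2, 6) = true := by decide +kernel
theorem c1_7_6 : chk1c (4, 6) (2, 8) = true := by decide +kernel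
theorem c1_7_7 : chk1c (4, 6) (4, 6) = true := by decide +kernel
theorem c1_7_8 : chk1c (4, 6) (4, 8) = true := by decide +kernel
theorem c1_7_9 : chk1c (4, 6) (6, 8) = true := by decide +kernel
theorem c1_8_0 : chk1c (4, 8) (0, 2) = true := by decide +kernel
theorem c1_8_1 : chk1c (4, 8) (0, 4) = true := by decide +kernel
theorem c1_8_2 : chk1c (4, 8) (0, 6) = true := by decide +kernel
theorem c1_8_3 : chk1c (4, 8) (0, 8) = true := by decide +kernel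
theorem c1_8_4 : chk1c (4, 8) (2, 4) = true := by decide +kernel
theorem c1_8_5 : chk1c (4, 8) (2, 6) = true := by decide +kernel
theorem c1_8_6 : chk1c (4, 8) (2, 8) = true := by decide +kernel
theorem c1_8_7 : chk1c (4, 8) (4, 6) = true := by decide +kernel
theorem c1_8_8 : chk1c (4, 8) (4, 8) = true := by decide +kernel
theorem c1_8_9 : chk1c (4, 8) (6, 8) = true := by decide +kernel
theorem c1_9_0 : chk1c (6, 8) (0, 2) = true := by decide +kernel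
theorem c1_9_1 : chk1c (6, 8) (0, 4) = true := by decide +kernel
theorem c1_9_2 : chk1c (6, 8) (0, 6) = true := by decide +kernel
theorem c1_9_3 : chk1c (6, 8) (0, 8) = true := by decide +kernel
theorem c1_9_4 : chk1c (6, 8) (2, 4) = true := by decide +kernel
theorem c1_9_5 : chk1c (6, 8) (2, 6) = true := by decide +kernel
theorem c1_9_6 : chk1c (6, 8) (2, 8) = true := by decide +kernel
theorem c1_9_7 : chk1c (6, 8) (4, 6) = true := by decide +kernel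
theorem c1_9_8 : chk1c (6, 8) (4, 8) = true := by decide +kernel
theorem c1_9_9 : chk1c (6, 8) (6, 8) = true := by decide +kernel

theorem c1_r0 : ∀ Q ∈ evp, chk1c (0, 2) Q = true :=
  List.forall_mem_cons.2 ⟨c1_0_0,
  List.forall_mem_cons.2 ⟨c1_0_1,
  List.forall_mem_cons.2 ⟨c1_0_2,
  List.forall_mem_cons.2 ⟨c1_0_3,
  List.forall_mem_cons.2 ⟨c1_0_4,
  List.forall_mem_cons.2 ⟨c1_0_5,
  List.forall_mem_cons.2 ⟨c1_0_6,
  List.forall_mem_cons.2 ⟨c1_0_7,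
  List.forall_mem_cons.2 ⟨c1_0_8,
  List.forall_mem_cons.2 ⟨c1_0_9,
  List.forall_mem_nil _⟩⟩⟩⟩⟩⟩⟩⟩⟩⟩

theorem c1_r1 : ∀ Q ∈ evp, chk1c (0, 4) Q = true :=
  List.forall_mem_cons.2 ⟨c1_1_0,
  List.forall_mem_cons.2 ⟨c1_1_1,
  List.forall_mem_cons.2 ⟨c1_1_2,
  List.forall_mem_cons.2 ⟨c1_1_3,
  List.forall_mem_cons.2 ⟨c1_1_4,
  List.forall_mem_cons.2 ⟨c1_1_5,
  List.forall_mem_cons.2 ⟨c1_1_6,
  List.forall_mem_cons.2 ⟨c1_1_7,
  List.forall_mem_cons.2 ⟨c1_1_8,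
  List.forall_mem_cons.2 ⟨c1_1_9,
  List.forall_mem_nil _⟩⟩⟩⟩⟩⟩⟩⟩⟩⟩

theorem c1_r2 : ∀ Q ∈ evp, chk1c (0, 6) Q = true :=
  List.forall_mem_cons.2 ⟨c1_2_0,
  List.forall_mem_cons.2 ⟨c1_2_1,
  List.forall_mem_cons.2 ⟨c1_2_2,
  List.forall_mem_cons.2 ⟨c1_2_3,
  List.forall_mem_cons.2 ⟨c1_2_4,
  List.forall_mem_cons.2 ⟨c1_2_5,
  List.forall_mem_cons.2 ⟨c1_2_6,
  List.forall_mem_cons.2 ⟨c1_2_7,
  List.forall_mem_cons.2 ⟨c1_2_8,
  List.forall_mem_cons.2 ⟨c1_2_9,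
  List.forall_mem_nil _⟩⟩⟩⟩⟩⟩⟩⟩⟩⟩

theorem c1_r3 : ∀ Q ∈ evp, chk1c (0, 8) Q = true :=
  List.forall_mem_cons.2 ⟨c1_3_0,
  List.forall_mem_cons.2 ⟨c1_3_1,
  List.forall_mem_cons.2 ⟨c1_3_2,
  List.forall_mem_cons.2 ⟨c1_3_3,
  List.forall_mem_cons.2 ⟨c1_3_4,
  List.forall_mem_cons.2 ⟨c1_3_5,
  List.forall_mem_cons.2 ⟨c1_3_6,
  List.forall_mem_cons.2 ⟨c1_3_7,
  List.forall_mem_cons.2 ⟨c1_3_8,
  List.forall_mem_cons.2 ⟨c1_3_9,
  List.forall_mem_nil _⟩⟩⟩⟩⟩⟩⟩⟩⟩⟩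

theorem c1_r4 : ∀ Q ∈ evp, chk1c (2, 4) Q = true :=
  List.forall_mem_cons.2 ⟨c1_4_0,
  List.forall_mem_cons.2 ⟨c1_4_1,
  List.forall_mem_cons.2 ⟨c1_4_2,
  List.forall_mem_cons.2 ⟨c1_4_3,
  List.forall_mem_cons.2 ⟨c1_4_4,
  List.forall_mem_cons.2 ⟨c1_4_5,
  List.forall_mem_cons.2 ⟨c1_4_6,
  List.forall_mem_cons.2 ⟨c1_4_7,
  List.forall_mem_cons.2 ⟨c1_4_8,
  List.forall_mem_cons.2 ⟨c1_4_9,
  List.forall_mem_nil _⟩⟩⟩⟩⟩⟩⟩⟩⟩⟩

theorem c1_r5 : ∀ Q ∈ evp, chk1c (2, 6) Q = true :=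
  List.forall_mem_cons.2 ⟨c1_5_0,
  List.forall_mem_cons.2 ⟨c1_5_1,
  List.forall_mem_cons.2 ⟨c1_5_2,
  List.forall_mem_cons.2 ⟨c1_5_3,
  List.forall_mem_cons.2 ⟨c1_5_4,
  List.forall_mem_cons.2 ⟨c1_5_5,
  List.forall_mem_cons.2 ⟨c1_5_6,
  List.forall_mem_cons.2 ⟨c1_5_7,
  List.forall_mem_cons.2 ⟨c1_5_8,
  List.forall_mem_cons.2 ⟨c1_5_9,
  List.forall_mem_nil _⟩⟩⟩⟩⟩⟩⟩⟩⟩⟩

theorem c1_r6 : ∀ Q ∈ evp, chk1c (2, 8) Q = true :=
  List.forall_mem_cons.2 ⟨c1_6_0,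
  List.forall_mem_cons.2 ⟨c1_6_1,
  List.forall_mem_cons.2 ⟨c1_6_2,
  List.forall_mem_cons.2 ⟨c1_6_3,
  List.forall_mem_cons.2 ⟨c1_6_4,
  List.forall_mem_cons.2 ⟨c1_6_5,
  List.forall_mem_cons.2 ⟨c1_6_6,
  List.forall_mem_cons.2 ⟨c1_6_7,
  List.forall_mem_cons.2 ⟨c1_6_8,
  List.forall_mem_cons.2 ⟨c1_6_9,
  List.forall_mem_nil _⟩⟩⟩⟩⟩⟩⟩⟩⟩⟩

theorem c1_r7 : ∀ Q ∈ evp, chk1c (4, 6) Q = true :=
  List.forall_mem_cons.2 ⟨c1_7_0,
  List.forall_mem_cons.2 ⟨c1_7_1,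
  List.forall_mem_cons.2 ⟨c1_7_2,
  List.forall_mem_cons.2 ⟨c1_7_3,
  List.forall_mem_cons.2 ⟨c1_7_4,
  List.forall_mem_cons.2 ⟨c1_7_5,
  List.forall_mem_cons.2 ⟨c1_7_6,
  List.forall_mem_cons.2 ⟨c1_7_7,
  List.forall_mem_cons.2 ⟨c1_7_8,
  List.forall_mem_cons.2 ⟨c1_7_9,
  List.forall_mem_nil _⟩⟩⟩⟩⟩⟩⟩⟩⟩⟩

theorem c1_r8 : ∀ Q ∈ evp, chk1c (4, 8) Q = true :=
  List.forall_mem_cons.2 ⟨c1_8_0,
  List.forall_mem_cons.2 ⟨c1_8_1,
  List.forall_mem_cons.2 ⟨c1_8_2,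
  List.forall_mem_cons.2 ⟨c1_8_3,
  List.forall_mem_cons.2 ⟨c1_8_4,
  List.forall_mem_cons.2 ⟨c1_8_5,
  List.forall_mem_cons.2 ⟨c1_8_6,
  List.forall_mem_cons.2 ⟨c1_8_7,
  List.forall_mem_cons.2 ⟨c1_8_8,
  List.forall_mem_cons.2 ⟨c1_8_9,
  List.forall_mem_nil _⟩⟩⟩⟩⟩⟩⟩⟩⟩⟩

theorem c1_r9 : ∀ Q ∈ evp, chk1c (6, 8) Q = true :=
  List.forall_mem_cons.2 ⟨c1_9_0,
  List.forall_mem_cons.2 ⟨c1_9_1,
  List.forall_mem_cons.2 ⟨c1_9_2,
  List.forall_mem_cons.2 ⟨c1_9_3,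
  List.forall_mem_cons.2 ⟨c1_9_4,
  List.forall_mem_cons.2 ⟨c1_9_5,
  List.forall_mem_cons.2 ⟨c1_9_6,
  List.forall_mem_cons.2 ⟨c1_9_7,
  List.forall_mem_cons.2 ⟨c1_9_8,
  List.forall_mem_cons.2 ⟨c1_9_9,
  List.forall_mem_nil _⟩⟩⟩⟩⟩⟩⟩⟩⟩⟩

theorem c1_all : ∀ P ∈ evp, ∀ Q ∈ evp, chk1c P Q = true :=
  List.forall_mem_cons.2 ⟨c1_r0,
  List.forall_mem_cons.2 ⟨c1_r1,
  List.forall_mem_cons.2 ⟨c1_r2,
  List.forall_mem_cons.2 ⟨c1_r3,
  List.forall_mem_cons.2 ⟨c1_r4,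
  List.forall_mem_cons.2 ⟨c1_r5,
  List.forall_mem_cons.2 ⟨c1_r6,
  List.forall_mem_cons.2 ⟨c1_r7,
  List.forall_mem_cons.2 ⟨c1_r8,
  List.forall_mem_cons.2 ⟨c1_r9,
  List.forall_mem_nil _⟩⟩⟩⟩⟩⟩⟩⟩⟩⟩

theorem chk1_true : chk1 = true := by
  unfold chk1
  rw [List.all_eq_true]
  intro P0 h0
  rw [List.all_eq_true]
  intro Pk hk
  exact c1_all P0 h0 Pk hk

/-- check 2 for one pair of wire ends -/
def chk2c (P0 Pk : ℕ × ℕ) : Bool :=
    (fun S : List (ℕ × ℕ × ℕ) => evp.all fun M => ods.all fun w => odp.all fun W1 =>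
      S.any fun s => av s.1 M && dif s.2.1 w && av s.2.2 W1) (S3 P0 Pk)

theorem c2_0_0 : chk2c (0, 2) (0, 2) = true := by decide +kernel
theorem c2_0_1 : chk2c (0, 2) (0, 4) = true := by decide +kernel
theorem c2_0_2 : chk2c (0, 2) (0, 6) = true := by decide +kernel
theorem c2_0_3 : chk2c (0, 2) (0, 8) = true := by decide +kernel
theorem c2_0_4 : chk2c (0, 2) (2, 4) = true := by decide +kernel
theorem c2_0_5 : chk2c (0, 2) (2, 6) = true := by decide +kernel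
theorem c2_0_6 : chk2c (0, 2) (2, 8) = true := by decide +kernel
theorem c2_0_7 : chk2c (0, 2) (4, 6) = true := by decide +kernel
theorem c2_0_8 : chk2c (0, 2) (4, 8) = true := by decide +kernel
theorem c2_0_9 : chk2c (0, 2) (6, 8) = true := by decide +kernel
theorem c2_1_0 : chk2c (0, 4) (0, 2) = true := by decide +kernel
theorem c2_1_1 : chk2c (0, 4) (0, 4) = true := by decide +kernel
theorem c2_1_2 : chk2c (0, 4) (0, 6) = true := by decide +kernel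
theorem c2_1_3 : chk2c (0, 4) (0, 8) = true := by decide +kernel
theorem c2_1_4 : chk2c (0, 4) (2, 4) = true := by decide +kernel
theorem c2_1_5 : chk2c (0, 4) (2, 6) = true := by decide +kernel
theorem c2_1_6 : chk2c (0, 4) (2, 8) = true := by decide +kernel
theorem c2_1_7 : chk2c (0, 4) (4, 6) = true := by decide +kernel
theorem c2_1_8 : chk2c (0, 4) (4, 8) = true := by decide +kernel
theorem c2_1_9 : chk2c (0, 4) (6, 8) = true := by decide +kernel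
theorem c2_2_0 : chk2c (0, 6) (0, 2) = true := by decide +kernel
theorem c2_2_1 : chk2c (0, 6) (0, 4) = true := by decide +kernel
theorem c2_2_2 : chk2c (0, 6) (0, 6) = true := by decide +kernel
theorem c2_2_3 : chk2c (0, 6) (0, 8) = true := by decide +kernel
theorem c2_2_4 : chk2c (0, 6) (2, 4) = true := by decide +kernel
theorem c2_2_5 : chk2c (0, 6) (2, 6) = true := by decide +kernel
theorem c2_2_6 : chk2c (0, 6) (2, 8) = true := by decide +kernel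
theorem c2_2_7 : chk2c (0, 6) (4, 6) = true := by decide +kernel
theorem c2_2_8 : chk2c (0, 6) (4, 8) = true := by decide +kernel
theorem c2_2_9 : chk2c (0, 6) (6, 8) = true := by decide +kernel
theorem c2_3_0 : chk2c (0, 8) (0, 2) = true := by decide +kernel
theorem c2_3_1 : chk2c (0, 8) (0, 4) = true := by decide +kernel
theorem c2_3_2 : chk2c (0, 8) (0, 6) = true := by decide +kernel
theorem c2_3_3 : chk2c (0, 8) (0, 8) = true := by decide +kernel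
theorem c2_3_4 : chk2c (0, 8) (2, 4) = true := by decide +kernel
theorem c2_3_5 : chk2c (0, 8) (2, 6) = true := by decide +kernel
theorem c2_3_6 : chk2c (0, 8) (2, 8) = true := by decide +kernel
theorem c2_3_7 : chk2c (0, 8) (4, 6) = true := by decide +kernel
theorem c2_3_8 : chk2c (0, 8) (4, 8) = true := by decide +kernel
theorem c2_3_9 : chk2c (0, 8) (6, 8) = true := by decide +kernel
theorem c2_4_0 : chk2c (2, 4) (0, 2) = true := by decide +kernel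
theorem c2_4_1 : chk2c (2, 4) (0, 4) = true := by decide +kernel
theorem c2_4_2 : chk2c (2, 4) (0, 6) = true := by decide +kernel
theorem c2_4_3 : chk2c (2, 4) (0, 8) = true := by decide +kernel
theorem c2_4_4 : chk2c (2, 4) (2, 4) = true := by decide +kernel
theorem c2_4_5 : chk2c (2, 4) (2, 6) = true := by decide +kernel
theorem c2_4_6 : chk2c (2, 4) (2, 8) = true := by decide +kernel
theorem c2_4_7 : chk2c (2, 4) (4, 6) = true := by decide +kernel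
theorem c2_4_8 : chk2c (2, 4) (4, 8) = true := by decide +kernel
theorem c2_4_9 : chk2c (2, 4) (6, 8) = true := by decide +kernel
theorem c2_5_0 : chk2c (2, 6) (0, 2) = true := by decide +kernel
theorem c2_5_1 : chk2c (2, 6) (0, 4) = true := by decide +kernel
theorem c2_5_2 : chk2c (2, 6) (0, 6) = true := by decide +kernel
theorem c2_5_3 : chk2c (2, 6) (0, 8) = true := by decide +kernel
theorem c2_5_4 : chk2c (2, 6) (2, 4) = true := by decide +kernel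
theorem c2_5_5 : chk2c (2, 6) (2, 6) = true := by decide +kernel
theorem c2_5_6 : chk2c (2, 6) (2, 8) = true := by decide +kernel
theorem c2_5_7 : chk2c (2, 6) (4, 6) = true := by decide +kernel
theorem c2_5_8 : chk2c (2, 6) (4, 8) = true := by decide +kernel
theorem c2_5_9 : chk2c (2, 6) (6, 8) = true := by decide +kernel
theorem c2_6_0 : chk2c (2, 8) (0, 2) = true := by decide +kernel
theorem c2_6_1 : chk2c (2, 8) (0, 4) = true := by decide +kernel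
theorem c2_6_2 : chk2c (2, 8) (0, 6) = true := by decide +kernel
theorem c2_6_3 : chk2c (2, 8) (0, 8) = true := by decide +kernel
theorem c2_6_4 : chk2c (2, 8) (2, 4) = true := by decide +kernel
theorem c2_6_5 : chk2c (2, 8) (2, 6) = true := by decide +kernel
theorem c2_6_6 : chk2c (2, 8) (2, 8) = true := by decide +kernel
theorem c2_6_7 : chk2c (2, 8) (4, 6) = true := by decide +kernel
theorem c2_6_8 : chk2c (2, 8) (4, 8) = true := by decide +kernel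
theorem c2_6_9 : chk2c (2, 8) (6, 8) = true := by decide +kernel
theorem c2_7_0 : chk2c (4, 6) (0, 2) = true := by decide +kernel
theorem c2_7_1 : chk2c (4, 6) (0, 4) = true := by decide +kernel
theorem c2_7_2 : chk2c (4, 6) (0, 6) = true := by decide +kernel
theorem c2_7_3 : chk2c (4, 6) (0, 8) = true := by decide +kernel
theorem c2_7_4 : chk2c (4, 6) (2, 4) = true := by decide +kernel
theorem c2_7_5 : chk2c (4, 6) (2, 6) = true := by decide +kernel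
theorem c2_7_6 : chk2c (4, 6) (2, 8) = true := by decide +kernel
theorem c2_7_7 : chk2c (4, 6) (4, 6) = true := by decide +kernel
theorem c2_7_8 : chk2c (4, 6) (4, 8) = true := by decide +kernel
theorem c2_7_9 : chk2c (4, 6) (6, 8) = true := by decide +kernel
theorem c2_8_0 : chk2c (4, 8) (0, 2) = true := by decide +kernel
theorem c2_8_1 : chk2c (4, 8) (0, 4) = true := by decide +kernel
theorem c2_8_2 : chk2c (4, 8) (0, 6) = true := by decide +kernel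
theorem c2_8_3 : chk2c (4, 8) (0, 8) = true := by decide +kernel
theorem c2_8_4 : chk2c (4, 8) (2, 4) = true := by decide +kernel
theorem c2_8_5 : chk2c (4, 8) (2, 6) = true := by decide +kernel
theorem c2_8_6 : chk2c (4, 8) (2, 8) = true := by decide +kernel
theorem c2_8_7 : chk2c (4, 8) (4, 6) = true := by decide +kernel
theorem c2_8_8 : chk2c (4, 8) (4, 8) = true := by decide +kernel
theorem c2_8_9 : chk2c (4, 8) (6, 8) = true := by decide +kernel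
theorem c2_9_0 : chk2c (6, 8) (0, 2) = true := by decide +kernel
theorem c2_9_1 : chk2c (6, 8) (0, 4) = true := by decide +kernel
theorem c2_9_2 : chk2c (6, 8) (0, 6) = true := by decide +kernel
theorem c2_9_3 : chk2c (6, 8) (0, 8) = true := by decide +kernel
theorem c2_9_4 : chk2c (6, 8) (2, 4) = true := by decide +kernel
theorem c2_9_5 : chk2c (6, 8) (2, 6) = true := by decide +kernel
theorem c2_9_6 : chk2c (6, 8) (2, 8) = true := by decide +kernel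
theorem c2_9_7 : chk2c (6, 8) (4, 6) = true := by decide +kernel
theorem c2_9_8 : chk2c (6, 8) (4, 8) = true := by decide +kernel
theorem c2_9_9 : chk2c (6, 8) (6, 8) = true := by decide +kernel

theorem c2_r0 : ∀ Q ∈ evp, chk2c (0, 2) Q = true :=
  List.forall_mem_cons.2 ⟨c2_0_0,
  List.forall_mem_cons.2 ⟨c2_0_1,
  List.forall_mem_cons.2 ⟨c2_0_2,
  List.forall_mem_cons.2 ⟨c2_0_3,
  List.forall_mem_cons.2 ⟨c2_0_4,
  List.forall_mem_cons.2 ⟨c2_0_5,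
  List.forall_mem_cons.2 ⟨c2_0_6,
  List.forall_mem_cons.2 ⟨c2_0_7,
  List.forall_mem_cons.2 ⟨c2_0_8,
  List.forall_mem_cons.2 ⟨c2_0_9,
  List.forall_mem_nil _⟩⟩⟩⟩⟩⟩⟩⟩⟩⟩

theorem c2_r1 : ∀ Q ∈ evp, chk2c (0, 4) Q = true :=
  List.forall_mem_cons.2 ⟨c2_1_0,
  List.forall_mem_cons.2 ⟨c2_1_1,
  List.forall_mem_cons.2 ⟨c2_1_2,
  List.forall_mem_cons.2 ⟨c2_1_3,
  List.forall_mem_cons.2 ⟨c2_1_4,
  List.forall_mem_cons.2 ⟨c2_1_5,
  List.forall_mem_cons.2 ⟨c2_1_6,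
  List.forall_mem_cons.2 ⟨c2_1_7,
  List.forall_mem_cons.2 ⟨c2_1_8,
  List.forall_mem_cons.2 ⟨c2_1_9,
  List.forall_mem_nil _⟩⟩⟩⟩⟩⟩⟩⟩⟩⟩

theorem c2_r2 : ∀ Q ∈ evp, chk2c (0, 6) Q = true :=
  List.forall_mem_cons.2 ⟨c2_2_0,
  List.forall_mem_cons.2 ⟨c2_2_1,
  List.forall_mem_cons.2 ⟨c2_2_2,
  List.forall_mem_cons.2 ⟨c2_2_3,
  List.forall_mem_cons.2 ⟨c2_2_4,
  List.forall_mem_cons.2 ⟨c2_2_5,
  List.forall_mem_cons.2 ⟨c2_2_6,
  List.forall_mem_cons.2 ⟨c2_2_7,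
  List.forall_mem_cons.2 ⟨c2_2_8,
  List.forall_mem_cons.2 ⟨c2_2_9,
  List.forall_mem_nil _⟩⟩⟩⟩⟩⟩⟩⟩⟩⟩

theorem c2_r3 : ∀ Q ∈ evp, chk2c (0, 8) Q = true :=
  List.forall_mem_cons.2 ⟨c2_3_0,
  List.forall_mem_cons.2 ⟨c2_3_1,
  List.forall_mem_cons.2 ⟨c2_3_2,
  List.forall_mem_cons.2 ⟨c2_3_3,
  List.forall_mem_cons.2 ⟨c2_3_4,
  List.forall_mem_cons.2 ⟨c2_3_5,
  List.forall_mem_cons.2 ⟨c2_3_6,
  List.forall_mem_cons.2 ⟨c2_3_7,
  List.forall_mem_cons.2 ⟨c2_3_8,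
  List.forall_mem_cons.2 ⟨c2_3_9,
  List.forall_mem_nil _⟩⟩⟩⟩⟩⟩⟩⟩⟩⟩

theorem c2_r4 : ∀ Q ∈ evp, chk2c (2, 4) Q = true :=
  List.forall_mem_cons.2 ⟨c2_4_0,
  List.forall_mem_cons.2 ⟨c2_4_1,
  List.forall_mem_cons.2 ⟨c2_4_2,
  List.forall_mem_cons.2 ⟨c2_4_3,
  List.forall_mem_cons.2 ⟨c2_4_4,
  List.forall_mem_cons.2 ⟨c2_4_5,
  List.forall_mem_cons.2 ⟨c2_4_6,
  List.forall_mem_cons.2 ⟨c2_4_7,
  List.forall_mem_cons.2 ⟨c2_4_8,
  List.forall_mem_cons.2 ⟨c2_4_9,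
  List.forall_mem_nil _⟩⟩⟩⟩⟩⟩⟩⟩⟩⟩

theorem c2_r5 : ∀ Q ∈ evp, chk2c (2, 6) Q = true :=
  List.forall_mem_cons.2 ⟨c2_5_0,
  List.forall_mem_cons.2 ⟨c2_5_1,
  List.forall_mem_cons.2 ⟨c2_5_2,
  List.forall_mem_cons.2 ⟨c2_5_3,
  List.forall_mem_cons.2 ⟨c2_5_4,
  List.forall_mem_cons.2 ⟨c2_5_5,
  List.forall_mem_cons.2 ⟨c2_5_6,
  List.forall_mem_cons.2 ⟨c2_5_7,
  List.forall_mem_cons.2 ⟨c2_5_8,
  List.forall_mem_cons.2 ⟨c2_5_9,
  List.forall_mem_nil _⟩⟩⟩⟩⟩⟩⟩⟩⟩⟩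

theorem c2_r6 : ∀ Q ∈ evp, chk2c (2, 8) Q = true :=
  List.forall_mem_cons.2 ⟨c2_6_0,
  List.forall_mem_cons.2 ⟨c2_6_1,
  List.forall_mem_cons.2 ⟨c2_6_2,
  List.forall_mem_cons.2 ⟨c2_6_3,
  List.forall_mem_cons.2 ⟨c2_6_4,
  List.forall_mem_cons.2 ⟨c2_6_5,
  List.forall_mem_cons.2 ⟨c2_6_6,
  List.forall_mem_cons.2 ⟨c2_6_7,
  List.forall_mem_cons.2 ⟨c2_6_8,
  List.forall_mem_cons.2 ⟨c2_6_9,
  List.forall_mem_nil _⟩⟩⟩⟩⟩⟩⟩⟩⟩⟩

theorem c2_r7 : ∀ Q ∈ evp, chk2c (4, 6) Q = true :=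
  List.forall_mem_cons.2 ⟨c2_7_0,
  List.forall_mem_cons.2 ⟨c2_7_1,
  List.forall_mem_cons.2 ⟨c2_7_2,
  List.forall_mem_cons.2 ⟨c2_7_3,
  List.forall_mem_cons.2 ⟨c2_7_4,
  List.forall_mem_cons.2 ⟨c2_7_5,
  List.forall_mem_cons.2 ⟨c2_7_6,
  List.forall_mem_cons.2 ⟨c2_7_7,
  List.forall_mem_cons.2 ⟨c2_7_8,
  List.forall_mem_cons.2 ⟨c2_7_9,
  List.forall_mem_nil _⟩⟩⟩⟩⟩⟩⟩⟩⟩⟩

theorem c2_r8 : ∀ Q ∈ evp, chk2c (4, 8) Q = true :=
  List.forall_mem_cons.2 ⟨c2_8_0,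
  List.forall_mem_cons.2 ⟨c2_8_1,
  List.forall_mem_cons.2 ⟨c2_8_2,
  List.forall_mem_cons.2 ⟨c2_8_3,
  List.forall_mem_cons.2 ⟨c2_8_4,
  List.forall_mem_cons.2 ⟨c2_8_5,
  List.forall_mem_cons.2 ⟨c2_8_6,
  List.forall_mem_cons.2 ⟨c2_8_7,
  List.forall_mem_cons.2 ⟨c2_8_8,
  List.forall_mem_cons.2 ⟨c2_8_9,
  List.forall_mem_nil _⟩⟩⟩⟩⟩⟩⟩⟩⟩⟩

theorem c2_r9 : ∀ Q ∈ evp, chk2c (6, 8) Q = true :=
  List.forall_mem_cons.2 ⟨c2_9_0,
  List.forall_mem_cons.2 ⟨c2_9_1,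
  List.forall_mem_cons.2 ⟨c2_9_2,
  List.forall_mem_cons.2 ⟨c2_9_3,
  List.forall_mem_cons.2 ⟨c2_9_4,
  List.forall_mem_cons.2 ⟨c2_9_5,
  List.forall_mem_cons.2 ⟨c2_9_6,
  List.forall_mem_cons.2 ⟨c2_9_7,
  List.forall_mem_cons.2 ⟨c2_9_8,
  List.forall_mem_cons.2 ⟨c2_9_9,
  List.forall_mem_nil _⟩⟩⟩⟩⟩⟩⟩⟩⟩⟩

theorem c2_all : ∀ P ∈ evp, ∀ Q ∈ evp, chk2c P Q = true :=
  List.forall_mem_cons.2 ⟨c2_r0,
  List.forall_mem_cons.2 ⟨c2_r1,
  List.forall_mem_cons.2 ⟨c2_r2,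
  List.forall_mem_cons.2 ⟨c2_r3,
  List.forall_mem_cons.2 ⟨c2_r4,
  List.forall_mem_cons.2 ⟨c2_r5,
  List.forall_mem_cons.2 ⟨c2_r6,
  List.forall_mem_cons.2 ⟨c2_r7,
  List.forall_mem_cons.2 ⟨c2_r8,
  List.forall_mem_cons.2 ⟨c2_r9,
  List.forall_mem_nil _⟩⟩⟩⟩⟩⟩⟩⟩⟩⟩

theorem chk2_true : chk2 = true := by
  unfold chk2
  rw [List.all_eq_true]
  intro P0 h0
  rw [List.all_eq_true]
  intro Pk hk
  exact c2_all P0 h0 Pk hk

/-- check 3 for one pair of wire ends -/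
def chk3c (P0 Pk : ℕ × ℕ) : Bool :=
    (fun S : List (ℕ × ℕ × ℕ) => evp.all fun M => odp.all fun W => ods.all fun w =>
      S.any fun s => av s.1 M && av s.2.1 W && dif s.2.2 w) (S3 P0 Pk)

theorem c3_0_0 : chk3c (0, 2) (0, 2) = true := by decide +kernel
theorem c3_0_1 : chk3c (0, 2) (0, 4) = true := by decide +kernel
theorem c3_0_2 : chk3c (0, 2) (0, 6) = true := by decide +kernel
theorem c3_0_3 : chk3c (0, 2) (0, 8) = true := by decide +kernel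
theorem c3_0_4 : chk3c (0, 2) (2, 4) = true := by decide +kernel
theorem c3_0_5 : chk3c (0, 2) (2, 6) = true := by decide +kernel
theorem c3_0_6 : chk3c (0, 2) (2, 8) = true := by decide +kernel
theorem c3_0_7 : chk3c (0, 2) (4, 6) = true := by decide +kernel
theorem c3_0_8 : chk3c (0, 2) (4, 8) = true := by decide +kernel
theorem c3_0_9 : chk3c (0, 2) (6, 8) = true := by decide +kernel
theorem c3_1_0 : chk3c (0, 4) (0, 2) = true := by decide +kernel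
theorem c3_1_1 : chk3c (0, 4) (0, 4) = true := by decide +kernel
theorem c3_1_2 : chk3c (0, 4) (0, 6) = true := by decide +kernel
theorem c3_1_3 : chk3c (0, 4) (0, 8) = true := by decide +kernel
theorem c3_1_4 : chk3c (0, 4) (2, 4) = true := by decide +kernel
theorem c3_1_5 : chk3c (0, 4) (2, 6) = true := by decide +kernel
theorem c3_1_6 : chk3c (0, 4) (2, 8) = true := by decide +kernel
theorem c3_1_7 : chk3c (0, 4) (4, 6) = true := by decide +kernel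
theorem c3_1_8 : chk3c (0, 4) (4, 8) = true := by decide +kernel
theorem c3_1_9 : chk3c (0, 4) (6, 8) = true := by decide +kernel
theorem c3_2_0 : chk3c (0, 6) (0, 2) = true := by decide +kernel
theorem c3_2_1 : chk3c (0, 6) (0, 4) = true := by decide +kernel
theorem c3_2_2 : chk3c (0, 6) (0, 6) = true := by decide +kernel
theorem c3_2_3 : chk3c (0, 6) (0, 8) = true := by decide +kernel
theorem c3_2_4 : chk3c (0, 6) (2, 4) = true := by decide +kernel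
theorem c3_2_5 : chk3c (0, 6) (2, 6) = true := by decide +kernel
theorem c3_2_6 : chk3c (0, 6) (2, 8) = true := by decide +kernel
theorem c3_2_7 : chk3c (0, 6) (4, 6) = true := by decide +kernel
theorem c3_2_8 : chk3c (0, 6) (4, 8) = true := by decide +kernel
theorem c3_2_9 : chk3c (0, 6) (6, 8) = true := by decide +kernel
theorem c3_3_0 : chk3c (0, 8) (0, 2) = true := by decide +kernel
theorem c3_3_1 : chk3c (0, 8) (0, 4) = true := by decide +kernel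
theorem c3_3_2 : chk3c (0, 8) (0, 6) = true := by decide +kernel
theorem c3_3_3 : chk3c (0, 8) (0, 8) = true := by decide +kernel
theorem c3_3_4 : chk3c (0, 8) (2, 4) = true := by decide +kernel
theorem c3_3_5 : chk3c (0, 8) (2, 6) = true := by decide +kernel
theorem c3_3_6 : chk3c (0, 8) (2, 8) = true := by decide +kernel
theorem c3_3_7 : chk3c (0, 8) (4, 6) = true := by decide +kernel
theorem c3_3_8 : chk3c (0, 8) (4, 8) = true := by decide +kernel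
theorem c3_3_9 : chk3c (0, 8) (6, 8) = true := by decide +kernel
theorem c3_4_0 : chk3c (2, 4) (0, 2) = true := by decide +kernel
theorem c3_4_1 : chk3c (2, 4) (0, 4) = true := by decide +kernel
theorem c3_4_2 : chk3c (2, 4) (0, 6) = true := by decide +kernel
theorem c3_4_3 : chk3c (2, 4) (0, 8) = true := by decide +kernel
theorem c3_4_4 : chk3c (2, 4) (2, 4) = true := by decide +kernel
theorem c3_4_5 : chk3c (2, 4) (2, 6) = true := by decide +kernel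
theorem c3_4_6 : chk3c (2, 4) (2, 8) = true := by decide +kernel
theorem c3_4_7 : chk3c (2, 4) (4, 6) = true := by decide +kernel
theorem c3_4_8 : chk3c (2, 4) (4, 8) = true := by decide +kernel
theorem c3_4_9 : chk3c (2, 4) (6, 8) = true := by decide +kernel
theorem c3_5_0 : chk3c (2, 6) (0, 2) = true := by decide +kernel
theorem c3_5_1 : chk3c (2, 6) (0, 4) = true := by decide +kernel
theorem c3_5_2 : chk3c (2, 6) (0, 6) = true := by decide +kernel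
theorem c3_5_3 : chk3c (2, 6) (0, 8) = true := by decide +kernel
theorem c3_5_4 : chk3c (2, 6) (2, 4) = true := by decide +kernel
theorem c3_5_5 : chk3c (2, 6) (2, 6) = true := by decide +kernel
theorem c3_5_6 : chk3c (2, 6) (2, 8) = true := by decide +kernel
theorem c3_5_7 : chk3c (2, 6) (4, 6) = true := by decide +kernel
theorem c3_5_8 : chk3c (2, 6) (4, 8) = true := by decide +kernel
theorem c3_5_9 : chk3c (2, 6) (6, 8) = true := by decide +kernel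
theorem c3_6_0 : chk3c (2, 8) (0, 2) = true := by decide +kernel
theorem c3_6_1 : chk3c (2, 8) (0, 4) = true := by decide +kernel
theorem c3_6_2 : chk3c (2, 8) (0, 6) = true := by decide +kernel
theorem c3_6_3 : chk3c (2, 8) (0, 8) = true := by decide +kernel
theorem c3_6_4 : chk3c (2, 8) (2, 4) = true := by decide +kernel
theorem c3_6_5 : chk3c (2, 8) (2, 6) = true := by decide +kernel
theorem c3_6_6 : chk3c (2, 8) (2, 8) = true := by decide +kernel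
theorem c3_6_7 : chk3c (2, 8) (4, 6) = true := by decide +kernel
theorem c3_6_8 : chk3c (2, 8) (4, 8) = true := by decide +kernel
theorem c3_6_9 : chk3c (2, 8) (6, 8) = true := by decide +kernel
theorem c3_7_0 : chk3c (4, 6) (0, 2) = true := by decide +kernel
theorem c3_7_1 : chk3c (4, 6) (0, 4) = true := by decide +kernel
theorem c3_7_2 : chk3c (4, 6) (0, 6) = true := by decide +kernel
theorem c3_7_3 : chk3c (4, 6) (0, 8) = true := by decide +kernel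
theorem c3_7_4 : chk3c (4, 6) (2, 4) = true := by decide +kernel
theorem c3_7_5 : chk3c (4, 6) (2, 6) = true := by decide +kernel
theorem c3_7_6 : chk3c (4, 6) (2, 8) = true := by decide +kernel
theorem c3_7_7 : chk3c (4, 6) (4, 6) = true := by decide +kernel
theorem c3_7_8 : chk3c (4, 6) (4, 8) = true := by decide +kernel
theorem c3_7_9 : chk3c (4, 6) (6, 8) = true := by decide +kernel
theorem c3_8_0 : chk3c (4, 8) (0, 2) = true := by decide +kernel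
theorem c3_8_1 : chk3c (4, 8) (0, 4) = true := by decide +kernel
theorem c3_8_2 : chk3c (4, 8) (0, 6) = true := by decide +kernel
theorem c3_8_3 : chk3c (4, 8) (0, 8) = true := by decide +kernel
theorem c3_8_4 : chk3c (4, 8) (2, 4) = true := by decide +kernel
theorem c3_8_5 : chk3c (4, 8) (2, 6) = true := by decide +kernel
theorem c3_8_6 : chk3c (4, 8) (2, 8) = true := by decide +kernel
theorem c3_8_7 : chk3c (4, 8) (4, 6) = true := by decide +kernel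
theorem c3_8_8 : chk3c (4, 8) (4, 8) = true := by decide +kernel
theorem c3_8_9 : chk3c (4, 8) (6, 8) = true := by decide +kernel
theorem c3_9_0 : chk3c (6, 8) (0, 2) = true := by decide +kernel
theorem c3_9_1 : chk3c (6, 8) (0, 4) = true := by decide +kernel
theorem c3_9_2 : chk3c (6, 8) (0, 6) = true := by decide +kernel
theorem c3_9_3 : chk3c (6, 8) (0, 8) = true := by decide +kernel
theorem c3_9_4 : chk3c (6, 8) (2, 4) = true := by decide +kernel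
theorem c3_9_5 : chk3c (6, 8) (2, 6) = true := by decide +kernel
theorem c3_9_6 : chk3c (6, 8) (2, 8) = true := by decide +kernel
theorem c3_9_7 : chk3c (6, 8) (4, 6) = true := by decide +kernel
theorem c3_9_8 : chk3c (6, 8) (4, 8) = true := by decide +kernel
theorem c3_9_9 : chk3c (6, 8) (6, 8) = true := by decide +kernel

theorem c3_r0 : ∀ Q ∈ evp, chk3c (0, 2) Q = true :=
  List.forall_mem_cons.2 ⟨c3_0_0,
  List.forall_mem_cons.2 ⟨c3_0_1,
  List.forall_mem_cons.2 ⟨c3_0_2,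
  List.forall_mem_cons.2 ⟨c3_0_3,
  List.forall_mem_cons.2 ⟨c3_0_4,
  List.forall_mem_cons.2 ⟨c3_0_5,
  List.forall_mem_cons.2 ⟨c3_0_6,
  List.forall_mem_cons.2 ⟨c3_0_7,
  List.forall_mem_cons.2 ⟨c3_0_8,
  List.forall_mem_cons.2 ⟨c3_0_9,
  List.forall_mem_nil _⟩⟩⟩⟩⟩⟩⟩⟩⟩⟩

theorem c3_r1 : ∀ Q ∈ evp, chk3c (0, 4) Q = true :=
  List.forall_mem_cons.2 ⟨c3_1_0,
  List.forall_mem_cons.2 ⟨c3_1_1,
  List.forall_mem_cons.2 ⟨c3_1_2,
  List.forall_mem_cons.2 ⟨c3_1_3,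
  List.forall_mem_cons.2 ⟨c3_1_4,
  List.forall_mem_cons.2 ⟨c3_1_5,
  List.forall_mem_cons.2 ⟨c3_1_6,
  List.forall_mem_cons.2 ⟨c3_1_7,
  List.forall_mem_cons.2 ⟨c3_1_8,
  List.forall_mem_cons.2 ⟨c3_1_9,
  List.forall_mem_nil _⟩⟩⟩⟩⟩⟩⟩⟩⟩⟩

theorem c3_r2 : ∀ Q ∈ evp, chk3c (0, 6) Q = true :=
  List.forall_mem_cons.2 ⟨c3_2_0,
  List.forall_mem_cons.2 ⟨c3_2_1,
  List.forall_mem_cons.2 ⟨c3_2_2,
  List.forall_mem_cons.2 ⟨c3_2_3,
  List.forall_mem_cons.2 ⟨c3_2_4,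
  List.forall_mem_cons.2 ⟨c3_2_5,
  List.forall_mem_cons.2 ⟨c3_2_6,
  List.forall_mem_cons.2 ⟨c3_2_7,
  List.forall_mem_cons.2 ⟨c3_2_8,
  List.forall_mem_cons.2 ⟨c3_2_9,
  List.forall_mem_nil _⟩⟩⟩⟩⟩⟩⟩⟩⟩⟩

theorem c3_r3 : ∀ Q ∈ evp, chk3c (0, 8) Q = true :=
  List.forall_mem_cons.2 ⟨c3_3_0,
  List.forall_mem_cons.2 ⟨c3_3_1,
  List.forall_mem_cons.2 ⟨c3_3_2,
  List.forall_mem_cons.2 ⟨c3_3_3,
  List.forall_mem_cons.2 ⟨c3_3_4,
  List.forall_mem_cons.2 ⟨c3_3_5,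
  List.forall_mem_cons.2 ⟨c3_3_6,
  List.forall_mem_cons.2 ⟨c3_3_7,
  List.forall_mem_cons.2 ⟨c3_3_8,
  List.forall_mem_cons.2 ⟨c3_3_9,
  List.forall_mem_nil _⟩⟩⟩⟩⟩⟩⟩⟩⟩⟩

theorem c3_r4 : ∀ Q ∈ evp, chk3c (2, 4) Q = true :=
  List.forall_mem_cons.2 ⟨c3_4_0,
  List.forall_mem_cons.2 ⟨c3_4_1,
  List.forall_mem_cons.2 ⟨c3_4_2,
  List.forall_mem_cons.2 ⟨c3_4_3,
  List.forall_mem_cons.2 ⟨c3_4_4,
  List.forall_mem_cons.2 ⟨c3_4_5,
  List.forall_mem_cons.2 ⟨c3_4_6,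
  List.forall_mem_cons.2 ⟨c3_4_7,
  List.forall_mem_cons.2 ⟨c3_4_8,
  List.forall_mem_cons.2 ⟨c3_4_9,
  List.forall_mem_nil _⟩⟩⟩⟩⟩⟩⟩⟩⟩⟩

theorem c3_r5 : ∀ Q ∈ evp, chk3c (2, 6) Q = true :=
  List.forall_mem_cons.2 ⟨c3_5_0,
  List.forall_mem_cons.2 ⟨c3_5_1,
  List.forall_mem_cons.2 ⟨c3_5_2,
  List.forall_mem_cons.2 ⟨c3_5_3,
  List.forall_mem_cons.2 ⟨c3_5_4,
  List.forall_mem_cons.2 ⟨c3_5_5,
  List.forall_mem_cons.2 ⟨c3_5_6,
  List.forall_mem_cons.2 ⟨c3_5_7,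
  List.forall_mem_cons.2 ⟨c3_5_8,
  List.forall_mem_cons.2 ⟨c3_5_9,
  List.forall_mem_nil _⟩⟩⟩⟩⟩⟩⟩⟩⟩⟩

theorem c3_r6 : ∀ Q ∈ evp, chk3c (2, 8) Q = true :=
  List.forall_mem_cons.2 ⟨c3_6_0,
  List.forall_mem_cons.2 ⟨c3_6_1,
  List.forall_mem_cons.2 ⟨c3_6_2,
  List.forall_mem_cons.2 ⟨c3_6_3,
  List.forall_mem_cons.2 ⟨c3_6_4,
  List.forall_mem_cons.2 ⟨c3_6_5,
  List.forall_mem_cons.2 ⟨c3_6_6,
  List.forall_mem_cons.2 ⟨c3_6_7,
  List.forall_mem_cons.2 ⟨c3_6_8,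
  List.forall_mem_cons.2 ⟨c3_6_9,
  List.forall_mem_nil _⟩⟩⟩⟩⟩⟩⟩⟩⟩⟩

theorem c3_r7 : ∀ Q ∈ evp, chk3c (4, 6) Q = true :=
  List.forall_mem_cons.2 ⟨c3_7_0,
  List.forall_mem_cons.2 ⟨c3_7_1,
  List.forall_mem_cons.2 ⟨c3_7_2,
  List.forall_mem_cons.2 ⟨c3_7_3,
  List.forall_mem_cons.2 ⟨c3_7_4,
  List.forall_mem_cons.2 ⟨c3_7_5,
  List.forall_mem_cons.2 ⟨c3_7_6,
  List.forall_mem_cons.2 ⟨c3_7_7,
  List.forall_mem_cons.2 ⟨c3_7_8,
  List.forall_mem_cons.2 ⟨c3_7_9,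
  List.forall_mem_nil _⟩⟩⟩⟩⟩⟩⟩⟩⟩⟩

theorem c3_r8 : ∀ Q ∈ evp, chk3c (4, 8) Q = true :=
  List.forall_mem_cons.2 ⟨c3_8_0,
  List.forall_mem_cons.2 ⟨c3_8_1,
  List.forall_mem_cons.2 ⟨c3_8_2,
  List.forall_mem_cons.2 ⟨c3_8_3,
  List.forall_mem_cons.2 ⟨c3_8_4,
  List.forall_mem_cons.2 ⟨c3_8_5,
  List.forall_mem_cons.2 ⟨c3_8_6,
  List.forall_mem_cons.2 ⟨c3_8_7,
  List.forall_mem_cons.2 ⟨c3_8_8,
  List.forall_mem_cons.2 ⟨c3_8_9,
  List.forall_mem_nil _⟩⟩⟩⟩⟩⟩⟩⟩⟩⟩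

theorem c3_r9 : ∀ Q ∈ evp, chk3c (6, 8) Q = true :=
  List.forall_mem_cons.2 ⟨c3_9_0,
  List.forall_mem_cons.2 ⟨c3_9_1,
  List.forall_mem_cons.2 ⟨c3_9_2,
  List.forall_mem_cons.2 ⟨c3_9_3,
  List.forall_mem_cons.2 ⟨c3_9_4,
  List.forall_mem_cons.2 ⟨c3_9_5,
  List.forall_mem_cons.2 ⟨c3_9_6,
  List.forall_mem_cons.2 ⟨c3_9_7,
  List.forall_mem_cons.2 ⟨c3_9_8,
  List.forall_mem_cons.2 ⟨c3_9_9,
  List.forall_mem_nil _⟩⟩⟩⟩⟩⟩⟩⟩⟩⟩

theorem c3_all : ∀ P ∈ evp, ∀ Q ∈ evp, chk3c P Q = true :=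
  List.forall_mem_cons.2 ⟨c3_r0,
  List.forall_mem_cons.2 ⟨c3_r1,
  List.forall_mem_cons.2 ⟨c3_r2,
  List.forall_mem_cons.2 ⟨c3_r3,
  List.forall_mem_cons.2 ⟨c3_r4,
  List.forall_mem_cons.2 ⟨c3_r5,
  List.forall_mem_cons.2 ⟨c3_r6,
  List.forall_mem_cons.2 ⟨c3_r7,
  List.forall_mem_cons.2 ⟨c3_r8,
  List.forall_mem_cons.2 ⟨c3_r9,
  List.forall_mem_nil _⟩⟩⟩⟩⟩⟩⟩⟩⟩⟩

theorem chk3_true : chk3 = true := by
  unfold chk3
  rw [List.all_eq_true]
  intro P0 h0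
  rw [List.all_eq_true]
  intro Pk hk
  exact c3_all P0 h0 Pk hk

end Helper17.L9
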