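import Pool.Agent.helper17.L9.LoopR
import Pool.Agent.helper17.L9.LoopNum

/-!
# Loops: extension in parity if one of the three lists at the apex has four labels
-/

set_option autoImplicit false

namespace Helper17.L9

open Pool.Agent.helper58.L9 Pool.Agent.helper40.L9

/-- a wire which can be closed -/
def Clo (p0 q0 pk qk a b0 b1 c α β T : ℕ) : Prop :=
  c ∈ evs ∧ (c ≠ p0 ∧ c ≠ q0 ∧ c ≠ a) ∧ (c + 1 ≠ b0 ∧ b0 + 1 ≠ c) ∧ (α, β) ∈ evp ∧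
    (α ≠ c ∧ α ≠ p0 ∧ α ≠ q0) ∧ (β ≠ c ∧ β ≠ p0 ∧ β ≠ q0) ∧
    (T ∈ evs ∧ T ≠ pk ∧ T ≠ qk ∧ T ≠ a) ∧ (T + 1 ≠ b1 ∧ b1 + 1 ≠ T) ∧
    (T = α ∨ T = β ∨ α = pk ∨ α = qk ∨ β = pk ∨ β = qk)

theorem okT_iff {p0 q0 pk qk a b0 b1 : ℕ} (h : okT p0 q0 pk qk a b0 b1 = true) :
    ∃ c α β T, Clo p0 q0 pk qk a b0 b1 c α β T := by
  unfold okT at h
  rw [List.any_eq_true] at h
  obtain ⟨c, hc, h⟩ := h
  rw [Bool.and_eq_true] at h
  obtain ⟨h1, h⟩ := h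
  rw [List.any_eq_true] at h
  obtain ⟨⟨α, β⟩, hab, h⟩ := h
  rw [Bool.and_eq_true] at h
  obtain ⟨h2, h⟩ := h
  rw [List.any_eq_true] at h
  obtain ⟨T, hT, h⟩ := h
  simp only [Bool.and_eq_true, Bool.or_eq_true, dif_iff, far_iff, Nat.beq_eq] at h1 h2 h
  obtain ⟨⟨⟨⟨c1, c2⟩, c3⟩, c4⟩, c5⟩ := h
  obtain ⟨⟨⟨d1, d2⟩, d3⟩, d4⟩ := h1
  obtain ⟨⟨⟨⟨⟨e1, e2⟩, e3⟩, e4⟩, e5⟩, e6⟩ := h2
  refine ⟨c, α, β, T, hc, ⟨d1, d2, d3⟩, d4, hab, ⟨e1, e2, e3⟩, ⟨e4, e5, e6⟩, ⟨hT, c1, c2, c3⟩,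
    c4, ?_⟩
  tauto

theorem mem_trip {s : ℕ × ℕ × ℕ} (h : s ∈ trip) : s.1 ∈ evs ∧ s.2.1 ∈ ods ∧ s.2.2 ∈ ods ∧
    s.2.1 ≠ s.2.2 ∧ (s.1 + 1 ≠ s.2.1 ∧ s.2.1 + 1 ≠ s.1) ∧
    (s.1 + 1 ≠ s.2.2 ∧ s.2.2 + 1 ≠ s.1) := by
  unfold trip at h
  simp only [List.mem_flatMap, List.mem_filter, List.mem_map, Bool.and_eq_true, dif_iff,
    far_iff] at h
  obtain ⟨a, ha, b, ⟨hb, hab⟩, c, ⟨hc, hac, hbc⟩, rfl⟩ := h
  exact ⟨ha, hb, hc, hbc, hab, hac⟩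

theorem av_iff {x : ℕ} {P : ℕ × ℕ} : av x P = true ↔ x ≠ P.1 ∧ x ≠ P.2 := by
  unfold av
  rw [Bool.and_eq_true, dif_iff, dif_iff]

theorem nrmE1 (n : ℕ) : ∃ m ∈ evs, ∀ w ∈ evs, w ≠ m → w ≠ n := by
  by_cases h : n ∈ evs
  · exact ⟨n, h, fun _ _ h => h⟩
  · exact ⟨0, by decide, fun w hw _ he => h (he ▸ hw)⟩

theorem nrmO1 (n : ℕ) : ∃ m ∈ ods, ∀ w ∈ ods, w ≠ m → w ≠ n := by
  by_cases h : n ∈ ods
  · exact ⟨n, h, fun _ _ h => h⟩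
  · exact ⟨1, by decide, fun w hw _ he => h (he ▸ hw)⟩

variable {V : Type*} {A Q N : V → V → Prop} {X L E : V → Prop} {f : V → ℕ} {k : ℕ}
  {u v p q y o o' : ℕ → V} {t z0 z1 m m' w w' x x' : V}

/-- normalised excluded pairs at the two ends of the wire, equal if `k = 1` -/
theorem nrm_ends (f : V → ℕ) (hk : 0 < k) :
    ∃ P0 ∈ evp, ∃ Pk ∈ evp,
      (∀ w ∈ evs, w ≠ P0.1 → w ≠ P0.2 → w ≠ f (p 0) ∧ w ≠ f (q 0)) ∧
      (∀ w ∈ evs, w ≠ Pk.1 → w ≠ Pk.2 → w ≠ f (p (k - 1)) ∧ w ≠ f (q (k - 1))) ∧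
      (k = 1 → P0 = Pk) := by
  obtain ⟨P0, h0, h0'⟩ := nrmE' (f (p 0)) (f (q 0))
  by_cases hk1 : k = 1
  · subst hk1
    exact ⟨P0, h0, P0, h0, h0', h0', fun _ => rfl⟩
  · obtain ⟨Pk, h1, h1'⟩ := nrmE' (f (p (k - 1))) (f (q (k - 1)))
    exact ⟨P0, h0, Pk, h1, h0', h1', fun h => absurd h hk1⟩

/-- extension from a closable triple -/
theorem LoopR.par' (hR : Rel A Q N X) (hQne : ∀ v, ¬ Q v v)
    (hl : LoopR A Q X k u v p q y o o' t z0 z1 m m' w w' x x') (h : St A Q N X L E f)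
    (hL : ∀ r, LSet k u v y t z0 z1 r → ¬ L r) {P0 Pk : ℕ × ℕ} (hPk : Pk ∈ evp)
    (h0 : ∀ w ∈ evs, w ≠ P0.1 → w ≠ P0.2 → w ≠ f (p 0) ∧ w ≠ f (q 0))
    (hk : ∀ w ∈ evs, w ≠ Pk.1 → w ≠ Pk.2 → w ≠ f (p (k - 1)) ∧ w ≠ f (q (k - 1)))
    (h1 : k = 1 → P0 = Pk) {s : ℕ × ℕ × ℕ} (hs : s ∈ S3 P0 Pk)
    (hm : ∀ r, r = m ∨ r = m' → L r → ¬ E r → f r ≠ s.1)
    (hw : ∀ r, r = w ∨ r = w' → L r → ¬ E r → f r ≠ s.2.1)
    (hx : ∀ r, r = x ∨ r = x' → L r → ¬ E r → f r ≠ s.2.2) :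
    ∃ g : V → ℕ, St A Q N X (fun r => L r ∨ LSet k u v y t z0 z1 r) E g ∧
      (∀ r, ¬ LSet k u v y t z0 z1 r → g r = f r) := by
  unfold S3 at hs
  rw [List.mem_filter] at hs
  obtain ⟨a1, a2, a3, a4, a5, a6⟩ := mem_trip hs.1
  obtain ⟨c, α, β, T, c1, c2, c3, c4, c5, c6, c7, c8, c9⟩ := okT_iff hs.2
  obtain ⟨ha, hb, _⟩ := evp_evs c4
  have d0 := h0 c c1 c2.1 c2.2.1
  have dα := h0 α ha c5.2.1 c5.2.2
  have dβ := h0 β hb c6.2.1 c6.2.2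
  refine hl.par hR hQne h hL a1 a2 a3 c1 c4 a4 a5 a6 ⟨d0.1, d0.2, c2.2.2⟩ c3
    ⟨c5.1, dα.1, dα.2⟩ ⟨c6.1, dβ.1, dβ.2⟩
    ⟨Pk, hPk, hk, c7.1, c7.2.1, c7.2.2.1, c9⟩ c7.2.2.2 c8 ?_ hm hw hx
  intro hk1 he
  have := h1 hk1
  subst this
  have e1 := c5.1
  have e2 := c6.1
  have e3 := c5.2.1
  have e4 := c5.2.2
  have e5 := c6.2.1
  have e6 := c6.2.2
  rcases c9 with c9 | c9 | c9 | c9 | c9 | c9
  · exact e1 (c9.symm.trans he)
  · exact e2 (c9.symm.trans he)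
  · exact e3 c9
  · exact e4 c9
  · exact e5 c9
  · exact e6 c9

/-- **Extension in parity if one of the three lists is large.** -/
theorem LoopR.ext_par (hR : Rel A Q N X) (hQne : ∀ v, ¬ Q v v)
    (hl : LoopR A Q X k u v p q y o o' t z0 z1 m m' w w' x x') (h : St A Q N X L E f)
    (hL : ∀ r, LSet k u v y t z0 z1 r → ¬ L r)
    (hc : (∃ n, ∀ r, r = m ∨ r = m' → L r → ¬ E r → f r = n) ∨
      (∃ n, ∀ r, r = w ∨ r = w' → L r → ¬ E r → f r = n) ∨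
      (∃ n, ∀ r, r = x ∨ r = x' → L r → ¬ E r → f r = n)) :
    ∃ g : V → ℕ, St A Q N X (fun r => L r ∨ LSet k u v y t z0 z1 r) E g ∧
      (∀ r, ¬ LSet k u v y t z0 z1 r → g r = f r) := by
  obtain ⟨P0, hP0, Pk, hPk, h0, hk, h1⟩ := nrm_ends (p := p) (q := q) f hl.k0
  obtain ⟨M, hM, hM'⟩ := nrmE' (f m) (f m')
  obtain ⟨W, hW, hW'⟩ := nrmO (f w) (f w')
  obtain ⟨W1, hW1, hW1'⟩ := nrmO (f x) (f x')
  have key : ∃ s ∈ S3 P0 Pk, (∀ r, r = m ∨ r = m' → L r → ¬ E r → f r ≠ s.1) ∧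
      (∀ r, r = w ∨ r = w' → L r → ¬ E r → f r ≠ s.2.1) ∧
      (∀ r, r = x ∨ r = x' → L r → ¬ E r → f r ≠ s.2.2) := by
    have tr : ∀ s ∈ S3 P0 Pk, s.1 ∈ evs ∧ s.2.1 ∈ ods ∧ s.2.2 ∈ ods := by
      intro s hs
      have := mem_trip (List.mem_filter.mp hs).1
      exact ⟨this.1, this.2.1, this.2.2.1⟩
    have am : ∀ s ∈ S3 P0 Pk, av s.1 M = true → ∀ r, r = m ∨ r = m' → L r → ¬ E r →
        f r ≠ s.1 := by
      intro s hs h2 r hr _ _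
      obtain ⟨h3, h4⟩ := av_iff.mp h2
      have h5 := hM' _ (tr s hs).1 h3 h4
      rcases hr with rfl | rfl
      · exact h5.1.symm
      · exact h5.2.symm
    have aw : ∀ s ∈ S3 P0 Pk, av s.2.1 W = true → ∀ r, r = w ∨ r = w' → L r → ¬ E r →
        f r ≠ s.2.1 := by
      intro s hs h2 r hr _ _
      obtain ⟨h3, h4⟩ := av_iff.mp h2
      have h5 := hW' _ (tr s hs).2.1 h3 h4
      rcases hr with rfl | rfl
      · exact h5.1.symm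
      · exact h5.2.symm
    have ax : ∀ s ∈ S3 P0 Pk, av s.2.2 W1 = true → ∀ r, r = x ∨ r = x' → L r → ¬ E r →
        f r ≠ s.2.2 := by
      intro s hs h2 r hr _ _
      obtain ⟨h3, h4⟩ := av_iff.mp h2
      have h5 := hW1' _ (tr s hs).2.2 h3 h4
      rcases hr with rfl | rfl
      · exact h5.1.symm
      · exact h5.2.symm
    rcases hc with ⟨n, hn⟩ | ⟨n, hn⟩ | ⟨n, hn⟩
    · obtain ⟨n', hn1, hn2⟩ := nrmE1 n
      have hck := chk1_true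
      unfold chk1 at hck
      rw [List.all_eq_true] at hck
      have hck := hck _ hP0
      rw [List.all_eq_true] at hck
      have hck := hck _ hPk
      rw [List.all_eq_true] at hck
      have hck := hck _ hn1
      rw [List.all_eq_true] at hck
      have hck := hck _ hW
      rw [List.all_eq_true] at hck
      have hck := hck _ hW1
      rw [List.any_eq_true] at hck
      obtain ⟨s, hs, hck⟩ := hck
      rw [Bool.and_eq_true, Bool.and_eq_true, dif_iff] at hck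
      refine ⟨s, hs, fun r hr hLr hEr => ?_, aw s hs hck.1.2, ax s hs hck.2⟩
      rw [hn r hr hLr hEr]
      exact (hn2 _ (tr s hs).1 hck.1.1).symm
    · obtain ⟨n', hn1, hn2⟩ := nrmO1 n
      have hck := chk2_true
      unfold chk2 at hck
      rw [List.all_eq_true] at hck
      have hck := hck _ hP0
      rw [List.all_eq_true] at hck
      have hck := hck _ hPk
      rw [List.all_eq_true] at hck
      have hck := hck _ hM
      rw [List.all_eq_true] at hck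
      have hck := hck _ hn1
      rw [List.all_eq_true] at hck
      have hck := hck _ hW1
      rw [List.any_eq_true] at hck
      obtain ⟨s, hs, hck⟩ := hck
      rw [Bool.and_eq_true, Bool.and_eq_true, dif_iff] at hck
      refine ⟨s, hs, am s hs hck.1.1, fun r hr hLr hEr => ?_, ax s hs hck.2⟩
      rw [hn r hr hLr hEr]
      exact (hn2 _ (tr s hs).2.1 hck.1.2).symm
    · obtain ⟨n', hn1, hn2⟩ := nrmO1 n
      have hck := chk3_true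
      unfold chk3 at hck
      rw [List.all_eq_true] at hck
      have hck := hck _ hP0
      rw [List.all_eq_true] at hck
      have hck := hck _ hPk
      rw [List.all_eq_true] at hck
      have hck := hck _ hM
      rw [List.all_eq_true] at hck
      have hck := hck _ hW
      rw [List.all_eq_true] at hck
      have hck := hck _ hn1
      rw [List.any_eq_true] at hck
      obtain ⟨s, hs, hck⟩ := hck
      rw [Bool.and_eq_true, Bool.and_eq_true, dif_iff] at hck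
      refine ⟨s, hs, am s hs hck.1.1, aw s hs hck.1.2, fun r hr hLr hEr => ?_⟩
      rw [hn r hr hLr hEr]
      exact (hn2 _ (tr s hs).2.2 hck.2).symm
  obtain ⟨s, hs, k1, k2, k3⟩ := key
  exact hl.par' hR hQne h hL hPk h0 hk h1 hs k1 k2 k3

end Helper17.L9
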