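import Pool.Agent.helper17.L9.LoopNum

/-!
# Loops: the check with all neighbours labelled
-/

set_option autoImplicit false

namespace Helper17.L9

/-- the exceptional pattern -/
def pat (m m' wm w w' x x' : ℕ) (P0 Pk : ℕ × ℕ) : Bool :=
  Nat.beq m 8 && Nat.beq m' 0 && Nat.beq wm 3 && Nat.beq w 5 && Nat.beq w' 9 &&
    Nat.beq x 1 && Nat.beq x' 9 && Nat.beq P0.1 6 && Nat.beq P0.2 8 && Nat.beq Pk.1 0 &&
    Nat.beq Pk.2 8

/-- other element of a pair -/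
def oth (P : ℕ × ℕ) (x : ℕ) : ℕ := if Nat.beq x P.1 then P.2 else P.1

/-- all neighbours labelled: parity, or odd apex, or one of the two patterns -/
def chk4 : Bool :=
  evp.all fun P0 => evp.all fun Pk =>
    (fun S O : List (ℕ × ℕ × ℕ) => evp.all fun M => odp.all fun W => odp.all fun W1 =>
      (S.any fun s => av s.1 M && av s.2.1 W && av s.2.2 W1) ||
      ([M.1, M.2].all fun m => ods.all fun wm => !(far m wm) ||
        ([W.1, W.2].all fun w => [W1.1, W1.2].all fun x =>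
          (O.any fun s => dif s.1 wm && dif s.1 w && dif s.1 x && far s.1 m &&
            av s.2.1 W && av s.2.2 W1) ||
          pat m (oth M m) wm w (oth W w) x (oth W1 x) P0 Pk ||
          pat m (oth M m) wm x (oth W1 x) w (oth W w) Pk P0)))
    (S3 P0 Pk) (S3O P0 Pk)

/-- the check for one pair of wire ends -/
def chk4c (P0 Pk : ℕ × ℕ) : Bool :=
    (fun S O : List (ℕ × ℕ × ℕ) => evp.all fun M => odp.all fun W => odp.all fun W1 =>
      (S.any fun s => av s.1 M && av s.2.1 W && av s.2.2 W1) ||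
      ([M.1, M.2].all fun m => ods.all fun wm => !(far m wm) ||
        ([W.1, W.2].all fun w => [W1.1, W1.2].all fun x =>
          (O.any fun s => dif s.1 wm && dif s.1 w && dif s.1 x && far s.1 m &&
            av s.2.1 W && av s.2.2 W1) ||
          pat m (oth M m) wm w (oth W w) x (oth W1 x) P0 Pk ||
          pat m (oth M m) wm x (oth W1 x) w (oth W w) Pk P0)))
    (S3 P0 Pk) (S3O P0 Pk)

theorem c4_0_0 : chk4c (0, 2) (0, 2) = true := by decide +kernel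
theorem c4_0_1 : chk4c (0, 2) (0, 4) = true := by decide +kernel
theorem c4_0_2 : chk4c (0, 2) (0, 6) = true := by decide +kernel
theorem c4_0_3 : chk4c (0, 2) (0, 8) = true := by decide +kernel
theorem c4_0_4 : chk4c (0, 2) (2, 4) = true := by decide +kernel
theorem c4_0_5 : chk4c (0, 2) (2, 6) = true := by decide +kernel
theorem c4_0_6 : chk4c (0, 2) (2, 8) = true := by decide +kernel
theorem c4_0_7 : chk4c (0, 2) (4, 6) = true := by decide +kernel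
theorem c4_0_8 : chk4c (0, 2) (4, 8) = true := by decide +kernel
theorem c4_0_9 : chk4c (0, 2) (6, 8) = true := by decide +kernel
theorem c4_1_0 : chk4c (0, 4) (0, 2) = true := by decide +kernel
theorem c4_1_1 : chk4c (0, 4) (0, 4) = true := by decide +kernel
theorem c4_1_2 : chk4c (0, 4) (0, 6) = true := by decide +kernel
theorem c4_1_3 : chk4c (0, 4) (0, 8) = true := by decide +kernel
theorem c4_1_4 : chk4c (0, 4) (2, 4) = true := by decide +kernel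
theorem c4_1_5 : chk4c (0, 4) (2, 6) = true := by decide +kernel
theorem c4_1_6 : chk4c (0, 4) (2, 8) = true := by decide +kernel
theorem c4_1_7 : chk4c (0, 4) (4, 6) = true := by decide +kernel
theorem c4_1_8 : chk4c (0, 4) (4, 8) = true := by decide +kernel
theorem c4_1_9 : chk4c (0, 4) (6, 8) = true := by decide +kernel
theorem c4_2_0 : chk4c (0, 6) (0, 2) = true := by decide +kernel
theorem c4_2_1 : chk4c (0, 6) (0, 4) = true := by decide +kernel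
theorem c4_2_2 : chk4c (0, 6) (0, 6) = true := by decide +kernel
theorem c4_2_3 : chk4c (0, 6) (0, 8) = true := by decide +kernel
theorem c4_2_4 : chk4c (0, 6) (2, 4) = true := by decide +kernel
theorem c4_2_5 : chk4c (0, 6) (2, 6) = true := by decide +kernel
theorem c4_2_6 : chk4c (0, 6) (2, 8) = true := by decide +kernel
theorem c4_2_7 : chk4c (0, 6) (4, 6) = true := by decide +kernel
theorem c4_2_8 : chk4c (0, 6) (4, 8) = true := by decide +kernel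
theorem c4_2_9 : chk4c (0, 6) (6, 8) = true := by decide +kernel
theorem c4_3_0 : chk4c (0, 8) (0, 2) = true := by decide +kernel
theorem c4_3_1 : chk4c (0, 8) (0, 4) = true := by decide +kernel
theorem c4_3_2 : chk4c (0, 8) (0, 6) = true := by decide +kernel
theorem c4_3_3 : chk4c (0, 8) (0, 8) = true := by decide +kernel
theorem c4_3_4 : chk4c (0, 8) (2, 4) = true := by decide +kernel
theorem c4_3_5 : chk4c (0, 8) (2, 6) = true := by decide +kernel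
theorem c4_3_6 : chk4c (0, 8) (2, 8) = true := by decide +kernel
theorem c4_3_7 : chk4c (0, 8) (4, 6) = true := by decide +kernel
theorem c4_3_8 : chk4c (0, 8) (4, 8) = true := by decide +kernel
theorem c4_3_9 : chk4c (0, 8) (6, 8) = true := by decide +kernel
theorem c4_4_0 : chk4c (2, 4) (0, 2) = true := by decide +kernel
theorem c4_4_1 : chk4c (2, 4) (0, 4) = true := by decide +kernel
theorem c4_4_2 : chk4c (2, 4) (0, 6) = true := by decide +kernel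
theorem c4_4_3 : chk4c (2, 4) (0, 8) = true := by decide +kernel
theorem c4_4_4 : chk4c (2, 4) (2, 4) = true := by decide +kernel
theorem c4_4_5 : chk4c (2, 4) (2, 6) = true := by decide +kernel
theorem c4_4_6 : chk4c (2, 4) (2, 8) = true := by decide +kernel
theorem c4_4_7 : chk4c (2, 4) (4, 6) = true := by decide +kernel
theorem c4_4_8 : chk4c (2, 4) (4, 8) = true := by decide +kernel
theorem c4_4_9 : chk4c (2, 4) (6, 8) = true := by decide +kernel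
theorem c4_5_0 : chk4c (2, 6) (0, 2) = true := by decide +kernel
theorem c4_5_1 : chk4c (2, 6) (0, 4) = true := by decide +kernel
theorem c4_5_2 : chk4c (2, 6) (0, 6) = true := by decide +kernel
theorem c4_5_3 : chk4c (2, 6) (0, 8) = true := by decide +kernel
theorem c4_5_4 : chk4c (2, 6) (2, 4) = true := by decide +kernel
theorem c4_5_5 : chk4c (2, 6) (2, 6) = true := by decide +kernel
theorem c4_5_6 : chk4c (2, 6) (2, 8) = true := by decide +kernel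
theorem c4_5_7 : chk4c (2, 6) (4, 6) = true := by decide +kernel
theorem c4_5_8 : chk4c (2, 6) (4, 8) = true := by decide +kernel
theorem c4_5_9 : chk4c (2, 6) (6, 8) = true := by decide +kernel
theorem c4_6_0 : chk4c (2, 8) (0, 2) = true := by decide +kernel
theorem c4_6_1 : chk4c (2, 8) (0, 4) = true := by decide +kernel
theorem c4_6_2 : chk4c (2, 8) (0, 6) = true := by decide +kernel
theorem c4_6_3 : chk4c (2, 8) (0, 8) = true := by decide +kernel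
theorem c4_6_4 : chk4c (2, 8) (2, 4) = true := by decide +kernel
theorem c4_6_5 : chk4c (2, 8) (2, 6) = true := by decide +kernel
theorem c4_6_6 : chk4c (2, 8) (2, 8) = true := by decide +kernel
theorem c4_6_7 : chk4c (2, 8) (4, 6) = true := by decide +kernel
theorem c4_6_8 : chk4c (2, 8) (4, 8) = true := by decide +kernel
theorem c4_6_9 : chk4c (2, 8) (6, 8) = true := by decide +kernel
theorem c4_7_0 : chk4c (4, 6) (0, 2) = true := by decide +kernel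
theorem c4_7_1 : chk4c (4, 6) (0, 4) = true := by decide +kernel
theorem c4_7_2 : chk4c (4, 6) (0, 6) = true := by decide +kernel
theorem c4_7_3 : chk4c (4, 6) (0, 8) = true := by decide +kernel
theorem c4_7_4 : chk4c (4, 6) (2, 4) = true := by decide +kernel
theorem c4_7_5 : chk4c (4, 6) (2, 6) = true := by decide +kernel
theorem c4_7_6 : chk4c (4, 6) (2, 8) = true := by decide +kernel
theorem c4_7_7 : chk4c (4, 6) (4, 6) = true := by decide +kernel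
theorem c4_7_8 : chk4c (4, 6) (4, 8) = true := by decide +kernel
theorem c4_7_9 : chk4c (4, 6) (6, 8) = true := by decide +kernel
theorem c4_8_0 : chk4c (4, 8) (0, 2) = true := by decide +kernel
theorem c4_8_1 : chk4c (4, 8) (0, 4) = true := by decide +kernel
theorem c4_8_2 : chk4c (4, 8) (0, 6) = true := by decide +kernel
theorem c4_8_3 : chk4c (4, 8) (0, 8) = true := by decide +kernel
theorem c4_8_4 : chk4c (4, 8) (2, 4) = true := by decide +kernel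
theorem c4_8_5 : chk4c (4, 8) (2, 6) = true := by decide +kernel
theorem c4_8_6 : chk4c (4, 8) (2, 8) = true := by decide +kernel
theorem c4_8_7 : chk4c (4, 8) (4, 6) = true := by decide +kernel
theorem c4_8_8 : chk4c (4, 8) (4, 8) = true := by decide +kernel
theorem c4_8_9 : chk4c (4, 8) (6, 8) = true := by decide +kernel
theorem c4_9_0 : chk4c (6, 8) (0, 2) = true := by decide +kernel
theorem c4_9_1 : chk4c (6, 8) (0, 4) = true := by decide +kernel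
theorem c4_9_2 : chk4c (6, 8) (0, 6) = true := by decide +kernel
theorem c4_9_3 : chk4c (6, 8) (0, 8) = true := by decide +kernel
theorem c4_9_4 : chk4c (6, 8) (2, 4) = true := by decide +kernel
theorem c4_9_5 : chk4c (6, 8) (2, 6) = true := by decide +kernel
theorem c4_9_6 : chk4c (6, 8) (2, 8) = true := by decide +kernel
theorem c4_9_7 : chk4c (6, 8) (4, 6) = true := by decide +kernel
theorem c4_9_8 : chk4c (6, 8) (4, 8) = true := by decide +kernel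
theorem c4_9_9 : chk4c (6, 8) (6, 8) = true := by decide +kernel

theorem c4_r0 : ∀ Q ∈ evp, chk4c (0, 2) Q = true :=
  List.forall_mem_cons.2 ⟨c4_0_0,
  List.forall_mem_cons.2 ⟨c4_0_1,
  List.forall_mem_cons.2 ⟨c4_0_2,
  List.forall_mem_cons.2 ⟨c4_0_3,
  List.forall_mem_cons.2 ⟨c4_0_4,
  List.forall_mem_cons.2 ⟨c4_0_5,
  List.forall_mem_cons.2 ⟨c4_0_6,
  List.forall_mem_cons.2 ⟨c4_0_7,
  List.forall_mem_cons.2 ⟨c4_0_8,
  List.forall_mem_cons.2 ⟨c4_0_9,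
  List.forall_mem_nil _⟩⟩⟩⟩⟩⟩⟩⟩⟩⟩

theorem c4_r1 : ∀ Q ∈ evp, chk4c (0, 4) Q = true :=
  List.forall_mem_cons.2 ⟨c4_1_0,
  List.forall_mem_cons.2 ⟨c4_1_1,
  List.forall_mem_cons.2 ⟨c4_1_2,
  List.forall_mem_cons.2 ⟨c4_1_3,
  List.forall_mem_cons.2 ⟨c4_1_4,
  List.forall_mem_cons.2 ⟨c4_1_5,
  List.forall_mem_cons.2 ⟨c4_1_6,
  List.forall_mem_cons.2 ⟨c4_1_7,
  List.forall_mem_cons.2 ⟨c4_1_8,
  List.forall_mem_cons.2 ⟨c4_1_9,
  List.forall_mem_nil _⟩⟩⟩⟩⟩⟩⟩⟩⟩⟩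

theorem c4_r2 : ∀ Q ∈ evp, chk4c (0, 6) Q = true :=
  List.forall_mem_cons.2 ⟨c4_2_0,
  List.forall_mem_cons.2 ⟨c4_2_1,
  List.forall_mem_cons.2 ⟨c4_2_2,
  List.forall_mem_cons.2 ⟨c4_2_3,
  List.forall_mem_cons.2 ⟨c4_2_4,
  List.forall_mem_cons.2 ⟨c4_2_5,
  List.forall_mem_cons.2 ⟨c4_2_6,
  List.forall_mem_cons.2 ⟨c4_2_7,
  List.forall_mem_cons.2 ⟨c4_2_8,
  List.forall_mem_cons.2 ⟨c4_2_9,
  List.forall_mem_nil _⟩⟩⟩⟩⟩⟩⟩⟩⟩⟩

theorem c4_r3 : ∀ Q ∈ evp, chk4c (0, 8) Q = true :=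
  List.forall_mem_cons.2 ⟨c4_3_0,
  List.forall_mem_cons.2 ⟨c4_3_1,
  List.forall_mem_cons.2 ⟨c4_3_2,
  List.forall_mem_cons.2 ⟨c4_3_3,
  List.forall_mem_cons.2 ⟨c4_3_4,
  List.forall_mem_cons.2 ⟨c4_3_5,
  List.forall_mem_cons.2 ⟨c4_3_6,
  List.forall_mem_cons.2 ⟨c4_3_7,
  List.forall_mem_cons.2 ⟨c4_3_8,
  List.forall_mem_cons.2 ⟨c4_3_9,
  List.forall_mem_nil _⟩⟩⟩⟩⟩⟩⟩⟩⟩⟩

theorem c4_r4 : ∀ Q ∈ evp, chk4c (2, 4) Q = true :=
  List.forall_mem_cons.2 ⟨c4_4_0,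
  List.forall_mem_cons.2 ⟨c4_4_1,
  List.forall_mem_cons.2 ⟨c4_4_2,
  List.forall_mem_cons.2 ⟨c4_4_3,
  List.forall_mem_cons.2 ⟨c4_4_4,
  List.forall_mem_cons.2 ⟨c4_4_5,
  List.forall_mem_cons.2 ⟨c4_4_6,
  List.forall_mem_cons.2 ⟨c4_4_7,
  List.forall_mem_cons.2 ⟨c4_4_8,
  List.forall_mem_cons.2 ⟨c4_4_9,
  List.forall_mem_nil _⟩⟩⟩⟩⟩⟩⟩⟩⟩⟩

theorem c4_r5 : ∀ Q ∈ evp, chk4c (2, 6) Q = true :=
  List.forall_mem_cons.2 ⟨c4_5_0,
  List.forall_mem_cons.2 ⟨c4_5_1,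
  List.forall_mem_cons.2 ⟨c4_5_2,
  List.forall_mem_cons.2 ⟨c4_5_3,
  List.forall_mem_cons.2 ⟨c4_5_4,
  List.forall_mem_cons.2 ⟨c4_5_5,
  List.forall_mem_cons.2 ⟨c4_5_6,
  List.forall_mem_cons.2 ⟨c4_5_7,
  List.forall_mem_cons.2 ⟨c4_5_8,
  List.forall_mem_cons.2 ⟨c4_5_9,
  List.forall_mem_nil _⟩⟩⟩⟩⟩⟩⟩⟩⟩⟩

theorem c4_r6 : ∀ Q ∈ evp, chk4c (2, 8) Q = true :=
  List.forall_mem_cons.2 ⟨c4_6_0,
  List.forall_mem_cons.2 ⟨c4_6_1,
  List.forall_mem_cons.2 ⟨c4_6_2,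
  List.forall_mem_cons.2 ⟨c4_6_3,
  List.forall_mem_cons.2 ⟨c4_6_4,
  List.forall_mem_cons.2 ⟨c4_6_5,
  List.forall_mem_cons.2 ⟨c4_6_6,
  List.forall_mem_cons.2 ⟨c4_6_7,
  List.forall_mem_cons.2 ⟨c4_6_8,
  List.forall_mem_cons.2 ⟨c4_6_9,
  List.forall_mem_nil _⟩⟩⟩⟩⟩⟩⟩⟩⟩⟩

theorem c4_r7 : ∀ Q ∈ evp, chk4c (4, 6) Q = true :=
  List.forall_mem_cons.2 ⟨c4_7_0,
  List.forall_mem_cons.2 ⟨c4_7_1,
  List.forall_mem_cons.2 ⟨c4_7_2,
  List.forall_mem_cons.2 ⟨c4_7_3,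
  List.forall_mem_cons.2 ⟨c4_7_4,
  List.forall_mem_cons.2 ⟨c4_7_5,
  List.forall_mem_cons.2 ⟨c4_7_6,
  List.forall_mem_cons.2 ⟨c4_7_7,
  List.forall_mem_cons.2 ⟨c4_7_8,
  List.forall_mem_cons.2 ⟨c4_7_9,
  List.forall_mem_nil _⟩⟩⟩⟩⟩⟩⟩⟩⟩⟩

theorem c4_r8 : ∀ Q ∈ evp, chk4c (4, 8) Q = true :=
  List.forall_mem_cons.2 ⟨c4_8_0,
  List.forall_mem_cons.2 ⟨c4_8_1,
  List.forall_mem_cons.2 ⟨c4_8_2,
  List.forall_mem_cons.2 ⟨c4_8_3,
  List.forall_mem_cons.2 ⟨c4_8_4,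
  List.forall_mem_cons.2 ⟨c4_8_5,
  List.forall_mem_cons.2 ⟨c4_8_6,
  List.forall_mem_cons.2 ⟨c4_8_7,
  List.forall_mem_cons.2 ⟨c4_8_8,
  List.forall_mem_cons.2 ⟨c4_8_9,
  List.forall_mem_nil _⟩⟩⟩⟩⟩⟩⟩⟩⟩⟩

theorem c4_r9 : ∀ Q ∈ evp, chk4c (6, 8) Q = true :=
  List.forall_mem_cons.2 ⟨c4_9_0,
  List.forall_mem_cons.2 ⟨c4_9_1,
  List.forall_mem_cons.2 ⟨c4_9_2,
  List.forall_mem_cons.2 ⟨c4_9_3,
  List.forall_mem_cons.2 ⟨c4_9_4,
  List.forall_mem_cons.2 ⟨c4_9_5,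
  List.forall_mem_cons.2 ⟨c4_9_6,
  List.forall_mem_cons.2 ⟨c4_9_7,
  List.forall_mem_cons.2 ⟨c4_9_8,
  List.forall_mem_cons.2 ⟨c4_9_9,
  List.forall_mem_nil _⟩⟩⟩⟩⟩⟩⟩⟩⟩⟩

theorem c4_all : ∀ P ∈ evp, ∀ Q ∈ evp, chk4c P Q = true :=
  List.forall_mem_cons.2 ⟨c4_r0,
  List.forall_mem_cons.2 ⟨c4_r1,
  List.forall_mem_cons.2 ⟨c4_r2,
  List.forall_mem_cons.2 ⟨c4_r3,
  List.forall_mem_cons.2 ⟨c4_r4,
  List.forall_mem_cons.2 ⟨c4_r5,
  List.forall_mem_cons.2 ⟨c4_r6,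
  List.forall_mem_cons.2 ⟨c4_r7,
  List.forall_mem_cons.2 ⟨c4_r8,
  List.forall_mem_cons.2 ⟨c4_r9,
  List.forall_mem_nil _⟩⟩⟩⟩⟩⟩⟩⟩⟩⟩

theorem chk4_true : chk4 = true := by
  unfold chk4
  rw [List.all_eq_true]
  intro P0 h0
  rw [List.all_eq_true]
  intro Pk hk
  exact c4_all P0 h0 Pk hk

end Helper17.L9
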