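import Pool.Agent.helper17.L9.LoopExt

/-!
# Loops: the exceptional pattern with an even link
-/

set_option autoImplicit false

namespace Helper17.L9

/-- the exceptional pattern can be closed with an even label `e ∈ {4, 6}` at `z1` -/
def okE (Pn B : ℕ × ℕ) (d : ℕ) : Bool :=
  [4, 6].any fun e => dif e d && [2, 4, 6].any fun a => dif a e && [1, 3, 7].any fun b0 =>
    far a b0 && [0, 2, 4].any fun c => dif c a && far c b0 && evp.any fun ab =>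
      (dif ab.1 c && av ab.1 (6, 8) && dif ab.2 c && av ab.2 (6, 8)) && evs.any fun T' =>
        (av T' Pn && (Nat.beq T' ab.1 || Nat.beq T' ab.2 || Nat.beq ab.1 Pn.1 ||
          Nat.beq ab.1 Pn.2 || Nat.beq ab.2 Pn.1 || Nat.beq ab.2 Pn.2)) &&
        ods.any fun y' => av y' B && far T' y' && [2, 4, 6].any fun u' =>
          dif u' e && dif u' T' && far u' y' && [2, 4, 6].any fun T =>
            dif T e && dif T a && dif T u'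

/-- the check -/
def chk5 : Bool := evp.all fun Pn => odp.all fun B => [0, 4, 6].all fun d => okE Pn B d

theorem chk5_true : chk5 = true := by decide +kernel

/-- the data found by the check -/
structure EvS (Pn B : ℕ × ℕ) (d e a b0 c α β T' y' u' T : ℕ) : Prop where
  he : (e = 4 ∨ e = 6) ∧ e ≠ d ∧ e ≠ a ∧ e ≠ T ∧ e ≠ u'
  ha : a ∈ evs ∧ a ≠ 0 ∧ a ≠ 8
  hb : b0 ∈ ods ∧ b0 ≠ 5 ∧ b0 ≠ 9
  fa : a + 1 ≠ b0 ∧ b0 + 1 ≠ a
  hc : c ∈ evs ∧ c ≠ 6 ∧ c ≠ 8 ∧ c ≠ a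
  fc : c + 1 ≠ b0 ∧ b0 + 1 ≠ c
  hab : (α, β) ∈ evp
  hα : α ≠ c ∧ α ≠ 6 ∧ α ≠ 8
  hβ : β ≠ c ∧ β ≠ 6 ∧ β ≠ 8
  hT' : T' ∈ evs ∧ T' ≠ Pn.1 ∧ T' ≠ Pn.2 ∧
    (T' = α ∨ T' = β ∨ α = Pn.1 ∨ α = Pn.2 ∨ β = Pn.1 ∨ β = Pn.2)
  hy : y' ∈ ods ∧ y' ≠ B.1 ∧ y' ≠ B.2
  fT : T' + 1 ≠ y' ∧ y' + 1 ≠ T'
  fu : u' + 1 ≠ y' ∧ y' + 1 ≠ u'
  hu : u' ∈ evs ∧ u' ≠ 0 ∧ u' ≠ 8 ∧ u' ≠ T ∧ u' ≠ T'
  hT : T ∈ evs ∧ T ≠ 0 ∧ T ≠ 8 ∧ T ≠ a

theorem okE_iff {Pn B : ℕ × ℕ} {d : ℕ} (h : okE Pn B d = true) :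
    ∃ e a b0 c α β T' y' u' T, EvS Pn B d e a b0 c α β T' y' u' T := by
  unfold okE at h
  rw [List.any_eq_true] at h
  obtain ⟨e, he, h⟩ := h
  rw [Bool.and_eq_true, List.any_eq_true] at h
  obtain ⟨h1, a, ha, h⟩ := h
  rw [Bool.and_eq_true, List.any_eq_true] at h
  obtain ⟨h2, b0, hb0, h⟩ := h
  rw [Bool.and_eq_true, List.any_eq_true] at h
  obtain ⟨h3, c, hc, h⟩ := h
  rw [Bool.and_eq_true, List.any_eq_true] at h
  obtain ⟨h4, ⟨α, β⟩, hab, h⟩ := h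
  rw [Bool.and_eq_true, List.any_eq_true] at h
  obtain ⟨h5, T', hT', h⟩ := h
  rw [Bool.and_eq_true, List.any_eq_true] at h
  obtain ⟨h6, y', hy', h⟩ := h
  rw [Bool.and_eq_true, List.any_eq_true] at h
  obtain ⟨h7, u', hu', h⟩ := h
  rw [Bool.and_eq_true, List.any_eq_true] at h
  obtain ⟨h8, T, hT, h⟩ := h
  simp only [Bool.and_eq_true, Bool.or_eq_true, dif_iff, far_iff, Nat.beq_eq, av_iff] at h1 h2 h3 h4 h5 h6 h7 h8 h
  have ha' : a ∈ evs ∧ a ≠ 0 ∧ a ≠ 8 := by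
    rw [mem_evs]
    simp only [List.mem_cons, List.not_mem_nil, or_false] at ha
    omega
  have hb' : b0 ∈ ods ∧ b0 ≠ 5 ∧ b0 ≠ 9 := by
    rw [mem_ods]
    simp only [List.mem_cons, List.not_mem_nil, or_false] at hb0
    omega
  have hc' : c ∈ evs ∧ c ≠ 6 ∧ c ≠ 8 := by
    rw [mem_evs]
    simp only [List.mem_cons, List.not_mem_nil, or_false] at hc
    omega
  have hu'' : u' ∈ evs ∧ u' ≠ 0 ∧ u' ≠ 8 := by
    rw [mem_evs]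
    simp only [List.mem_cons, List.not_mem_nil, or_false] at hu'
    omega
  have hT'' : T ∈ evs ∧ T ≠ 0 ∧ T ≠ 8 := by
    rw [mem_evs]
    simp only [List.mem_cons, List.not_mem_nil, or_false] at hT
    omega
  simp only [List.mem_cons, List.not_mem_nil, or_false] at he
  obtain ⟨⟨⟨c1, c2⟩, c3⟩, c4⟩ := h5
  obtain ⟨c5, c6⟩ := h6
  obtain ⟨⟨c7, c8⟩, c9⟩ := h8
  obtain ⟨⟨c10, c11⟩, c12⟩ := h
  refine ⟨e, a, b0, c, α, β, T', y', u', T, ⟨he, h1, h2.symm, c10.symm, c7.symm⟩, ha', hb', h3,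
    ⟨hc'.1, hc'.2.1, hc'.2.2, h4.1⟩, h4.2, hab, ⟨c1, c2.1, c2.2⟩, ⟨c3, c4.1, c4.2⟩,
    ⟨hT', c5.1, c5.2, ?_⟩, ⟨hy', h7.1.1, h7.1.2⟩, h7.2, c9, ⟨hu''.1, hu''.2.1, hu''.2.2,
    c12.symm, c8⟩, ⟨hT''.1, hT''.2.1, hT''.2.2, c11⟩⟩
  rcases c6 with ((((c6 | c6) | c6) | c6) | c6) | c6
  · exact Or.inl c6
  · exact Or.inr (Or.inl c6)
  · exact Or.inr (Or.inr (Or.inl c6))
  · exact Or.inr (Or.inr (Or.inr (Or.inl c6)))
  · exact Or.inr (Or.inr (Or.inr (Or.inr (Or.inl c6))))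
  · exact Or.inr (Or.inr (Or.inr (Or.inr (Or.inr c6))))

/-- **The exceptional pattern.** -/
theorem evn_num {Pn B : ℕ × ℕ} (hPn : Pn ∈ evp) (hB : B ∈ odp) (d : ℕ) :
    ∃ e a b0 c α β T' y' u' T, EvS Pn B d e a b0 c α β T' y' u' T := by
  have key : ∀ d ∈ [0, 4, 6], okE Pn B d = true := by
    have h := chk5_true
    unfold chk5 at h
    rw [List.all_eq_true] at h
    have h := h _ hPn
    rw [List.all_eq_true] at h
    have h := h _ hB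
    rw [List.all_eq_true] at h
    exact h
  by_cases hd : d = 4 ∨ d = 6
  · rcases hd with rfl | rfl
    · exact okE_iff (key 4 (by decide))
    · exact okE_iff (key 6 (by decide))
  · obtain ⟨e, a, b0, c, α, β, T', y', u', T, h⟩ := okE_iff (key 0 (by decide))
    push Not at hd
    refine ⟨e, a, b0, c, α, β, T', y', u', T, ⟨h.he.1, ?_, h.he.2.2⟩, h.ha, h.hb, h.fa, h.hc,
      h.fc, h.hab, h.hα, h.hβ, h.hT', h.hy, h.fT, h.fu, h.hu, h.hT⟩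
    rcases h.he.1 with h1 | h1 <;> omega

end Helper17.L9
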