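import Pool.Agent.helper17.L9.LoopRev
import Pool.Agent.helper17.L9.LoopNum2
import Pool.Agent.helper17.L9.LoopNum3

/-!
# Loops: everything in the neighbourhood is labelled
-/

set_option autoImplicit false

namespace Helper17.L9

open Pool.Agent.helper58.L9 Pool.Agent.helper40.L9

variable {V : Type*} {A Q N : V → V → Prop} {X L E : V → Prop} {f : V → ℕ} {k n : ℕ}
  {u v p q y o o' : ℕ → V} {t z0 z1 m m' w w' x x' : V}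

theorem mem_tripO {s : ℕ × ℕ × ℕ} (h : s ∈ tripO) : s.1 ∈ ods ∧ s.2.1 ∈ ods ∧ s.2.2 ∈ ods ∧
    s.2.1 ≠ s.2.2 ∧ s.1 ≠ s.2.1 ∧ s.1 ≠ s.2.2 := by
  unfold tripO at h
  simp only [List.mem_flatMap, List.mem_filter, List.mem_map, Bool.and_eq_true, dif_iff] at h
  obtain ⟨a, ha, b, ⟨hb, hab⟩, c, ⟨hc, hac, hbc⟩, rfl⟩ := h
  exact ⟨ha, hb, hc, hbc, hab, hac⟩

/-- odd apex from a closable triple -/
theorem LoopR.odd' (hR : Rel A Q N X) (hQne : ∀ v, ¬ Q v v)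
    (hl : LoopR A Q X k u v p q y o o' t z0 z1 m m' w w' x x') (h : St A Q N X L E f)
    (hL : ∀ r, LSet k u v y t z0 z1 r → ¬ L r) {P0 Pk : ℕ × ℕ} (hPk : Pk ∈ evp)
    (h0 : ∀ w ∈ evs, w ≠ P0.1 → w ≠ P0.2 → w ≠ f (p 0) ∧ w ≠ f (q 0))
    (hk : ∀ w ∈ evs, w ≠ Pk.1 → w ≠ Pk.2 → w ≠ f (p (k - 1)) ∧ w ≠ f (q (k - 1)))
    (h1 : k = 1 → P0 = Pk) {s : ℕ × ℕ × ℕ} (hs : s ∈ S3O P0 Pk)
    (hw : ∀ r, r = w ∨ r = w' → L r → ¬ E r → f r ≠ s.2.1)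
    (hx : ∀ r, r = x ∨ r = x' → L r → ¬ E r → f r ≠ s.2.2)
    (hNt : ∀ r, N t r → r = z0 ∨ r = z1 ∨ r = u 0 ∨ r = v (k - 1) ∨ (L r ∧ f r ≠ s.1))
    (hAt : ∀ r, A t r → r = z0 ∨ r = z1 ∨ (L r ∧ (s.1 + 2 ≤ f r ∨ f r + 2 ≤ s.1))) :
    ∃ (g : V → ℕ) (E' : V → Prop), St A Q N X (fun r => L r ∨ LSet k u v y t z0 z1 r) E' g := by
  unfold S3O at hs
  rw [List.mem_filter] at hs
  obtain ⟨a1, a2, a3, a4, a5, a6⟩ := mem_tripO hs.1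
  obtain ⟨c, α, β, T, c1, c2, c3, c4, c5, c6, c7, c8, c9⟩ := okT_iff hs.2
  obtain ⟨ha, hb, _⟩ := evp_evs c4
  have d0 := h0 c c1 c2.1 c2.2.1
  have dα := h0 α ha c5.2.1 c5.2.2
  have dβ := h0 β hb c6.2.1 c6.2.2
  obtain ⟨g, st, _⟩ := hl.odd hR hQne h hL a1 a2 a3 c1 c4 a4 a5 a6 ⟨d0.1, d0.2⟩ c3
    ⟨c5.1, dα.1, dα.2⟩ ⟨c6.1, dβ.1, dβ.2⟩
    ⟨Pk, hPk, hk, c7.1, c7.2.1, c7.2.2.1, c9⟩ c8 (by
      intro hk1 he
      have := h1 hk1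
      subst this
      have e1 := c5.1
      have e2 := c6.1
      have e3 := c5.2.1
      have e4 := c5.2.2
      have e5 := c6.2.1
      have e6 := c6.2.2
      rcases c9 with c9 | c9 | c9 | c9 | c9 | c9
      · exact e1 (c9.symm.trans he)
      · exact e2 (c9.symm.trans he)
      · exact e3 c9
      · exact e4 c9
      · exact e5 c9
      · exact e6 c9) hw hx hNt hAt
  exact ⟨g, _, st⟩

/-- the exceptional pattern -/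
theorem LoopR.evn' (hR : Rel A Q N X) (hQne : ∀ v, ¬ Q v v)
    (hl : LoopR A Q X k u v p q y o o' t z0 z1 m m' w w' x x') (h : St A Q N X L E f)
    (hL : ∀ r, LSet k u v y t z0 z1 r → ¬ L r) (hk2 : k ≠ 1)
    (h0 : ∀ w ∈ evs, w ≠ 6 → w ≠ 8 → w ≠ f (p 0) ∧ w ≠ f (q 0))
    (hk : ∀ w ∈ evs, w ≠ 0 → w ≠ 8 → w ≠ f (p (k - 1)) ∧ w ≠ f (q (k - 1)))
    (fm : f m = 8) (fm' : f m' = 0) (fw : f w = 5) (fw' : f w' = 9) (fx : f x = 1)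
    (fx' : f x' = 9) (d : ℕ)
    (hpt : ∀ i, i < k → p i ≠ t ∧ q i ≠ t) (hyz : ∀ i, i + 1 < k → ¬ Q (y i) z0)
    (hNz : ∀ r, N z1 r → r = t ∨ r = v (k - 1) ∨ r = z0 ∨ r = u (k - 1) ∨
      (L r ∧ (r = q (k - 1) ∨ r = m ∨ r = x ∨ r = x' ∨ f r = d)))
    (hAz : ∀ r, A z1 r → r = t ∨ r = v (k - 1) ∨ (L r ∧ r = x)) :
    ∃ (g : V → ℕ) (E' : V → Prop), St A Q N X (fun r => L r ∨ LSet k u v y t z0 z1 r) E' g := by
  obtain ⟨n, rfl⟩ : ∃ n, k = n + 2 := ⟨k - 2, by have := hl.k0; omega⟩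
  obtain ⟨Pn, hPn, hn, hn0⟩ : ∃ Pn ∈ evp,
      (∀ w ∈ evs, w ≠ Pn.1 → w ≠ Pn.2 → w ≠ f (p n) ∧ w ≠ f (q n)) ∧
      (n = 0 → Pn = (6, 8)) := by
    by_cases hn : n = 0
    · subst hn
      exact ⟨(6, 8), by decide, h0, fun _ => rfl⟩
    · obtain ⟨Pn, hPn, hn'⟩ := nrmE' (f (p n)) (f (q n))
      exact ⟨Pn, hPn, hn', fun h => absurd h hn⟩
  obtain ⟨B, hB, hB'⟩ := nrmO (f (o n)) (f (o' n))
  obtain ⟨e, a, b0, c, α, β, T', y', u', T, hs⟩ := evn_num hPn hB d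
  have hk' : ∀ w ∈ evs, w ≠ 0 → w ≠ 8 → w ≠ f (p (n + 1)) ∧ w ≠ f (q (n + 1)) := hk
  obtain ⟨ha, hb, _⟩ := evp_evs hs.hab
  have dc := h0 c hs.hc.1 hs.hc.2.1 hs.hc.2.2.1
  have dα := h0 α ha hs.hα.2.1 hs.hα.2.2
  have dβ := h0 β hb hs.hβ.2.1 hs.hβ.2.2
  have dT := hk' T hs.hT.1 hs.hT.2.1 hs.hT.2.2.1
  have du := hk' u' hs.hu.1 hs.hu.2.1 hs.hu.2.2.1
  have dy := hB' y' hs.hy.1 hs.hy.2.1 hs.hy.2.2
  have he0 : e ∈ evs := by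
    rw [mem_evs]
    have := hs.he.1
    omega
  have de := hk' e he0 (by have := hs.he.1; omega) (by have := hs.he.1; omega)
  obtain ⟨g, st, _⟩ := hl.evn hR hQne h hL hs.ha.1 hs.hb.1 hs.hc.1 hs.hab hs.fa
    ⟨dc.1, dc.2, hs.hc.2.2.2⟩ hs.fc ⟨hs.hα.1, dα.1, dα.2⟩ ⟨hs.hβ.1, dβ.1, dβ.2⟩
    ⟨Pn, hPn, hn, hs.hT'.1, hs.hT'.2.1, hs.hT'.2.2.1, hs.hT'.2.2.2⟩
    (by
      intro h2 he
      have h3 := hn0 h2
      subst h3
      have c9 := hs.hT'.2.2.2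
      have e1 := hs.hα.1
      have e2 := hs.hβ.1
      have e3 := hs.hα.2.1
      have e4 := hs.hα.2.2
      have e5 := hs.hβ.2.1
      have e6 := hs.hβ.2.2
      simp only at c9
      rcases c9 with c9 | c9 | c9 | c9 | c9 | c9
      · exact e1 (c9.symm.trans he)
      · exact e2 (c9.symm.trans he)
      · exact e3 c9
      · exact e4 c9
      · exact e5 c9
      · exact e6 c9)
    hs.hy.1 dy hs.fT hs.fu ⟨hs.hu.1, du.1, du.2, hs.hu.2.2.2.1, hs.hu.2.2.2.2⟩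
    ⟨hs.hT.1, dT.1, dT.2, hs.hT.2.2.2⟩ ⟨he0, hs.he.2.2.1, hs.he.2.2.2.1, hs.he.2.2.2.2⟩
    (by
      rintro r (rfl | rfl) _ _
      · rw [fm]; exact hs.ha.2.2.symm
      · rw [fm']; exact hs.ha.2.1.symm)
    (by
      rintro r (rfl | rfl) _ _
      · rw [fw]; exact hs.hb.2.1.symm
      · rw [fw']; exact hs.hb.2.2.symm)
    (hpt n (by omega)) (hyz n (by omega))
    (by
      intro r hr
      rcases hNz r hr with h2 | h2 | h2 | h2 | ⟨h2, h3⟩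
      · exact Or.inl h2
      · exact Or.inr (Or.inl h2)
      · exact Or.inr (Or.inr (Or.inl h2))
      · exact Or.inr (Or.inr (Or.inr (Or.inl h2)))
      · refine Or.inr (Or.inr (Or.inr (Or.inr ⟨h2, ?_⟩)))
        have h4 := hs.he.1
        rcases h3 with h3 | h3 | h3 | h3 | h3
        · rw [h3]; exact de.2.symm
        · rw [h3, fm]; omega
        · rw [h3, fx]; omega
        · rw [h3, fx']; omega
        · rw [h3]; exact hs.he.2.1.symm)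
    (by
      intro r hr
      rcases hAz r hr with h2 | h2 | ⟨h2, h3⟩
      · exact Or.inl h2
      · exact Or.inr (Or.inl h2)
      · refine Or.inr (Or.inr ⟨h2, ?_⟩)
        have h4 := hs.he.1
        rw [h3, fx]
        omega)
  exact ⟨g, _, st⟩

/-- different even labels form a pair -/
theorem evp_of {a b : ℕ} (ha : a ∈ evs) (hb : b ∈ evs) (hab : a ≠ b) :
    ∃ P ∈ evp, a ∈ [P.1, P.2] ∧ oth P a = b ∧ (∀ s, av s P = true → s ≠ a ∧ s ≠ b) := by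
  have key : ∀ a ∈ evs, ∀ b ∈ evs, a ≠ b → ∃ P ∈ evp, a ∈ [P.1, P.2] ∧ oth P a = b ∧
      (b ∈ [P.1, P.2]) := by decide +kernel
  obtain ⟨P, h1, h2, h3, h4⟩ := key a ha b hb hab
  refine ⟨P, h1, h2, h3, fun s hs => ?_⟩
  rw [av_iff] at hs
  simp only [List.mem_cons, List.not_mem_nil, or_false] at h2 h4
  constructor
  · rintro rfl
    rcases h2 with h2 | h2
    · exact hs.1 h2
    · exact hs.2 h2
  · rintro rfl
    rcases h4 with h4 | h4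
    · exact hs.1 h4
    · exact hs.2 h4

theorem odp_of {a b : ℕ} (ha : a ∈ ods) (hb : b ∈ ods) (hab : a ≠ b) :
    ∃ P ∈ odp, a ∈ [P.1, P.2] ∧ oth P a = b ∧ (∀ s, av s P = true → s ≠ a ∧ s ≠ b) := by
  have key : ∀ a ∈ ods, ∀ b ∈ ods, a ≠ b → ∃ P ∈ odp, a ∈ [P.1, P.2] ∧ oth P a = b ∧
      (b ∈ [P.1, P.2]) := by decide +kernel
  obtain ⟨P, h1, h2, h3, h4⟩ := key a ha b hb hab
  refine ⟨P, h1, h2, h3, fun s hs => ?_⟩
  rw [av_iff] at hs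
  simp only [List.mem_cons, List.not_mem_nil, or_false] at h2 h4
  constructor
  · rintro rfl
    rcases h2 with h2 | h2
    · exact hs.1 h2
    · exact hs.2 h2
  · rintro rfl
    rcases h4 with h4 | h4
    · exact hs.1 h4
    · exact hs.2 h4

/-- the check `chk4` in plain terms -/
theorem full_num {P0 Pk : ℕ × ℕ} (h0 : P0 ∈ evp) (hk : Pk ∈ evp) {a a' wm b b' c c' : ℕ}
    (ha : a ∈ evs) (ha' : a' ∈ evs) (haa : a ≠ a') (hwm : wm ∈ ods) (hf : far a wm = true)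
    (hb : b ∈ ods) (hb' : b' ∈ ods) (hbb : b ≠ b') (hc : c ∈ ods) (hc' : c' ∈ ods)
    (hcc : c ≠ c') :
    (∃ s ∈ S3 P0 Pk, (s.1 ≠ a ∧ s.1 ≠ a') ∧ (s.2.1 ≠ b ∧ s.2.1 ≠ b') ∧
      (s.2.2 ≠ c ∧ s.2.2 ≠ c')) ∨
    (∃ s ∈ S3O P0 Pk, s.1 ≠ wm ∧ s.1 ≠ b ∧ s.1 ≠ c ∧ (s.1 + 1 ≠ a ∧ a + 1 ≠ s.1) ∧
      (s.2.1 ≠ b ∧ s.2.1 ≠ b') ∧ (s.2.2 ≠ c ∧ s.2.2 ≠ c')) ∨
    pat a a' wm b b' c c' P0 Pk = true ∨ pat a a' wm c c' b b' Pk P0 = true := by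
  obtain ⟨M, hM, m1, m2, m3⟩ := evp_of ha ha' haa
  obtain ⟨W, hW, w1, w2, w3⟩ := odp_of hb hb' hbb
  obtain ⟨W1, hW1, x1, x2, x3⟩ := odp_of hc hc' hcc
  have h := chk4_true
  unfold chk4 at h
  rw [List.all_eq_true] at h
  have h := h _ h0
  rw [List.all_eq_true] at h
  have h := h _ hk
  rw [List.all_eq_true] at h
  have h := h _ hM
  rw [List.all_eq_true] at h
  have h := h _ hW
  rw [List.all_eq_true] at h
  have h := h _ hW1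
  rw [Bool.or_eq_true] at h
  rcases h with h | h
  · left
    rw [List.any_eq_true] at h
    obtain ⟨s, hs, h⟩ := h
    rw [Bool.and_eq_true, Bool.and_eq_true] at h
    exact ⟨s, hs, m3 _ h.1.1, w3 _ h.1.2, x3 _ h.2⟩
  · right
    rw [List.all_eq_true] at h
    have h := h _ m1
    rw [List.all_eq_true] at h
    have h := h _ hwm
    rw [hf, Bool.not_true, Bool.false_or, List.all_eq_true] at h
    have h := h _ w1
    rw [List.all_eq_true] at h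
    have h := h _ x1
    rw [m2, w2, x2, Bool.or_eq_true, Bool.or_eq_true] at h
    rcases h with (h | h) | h
    · left
      rw [List.any_eq_true] at h
      obtain ⟨s, hs, h⟩ := h
      simp only [Bool.and_eq_true, dif_iff, far_iff] at h
      obtain ⟨⟨⟨⟨⟨h1, h2⟩, h3⟩, h4⟩, h5⟩, h6⟩ := h
      exact ⟨s, hs, h1, h2, h3, h4, w3 _ h5, x3 _ h6⟩
    · exact Or.inr (Or.inl h)
    · exact Or.inr (Or.inr h)

theorem pat_iff {m m' wm w w' x x' : ℕ} {P0 Pk : ℕ × ℕ}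
    (h : pat m m' wm w w' x x' P0 Pk = true) :
    m = 8 ∧ m' = 0 ∧ w = 5 ∧ w' = 9 ∧ x = 1 ∧ x' = 9 ∧ P0 = (6, 8) ∧ Pk = (0, 8) := by
  unfold pat at h
  simp only [Bool.and_eq_true, Nat.beq_eq] at h
  obtain ⟨⟨⟨⟨⟨⟨⟨⟨⟨⟨h1, h2⟩, _⟩, h4⟩, h5⟩, h6⟩, h7⟩, h8⟩, h9⟩, h10⟩, h11⟩ := h
  exact ⟨h1, h2, h4, h5, h6, h7, Prod.ext h8 h9, Prod.ext h10 h11⟩

end Helper17.L9
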