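import Pool.Agent.helper17.L9.Off

/-!
# A new label for a leg
-/

set_option autoImplicit false
set_option linter.unusedSectionVars false

namespace Helper17.L9

open Finset Classical Helper33.L9
open Helper42.L9 hiding near
open Pool.Agent.helper58.L9
open Pool.Agent.helper40.L9 (ParOK)

section

variable {V : Type*} {A Q N : V → V → Prop} {X L E : V → Prop} {f : V → ℕ}

/-- change the label of `u` -/
theorem St_relabel (hR : Rel A Q N X) (hQne : ∀ v, ¬ Q v v) (h : St A Q N X L E f) {u : V} {l : ℕ}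
    (hu : ¬ E u) (hl : l ≤ 9) (hpar : X u ↔ Even l)
    (hq : ∀ r, Q u r → L r → ¬ E r → f r ≠ l)
    (hc : ∀ r, A u r → ¬ (X u ↔ X r) → L r → ¬ E r → l + 1 ≠ f r ∧ f r + 1 ≠ l)
    (hN : ∀ r, E r → N r u → f r ≠ l)
    (hA : ∀ r, E r → A r u → f r + 2 ≤ l ∨ l + 2 ≤ f r) :
    St A Q N X L E (fun v => if v = u then l else f v) := by
  have hEu : ∀ e, E e → e ≠ u := fun e he hh => hu (hh ▸ he)
  refine ⟨⟨?_, ?_, ?_, ?_⟩, h.sub, ?_, h.inv, ?_, ?_⟩
  · intro v hv
    by_cases h1 : v = u
    · simp only [h1, if_true]; exact hl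
    · simp only [h1, if_false]; exact h.par.le v hv
  · intro v hv
    by_cases h1 : v = u
    · subst h1; simp only [if_true]; exact hpar
    · simp only [h1, if_false]; exact h.par.par v hv
  · intro a b ha hb hab
    by_cases h1 : a = u
    · subst h1
      have h2 : b ≠ a := fun hh => hQne a (hh ▸ hab)
      simp only [if_true, h2, if_false]
      exact (hq b hab hb.1 hb.2).symm
    · by_cases h2 : b = u
      · subst h2
        simp only [if_true, h1, if_false]
        exact hq a (hR.Qs _ _ hab) ha.1 ha.2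
      · simp only [h1, h2, if_false]
        exact h.par.q a b ha hb hab
  · intro a b ha hb hab hs
    by_cases h1 : a = u
    · subst h1
      have h2 : b ≠ a := fun hh => hs (hh ▸ Iff.rfl)
      simp only [if_true, h2, if_false]
      exact (hc b hab hs hb.1 hb.2).1
    · by_cases h2 : b = u
      · subst h2
        simp only [if_true, h1, if_false]
        exact (hc a (hR.As _ _ hab) (fun hh => hs hh.symm) ha.1 ha.2).2
      · simp only [h1, h2, if_false]
        exact h.par.cross a b ha hb hab hs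
  · intro e he
    simp only [hEu e he, if_false]
    exact h.le e he
  · intro e v he hev
    simp only [hEu e he, if_false]
    by_cases h2 : v = u
    · subst h2
      simp only [if_true]
      exact hA e he hev
    · simp only [h2, if_false]
      exact h.adj e v he hev
  · intro e v he hev
    simp only [hEu e he, if_false]
    by_cases h2 : v = u
    · subst h2
      simp only [if_true]
      exact hN e he hev
    · simp only [h2, if_false]
      exact h.ne e v he hev

end

variable {V : Type*} [Fintype V] {G : SimpleGraph V} {X D : V → Prop} {L E : V → Prop}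
  {f : V → ℕ}

theorem five_even' (p q r s : ℕ) : ∃ a, (a % 2 = 0 ∧ a ≤ 8) ∧ a ≠ p ∧ a ≠ q ∧ a ≠ r ∧ a ≠ s := by
  by_contra hcon
  push Not at hcon
  have h1 := hcon 0
  have h3 := hcon 2
  have h5 := hcon 4
  have h7 := hcon 6
  have h9 := hcon 8
  omega

/-- the leg `w` of `x` has unlabelled neighbours `z, d`, and no conflicts through them: there is
another label for `w` -/
theorem relabel_leg (hcub : ∀ v, (univ.filter fun b => G.Adj v b).card = 3)
    (st : StG G X L E f) {w z x d : V} (nw : Nb G w z x d) (hz : ¬ L z) (hd : ¬ L d)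
    (Xz : ∀ r, G.Adj z r → (X r ↔ X w) → r = w) (Xd : ∀ r, G.Adj d r → (X r ↔ X w) → r = w)
    (Xx : X x ↔ X w) :
    ∃ g : V → ℕ, g w ≠ f w ∧ (∀ r, r ≠ w → g r = f r) ∧ StG G X L E g := by
  obtain ⟨b2, b3, nx⟩ := nb_one hcub nw.hb.symm
  have sub := st.sub
  have Ew : ¬ E w := fun he => hz (st.inv w z he ⟨nw.ha.ne, Or.inl nw.ha⟩)
  have Ex : ¬ E x := fun he => hd (st.inv x d he ⟨nw.bc, Or.inr ⟨w, nw.hb.symm, nw.hc⟩⟩)
  obtain ⟨l, hl9, hlX, a1, a2, a3, a4⟩ : ∃ l, l ≤ 9 ∧ (X w ↔ Even l) ∧ l ≠ f w ∧ l ≠ f x ∧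
      l ≠ f b2 ∧ l ≠ f b3 := by
    by_cases hXw : X w
    · obtain ⟨l, ⟨h3, h4⟩, h5, h6, h7, h8⟩ := five_even' (f w) (f x) (f b2) (f b3)
      exact ⟨l, by omega, ⟨fun _ => Nat.even_iff.mpr h3, fun _ => hXw⟩, h5, h6, h7, h8⟩
    · obtain ⟨l, ⟨h3, h4⟩, h5, h6, h7, h8⟩ := five_odd (f w) (f x) (f b2) (f b3)
      refine ⟨l, h4, ⟨fun hh => absurd hh hXw, fun hh => ?_⟩, h5, h6, h7, h8⟩
      rw [Nat.even_iff] at hh
      omega
  refine ⟨fun v => if v = w then l else f v, by simp only [if_true]; exact a1,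
    fun r hr => by simp only [hr, if_false], ?_⟩
  refine St_relabel relG qadj_irr st Ew hl9 hlX ?_ ?_ ?_ ?_
  · rintro r ⟨hs, hne, hadj | ⟨s, hs1, hs2⟩⟩ hl _
    · rcases nw.all r hadj with h3 | h3 | h3
      · exact absurd (h3 ▸ hl) hz
      · rw [h3]; exact a2.symm
      · exact absurd (h3 ▸ hl) hd
    · rcases nw.all s hs1 with h3 | h3 | h3
      · exact absurd (Xz r (h3 ▸ hs2) hs.symm) hne.symm
      · rcases nx.all r (h3 ▸ hs2) with h4 | h4 | h4
        · exact absurd h4.symm hne
        · rw [h4]; exact a3.symm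
        · rw [h4]; exact a4.symm
      · exact absurd (Xd r (h3 ▸ hs2) hs.symm) hne.symm
  · intro r hadj hs hl _
    rcases nw.all r hadj with h3 | h3 | h3
    · exact absurd (h3 ▸ hl) hz
    · rw [h3] at hs; exact absurd Xx.symm hs
    · exact absurd (h3 ▸ hl) hd
  · rintro r he ⟨hne, hadj | ⟨s, hs1, hs2⟩⟩
    · rcases nw.all r hadj.symm with h3 | h3 | h3
      · exact absurd (sub r he) (h3 ▸ hz)
      · exact absurd he (h3 ▸ Ex)
      · exact absurd (sub r he) (h3 ▸ hd)
    · rcases nw.all s hs2.symm with h3 | h3 | h3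
      · exact absurd (st.inv r s he ⟨hs1.ne, Or.inl hs1⟩) (h3 ▸ hz)
      · rcases nx.all r (h3 ▸ hs1.symm) with h4 | h4 | h4
        · exact absurd h4 hne
        · rw [h4]; exact a3.symm
        · rw [h4]; exact a4.symm
      · exact absurd (st.inv r s he ⟨hs1.ne, Or.inl hs1⟩) (h3 ▸ hd)
  · intro r he hadj
    exfalso
    rcases nw.all r hadj.symm with h3 | h3 | h3
    · exact hz (h3 ▸ sub r he)
    · exact Ex (h3 ▸ he)
    · exact hd (h3 ▸ sub r he)

end Helper17.L9
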