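import Pool.Agent.helper17.L9.LoopGraph
import Pool.Agent.helper17.L9.LoopLeg

/-!
# Loops in graph terms: everything in the neighbourhood is labelled
-/

set_option autoImplicit false
set_option linter.unusedSectionVars false

namespace Helper17.L9

open Finset Classical Helper33.L9
open Helper42.L9 hiding near
open Pool.Agent.helper58.L9

variable {V : Type*} [Fintype V] {G : SimpleGraph V} {X : V → Prop} {k : ℕ}
  {u v p q y o o' : ℕ → V} {t z0 z1 m w x m' w' x' wm dw dx : V} {L E : V → Prop} {f : V → ℕ}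

/-- a labelled vertex near an unlabelled one is not invisible -/
theorem not_inv (st : StG G X L E f) {r s : V} (hs : ¬ L s) (hn : Helper33.L9.near G r s) :
    ¬ E r := fun he => hs (st.inv r s he hn)

theorem near_adj {r s : V} (h : G.Adj r s) : Helper33.L9.near G r s := ⟨h.ne, Or.inl h⟩

theorem near_two {r s c : V} (h1 : G.Adj r c) (h2 : G.Adj c s) (hne : r ≠ s) :
    Helper33.L9.near G r s := ⟨hne, Or.inr ⟨c, h1, h2⟩⟩

theorem lab_ev (st : StG G X L E f) {r : V} (hL : L r) (hE : ¬ E r) (hX : X r) :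
    f r ∈ evs := by
  have h1 := st.par.le r ⟨hL, hE⟩
  have h2 := (st.par.par r ⟨hL, hE⟩).mp hX
  rw [Nat.even_iff] at h2
  rw [mem_evs]
  omega

theorem lab_od (st : StG G X L E f) {r : V} (hL : L r) (hE : ¬ E r) (hX : ¬ X r) :
    f r ∈ ods := by
  have h1 := st.par.le r ⟨hL, hE⟩
  have h2 : ¬ Even (f r) := fun hh => hX ((st.par.par r ⟨hL, hE⟩).mpr hh)
  rw [Nat.even_iff] at h2
  rw [mem_ods]
  omega

/-- the labelled neighbourhood of a loop -/
structure FD (G : SimpleGraph V) (X L : V → Prop) (t z0 z1 m w x m' w' x' wm dw dx : V) :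
    Prop where
  nm : Nb G m t m' wm
  nw : Nb G w z0 w' dw
  nx : Nb G x z1 x' dx
  Xm' : X m'
  Ywm : ¬ X wm
  Yw' : ¬ X w'
  Yx' : ¬ X x'
  Lm : L m
  Lm' : L m'
  Lwm : L wm
  Lw : L w
  Lw' : L w'
  Lx : L x
  Lx' : L x'

/-- the pairs of labels at the ends of the wire -/
structure PD (f : V → ℕ) (k : ℕ) (p q : ℕ → V) (P0 Pk : ℕ × ℕ) : Prop where
  h0 : P0 ∈ evp
  hk : Pk ∈ evp
  e0 : ∀ w ∈ evs, w ≠ P0.1 → w ≠ P0.2 → w ≠ f (p 0) ∧ w ≠ f (q 0)
  ek : ∀ w ∈ evs, w ≠ Pk.1 → w ≠ Pk.2 → w ≠ f (p (k - 1)) ∧ w ≠ f (q (k - 1))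
  e1 : k = 1 → P0 = Pk

/-- the exceptional pattern -/
def Pat (f : V → ℕ) (m m' w w' x x' : V) (P0 Pk : ℕ × ℕ) : Prop :=
  f m = 8 ∧ f m' = 0 ∧ f w = 5 ∧ f w' = 9 ∧ f x = 1 ∧ f x' = 9 ∧ P0 = (6, 8) ∧ Pk = (0, 8)

variable {P0 Pk : ℕ × ℕ}

/-- parity or an odd apex, up to the exceptional patterns -/
theorem LG.full1 (h : LG G X k u v p q y o t z0 z1 m w x)
    (hl : LoopR G.Adj (qadj G X) X k u v p q y o o' t z0 z1 m m' w w' x x')
    (st : StG G X L E f) (hL : ∀ r, LSet k u v y t z0 z1 r → ¬ L r)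
    (fd : FD G X L t z0 z1 m w x m' w' x' wm dw dx) (pd : PD f k p q P0 Pk) :
    (∃ (g : V → ℕ) (E' : V → Prop),
      StG G X (fun r => L r ∨ LSet k u v y t z0 z1 r) E' g) ∨
    Pat f m m' w w' x x' P0 Pk ∨ Pat f m m' x x' w w' Pk P0 := by
  obtain ⟨nm, nw, nx, Xm', Ywm, Yw', Yx', Lm, Lm', Lwm, Lw, Lw', Lx, Lx'⟩ := fd
  obtain ⟨hP0, hPk, e0, ek, e1⟩ := pd
  have lt : ¬ L t := hL _ (Or.inl rfl)
  have lz0 : ¬ L z0 := hL _ (Or.inr (Or.inl rfl))
  have lz1 : ¬ L z1 := hL _ (Or.inr (Or.inr (Or.inl rfl)))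
  have ne : ∀ {a b : V}, L a → ¬ L b → a ≠ b := fun ha hb he => hb (he ▸ ha)
  have Em : ¬ E m := not_inv st lt (near_adj nm.ha)
  have Em' : ¬ E m' := not_inv st lt (near_two nm.hb.symm nm.ha (ne Lm' lt))
  have Ewm : ¬ E wm := not_inv st lt (near_two nm.hc.symm nm.ha (ne Lwm lt))
  have Ew : ¬ E w := not_inv st lz0 (near_adj nw.ha)
  have Ew' : ¬ E w' := not_inv st lz0 (near_two nw.hb.symm nw.ha (ne Lw' lz0))
  have Ex : ¬ E x := not_inv st lz1 (near_adj nx.ha)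
  have Ex' : ¬ E x' := not_inv st lz1 (near_two nx.hb.symm nx.ha (ne Lx' lz1))
  have am := lab_ev st Lm Em h.Xm
  have am' := lab_ev st Lm' Em' Xm'
  have awm := lab_od st Lwm Ewm Ywm
  have aw := lab_od st Lw Ew h.Yw
  have aw' := lab_od st Lw' Ew' Yw'
  have ax := lab_od st Lx Ex h.Yx
  have ax' := lab_od st Lx' Ex' Yx'
  have mm : f m ≠ f m' := st.par.q m m' ⟨Lm, Em⟩ ⟨Lm', Em'⟩
    ⟨iff_of_true h.Xm Xm', near_adj nm.hb⟩
  have ww : f w ≠ f w' := st.par.q w w' ⟨Lw, Ew⟩ ⟨Lw', Ew'⟩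
    ⟨iff_of_false h.Yw Yw', near_adj nw.hb⟩
  have xx : f x ≠ f x' := st.par.q x x' ⟨Lx, Ex⟩ ⟨Lx', Ex'⟩
    ⟨iff_of_false h.Yx Yx', near_adj nx.hb⟩
  have mw : far (f m) (f wm) = true := by
    rw [far_iff]
    exact ⟨st.par.cross m wm ⟨Lm, Em⟩ ⟨Lwm, Ewm⟩ nm.hc (fun hh => Ywm (hh.mp h.Xm)),
      st.par.cross wm m ⟨Lwm, Ewm⟩ ⟨Lm, Em⟩ nm.hc.symm (fun hh => Ywm (hh.mpr h.Xm))⟩
  have am2 := mem_evs.mp am
  have am2' := mem_evs.mp am'
  rcases full_num hP0 hPk am am' mm awm mw aw aw' ww ax ax' xx with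
    ⟨s, hs, s1, s2, s3⟩ | ⟨s, hs, s1, s2, s3, s4, s5, s6⟩ | hp | hp
  · obtain ⟨g, st', _⟩ := hl.par' relG qadj_irr st hL hPk e0 ek e1 hs
      (by rintro r (rfl | rfl) _ _
          · exact s1.1.symm
          · exact s1.2.symm)
      (by rintro r (rfl | rfl) _ _
          · exact s2.1.symm
          · exact s2.2.symm)
      (by rintro r (rfl | rfl) _ _
          · exact s3.1.symm
          · exact s3.2.symm)
    exact Or.inl ⟨g, E, st'⟩
  · have so := mem_ods.mp (mem_tripO (List.mem_filter.mp hs).1).1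
    refine Or.inl (hl.odd' relG qadj_irr st hL hPk e0 ek e1 hs
      (by rintro r (rfl | rfl) _ _
          · exact s5.1.symm
          · exact s5.2.symm)
      (by rintro r (rfl | rfl) _ _
          · exact s6.1.symm
          · exact s6.2.symm) ?_ ?_)
    · intro r hr
      obtain ⟨h2, h3 | h3 | h3 | h3 | h3 | h3⟩ := near_cases h.nT hr
      · exact Or.inl h3
      · exact Or.inr (Or.inl h3)
      · refine Or.inr (Or.inr (Or.inr (Or.inr ?_)))
        rw [h3]
        exact ⟨Lm, by omega⟩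
      · rcases h.nZ0.all r h3 with h4 | h4 | h4
        · exact absurd h4.symm h2
        · exact Or.inr (Or.inr (Or.inl h4))
        · refine Or.inr (Or.inr (Or.inr (Or.inr ?_)))
          rw [h4]
          exact ⟨Lw, s2.symm⟩
      · rcases h.nZ1.all r h3 with h4 | h4 | h4
        · exact absurd h4.symm h2
        · exact Or.inr (Or.inr (Or.inr (Or.inl h4)))
        · refine Or.inr (Or.inr (Or.inr (Or.inr ?_)))
          rw [h4]
          exact ⟨Lx, s3.symm⟩
      · rcases nm.all r h3 with h4 | h4 | h4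
        · exact absurd h4.symm h2
        · refine Or.inr (Or.inr (Or.inr (Or.inr ?_)))
          rw [h4]
          exact ⟨Lm', by omega⟩
        · refine Or.inr (Or.inr (Or.inr (Or.inr ?_)))
          rw [h4]
          exact ⟨Lwm, s1.symm⟩
    · intro r hr
      rcases h.nT.all r hr with h4 | h4 | h4
      · exact Or.inl h4
      · exact Or.inr (Or.inl h4)
      · refine Or.inr (Or.inr ?_)
        rw [h4]
        exact ⟨Lm, by omega⟩
  · exact Or.inr (Or.inl (pat_iff hp))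
  · exact Or.inr (Or.inr (pat_iff hp))

section

variable (h : LG G X k u v p q y o t z0 z1 m w x)
  (hl : LoopR G.Adj (qadj G X) X k u v p q y o o' t z0 z1 m m' w w' x x')
  (hL : ∀ r, LSet k u v y t z0 z1 r → ¬ L r)
  (fd : FD G X L t z0 z1 m w x m' w' x' wm dw dx)

include h hL fd in
theorem LG.pq_t : ∀ i, i < k → p i ≠ t ∧ q i ≠ t := by
  intro i hi
  constructor
  · intro he
    have h1 : G.Adj t (u i) := he ▸ (h.up i hi).1.symm
    rcases h.nT.all _ h1 with h2 | h2 | h2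
    · exact h.Z0 (h2 ▸ h.Xu i hi)
    · exact h.Z1 (h2 ▸ h.Xu i hi)
    · exact hL m (h2 ▸ LSet_u hi) fd.Lm
  · intro he
    have h1 : G.Adj t (v i) := he ▸ (h.vq i hi).1.symm
    rcases h.nT.all _ h1 with h2 | h2 | h2
    · exact h.Z0 (h2 ▸ h.Xv i hi)
    · exact h.Z1 (h2 ▸ h.Xv i hi)
    · exact hL m (h2 ▸ LSet_v hi) fd.Lm

include h hl hL fd in
theorem LG.y_z : ∀ i, i + 1 < k → ¬ qadj G X (y i) z0 ∧ ¬ qadj G X (y i) z1 := by
  intro i hi
  constructor
  · intro hq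
    rcases hl.Qz _ (qadj_symm hq) with h1 | h1 | h1
    · exact (h.z_ne hi).2 h1.symm
    · exact hL w (h1 ▸ LSet_y hi) fd.Lw
    · exact hL w' (h1 ▸ LSet_y hi) fd.Lw'
  · intro hq
    rcases hl.Qz' _ (qadj_symm hq) with h1 | h1 | h1
    · exact (h.z_ne hi).1 h1.symm
    · exact hL x (h1 ▸ LSet_y hi) fd.Lx
    · exact hL x' (h1 ▸ LSet_y hi) fd.Lx'

include h hl hL fd in
theorem LG.ext3 (st : StG G X L E f) (pd : PD f k p q P0 Pk)
    (hp : Pat f m m' w w' x x' P0 Pk) (Ldx : L dx) (Lq : L (q (k - 1))) :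
    ∃ (g : V → ℕ) (E' : V → Prop),
      StG G X (fun r => L r ∨ LSet k u v y t z0 z1 r) E' g := by
  have hpt := h.pq_t hL fd
  have hyz := h.y_z hl hL fd
  obtain ⟨nm, nw, nx, Xm', Ywm, Yw', Yx', Lm, Lm', Lwm, Lw, Lw', Lx, Lx'⟩ := fd
  obtain ⟨hP0, hPk, e0, ek, e1⟩ := pd
  obtain ⟨c1, c2, c3, c4, c5, c6, c7, c8⟩ := hp
  subst c7
  subst c8
  refine hl.evn' relG qadj_irr st hL ?_ e0 ek c1 c2 c3 c4 c5 c6 (f dx) hpt
    (fun i hi => (hyz i hi).1) ?_ ?_
  · intro hk3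
    have := e1 hk3
    exact absurd this (by decide)
  · intro r hr
    obtain ⟨h2, h3 | h3 | h3 | h3 | h3 | h3⟩ := near_cases h.nZ1 hr
    · exact Or.inl h3
    · exact Or.inr (Or.inl h3)
    · exact Or.inr (Or.inr (Or.inr (Or.inr ⟨h3 ▸ Lx, Or.inr (Or.inr (Or.inl h3))⟩)))
    · rcases h.nT.all r h3 with h4 | h4 | h4
      · exact Or.inr (Or.inr (Or.inl h4))
      · exact absurd h4.symm h2
      · exact Or.inr (Or.inr (Or.inr (Or.inr ⟨h4 ▸ Lm, Or.inr (Or.inl h4)⟩)))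
    · rcases h.nVk.all r h3 with h4 | h4 | h4
      · exact Or.inr (Or.inr (Or.inr (Or.inl h4)))
      · exact Or.inr (Or.inr (Or.inr (Or.inr ⟨h4 ▸ Lq, Or.inl h4⟩)))
      · exact absurd h4.symm h2
    · rcases nx.all r h3 with h4 | h4 | h4
      · exact absurd h4.symm h2
      · exact Or.inr (Or.inr (Or.inr (Or.inr ⟨h4 ▸ Lx', Or.inr (Or.inr (Or.inr
          (Or.inl h4)))⟩)))
      · exact Or.inr (Or.inr (Or.inr (Or.inr ⟨h4 ▸ Ldx, Or.inr (Or.inr (Or.inr
          (Or.inr (by rw [h4]))))⟩)))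
  · intro r hr
    rcases h.nZ1.all r hr with h4 | h4 | h4
    · exact Or.inl h4
    · exact Or.inr (Or.inl h4)
    · exact Or.inr (Or.inr ⟨h4 ▸ Lx, h4⟩)

include h hl hL fd in
theorem LG.ext4 (st : StG G X L E f) (pd : PD f k p q P0 Pk)
    (hp : Pat f m m' x x' w w' Pk P0) (Ldw : L dw) (Lp : L (p 0)) :
    ∃ (g : V → ℕ) (E' : V → Prop),
      StG G X (fun r => L r ∨ LSet k u v y t z0 z1 r) E' g := by
  have hk := h.k0
  have hpt := h.pq_t hL fd
  have hyz := h.y_z hl hL fd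
  obtain ⟨nm, nw, nx, Xm', Ywm, Yw', Yx', Lm, Lm', Lwm, Lw, Lw', Lx, Lx'⟩ := fd
  obtain ⟨hP0, hPk, e0, ek, e1⟩ := pd
  obtain ⟨c1, c2, c3, c4, c5, c6, c7, c8⟩ := hp
  subst c7
  subst c8
  obtain ⟨g, E', st'⟩ := hl.rev.evn' relG qadj_irr st
    (fun r hr => hL r ((LSet_rev hk r).mp hr))
    (by
      intro hk3
      have := e1 hk3
      exact absurd this (by decide))
    (by
      simp only [Nat.sub_zero]
      exact fun w hw h1 h2 => ⟨(ek w hw h1 h2).2, (ek w hw h1 h2).1⟩)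
    (by
      simp only [Nat.sub_self]
      exact fun w hw h1 h2 => ⟨(e0 w hw h1 h2).2, (e0 w hw h1 h2).1⟩)
    c1 c2 c3 c4 c5 c6 (f dw)
    (fun i hi => ⟨(hpt _ (by omega)).2, (hpt _ (by omega)).1⟩)
    (fun i hi => (hyz _ (by omega)).2)
    (by
      simp only [Nat.sub_self]
      intro r hr
      obtain ⟨h2, h3 | h3 | h3 | h3 | h3 | h3⟩ := near_cases h.nZ0 hr
      · exact Or.inl h3
      · exact Or.inr (Or.inl h3)
      · exact Or.inr (Or.inr (Or.inr (Or.inr ⟨h3 ▸ Lw, Or.inr (Or.inr (Or.inl h3))⟩)))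
      · rcases h.nT.all r h3 with h4 | h4 | h4
        · exact absurd h4.symm h2
        · exact Or.inr (Or.inr (Or.inl h4))
        · exact Or.inr (Or.inr (Or.inr (Or.inr ⟨h4 ▸ Lm, Or.inr (Or.inl h4)⟩)))
      · rcases h.nU0.all r h3 with h4 | h4 | h4
        · exact Or.inr (Or.inr (Or.inr (Or.inr ⟨h4 ▸ Lp, Or.inl h4⟩)))
        · exact Or.inr (Or.inr (Or.inr (Or.inl h4)))
        · exact absurd h4.symm h2
      · rcases nw.all r h3 with h4 | h4 | h4
        · exact absurd h4.symm h2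
        · exact Or.inr (Or.inr (Or.inr (Or.inr ⟨h4 ▸ Lw', Or.inr (Or.inr (Or.inr
            (Or.inl h4)))⟩)))
        · exact Or.inr (Or.inr (Or.inr (Or.inr ⟨h4 ▸ Ldw, Or.inr (Or.inr (Or.inr
            (Or.inr (by rw [h4]))))⟩))))
    (by
      simp only [Nat.sub_self]
      intro r hr
      rcases h.nZ0.all r hr with h4 | h4 | h4
      · exact Or.inl h4
      · exact Or.inr (Or.inl h4)
      · exact Or.inr (Or.inr ⟨h4 ▸ Lw, h4⟩))
  exact ⟨g, E', st'.congr (fun r => or_congr_right (LSet_rev hk r)) (fun r => Iff.rfl)⟩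

/-- the third neighbour `d` of the leg `w` is labelled, or `w` may get another label -/
def LegOK (G : SimpleGraph V) (X L : V → Prop) (w d : V) : Prop :=
  L d ∨ ∀ r, G.Adj d r → (X r ↔ X w) → r = w

include h hl hL fd in
/-- **Extension if the whole neighbourhood is labelled.** -/
theorem LG.full (st : StG G X L E f) (Hw : LegOK G X L w dw) (Hx : LegOK G X L x dx)
    (hcub : ∀ v, (univ.filter fun b => G.Adj v b).card = 3)
    (Lp : L (p 0)) (Lq : L (q (k - 1))) :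
    ∃ (g : V → ℕ) (E' : V → Prop),
      StG G X (fun r => L r ∨ LSet k u v y t z0 z1 r) E' g := by
  have hk := h.k0
  have hk1 : k - 1 < k := by omega
  obtain ⟨P0, hP0, Pk, hPk, e0, ek, e1⟩ := nrm_ends (p := p) (q := q) f hk
  have pd : PD f k p q P0 Pk := ⟨hP0, hPk, e0, ek, e1⟩
  have other : ∀ (a : V) (g : V → ℕ), ¬ X a → (∀ r, r ≠ a → g r = f r) →
      PD g k p q P0 Pk := by
    intro a g ha hg
    have hX : ∀ r, X r → g r = f r := fun r hr => hg r (fun he => ha (he ▸ hr))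
    refine ⟨hP0, hPk, ?_, ?_, e1⟩
    · rw [hX _ (h.Xp 0 hk).1, hX _ (h.Xp 0 hk).2]
      exact e0
    · rw [hX _ (h.Xp _ hk1).1, hX _ (h.Xp _ hk1).2]
      exact ek
  rcases h.full1 hl st hL fd pd with h1 | h1 | h1
  · exact h1
  · rcases Hx with h2 | h2
    · exact h.ext3 hl hL fd st pd h1 h2 Lq
    · by_cases h3 : L dx
      · exact h.ext3 hl hL fd st pd h1 h3 Lq
      · obtain ⟨g, g1, g2, st'⟩ := relabel_leg hcub st fd.nx
          (hL _ (Or.inr (Or.inr (Or.inl rfl)))) h3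
          (by
            intro r hr hs
            rcases h.nZ1.all r hr with h4 | h4 | h4
            · exact absurd (hs.mp (h4 ▸ h.Xt)) h.Yx
            · exact absurd (hs.mp (h4 ▸ h.Xv _ hk1)) h.Yx
            · exact h4) h2 (iff_of_false fd.Yx' h.Yx)
        rcases h.full1 hl st' hL fd (other x g h.Yx g2) with h5 | h5 | h5
        · exact h5
        · exact absurd (h5.2.2.2.2.1.trans h1.2.2.2.2.1.symm) g1
        · have h6 := h1.2.2.2.2.2.2.1
          have h7 := h5.2.2.2.2.2.2.2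
          rw [h6] at h7
          exact absurd h7 (by decide)
  · rcases Hw with h2 | h2
    · exact h.ext4 hl hL fd st pd h1 h2 Lp
    · by_cases h3 : L dw
      · exact h.ext4 hl hL fd st pd h1 h3 Lp
      · obtain ⟨g, g1, g2, st'⟩ := relabel_leg hcub st fd.nw
          (hL _ (Or.inr (Or.inl rfl))) h3
          (by
            intro r hr hs
            rcases h.nZ0.all r hr with h4 | h4 | h4
            · exact absurd (hs.mp (h4 ▸ h.Xt)) h.Yw
            · exact absurd (hs.mp (h4 ▸ h.Xu _ hk)) h.Yw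
            · exact h4) h2 (iff_of_false fd.Yw' h.Yw)
        rcases h.full1 hl st' hL fd (other w g h.Yw g2) with h5 | h5 | h5
        · exact h5
        · have h6 := h1.2.2.2.2.2.2.1
          have h7 := h5.2.2.2.2.2.2.2
          rw [h6] at h7
          exact absurd h7 (by decide)
        · exact absurd (h5.2.2.2.2.1.trans h1.2.2.2.2.1.symm) g1

end

end Helper17.L9
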