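import Pool.Agent.helper17.L9.LoopRel

/-!
# The region theorem for loops
-/

set_option autoImplicit false
set_option linter.unusedSectionVars false

namespace Helper17.L9

open Finset Classical Helper33.L9
open Helper42.L9 hiding near
open Pool.Agent.helper58.L9

variable {V : Type*} [Fintype V] {G : SimpleGraph V} {X D : V → Prop} {k : ℕ}
  {u v p q y o : ℕ → V} {t z0 z1 m w x : V}

theorem five_even (p q r s : ℕ) : ∃ a, (a % 2 = 0 ∧ a ≤ 8) ∧ a ≠ p ∧ a ≠ q ∧ a ≠ r ∧ a ≠ s := by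
  by_contra hcon
  push Not at hcon
  have h1 := hcon 0
  have h3 := hcon 2
  have h5 := hcon 4
  have h7 := hcon 6
  have h9 := hcon 8
  omega

/-- a vertex with an unlabelled cross neighbour can be labelled -/
theorem add_free {L E : V → Prop} {f : V → ℕ} {b a c d : V}
    (nb : NMAt G X b) (nc : TwoConf G X b c d)
    (st : StG G X L E f) (hb : Nb G b a c d) (Xa : X a ↔ X b) (Xc : X c ↔ X b)
    (ha : ∀ r, G.Adj a r → (X r ↔ X b) → r = b) (hL : ¬ L b) (hd : ¬ L d) :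
    ∃ g : V → ℕ, StG G X (fun r => L r ∨ r = b) E g := by
  have Xd : ¬ (X d ↔ X a) := side_at nb hb (Xa.trans Xc.symm)
  obtain ⟨q1, q2, h1⟩ := nc
  obtain ⟨l, hl9, hlX, a1, a2, a3, a4⟩ : ∃ l, l ≤ 9 ∧ (X b ↔ Even l) ∧ l ≠ f a ∧ l ≠ f c ∧
      l ≠ f q1 ∧ l ≠ f q2 := by
    by_cases hXb : X b
    · obtain ⟨l, ⟨h3, h4⟩, h5, h6, h7, h8⟩ := five_even (f a) (f c) (f q1) (f q2)
      exact ⟨l, by omega, ⟨fun _ => Nat.even_iff.mpr h3, fun _ => hXb⟩, h5, h6, h7, h8⟩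
    · obtain ⟨l, ⟨h3, h4⟩, h5, h6, h7, h8⟩ := five_odd (f a) (f c) (f q1) (f q2)
      refine ⟨l, h4, ⟨fun hh => absurd hh hXb, fun hh => ?_⟩, h5, h6, h7, h8⟩
      rw [Nat.even_iff] at hh
      omega
  obtain ⟨g, _, _, st'⟩ := st.one relG qadj_irr b l hL hl9 hlX
    (by
      rintro r ⟨hs, hne, hadj | ⟨s, hs1, hs2⟩⟩ hl _
      · rcases hb.all r hadj with h3 | h3 | h3
        · rw [h3]; exact a1.symm
        · rw [h3]; exact a2.symm
        · exact absurd (h3 ▸ hl) hd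
      · rcases hb.all s hs1 with h3 | h3 | h3
        · rw [h3] at hs2
          exact absurd (ha r hs2 hs.symm).symm hne
        · rw [h3] at hs2
          rcases h1 r (Or.inl hs2) hs.symm hne.symm with h4 | h4
          · rw [h4]; exact a3.symm
          · rw [h4]; exact a4.symm
        · rw [h3] at hs2
          rcases h1 r (Or.inr hs2) hs.symm hne.symm with h4 | h4
          · rw [h4]; exact a3.symm
          · rw [h4]; exact a4.symm)
    (by
      intro r hadj hs hl _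
      rcases hb.all r hadj with h3 | h3 | h3
      · exact absurd (by rw [h3]; exact Xa.symm) hs
      · exact absurd (by rw [h3]; exact Xc.symm) hs
      · exact absurd (h3 ▸ hl) hd)
  exact ⟨g, st'⟩

section

variable (hW : OffW G X D) (hcub : ∀ v, (univ.filter fun b => G.Adj v b).card = 3)
  (h : LG G X k u v p q y o t z0 z1 m w x)

include h in
/-- neighbours on the other side of a vertex of the loop are in the loop -/
theorem LG.closed {r s : V} (hr : LSet k u v y t z0 z1 r) (hrs : G.Adj r s)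
    (hs : ¬ (X r ↔ X s)) : LSet k u v y t z0 z1 s := by
  have hk := h.k0
  have hk1 : k - 1 < k := by omega
  have lt : LSet k u v y t z0 z1 t := Or.inl rfl
  have l0 : LSet k u v y t z0 z1 z0 := Or.inr (Or.inl rfl)
  have l1 : LSet k u v y t z0 z1 z1 := Or.inr (Or.inr (Or.inl rfl))
  rcases (LSet_iff hk r).mp hr with h1 | h1 | h1 | ⟨i, hi, h1 | h1⟩ | ⟨i, hi, h1⟩
  · rw [h1] at hrs hs
    rcases h.nT.all s hrs with h2 | h2 | h2
    · rw [h2]; exact l0
    · rw [h2]; exact l1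
    · rw [h2] at hs; exact absurd (iff_of_true h.Xt h.Xm) hs
  · rw [h1] at hrs hs
    rcases h.nZ0.all s hrs with h2 | h2 | h2
    · rw [h2]; exact lt
    · rw [h2]; exact LSet_u hk
    · rw [h2] at hs; exact absurd (iff_of_false h.Z0 h.Yw) hs
  · rw [h1] at hrs hs
    rcases h.nZ1.all s hrs with h2 | h2 | h2
    · rw [h2]; exact lt
    · rw [h2]; exact LSet_v hk1
    · rw [h2] at hs; exact absurd (iff_of_false h.Z1 h.Yx) hs
  · rw [h1] at hrs hs
    have hXu := h.Xu i hi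
    rcases Nat.eq_zero_or_pos i with h0 | h0
    · subst h0
      rcases h.nU0.all s hrs with h2 | h2 | h2
      · rw [h2] at hs; exact absurd (iff_of_true hXu (h.Xp 0 hi).1) hs
      · rw [h2] at hs; exact absurd (iff_of_true hXu (h.Xv 0 hi)) hs
      · rw [h2]; exact l0
    · obtain ⟨j, rfl⟩ : ∃ j, i = j + 1 := ⟨i - 1, by omega⟩
      rcases (h.nU j hi).all s hrs with h2 | h2 | h2
      · rw [h2] at hs; exact absurd (iff_of_true hXu (h.Xp _ hi).1) hs
      · rw [h2] at hs; exact absurd (iff_of_true hXu (h.Xv _ hi)) hs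
      · rw [h2]; exact LSet_y hi
  · rw [h1] at hrs hs
    have hXv := h.Xv i hi
    by_cases h0 : i + 1 < k
    · rcases (h.nV i h0).all s hrs with h2 | h2 | h2
      · rw [h2] at hs; exact absurd (iff_of_true hXv (h.Xu i hi)) hs
      · rw [h2] at hs; exact absurd (iff_of_true hXv (h.Xp i hi).2) hs
      · rw [h2]; exact LSet_y h0
    · have : i = k - 1 := by omega
      subst this
      rcases h.nVk.all s hrs with h2 | h2 | h2
      · rw [h2] at hs; exact absurd (iff_of_true hXv (h.Xu _ hi)) hs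
      · rw [h2] at hs; exact absurd (iff_of_true hXv (h.Xp _ hi).2) hs
      · rw [h2]; exact l1
  · rw [h1] at hrs hs
    rcases (h.nY i hi).1.all s hrs with h2 | h2 | h2
    · rw [h2]; exact LSet_v (by omega)
    · rw [h2]; exact LSet_u hi
    · rw [h2] at hs; exact absurd (iff_of_false (h.Yy i hi) (h.nY i hi).2) hs

include h hW hcub in
theorem LG.own_out {r : V} (hr : LSet k u v y t z0 z1 r) {a b : V} (ha : ownR G X r a)
    (hb : ownR G X r b) (na : ¬ LSet k u v y t z0 z1 a) (nb : ¬ LSet k u v y t z0 z1 b) :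
    a = b := by
  have hk := h.k0
  have hk1 : k - 1 < k := by omega
  have c0 : cc G X z0 = 2 := cc_end' hW hcub h.nZ0.ha h.nZ0.hb h.nZ0.ab
    (fun hh => h.Z0 (hh.mp h.Xt)) (fun hh => h.Z0 (hh.mp (h.Xu 0 hk)))
  have c1 : cc G X z1 = 2 := cc_end' hW hcub h.nZ1.ha h.nZ1.hb h.nZ1.ab
    (fun hh => h.Z1 (hh.mp h.Xt)) (fun hh => h.Z1 (hh.mp (h.Xv _ hk1)))
  rcases (LSet_iff hk r).mp hr with h1 | h1 | h1 | ⟨i, hi, h1 | h1⟩ | ⟨i, hi, h1⟩
  · rw [h1] at ha hb
    exact own_one' hcub h.ct ha hb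
  · rw [h1] at ha hb
    exact own_one' hcub c0 ha hb
  · rw [h1] at ha hb
    exact own_one' hcub c1 ha hb
  · rw [h1] at ha hb
    have hXu := h.Xu i hi
    have key : ∀ c, ownR G X (u i) c → ¬ LSet k u v y t z0 z1 c → c = p i := by
      intro c hc nc
      rcases h.adj_u hi hc.1 (hc.2.mp hXu) with h2 | h2
      · exact h2
      · exact absurd (h2 ▸ LSet_v hi) nc
    rw [key a ha na, key b hb nb]
  · rw [h1] at ha hb
    have hXv := h.Xv i hi
    have key : ∀ c, ownR G X (v i) c → ¬ LSet k u v y t z0 z1 c → c = q i := by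
      intro c hc nc
      rcases h.adj_v hi hc.1 (hc.2.mp hXv) with h2 | h2
      · exact absurd (h2 ▸ LSet_u hi) nc
      · exact h2
    rw [key a ha na, key b hb nb]
  · rw [h1] at ha hb
    have cy : cc G X (y i) = 2 := cc_end' hW hcub (h.nY i hi).1.ha (h.nY i hi).1.hb
      (h.nY i hi).1.ab (fun hh => h.Yy i hi (hh.mp (h.Xv i (by omega))))
      (fun hh => h.Yy i hi (hh.mp (h.Xu _ hi)))
    exact own_one' hcub cy ha hb

include h hcub in
theorem LG.cross_in {r : V} (hr : LSet k u v y t z0 z1 r) (h2 : cc G X r = 2) :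
    ∃ s, G.Adj r s ∧ ¬ (X s ↔ X r) ∧ LSet k u v y t z0 z1 s := by
  have h3 := cc_two'.mp h2
  have h4 : (cr G X r).Nonempty := by
    rw [← Finset.card_pos]
    omega
  obtain ⟨s, hs⟩ := h4
  rw [mem_cr] at hs
  exact ⟨s, hs.1, hs.2, h.closed hr hs.1 (fun hh => hs.2 hh.symm)⟩

include h in
theorem LG.has_cross {r : V} (hr : LSet k u v y t z0 z1 r) :
    ∃ s, G.Adj r s ∧ ¬ (X s ↔ X r) := by
  have hk := h.k0
  rcases (LSet_iff hk r).mp hr with h1 | h1 | h1 | ⟨i, hi, h1 | h1⟩ | ⟨i, hi, h1⟩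
  · exact ⟨z0, h1 ▸ h.nT.ha, fun hh => h.Z0 (hh.mpr (h1 ▸ h.Xt))⟩
  · exact ⟨t, h1 ▸ h.nZ0.ha, fun hh => h.Z0 (h1 ▸ hh.mp h.Xt)⟩
  · exact ⟨t, h1 ▸ h.nZ1.ha, fun hh => h.Z1 (h1 ▸ hh.mp h.Xt)⟩
  · rcases Nat.eq_zero_or_pos i with h0 | h0
    · subst h0
      exact ⟨z0, h1 ▸ h.nU0.hc, fun hh => h.Z0 (hh.mpr (h1 ▸ h.Xu 0 hi))⟩
    · obtain ⟨j, rfl⟩ : ∃ j, i = j + 1 := ⟨i - 1, by omega⟩
      exact ⟨y j, h1 ▸ (h.nU j hi).hc, fun hh => h.Yy j hi (hh.mpr (h1 ▸ h.Xu _ hi))⟩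
  · by_cases h0 : i + 1 < k
    · exact ⟨y i, h1 ▸ (h.nV i h0).hc, fun hh => h.Yy i h0 (hh.mpr (h1 ▸ h.Xv _ hi))⟩
    · have : i = k - 1 := by omega
      subst this
      exact ⟨z1, h1 ▸ h.nVk.hc, fun hh => h.Z1 (hh.mpr (h1 ▸ h.Xv _ hi))⟩
  · exact ⟨v i, h1 ▸ (h.nY i hi).1.ha, fun hh => h.Yy i hi (h1 ▸ hh.mp (h.Xv i (by omega)))⟩

include h hW in
theorem LG.lam_far (hA : ∀ r a, LSet k u v y t z0 z1 r → ownR G X r a → ¬ D a) {r : V}
    (hr : LSet k u v y t z0 z1 r) : Helper33.Off.Far G D r := by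
  obtain ⟨s, h1, h2⟩ := h.has_cross hr
  refine ⟨hW.nD h1 h2, fun d hd had => hA r d hr ⟨had.symm, ?_⟩ hd⟩
  exact hW.noc d hd r had

include h hW hcub in
/-- the loop itself is a region -/
theorem LG.region0 {Z : Finset V} (hI : InvZ G X Z)
    (hsub : ∀ r, LSet k u v y t z0 z1 r → r ∈ Z)
    (hA : ∀ r a, LSet k u v y t z0 z1 r → ownR G X r a → ¬ D a)
    (he : ∀ (E : V → Prop) (f : V → ℕ),
      StG G X (fun r => r ∈ Z ∧ ¬ LSet k u v y t z0 z1 r) E f →
      ∃ (g : V → ℕ) (E' : V → Prop),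
        StG G X (fun r => (r ∈ Z ∧ ¬ LSet k u v y t z0 z1 r) ∨ LSet k u v y t z0 z1 r) E' g) :
    ∃ Lam, Region G X Z Lam ∧ ∀ r ∈ Lam, Helper33.Off.Far G D r := by
  obtain ⟨Lam, h1, h2⟩ := region_of' hI hsub (t := t) (Or.inl rfl)
    (fun _ hr _ _ ha hb na nb => h.own_out hW hcub hr ha hb na nb)
    (fun _ hr h2 => h.cross_in hcub hr h2) (extZ_of_kext hsub he)
  exact ⟨Lam, h1, fun r hr => h.lam_far hW hA ((h2 r).mp hr)⟩

include h hW hcub in
/-- the loop with one more vertex is a region -/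
theorem LG.region1 {Z : Finset V} (hI : InvZ G X Z)
    (hsub : ∀ r, LSet k u v y t z0 z1 r → r ∈ Z)
    (hA : ∀ r a, LSet k u v y t z0 z1 r → ownR G X r a → ¬ D a) {b a c d : V} (hbZ : b ∈ Z)
    (hb : Nb G b a c d) (Xa : X a ↔ X b) (Xc : X c ↔ X b)
    (ha : ∀ r, G.Adj a r → (X r ↔ X b) → r = b) (haL : LSet k u v y t z0 z1 a)
    (hbL : ¬ LSet k u v y t z0 z1 b) (hd : d ∉ Z) (hcD : ¬ D c)
    (he : ∀ (L E : V → Prop) (f : V → ℕ), ¬ L b → (∀ r, LSet k u v y t z0 z1 r → ¬ L r) →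
      StG G X L E f → ∃ (g : V → ℕ), StG G X (fun r => L r ∨ LSet k u v y t z0 z1 r) E g) :
    ∃ Lam, Region G X Z Lam ∧ ∀ r ∈ Lam, Helper33.Off.Far G D r := by
  have cb : cc G X b = 3 := cc_inner' hcub hb.ha hb.hb hb.ab Xa Xc
  have hbD : ¬ D b := hA a b haL ⟨hb.ha.symm, Xa⟩
  have nb : NMAt G X b := hW.off b hbD
  have Xd : ¬ (X d ↔ X b) := fun hh => side_at nb hb (Xa.trans Xc.symm) (hh.trans Xa.symm)
  have hdD : ¬ D d := hW.nD hb.hc.symm (fun hh => Xd hh.symm)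
  have nc : TwoConf G X b c d := twoConf_nm (hW.off c hcD) (hW.off d hdD) hb.hb.symm hb.hc.symm
  have haD : ¬ D a := by
    obtain ⟨s, h1, h2⟩ := h.has_cross haL
    exact hW.nD h1 h2
  obtain ⟨Lam, h1, h2⟩ := region_of' (Lm := fun r => LSet k u v y t z0 z1 r ∨ r = b) hI (by
      rintro r (hr | rfl)
      · exact hsub r hr
      · exact hbZ) (t := t)
    (Or.inl (Or.inl rfl)) (by
      rintro r (hr | rfl) s s' h1 h2 h3 h4
      · exact h.own_out hW hcub hr h1 h2 (fun hh => h3 (Or.inl hh)) (fun hh => h4 (Or.inl hh))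
      · have key : ∀ e, ownR G X r e → ¬ (LSet k u v y t z0 z1 e ∨ e = r) → e = c := by
          intro e h5 h6
          rcases hb.all e h5.1 with h7 | h7 | h7
          · exact absurd (Or.inl (h7 ▸ haL)) h6
          · exact h7
          · exfalso
            rw [h7] at h5
            exact Xd h5.2.symm
        rw [key s h1 h3, key s' h2 h4])
    (by
      rintro r (hr | rfl) h2
      · obtain ⟨s, h3, h4, h5⟩ := h.cross_in hcub hr h2
        exact ⟨s, h3, h4, Or.inl h5⟩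
      · omega)
    (extZ_of_kext (by
      rintro r (hr | rfl)
      · exact hsub r hr
      · exact hbZ) (by
      intro E f st
      obtain ⟨g, st1⟩ := he _ E f (fun hh => hh.2 (Or.inr rfl))
        (fun r hr hh => hh.2 (Or.inl hr)) st
      obtain ⟨g', st2⟩ := add_free nb nc st1 hb Xa Xc ha
        (by
          rintro (hh | hh)
          · exact hh.2 (Or.inr rfl)
          · exact hbL hh)
        (by
          rintro (hh | hh)
          · exact hd hh.1
          · exact hd (hsub d hh))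
      refine ⟨g', E, st2.congr (fun r => ?_) (fun r => Iff.rfl)⟩
      constructor
      · rintro ((hh | hh) | hh)
        · exact Or.inl hh
        · exact Or.inr (Or.inl hh)
        · exact Or.inr (Or.inr hh)
      · rintro (hh | hh | hh)
        · exact Or.inl (Or.inl hh)
        · exact Or.inl (Or.inr hh)
        · exact Or.inr hh))
  refine ⟨Lam, h1, fun r hr => ?_⟩
  rcases (h2 r).mp hr with h3 | h3
  · exact h.lam_far hW hA h3
  · rw [h3]
    refine ⟨hbD, fun e he hadj => ?_⟩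
    rcases hb.all e hadj.symm with h4 | h4 | h4
    · exact haD (h4 ▸ he)
    · exact hcD (h4 ▸ he)
    · exact hdD (h4 ▸ he)

include h hW hcub in
/-- **A loop with apex in `X` gives a region.** -/
theorem LG.region {Z : Finset V} (hI : InvZ G X Z)
    (hsub : ∀ r, LSet k u v y t z0 z1 r → r ∈ Z)
    (hpq : ∀ i, i < k → p i ∈ Z ∧ q i ∈ Z)
    (hA : ∀ r a, LSet k u v y t z0 z1 r → ownR G X r a → ¬ D a)
    (hR : NoRepair G X D) :
    ∃ Lam, Region G X Z Lam ∧ ∀ r ∈ Lam, Helper33.Off.Far G D r := by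
  have hk := h.k0
  have hk1 : k - 1 < k := by omega
  have lt : LSet k u v y t z0 z1 t := Or.inl rfl
  have l0 : LSet k u v y t z0 z1 z0 := Or.inr (Or.inl rfl)
  have l1 : LSet k u v y t z0 z1 z1 := Or.inr (Or.inr (Or.inl rfl))
  -- second conflicts
  have hO : ∀ i, ∃ c, i + 1 < k → ∀ r, G.Adj (o i) r → (X r ↔ X (y i)) → r ≠ y i → r = c := by
    intro i
    by_cases hi : i + 1 < k
    · obtain ⟨c, hc, _⟩ := second_at
        (hW.off _ (hA _ _ (LSet_y hi) ⟨(h.nY i hi).1.hc, iff_of_false (h.Yy i hi) (h.nY i hi).2⟩))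
        (h.nY i hi).1.hc.symm
      exact ⟨c, fun _ => hc⟩
    · exact ⟨t, fun hh => absurd hh hi⟩
  choose o' ho' using hO
  have oM : ownR G X t m := ⟨h.nT.hc, iff_of_true h.Xt h.Xm⟩
  have oW : ownR G X z0 w := ⟨h.nZ0.hc, iff_of_false h.Z0 h.Yw⟩
  have oX : ownR G X z1 x := ⟨h.nZ1.hc, iff_of_false h.Z1 h.Yx⟩
  have nmM := hW.off _ (hA _ _ lt oM)
  have nmW := hW.off _ (hA _ _ l0 oW)
  have nmX := hW.off _ (hA _ _ l1 oX)
  obtain ⟨m', hm', hm2⟩ := second_at nmM h.nT.hc.symm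
  obtain ⟨w', hw', hw2⟩ := second_at nmW h.nZ0.hc.symm
  obtain ⟨x', hx', hx2⟩ := second_at nmX h.nZ1.hc.symm
  have hl : LoopR G.Adj (qadj G X) X k u v p q y o o' t z0 z1 m m' w w' x x' :=
    h.loopR hcub (fun i hi => ho' i hi) hm' hw' hx'
  by_cases c1 : (m ∈ Z ∧ ¬ LSet k u v y t z0 z1 m) ∧ (m' ∈ Z ∧ ¬ LSet k u v y t z0 z1 m')
  swap
  · refine h.region0 hW hcub hI hsub hA (fun E f st => ?_)
    obtain ⟨g, st', _⟩ := hl.ext_par relG qadj_irr st (fun r hr hh => hh.2 hr) (Or.inl (by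
      by_cases hm : m ∈ Z ∧ ¬ LSet k u v y t z0 z1 m
      · refine ⟨f m, ?_⟩
        rintro r (rfl | rfl) hr _
        · rfl
        · exact absurd ⟨hm, hr⟩ c1
      · refine ⟨f m', ?_⟩
        rintro r (rfl | rfl) hr _
        · exact absurd hr hm
        · rfl))
    exact ⟨g, E, st'⟩
  by_cases c2 : (w ∈ Z ∧ ¬ LSet k u v y t z0 z1 w) ∧ (w' ∈ Z ∧ ¬ LSet k u v y t z0 z1 w')
  swap
  · refine h.region0 hW hcub hI hsub hA (fun E f st => ?_)
    obtain ⟨g, st', _⟩ := hl.ext_par relG qadj_irr st (fun r hr hh => hh.2 hr)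
      (Or.inr (Or.inl (by
      by_cases hm : w ∈ Z ∧ ¬ LSet k u v y t z0 z1 w
      · refine ⟨f w, ?_⟩
        rintro r (rfl | rfl) hr _
        · rfl
        · exact absurd ⟨hm, hr⟩ c2
      · refine ⟨f w', ?_⟩
        rintro r (rfl | rfl) hr _
        · exact absurd hr hm
        · rfl)))
    exact ⟨g, E, st'⟩
  by_cases c3 : (x ∈ Z ∧ ¬ LSet k u v y t z0 z1 x) ∧ (x' ∈ Z ∧ ¬ LSet k u v y t z0 z1 x')
  swap
  · refine h.region0 hW hcub hI hsub hA (fun E f st => ?_)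
    obtain ⟨g, st', _⟩ := hl.ext_par relG qadj_irr st (fun r hr hh => hh.2 hr)
      (Or.inr (Or.inr (by
      by_cases hm : x ∈ Z ∧ ¬ LSet k u v y t z0 z1 x
      · refine ⟨f x, ?_⟩
        rintro r (rfl | rfl) hr _
        · rfl
        · exact absurd ⟨hm, hr⟩ c3
      · refine ⟨f x', ?_⟩
        rintro r (rfl | rfl) hr _
        · exact absurd hr hm
        · rfl)))
    exact ⟨g, E, st'⟩
  -- the third neighbours
  have rm : G.Adj m m' ∧ (X m' ↔ X t) ∧ m' ≠ t :=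
    hm2.resolve_left (fun he => c1.2.2 (he ▸ lt))
  have rw' : G.Adj w w' ∧ (X w' ↔ X z0) ∧ w' ≠ z0 :=
    hw2.resolve_left (fun he => c2.2.2 (he ▸ l0))
  have rx : G.Adj x x' ∧ (X x' ↔ X z1) ∧ x' ≠ z1 :=
    hx2.resolve_left (fun he => c3.2.2 (he ▸ l1))
  obtain ⟨wm, nm⟩ := nb_third hcub h.nT.hc.symm rm.1 rm.2.2.symm
  obtain ⟨dw, nw⟩ := nb_third hcub h.nZ0.hc.symm rw'.1 rw'.2.2.symm
  obtain ⟨dx, nx⟩ := nb_third hcub h.nZ1.hc.symm rx.1 rx.2.2.symm
  have Xm' : X m' := rm.2.1.mpr h.Xt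
  have Yw' : ¬ X w' := fun hh => h.Z0 (rw'.2.1.mp hh)
  have Yx' : ¬ X x' := fun hh => h.Z1 (rx.2.1.mp hh)
  have Ywm : ¬ X wm := fun hh => side_at nmM nm rm.2.1.symm (iff_of_true hh h.Xt)
  have Xdw : X dw := by
    by_contra hh
    exact side_at nmW nw rw'.2.1.symm (iff_of_false hh h.Z0)
  have Xdx : X dx := by
    by_contra hh
    exact side_at nmX nx rx.2.1.symm (iff_of_false hh h.Z1)
  have par : ∀ (b : V), (b = m ∨ b = w ∨ b = x) → ∀ (L E : V → Prop) (f : V → ℕ), ¬ L b →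
      (∀ r, LSet k u v y t z0 z1 r → ¬ L r) →
      StG G X L E f → ∃ (g : V → ℕ), StG G X (fun r => L r ∨ LSet k u v y t z0 z1 r) E g := by
    intro b hb L E f hLb hLL st
    obtain ⟨g, st', _⟩ := hl.ext_par relG qadj_irr st hLL (by
      rcases hb with rfl | rfl | rfl
      · refine Or.inl ⟨f m', ?_⟩
        rintro r (rfl | rfl) hr _
        · exact absurd hr hLb
        · rfl
      · refine Or.inr (Or.inl ⟨f w', ?_⟩)
        rintro r (rfl | rfl) hr _
        · exact absurd hr hLb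
        · rfl
      · refine Or.inr (Or.inr ⟨f x', ?_⟩)
        rintro r (rfl | rfl) hr _
        · exact absurd hr hLb
        · rfl)
    exact ⟨g, st'⟩
  have tfar : Helper33.Off.Far G D t := h.lam_far hW hA lt
  by_cases d1 : wm ∈ Z
  swap
  · by_cases hDm : D m'
    · refine h.region0 hW hcub hI hsub hA (fun E f st => ?_)
      have tne : ∀ {a b : V}, X a → ¬ X b → b ≠ a := fun ha hb he => hb (he ▸ ha)
      have cm : cc G X m = 3 := cc_inner' hcub nm.ha nm.hb nm.ab (iff_of_true h.Xt h.Xm)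
        (iff_of_true Xm' h.Xm)
      have pne : ∀ a, cc G X a = 2 → a ≠ m := by
        intro a ha he
        rw [he] at ha
        omega
      obtain ⟨f2, g1, g2, st2⟩ := relabel_leg2 hcub st nm (fun hh => hh.2 lt)
        (fun hh => d1 hh.1)
        (by
          intro r hr hs _
          rcases h.nT.all r hr with h1 | h1 | h1
          · exact absurd (hs.mpr h.Xm) (h1 ▸ h.Z0)
          · exact absurd (hs.mpr h.Xm) (h1 ▸ h.Z1)
          · exact h1)
        (by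
          intro r hr hs hLr
          by_contra hrm
          have hXr : X r := hs.mpr h.Xm
          have c2 : cc G X wm = 2 := cc_end' hW hcub nm.hc.symm hr (Ne.symm hrm)
            (fun hh => Ywm (hh.mp h.Xm)) (fun hh => Ywm (hh.mp hXr))
          obtain ⟨e, he1, he2, he3⟩ := hI.crs wm d1 c2
          obtain ⟨e', ne⟩ := nb_third hcub nm.hc.symm hr (Ne.symm hrm)
          rcases ne.all e he1 with h1 | h1 | h1
          · exact he3 (h1 ▸ c1.1.1)
          · exact he3 (h1 ▸ hLr.1)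
          · have hXe : X e := by
              by_contra hh
              exact he2 (iff_of_false hh Ywm)
            have ndw' : ¬ D wm := hW.nD nm.hc.symm (fun hh => Ywm (hh.mp h.Xm))
            exact side_at (hW.off wm ndw') ne (iff_of_true h.Xm hXr)
              (iff_of_true (h1 ▸ hXe) h.Xm))
        (iff_of_true Xm' h.Xm)
      obtain ⟨g, st3⟩ := hl.ext_two relG qadj_irr st (fun r hr hh => hh.2 hr) st2 g2 g1
        nm.hb.ne.symm (pne _ (h.cp 0 hk)) (pne _ (h.cq 0 hk)) (pne _ (h.cp _ hk1))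
        (pne _ (h.cq _ hk1)) (tne h.Xm h.Yw) (tne h.Xm Yw') (tne h.Xm h.Yx) (tne h.Xm Yx')
      exact ⟨g, E, st3⟩
    refine h.region1 hW hcub hI hsub hA c1.1.1 nm (iff_of_true h.Xt h.Xm)
      (iff_of_true Xm' h.Xm) ?_ lt c1.1.2 d1 hDm (par m (Or.inl rfl))
    intro r hr hs
    rcases h.nT.all r hr with h1 | h1 | h1
    · exact absurd (hs.mpr h.Xm) (h1 ▸ h.Z0)
    · exact absurd (hs.mpr h.Xm) (h1 ▸ h.Z1)
    · exact h1
  by_cases d2 : dw ∈ Z ∨ ∀ r, G.Adj dw r → (X r ↔ X w) → r = w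
  swap
  · push Not at d2
    have hD : ¬ D w' := by
      intro hD
      obtain ⟨r, hr, hs, hne⟩ := d2.2
      exact hne (leg_single hcub hW hR hD tfar h.nZ0
          nw h.nT nm h.nZ1 (fun hh => h.Z0 (hh.mp h.Xt))
          (iff_of_true (h.Xu 0 hk) h.Xt) (iff_of_false h.Yw h.Z0) (iff_of_true Xm' h.Xt)
          (iff_of_true (h.Xv _ hk1) h.Xt) (fun hh => h.Yw (hh.mp Xdw)) hr hs)
    refine h.region1 hW hcub hI hsub hA c2.1.1 nw (iff_of_false h.Z0 h.Yw)
      (iff_of_false Yw' h.Yw) ?_ l0 c2.1.2 d2.1 hD (par w (Or.inr (Or.inl rfl)))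
    intro r hr hs
    rcases h.nZ0.all r hr with h1 | h1 | h1
    · exact absurd (hs.mp (h1 ▸ h.Xt)) h.Yw
    · exact absurd (hs.mp (h1 ▸ h.Xu 0 hk)) h.Yw
    · exact h1
  by_cases d3 : dx ∈ Z ∨ ∀ r, G.Adj dx r → (X r ↔ X x) → r = x
  swap
  · push Not at d3
    have hD : ¬ D x' := by
      intro hD
      obtain ⟨r, hr, hs, hne⟩ := d3.2
      exact hne (leg_single hcub hW hR hD tfar h.nZ1
          nx h.nT.swap nm h.nZ0 (fun hh => h.Z1 (hh.mp h.Xt))
          (iff_of_true (h.Xv _ hk1) h.Xt) (iff_of_false h.Yx h.Z1) (iff_of_true Xm' h.Xt)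
          (iff_of_true (h.Xu 0 hk) h.Xt) (fun hh => h.Yx (hh.mp Xdx)) hr hs)
    refine h.region1 hW hcub hI hsub hA c3.1.1 nx (iff_of_false h.Z1 h.Yx)
      (iff_of_false Yx' h.Yx) ?_ l1 c3.1.2 d3.1 hD (par x (Or.inr (Or.inr rfl)))
    intro r hr hs
    rcases h.nZ1.all r hr with h1 | h1 | h1
    · exact absurd (hs.mp (h1 ▸ h.Xt)) h.Yx
    · exact absurd (hs.mp (h1 ▸ h.Xv _ hk1)) h.Yx
    · exact h1
  -- everything is labelled
  have nwm : ¬ LSet k u v y t z0 z1 wm := fun hh =>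
    c1.1.2 (h.closed hh nm.hc.symm (fun hs => Ywm (hs.mpr h.Xm)))
  have ndw : ¬ LSet k u v y t z0 z1 dw := fun hh =>
    c2.1.2 (h.closed hh nw.hc.symm (fun hs => h.Yw (hs.mp Xdw)))
  have ndx : ¬ LSet k u v y t z0 z1 dx := fun hh =>
    c3.1.2 (h.closed hh nx.hc.symm (fun hs => h.Yx (hs.mp Xdx)))
  have npq : ∀ r, X r → cc G X r = 2 → r ≠ t → ¬ LSet k u v y t z0 z1 r := by
    intro r hXr hc hrt hh
    rcases (LSet_iff hk r).mp hh with h1 | h1 | h1 | ⟨i, hi, h1 | h1⟩ | ⟨i, hi, h1⟩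
    · exact hrt h1
    · exact h.Z0 (h1 ▸ hXr)
    · exact h.Z1 (h1 ▸ hXr)
    · have := h.cu i hi
      rw [← h1] at this
      omega
    · have := h.cv i hi
      rw [← h1] at this
      omega
    · exact h.Yy i hi (h1 ▸ hXr)
  refine h.region0 hW hcub hI hsub hA (fun E f st => ?_)
  have fd : FD G X (fun r => r ∈ Z ∧ ¬ LSet k u v y t z0 z1 r) t z0 z1 m w x m' w' x' wm dw dx :=
    ⟨nm, nw, nx, Xm', Ywm, Yw', Yx', c1.1, c1.2, ⟨d1, nwm⟩, c2.1, c2.2, c3.1, c3.2⟩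
  exact h.full hl (fun r hr hh => hh.2 hr) fd st
    (d2.imp (fun hh => ⟨hh, ndw⟩) (fun hh => hh)) (d3.imp (fun hh => ⟨hh, ndx⟩) (fun hh => hh))
    hcub ⟨(hpq 0 hk).1, npq _ (h.Xp 0 hk).1 (h.cp 0 hk) h.ends.1⟩
    ⟨(hpq _ hk1).2, npq _ (h.Xp _ hk1).2 (h.cq _ hk1) h.ends.2.2.2⟩

end

end Helper17.L9
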