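import Pool.Agent.helper17.L9.LoopR

/-!
# Loops in states: odd apex, or an even link

`LoopR.odd`: the apex gets an odd label (everything within distance two is labelled).
`LoopR.evn`: the link `z1` gets an even label.
-/

set_option autoImplicit false

namespace Helper17.L9

open Pool.Agent.helper58.L9 Pool.Agent.helper40.L9

variable {V : Type*} {A Q N : V → V → Prop} {X L E : V → Prop} {f : V → ℕ} {k : ℕ}
  {u v p q y o o' : ℕ → V} {t z0 z1 m m' w w' x x' : V}

theorem re_odd (l a b c d e g : Prop) :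
    (((((l ∨ a) ∨ b) ∨ c) ∨ d ∨ e) ∨ g) ↔ (l ∨ g ∨ a ∨ b ∨ c ∨ e ∨ d) := by
  constructor
  · rintro (((((h | h) | h) | h) | h | h) | h)
    · exact Or.inl h
    · exact Or.inr (Or.inr (Or.inl h))
    · exact Or.inr (Or.inr (Or.inr (Or.inl h)))
    · exact Or.inr (Or.inr (Or.inr (Or.inr (Or.inl h))))
    · exact Or.inr (Or.inr (Or.inr (Or.inr (Or.inr (Or.inr h)))))
    · exact Or.inr (Or.inr (Or.inr (Or.inr (Or.inr (Or.inl h)))))
    · exact Or.inr (Or.inl h)
  · rintro (h | h | h | h | h | h | h)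
    · exact Or.inl (Or.inl (Or.inl (Or.inl (Or.inl h))))
    · exact Or.inr h
    · exact Or.inl (Or.inl (Or.inl (Or.inl (Or.inr h))))
    · exact Or.inl (Or.inl (Or.inl (Or.inr h)))
    · exact Or.inl (Or.inl (Or.inr h))
    · exact Or.inl (Or.inr (Or.inr h))
    · exact Or.inl (Or.inr (Or.inl h))

/-- one more invisible vertex -/
theorem stInv1 (hR : Rel A Q N X) (h : St A Q N X L E f) (s : V) (a : ℕ) (hs : ¬ L s)
    (ha : a ≤ 9) (hN : ∀ r, N s r → L r ∧ f r ≠ a)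
    (hA : ∀ r, A s r → a + 2 ≤ f r ∨ f r + 2 ≤ a) :
    ∃ g : V → ℕ, g s = a ∧ (∀ r, r ≠ s → g r = f r) ∧
      St A Q N X (fun r => L r ∨ r = s) (fun r => E r ∨ r = s) g := by
  classical
  refine ⟨fun r => if r = s then a else f r, by simp, fun r hr => by simp [hr], ?_⟩
  have hn : ∀ r, L r → r ≠ s := fun r hr he => hs (he ▸ hr)
  have st := h.extend hR (fun _ => False) (fun r => r = s) (fun r => if r = s then a else f r)
    (fun _ hh => hh.elim) (by rintro r rfl; exact hs) (fun r _ hr => by simp [hr])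
    (by
      rintro r (hr | rfl)
      · exact hr.elim
      · simpa using ha)
    (fun _ hh => hh.elim) (fun _ _ hh => hh.elim) (fun _ _ hh => hh.elim)
    (by
      rintro e r rfl hr
      exact Or.inl (hN r hr).1)
    (by
      rintro e r rfl hr
      have h1 := hN r hr
      simp only [if_true, hn r h1.1, if_false]
      exact h1.2.symm)
    (by
      rintro e r rfl hr
      have h1 := hN r (hR.AN _ _ hr)
      simp only [if_true, hn r h1.1, if_false]
      exact hA r hr)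
  refine st.congr (fun r => ?_) (fun r => Iff.rfl)
  simp

/-- **Odd apex.** -/
theorem LoopR.odd (hR : Rel A Q N X) (hQne : ∀ v, ¬ Q v v)
    (hl : LoopR A Q X k u v p q y o o' t z0 z1 m m' w w' x x') (h : St A Q N X L E f)
    (hL : ∀ r, LSet k u v y t z0 z1 r → ¬ L r) {a b0 b1 c α β T : ℕ} (ha : a ∈ ods)
    (hb0 : b0 ∈ ods) (hb1 : b1 ∈ ods) (hc : c ∈ evs) (hab : (α, β) ∈ evp) (h01 : b0 ≠ b1)
    (fa0 : a ≠ b0) (fa1 : a ≠ b1)
    (hcp : c ≠ f (p 0) ∧ c ≠ f (q 0)) (fc : c + 1 ≠ b0 ∧ b0 + 1 ≠ c)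
    (hα : α ≠ c ∧ α ≠ f (p 0) ∧ α ≠ f (q 0)) (hβ : β ≠ c ∧ β ≠ f (p 0) ∧ β ≠ f (q 0))
    (hT : CndS α β (f (p (k - 1))) (f (q (k - 1))) T)
    (fT : T + 1 ≠ b1 ∧ b1 + 1 ≠ T) (hT1 : k = 1 → T ≠ c)
    (hw : ∀ r, r = w ∨ r = w' → L r → ¬ E r → f r ≠ b0)
    (hx : ∀ r, r = x ∨ r = x' → L r → ¬ E r → f r ≠ b1)
    (hNt : ∀ r, N t r → r = z0 ∨ r = z1 ∨ r = u 0 ∨ r = v (k - 1) ∨ (L r ∧ f r ≠ a))
    (hAt : ∀ r, A t r → r = z0 ∨ r = z1 ∨ (L r ∧ (a + 2 ≤ f r ∨ f r + 2 ≤ a))) :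
    ∃ g : V → ℕ, St A Q N X (fun r => L r ∨ LSet k u v y t z0 z1 r) (fun r => E r ∨ r = t) g ∧
      (∀ r, ¬ LSet k u v y t z0 z1 r → g r = f r) := by
  have ha' := mem_ods.mp ha
  have hb0' := mem_ods.mp hb0
  have hb1' := mem_ods.mp hb1
  have hc' := mem_evs.mp hc
  have hTm := hT.mem
  have hT' := mem_evs.mp hTm.1
  have hk := hl.k0
  have hk1 : k - 1 < k := by omega
  have qX : ∀ z r, X z → Q z r → X r := fun z r hz hq => (hR.QX _ _ hq).mp hz
  have qY : ∀ z r, ¬ X z → Q z r → ¬ X r := fun z r hz hq hr => hz ((hR.QX _ _ hq).mpr hr)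
  have n1 : t ≠ z0 := fun he => hl.Z0 (he ▸ hl.Xt)
  have n2 : t ≠ z1 := fun he => hl.Z1 (he ▸ hl.Xt)
  have Xvk : X (v (k - 1)) := hl.Xv _ hk1
  have n3 : v (k - 1) ≠ z0 := fun he => hl.Z0 (he ▸ Xvk)
  have n4 : v (k - 1) ≠ z1 := fun he => hl.Z1 (he ▸ Xvk)
  have n5 : t ≠ v (k - 1) := (hl.tn _ hk1).2
  have Xuk : X (u (k - 1)) := hl.Xu _ hk1
  have Xu0 : X (u 0) := hl.Xu _ hk
  have lt : ¬ L t := hL _ (Or.inl rfl)
  have lz0 : ¬ L z0 := hL _ (Or.inr (Or.inl rfl))
  have lz1 : ¬ L z1 := hL _ (Or.inr (Or.inr (Or.inl rfl)))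
  have lv : ¬ L (v (k - 1)) := hL _ (LSet_v hk1)
  have lu : ¬ L (u 0) := hL _ (LSet_u hk)
  have luk : ¬ L (u (k - 1)) := hL _ (LSet_u hk1)
  -- `z0`
  obtain ⟨g2, e2, g20, st2⟩ := h.one hR hQne z0 b0 lz0 (by omega)
    (by rw [Nat.even_iff]; exact ⟨fun hh => absurd hh hl.Z0, fun hh => by omega⟩)
    (by
      intro r hr hLr hEr
      rcases hl.Qz r hr with rfl | hr1 | hr1
      · exact absurd hLr lz1
      · exact hw r (Or.inl hr1) hLr hEr
      · exact hw r (Or.inr hr1) hLr hEr)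
    (by
      intro r hr hX hLr _
      have hXr : X r := by
        by_contra hh
        exact hX (iff_of_false hl.Z0 hh)
      rcases hl.Az r hr hXr with rfl | rfl
      · exact absurd hLr lt
      · exact absurd hLr lu)
  -- `z1`
  obtain ⟨g3, e3, g30, st3⟩ := st2.one hR hQne z1 b1
    (by rintro (h1 | h1)
        · exact lz1 h1
        · exact hl.zz h1.symm) (by omega)
    (by rw [Nat.even_iff]; exact ⟨fun hh => absurd hh hl.Z1, fun hh => by omega⟩)
    (by
      intro r hr hLr hEr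
      by_cases hrz : r = z0
      · rw [hrz, e2]
        exact h01
      have hLr' : L r := hLr.resolve_right hrz
      rw [g20 r hrz]
      rcases hl.Qz' r hr with hr1 | hr1 | hr1
      · exact absurd hr1 hrz
      · exact hx r (Or.inl hr1) hLr' hEr
      · exact hx r (Or.inr hr1) hLr' hEr)
    (by
      intro r hr hX hLr _
      have hXr : X r := by
        by_contra hh
        exact hX (iff_of_false hl.Z1 hh)
      exfalso
      rcases hl.Az' r hr hXr with rfl | rfl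
      · rcases hLr with h1 | h1
        · exact lt h1
        · exact n1 h1
      · rcases hLr with h1 | h1
        · exact lv h1
        · exact n3 h1)
  have keep3 : ∀ r, X r → g3 r = f r := by
    intro r hr
    rw [g30 r (fun he => hl.Z1 (he ▸ hr)), g20 r (fun he => hl.Z0 (he ▸ hr))]
  -- `v (k-1)`
  obtain ⟨g4, e4, g40, st4⟩ := st3.one hR hQne (v (k - 1)) T
    (by rintro ((h1 | h1) | h1)
        · exact lv h1
        · exact n3 h1
        · exact n4 h1) (by omega)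
    (by rw [Nat.even_iff]; exact ⟨fun _ => hT'.1, fun _ => Xvk⟩)
    (by
      intro r hr hLr _
      have hXr := qX _ _ Xvk hr
      rcases hl.Qv r hr with rfl | rfl | rfl | rfl
      · rw [keep3 _ hXr]
        exact hTm.2.1.symm
      · rw [keep3 _ hXr]
        exact hTm.2.2.symm
      · exfalso
        rcases hLr with (h1 | h1) | h1
        · exact luk h1
        · exact hl.Z0 (h1 ▸ Xuk)
        · exact hl.Z1 (h1 ▸ Xuk)
      · exfalso
        rcases hLr with (h1 | h1) | h1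
        · exact lt h1
        · exact n1 h1
        · exact n2 h1)
    (by
      intro r hr hX _ _
      have := hl.Av r hr (fun hh => hX (iff_of_true Xvk hh))
      subst this
      rw [e3]
      exact fT)
  have keep4 : ∀ r, X r → r ≠ v (k - 1) → g4 r = f r := by
    intro r hr hrv
    rw [g40 r hrv, keep3 r hr]
  have p0v : p 0 ≠ v (k - 1) ∧ q 0 ≠ v (k - 1) := ⟨(hl.pn 0 _ hk hk1).2, (hl.qn 0 _ hk hk1).2⟩
  have pkv : p (k - 1) ≠ v (k - 1) ∧ q (k - 1) ≠ v (k - 1) :=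
    ⟨(hl.pn _ _ hk1 hk1).2, (hl.qn _ _ hk1 hk1).2⟩
  have kp0 : g4 (p 0) = f (p 0) := keep4 _ (hl.Xp 0 hk).1 p0v.1
  have kq0 : g4 (q 0) = f (q 0) := keep4 _ (hl.Xp 0 hk).2 p0v.2
  have kpk : g4 (p (k - 1)) = f (p (k - 1)) := keep4 _ (hl.Xp _ hk1).1 pkv.1
  have kqk : g4 (q (k - 1)) = f (q (k - 1)) := keep4 _ (hl.Xp _ hk1).2 pkv.2
  have L4t : ¬ ((((L t) ∨ t = z0) ∨ t = z1) ∨ t = v (k - 1)) := by
    rintro (((h1 | h1) | h1) | h1)
    · exact lt h1
    · exact n1 h1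
    · exact n2 h1
    · exact n5 h1
  obtain ⟨g5, e5, st5, g50⟩ := hl.toWire.fill hR hQne hk st4 (c0 := c) (a := α) (b := β)
    (by rintro (((h1 | h1) | h1) | h1)
        · exact lu h1
        · exact hl.Z0 (h1 ▸ Xu0)
        · exact hl.Z1 (h1 ▸ Xu0)
        · exact hl.u_ne_v h1)
    (by
      rintro r hr (((h1 | h1) | h1) | h1)
      · exact hL r (Or.inr (Or.inr (Or.inr (Or.inr (Or.inr hr))))) h1
      · exact hl.W_z0 (h1 ▸ hr)
      · exact hl.W_z1 (h1 ▸ hr)
      · exact hl.W_v (h1 ▸ hr))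
    hab hc (by rw [kp0, kq0]; exact hcp) (by rw [kp0, kq0]; exact hα)
    (by rw [kp0, kq0]; exact hβ)
    (by
      intro r hr
      rcases hl.Qu r hr with h1 | h1 | h1 | rfl
      · exact Or.inl h1
      · exact Or.inr (Or.inl h1)
      · exact Or.inr (Or.inr (Or.inl h1))
      · exact Or.inr (Or.inr (Or.inr ⟨hl.W_t, fun h1 _ => absurd h1 L4t⟩)))
    (by
      intro r hr hXr
      have := hl.Au r hr hXr
      subst this
      refine ⟨hl.W_z0, fun _ _ => ?_⟩
      rw [g40 _ n3.symm, g30 _ hl.zz, e2]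
      exact fc)
    (by rw [kpk, kqk, e4]; exact hT)
    (by
      intro hk2
      have : v 0 = v (k - 1) := by rw [hk2]
      rw [this, e4]
      exact hT1 hk2)
  have v5 : g5 (v (k - 1)) = T := by
    rw [g50 _ hl.W_v hl.u_ne_v.symm, e4]
  have z05 : g5 z0 = b0 := by
    rw [g50 _ hl.W_z0 (fun he => hl.Z0 (he ▸ Xu0)), g40 _ n3.symm, g30 _ hl.zz, e2]
  have z15 : g5 z1 = b1 := by
    rw [g50 _ hl.W_z1 (fun he => hl.Z1 (he ▸ Xu0)), g40 _ n4.symm, e3]
  have keep5 : ∀ r, L r → g5 r = f r := by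
    intro r hr
    rw [g50 r (fun hh => hL r (Or.inr (Or.inr (Or.inr (Or.inr (Or.inr hh))))) hr)
      (fun he => lu (he ▸ hr)), g40 r (fun he => lv (he ▸ hr)), g30 r (fun he => lz1 (he ▸ hr)),
      g20 r (fun he => lz0 (he ▸ hr))]
  -- the apex
  have ntu : t ≠ u 0 := (hl.tn 0 hk).1
  obtain ⟨g6, _, g60, st6⟩ := stInv1 hR st5 t a
    (by
      rintro (h1 | h1 | h1)
      · exact L4t h1
      · exact hl.W_t h1
      · exact ntu h1) (by omega)
    (by
      intro r hr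
      rcases hNt r hr with rfl | rfl | rfl | rfl | ⟨h1, h2⟩
      · exact ⟨Or.inl (Or.inl (Or.inl (Or.inr rfl))), by rw [z05]; exact fa0.symm⟩
      · exact ⟨Or.inl (Or.inl (Or.inr rfl)), by rw [z15]; exact fa1.symm⟩
      · refine ⟨Or.inr (Or.inr rfl), ?_⟩
        rw [e5]
        clear * - ha' hc'
        omega
      · refine ⟨Or.inl (Or.inr rfl), ?_⟩
        rw [v5]
        clear * - ha' hT'
        omega
      · exact ⟨Or.inl (Or.inl (Or.inl (Or.inl h1))), by rw [keep5 r h1]; exact h2⟩)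
    (by
      intro r hr
      rcases hAt r hr with rfl | rfl | ⟨h1, h2⟩
      · rw [z05]
        clear * - ha' hb0' fa0
        omega
      · rw [z15]
        clear * - ha' hb1' fa1
        omega
      · rw [keep5 r h1]
        exact h2)
  refine ⟨g6, st6.congr (fun r => ?_) (fun r => Iff.rfl), fun r hr => ?_⟩
  · exact re_odd _ _ _ _ _ _ _
  · unfold LSet at hr
    push Not at hr
    obtain ⟨h1, h2, h3, h4, h5, h6⟩ := hr
    rw [g60 r h1, g50 r h6 h5, g40 r h4, g30 r h3, g20 r h2]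

end Helper17.L9
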