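import Pool.Agent.helper17.L9.Wire

/-!
# Loops in states: extension in parity

`LoopR`: a wire whose ends are joined to the apex `t` through the links `z0`, `z1`; `m, m'` are
the other conflicts of `t`, `w, w'` those of `z0`, `x, x'` those of `z1`.
-/

set_option autoImplicit false

namespace Helper17.L9

open Pool.Agent.helper58.L9 Pool.Agent.helper40.L9

variable {V : Type*}

/-- a loop -/
structure LoopR (A Q : V → V → Prop) (X : V → Prop) (k : ℕ) (u v p q y o o' : ℕ → V)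
    (t z0 z1 m m' w w' x x' : V) : Prop extends Wire A Q X k u v p q y o o' where
  k0 : 0 < k
  Xp : ∀ i, i < k → X (p i) ∧ X (q i)
  Xt : X t
  Z0 : ¬ X z0
  Z1 : ¬ X z1
  zz : z0 ≠ z1
  tn : ∀ i, i < k → t ≠ u i ∧ t ≠ v i
  zn : ∀ i, i + 1 < k → z0 ≠ y i ∧ z1 ≠ y i
  ends : p 0 ≠ t ∧ q 0 ≠ t ∧ p (k - 1) ≠ t ∧ q (k - 1) ≠ t
  Qt : ∀ r, Q t r → r = u 0 ∨ r = v (k - 1) ∨ r = m ∨ r = m'
  Qu : ∀ r, Q (u 0) r → r = p 0 ∨ r = q 0 ∨ r = v 0 ∨ r = t
  Qv : ∀ r, Q (v (k - 1)) r → r = p (k - 1) ∨ r = q (k - 1) ∨ r = u (k - 1) ∨ r = t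
  Qz : ∀ r, Q z0 r → r = z1 ∨ r = w ∨ r = w'
  Qz' : ∀ r, Q z1 r → r = z0 ∨ r = x ∨ r = x'
  At : ∀ r, A t r → ¬ X r → r = z0 ∨ r = z1
  Au : ∀ r, A (u 0) r → ¬ X r → r = z0
  Av : ∀ r, A (v (k - 1)) r → ¬ X r → r = z1
  Az : ∀ r, A z0 r → X r → r = t ∨ r = u 0
  Az' : ∀ r, A z1 r → X r → r = t ∨ r = v (k - 1)

/-- the vertices of a loop -/
def LSet (k : ℕ) (u v y : ℕ → V) (t z0 z1 : V) (r : V) : Prop :=
  r = t ∨ r = z0 ∨ r = z1 ∨ r = v (k - 1) ∨ r = u 0 ∨ Wset k u v y 0 r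

variable {A Q N : V → V → Prop} {X L E : V → Prop} {f : V → ℕ} {k : ℕ}
  {u v p q y o o' : ℕ → V} {t z0 z1 m m' w w' x x' : V}

section

variable (hl : LoopR A Q X k u v p q y o o' t z0 z1 m m' w w' x x')

include hl

theorem LoopR.W_t : ¬ Wset k u v y 0 t := by
  rintro ⟨i, h1, _, h2 | h2 | h2⟩
  · exact (hl.tn _ h1).1 h2
  · exact hl.Yy i h1 (h2 ▸ hl.Xt)
  · exact (hl.tn _ (by omega)).2 h2

theorem LoopR.W_z0 : ¬ Wset k u v y 0 z0 := by
  rintro ⟨i, h1, _, h2 | h2 | h2⟩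
  · exact hl.Z0 (h2 ▸ hl.Xu _ h1)
  · exact (hl.zn i h1).1 h2
  · exact hl.Z0 (h2 ▸ hl.Xv _ (by omega))

theorem LoopR.W_z1 : ¬ Wset k u v y 0 z1 := by
  rintro ⟨i, h1, _, h2 | h2 | h2⟩
  · exact hl.Z1 (h2 ▸ hl.Xu _ h1)
  · exact (hl.zn i h1).2 h2
  · exact hl.Z1 (h2 ▸ hl.Xv _ (by omega))

theorem LoopR.W_v : ¬ Wset k u v y 0 (v (k - 1)) :=
  hl.toWire.not_v (by have := hl.k0; omega) (Or.inr (by omega))

theorem LoopR.W_u : ¬ Wset k u v y 0 (u 0) := hl.toWire.not_u hl.k0 le_rfl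

theorem LoopR.u_ne_v : u 0 ≠ v (k - 1) := hl.uv _ _ hl.k0 (by have := hl.k0; omega)

end

theorem LSet_u {i : ℕ} (hi : i < k) : LSet k u v y t z0 z1 (u i) := by
  rcases Nat.eq_zero_or_pos i with h | h
  · subst h
    exact Or.inr (Or.inr (Or.inr (Or.inr (Or.inl rfl))))
  · refine Or.inr (Or.inr (Or.inr (Or.inr (Or.inr ⟨i - 1, by omega, Nat.zero_le _, Or.inl ?_⟩))))
    rw [Nat.sub_add_cancel h]

theorem LSet_v {i : ℕ} (hi : i < k) : LSet k u v y t z0 z1 (v i) := by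
  by_cases h : i = k - 1
  · subst h
    exact Or.inr (Or.inr (Or.inr (Or.inl rfl)))
  · exact Or.inr (Or.inr (Or.inr (Or.inr (Or.inr ⟨i, by omega, Nat.zero_le _,
      Or.inr (Or.inr rfl)⟩))))

theorem LSet_y {i : ℕ} (hi : i + 1 < k) : LSet k u v y t z0 z1 (y i) :=
  Or.inr (Or.inr (Or.inr (Or.inr (Or.inr ⟨i, hi, Nat.zero_le _, Or.inr (Or.inl rfl)⟩))))

/-- **Extension to a loop in parity.** -/
theorem LoopR.par (hR : Rel A Q N X) (hQne : ∀ v, ¬ Q v v)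
    (hl : LoopR A Q X k u v p q y o o' t z0 z1 m m' w w' x x') (h : St A Q N X L E f)
    (hL : ∀ r, LSet k u v y t z0 z1 r → ¬ L r) {a b0 b1 c α β T : ℕ} (ha : a ∈ evs)
    (hb0 : b0 ∈ ods) (hb1 : b1 ∈ ods) (hc : c ∈ evs) (hab : (α, β) ∈ evp) (h01 : b0 ≠ b1)
    (fa0 : a + 1 ≠ b0 ∧ b0 + 1 ≠ a) (fa1 : a + 1 ≠ b1 ∧ b1 + 1 ≠ a)
    (hcp : c ≠ f (p 0) ∧ c ≠ f (q 0) ∧ c ≠ a) (fc : c + 1 ≠ b0 ∧ b0 + 1 ≠ c)
    (hα : α ≠ c ∧ α ≠ f (p 0) ∧ α ≠ f (q 0)) (hβ : β ≠ c ∧ β ≠ f (p 0) ∧ β ≠ f (q 0))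
    (hT : CndS α β (f (p (k - 1))) (f (q (k - 1))) T) (hTa : T ≠ a)
    (fT : T + 1 ≠ b1 ∧ b1 + 1 ≠ T) (hT1 : k = 1 → T ≠ c)
    (hm : ∀ r, r = m ∨ r = m' → L r → ¬ E r → f r ≠ a)
    (hw : ∀ r, r = w ∨ r = w' → L r → ¬ E r → f r ≠ b0)
    (hx : ∀ r, r = x ∨ r = x' → L r → ¬ E r → f r ≠ b1) :
    ∃ g : V → ℕ, St A Q N X (fun r => L r ∨ LSet k u v y t z0 z1 r) E g ∧
      (∀ r, ¬ LSet k u v y t z0 z1 r → g r = f r) := by
  have ha' := mem_evs.mp ha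
  have hb0' := mem_ods.mp hb0
  have hb1' := mem_ods.mp hb1
  have hc' := mem_evs.mp hc
  have hTm := hT.mem
  have hT' := mem_evs.mp hTm.1
  have hk := hl.k0
  have hk1 : k - 1 < k := by omega
  have qX : ∀ z r, X z → Q z r → X r := fun z r hz hq => (hR.QX _ _ hq).mp hz
  have qY : ∀ z r, ¬ X z → Q z r → ¬ X r := fun z r hz hq hr => hz ((hR.QX _ _ hq).mpr hr)
  have n1 : t ≠ z0 := fun he => hl.Z0 (he ▸ hl.Xt)
  have n2 : t ≠ z1 := fun he => hl.Z1 (he ▸ hl.Xt)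
  have Xvk : X (v (k - 1)) := hl.Xv _ hk1
  have n3 : v (k - 1) ≠ z0 := fun he => hl.Z0 (he ▸ Xvk)
  have n4 : v (k - 1) ≠ z1 := fun he => hl.Z1 (he ▸ Xvk)
  have n5 : t ≠ v (k - 1) := (hl.tn _ hk1).2
  have Xuk : X (u (k - 1)) := hl.Xu _ hk1
  have Xu0 : X (u 0) := hl.Xu _ hk
  have lt : ¬ L t := hL _ (Or.inl rfl)
  have lz0 : ¬ L z0 := hL _ (Or.inr (Or.inl rfl))
  have lz1 : ¬ L z1 := hL _ (Or.inr (Or.inr (Or.inl rfl)))
  have lv : ¬ L (v (k - 1)) := hL _ (LSet_v hk1)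
  have lu : ¬ L (u 0) := hL _ (LSet_u hk)
  have luk : ¬ L (u (k - 1)) := hL _ (LSet_u hk1)
  -- apex
  obtain ⟨g1, e1, g10, st1⟩ := h.one hR hQne t a lt (by omega)
    (by rw [Nat.even_iff]; exact ⟨fun _ => ha'.1, fun _ => hl.Xt⟩)
    (by
      intro r hr hLr hEr
      rcases hl.Qt r hr with rfl | rfl | hr1 | hr1
      · exact absurd hLr lu
      · exact absurd hLr lv
      · exact hm r (Or.inl hr1) hLr hEr
      · exact hm r (Or.inr hr1) hLr hEr)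
    (by
      intro r hr hX hLr _
      rcases hl.At r hr (fun hh => hX (iff_of_true hl.Xt hh)) with rfl | rfl
      · exact absurd hLr lz0
      · exact absurd hLr lz1)
  -- `z0`
  obtain ⟨g2, e2, g20, st2⟩ := st1.one hR hQne z0 b0
    (by rintro (h1 | h1)
        · exact lz0 h1
        · exact n1 h1.symm) (by omega)
    (by rw [Nat.even_iff]; exact ⟨fun hh => absurd hh hl.Z0, fun hh => by omega⟩)
    (by
      intro r hr hLr hEr
      have hXr := qY _ _ hl.Z0 hr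
      have hrt : r ≠ t := fun he => hXr (he ▸ hl.Xt)
      have hLr' : L r := hLr.resolve_right hrt
      rw [g10 r hrt]
      rcases hl.Qz r hr with rfl | hr1 | hr1
      · exact absurd hLr' lz1
      · exact hw r (Or.inl hr1) hLr' hEr
      · exact hw r (Or.inr hr1) hLr' hEr)
    (by
      intro r hr hX hLr _
      have hXr : X r := by
        by_contra hh
        exact hX (iff_of_false hl.Z0 hh)
      rcases hl.Az r hr hXr with rfl | rfl
      · rw [e1]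
        exact ⟨fa0.2, fa0.1⟩
      · exfalso
        rcases hLr with h1 | h1
        · exact lu h1
        · exact (hl.tn 0 hk).1 h1.symm)
  -- `z1`
  obtain ⟨g3, e3, g30, st3⟩ := st2.one hR hQne z1 b1
    (by rintro ((h1 | h1) | h1)
        · exact lz1 h1
        · exact n2 h1.symm
        · exact hl.zz h1.symm) (by omega)
    (by rw [Nat.even_iff]; exact ⟨fun hh => absurd hh hl.Z1, fun hh => by omega⟩)
    (by
      intro r hr hLr hEr
      have hXr := qY _ _ hl.Z1 hr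
      have hrt : r ≠ t := fun he => hXr (he ▸ hl.Xt)
      by_cases hrz : r = z0
      · rw [hrz, e2]
        exact h01
      have hLr' : L r := (hLr.resolve_right hrz).resolve_right hrt
      rw [g20 r hrz, g10 r hrt]
      rcases hl.Qz' r hr with hr1 | hr1 | hr1
      · exact absurd hr1 hrz
      · exact hx r (Or.inl hr1) hLr' hEr
      · exact hx r (Or.inr hr1) hLr' hEr)
    (by
      intro r hr hX hLr _
      have hXr : X r := by
        by_contra hh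
        exact hX (iff_of_false hl.Z1 hh)
      rcases hl.Az' r hr hXr with rfl | rfl
      · rw [g20 _ n1, e1]
        exact ⟨fa1.2, fa1.1⟩
      · exfalso
        rcases hLr with (h1 | h1) | h1
        · exact lv h1
        · exact n5 h1.symm
        · exact n3 h1)
  have keep3 : ∀ r, X r → r ≠ t → g3 r = f r := by
    intro r hr hrt
    rw [g30 r (fun he => hl.Z1 (he ▸ hr)), g20 r (fun he => hl.Z0 (he ▸ hr)), g10 r hrt]
  -- `v (k-1)`
  obtain ⟨g4, e4, g40, st4⟩ := st3.one hR hQne (v (k - 1)) T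
    (by rintro (((h1 | h1) | h1) | h1)
        · exact lv h1
        · exact n5 h1.symm
        · exact n3 h1
        · exact n4 h1) (by omega)
    (by rw [Nat.even_iff]; exact ⟨fun _ => hT'.1, fun _ => Xvk⟩)
    (by
      intro r hr hLr _
      have hXr := qX _ _ Xvk hr
      rcases hl.Qv r hr with rfl | rfl | rfl | rfl
      · rw [keep3 _ hXr hl.ends.2.2.1]
        exact hTm.2.1.symm
      · rw [keep3 _ hXr hl.ends.2.2.2]
        exact hTm.2.2.symm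
      · exfalso
        rcases hLr with ((h1 | h1) | h1) | h1
        · exact luk h1
        · exact (hl.tn _ hk1).1 h1.symm
        · exact hl.Z0 (h1 ▸ Xuk)
        · exact hl.Z1 (h1 ▸ Xuk)
      · rw [g30 _ n2, g20 _ n1, e1]
        exact hTa.symm)
    (by
      intro r hr hX _ _
      have := hl.Av r hr (fun hh => hX (iff_of_true Xvk hh))
      subst this
      rw [e3]
      exact fT)
  have keep4 : ∀ r, X r → r ≠ t → r ≠ v (k - 1) → g4 r = f r := by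
    intro r hr hrt hrv
    rw [g40 r hrv, keep3 r hr hrt]
  have p0v : p 0 ≠ v (k - 1) ∧ q 0 ≠ v (k - 1) := ⟨(hl.pn 0 _ hk hk1).2, (hl.qn 0 _ hk hk1).2⟩
  have pkv : p (k - 1) ≠ v (k - 1) ∧ q (k - 1) ≠ v (k - 1) :=
    ⟨(hl.pn _ _ hk1 hk1).2, (hl.qn _ _ hk1 hk1).2⟩
  have kp0 : g4 (p 0) = f (p 0) := keep4 _ (hl.Xp 0 hk).1 hl.ends.1 p0v.1
  have kq0 : g4 (q 0) = f (q 0) := keep4 _ (hl.Xp 0 hk).2 hl.ends.2.1 p0v.2
  have kpk : g4 (p (k - 1)) = f (p (k - 1)) := keep4 _ (hl.Xp _ hk1).1 hl.ends.2.2.1 pkv.1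
  have kqk : g4 (q (k - 1)) = f (q (k - 1)) := keep4 _ (hl.Xp _ hk1).2 hl.ends.2.2.2 pkv.2
  obtain ⟨g5, _, st5, g50⟩ := hl.toWire.fill hR hQne hk st4 (c0 := c) (a := α) (b := β)
    (by rintro ((((h1 | h1) | h1) | h1) | h1)
        · exact lu h1
        · exact (hl.tn 0 hk).1 h1.symm
        · exact hl.Z0 (h1 ▸ Xu0)
        · exact hl.Z1 (h1 ▸ Xu0)
        · exact hl.u_ne_v h1)
    (by
      rintro r hr ((((h1 | h1) | h1) | h1) | h1)
      · exact hL r (Or.inr (Or.inr (Or.inr (Or.inr (Or.inr hr))))) h1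
      · exact hl.W_t (h1 ▸ hr)
      · exact hl.W_z0 (h1 ▸ hr)
      · exact hl.W_z1 (h1 ▸ hr)
      · exact hl.W_v (h1 ▸ hr))
    hab hc (by rw [kp0, kq0]; exact ⟨hcp.1, hcp.2.1⟩) (by rw [kp0, kq0]; exact hα)
    (by rw [kp0, kq0]; exact hβ)
    (by
      intro r hr
      rcases hl.Qu r hr with h1 | h1 | h1 | rfl
      · exact Or.inl h1
      · exact Or.inr (Or.inl h1)
      · exact Or.inr (Or.inr (Or.inl h1))
      · refine Or.inr (Or.inr (Or.inr ⟨hl.W_t, fun _ _ => ?_⟩))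
        rw [g40 _ n5, g30 _ n2, g20 _ n1, e1]
        exact hcp.2.2.symm)
    (by
      intro r hr hXr
      have := hl.Au r hr hXr
      subst this
      refine ⟨hl.W_z0, fun _ _ => ?_⟩
      rw [g40 _ n3.symm, g30 _ hl.zz, e2]
      exact fc)
    (by rw [kpk, kqk, e4]; exact hT)
    (by
      intro hk2
      have : v 0 = v (k - 1) := by rw [hk2]
      rw [this, e4]
      exact hT1 hk2)
  refine ⟨g5, st5.congr (fun r => ?_) (fun r => Iff.rfl), fun r hr => ?_⟩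
  · unfold LSet
    tauto
  · unfold LSet at hr
    push Not at hr
    obtain ⟨h1, h2, h3, h4, h5, h6⟩ := hr
    rw [g50 r h6 h5, g40 r h4, g30 r h3, g20 r h2, g10 r h1]

end Helper17.L9
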