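import Pool.Agent.helper17.L9.LoopFullG
import Pool.Agent.helper17.L9.LoopLeg

/-!
# Loops: extension if the own neighbour of the apex can get another label
-/

set_option autoImplicit false
set_option linter.unusedSectionVars false

namespace Helper17.L9

open Finset Classical Helper33.L9
open Helper42.L9 hiding near
open Pool.Agent.helper58.L9

section

variable {V : Type*} {A Q N : V → V → Prop} {X L E : V → Prop} {f : V → ℕ} {k : ℕ}
  {u v p q y o o' : ℕ → V} {t z0 z1 m m' w w' x x' : V}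

/-- **Two states which differ at the own neighbour of the apex**: one of them can be extended in
parity. -/
theorem LoopR.ext_two (hR : Rel A Q N X) (hQne : ∀ v, ¬ Q v v)
    (hl : LoopR A Q X k u v p q y o o' t z0 z1 m m' w w' x x') (h : St A Q N X L E f)
    (hL : ∀ r, LSet k u v y t z0 z1 r → ¬ L r) {f2 : V → ℕ} (h2 : St A Q N X L E f2)
    (hf : ∀ r, r ≠ m → f2 r = f r) (hm : f2 m ≠ f m) (hm' : m' ≠ m) (hp0 : p 0 ≠ m)
    (hq0 : q 0 ≠ m) (hpk : p (k - 1) ≠ m) (hqk : q (k - 1) ≠ m) (hw : w ≠ m) (hw' : w' ≠ m)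
    (hx : x ≠ m) (hx' : x' ≠ m) :
    ∃ g : V → ℕ, St A Q N X (fun r => L r ∨ LSet k u v y t z0 z1 r) E g := by
  obtain ⟨P0, hP0, Pk, hPk, h0, hk, h1⟩ := nrm_ends (p := p) (q := q) f hl.k0
  obtain ⟨W, hW, hW'⟩ := nrmO (f w) (f w')
  obtain ⟨W1, hW1, hW1'⟩ := nrmO (f x) (f x')
  obtain ⟨n', hn1, hn2⟩ := nrmE1 (f m')
  have hck := chk1_true
  unfold chk1 at hck
  rw [List.all_eq_true] at hck
  have hck := hck _ hP0
  rw [List.all_eq_true] at hck
  have hck := hck _ hPk
  rw [List.all_eq_true] at hck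
  have hck := hck _ hn1
  rw [List.all_eq_true] at hck
  have hck := hck _ hW
  rw [List.all_eq_true] at hck
  have hck := hck _ hW1
  rw [List.any_eq_true] at hck
  obtain ⟨s, hs, hck⟩ := hck
  rw [Bool.and_eq_true, Bool.and_eq_true, dif_iff] at hck
  have tr := mem_trip (List.mem_filter.mp hs).1
  have am := (hn2 _ tr.1 hck.1.1).symm
  have aw := hW' _ tr.2.1 (av_iff.mp hck.1.2).1 (av_iff.mp hck.1.2).2
  have ax := hW1' _ tr.2.2.1 (av_iff.mp hck.2).1 (av_iff.mp hck.2).2
  by_cases hc : f m = s.1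
  · obtain ⟨g, st, _⟩ := hl.par' hR hQne h2 hL hPk
      (by rw [hf _ hp0, hf _ hq0]; exact h0) (by rw [hf _ hpk, hf _ hqk]; exact hk) h1 hs
      (by
        rintro r (rfl | rfl) _ _
        · rw [← hc]; exact hm
        · rw [hf _ hm']; exact am)
      (by
        rintro r (rfl | rfl) _ _
        · rw [hf _ hw]; exact aw.1.symm
        · rw [hf _ hw']; exact aw.2.symm)
      (by
        rintro r (rfl | rfl) _ _
        · rw [hf _ hx]; exact ax.1.symm
        · rw [hf _ hx']; exact ax.2.symm)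
    exact ⟨g, st⟩
  · obtain ⟨g, st, _⟩ := hl.par' hR hQne h hL hPk h0 hk h1 hs
      (by
        rintro r (rfl | rfl) _ _
        · exact hc
        · exact am)
      (by
        rintro r (rfl | rfl) _ _
        · exact aw.1.symm
        · exact aw.2.symm)
      (by
        rintro r (rfl | rfl) _ _
        · exact ax.1.symm
        · exact ax.2.symm)
    exact ⟨g, st⟩

end

variable {V : Type*} [Fintype V] {G : SimpleGraph V} {X D : V → Prop} {L E : V → Prop}
  {f : V → ℕ}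

/-- the leg `w` of `x` has unlabelled neighbours `z, d`, and no labelled conflicts through them:
there is another label for `w` -/
theorem relabel_leg2 (hcub : ∀ v, (univ.filter fun b => G.Adj v b).card = 3)
    (st : StG G X L E f) {w z x d : V} (nw : Nb G w z x d) (hz : ¬ L z) (hd : ¬ L d)
    (Xz : ∀ r, G.Adj z r → (X r ↔ X w) → L r → r = w)
    (Xd : ∀ r, G.Adj d r → (X r ↔ X w) → L r → r = w)
    (Xx : X x ↔ X w) :
    ∃ g : V → ℕ, g w ≠ f w ∧ (∀ r, r ≠ w → g r = f r) ∧ StG G X L E g := by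
  obtain ⟨b2, b3, nx⟩ := nb_one hcub nw.hb.symm
  have sub := st.sub
  have Ew : ¬ E w := fun he => hz (st.inv w z he ⟨nw.ha.ne, Or.inl nw.ha⟩)
  have Ex : ¬ E x := fun he => hd (st.inv x d he ⟨nw.bc, Or.inr ⟨w, nw.hb.symm, nw.hc⟩⟩)
  obtain ⟨l, hl9, hlX, a1, a2, a3, a4⟩ : ∃ l, l ≤ 9 ∧ (X w ↔ Even l) ∧ l ≠ f w ∧ l ≠ f x ∧
      l ≠ f b2 ∧ l ≠ f b3 := by
    by_cases hXw : X w
    · obtain ⟨l, ⟨h3, h4⟩, h5, h6, h7, h8⟩ := five_even' (f w) (f x) (f b2) (f b3)
      exact ⟨l, by omega, ⟨fun _ => Nat.even_iff.mpr h3, fun _ => hXw⟩, h5, h6, h7, h8⟩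
    · obtain ⟨l, ⟨h3, h4⟩, h5, h6, h7, h8⟩ := five_odd (f w) (f x) (f b2) (f b3)
      refine ⟨l, h4, ⟨fun hh => absurd hh hXw, fun hh => ?_⟩, h5, h6, h7, h8⟩
      rw [Nat.even_iff] at hh
      omega
  refine ⟨fun v => if v = w then l else f v, by simp only [if_true]; exact a1,
    fun r hr => by simp only [hr, if_false], ?_⟩
  refine St_relabel relG qadj_irr st Ew hl9 hlX ?_ ?_ ?_ ?_
  · rintro r ⟨hs, hne, hadj | ⟨s, hs1, hs2⟩⟩ hl _
    · rcases nw.all r hadj with h3 | h3 | h3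
      · exact absurd (h3 ▸ hl) hz
      · rw [h3]; exact a2.symm
      · exact absurd (h3 ▸ hl) hd
    · rcases nw.all s hs1 with h3 | h3 | h3
      · exact absurd (Xz r (h3 ▸ hs2) hs.symm hl) hne.symm
      · rcases nx.all r (h3 ▸ hs2) with h4 | h4 | h4
        · exact absurd h4.symm hne
        · rw [h4]; exact a3.symm
        · rw [h4]; exact a4.symm
      · exact absurd (Xd r (h3 ▸ hs2) hs.symm hl) hne.symm
  · intro r hadj hs hl _
    rcases nw.all r hadj with h3 | h3 | h3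
    · exact absurd (h3 ▸ hl) hz
    · rw [h3] at hs; exact absurd Xx.symm hs
    · exact absurd (h3 ▸ hl) hd
  · rintro r he ⟨hne, hadj | ⟨s, hs1, hs2⟩⟩
    · rcases nw.all r hadj.symm with h3 | h3 | h3
      · exact absurd (sub r he) (h3 ▸ hz)
      · exact absurd he (h3 ▸ Ex)
      · exact absurd (sub r he) (h3 ▸ hd)
    · rcases nw.all s hs2.symm with h3 | h3 | h3
      · exact absurd (st.inv r s he ⟨hs1.ne, Or.inl hs1⟩) (h3 ▸ hz)
      · rcases nx.all r (h3 ▸ hs1.symm) with h4 | h4 | h4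
        · exact absurd h4 hne
        · rw [h4]; exact a3.symm
        · rw [h4]; exact a4.symm
      · exact absurd (st.inv r s he ⟨hs1.ne, Or.inl hs1⟩) (h3 ▸ hd)
  · intro r he hadj
    exfalso
    rcases nw.all r hadj.symm with h3 | h3 | h3
    · exact hz (h3 ▸ sub r he)
    · exact Ex (h3 ▸ he)
    · exact hd (h3 ▸ sub r he)

end Helper17.L9
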