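import Pool.Agent.helper17.L9.LoopEvn

/-!
# Loops: the reversed loop
-/

set_option autoImplicit false

namespace Helper17.L9

open Pool.Agent.helper58.L9 Pool.Agent.helper40.L9

variable {V : Type*} {A Q N : V → V → Prop} {X L E : V → Prop} {f : V → ℕ} {k n : ℕ}
  {u v p q y o o' : ℕ → V} {t z0 z1 m m' w w' x x' : V}

theorem LSet_iff (hk : 0 < k) (r : V) : LSet k u v y t z0 z1 r ↔
    r = t ∨ r = z0 ∨ r = z1 ∨ (∃ i, i < k ∧ (r = u i ∨ r = v i)) ∨
      (∃ i, i + 1 < k ∧ r = y i) := by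
  constructor
  · rintro (h | h | h | h | h | ⟨i, h1, _, h | h | h⟩)
    · exact Or.inl h
    · exact Or.inr (Or.inl h)
    · exact Or.inr (Or.inr (Or.inl h))
    · exact Or.inr (Or.inr (Or.inr (Or.inl ⟨k - 1, by omega, Or.inr h⟩)))
    · exact Or.inr (Or.inr (Or.inr (Or.inl ⟨0, hk, Or.inl h⟩)))
    · exact Or.inr (Or.inr (Or.inr (Or.inl ⟨i + 1, h1, Or.inl h⟩)))
    · exact Or.inr (Or.inr (Or.inr (Or.inr ⟨i, h1, h⟩)))
    · exact Or.inr (Or.inr (Or.inr (Or.inl ⟨i, by omega, Or.inr h⟩)))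
  · rintro (h | h | h | ⟨i, h1, h | h⟩ | ⟨i, h1, h⟩)
    · exact Or.inl h
    · exact Or.inr (Or.inl h)
    · exact Or.inr (Or.inr (Or.inl h))
    · rw [h]; exact LSet_u h1
    · rw [h]; exact LSet_v h1
    · rw [h]; exact LSet_y h1

theorem LSet_rev (hk : 0 < k) (r : V) :
    LSet k (fun i => v (k - 1 - i)) (fun i => u (k - 1 - i)) (fun i => y (k - 2 - i)) t z1 z0 r ↔
      LSet k u v y t z0 z1 r := by
  rw [LSet_iff hk, LSet_iff hk]
  constructor
  · rintro (h | h | h | ⟨i, h1, h | h⟩ | ⟨i, h1, h⟩)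
    · exact Or.inl h
    · exact Or.inr (Or.inr (Or.inl h))
    · exact Or.inr (Or.inl h)
    · exact Or.inr (Or.inr (Or.inr (Or.inl ⟨k - 1 - i, by omega, Or.inr h⟩)))
    · exact Or.inr (Or.inr (Or.inr (Or.inl ⟨k - 1 - i, by omega, Or.inl h⟩)))
    · exact Or.inr (Or.inr (Or.inr (Or.inr ⟨k - 2 - i, by omega, h⟩)))
  · rintro (h | h | h | ⟨i, h1, h | h⟩ | ⟨i, h1, h⟩)
    · exact Or.inl h
    · exact Or.inr (Or.inr (Or.inl h))
    · exact Or.inr (Or.inl h)
    · refine Or.inr (Or.inr (Or.inr (Or.inl ⟨k - 1 - i, by omega, Or.inr ?_⟩)))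
      rw [h]
      congr 1
      omega
    · refine Or.inr (Or.inr (Or.inr (Or.inl ⟨k - 1 - i, by omega, Or.inl ?_⟩)))
      rw [h]
      congr 1
      omega
    · refine Or.inr (Or.inr (Or.inr (Or.inr ⟨k - 2 - i, by omega, ?_⟩)))
      rw [h]
      congr 1
      omega

/-- the reversed wire -/
theorem Wire.rev (hw : Wire A Q X k u v p q y o o') :
    Wire A Q X k (fun i => v (k - 1 - i)) (fun i => u (k - 1 - i)) (fun i => q (k - 1 - i))
      (fun i => p (k - 1 - i)) (fun i => y (k - 2 - i)) (fun i => o (k - 2 - i))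
      (fun i => o' (k - 2 - i)) where
  Xu := fun i h => hw.Xv _ (by omega)
  Xv := fun i h => hw.Xu _ (by omega)
  Yy := fun i h => hw.Yy _ (by omega)
  uu := fun i j h h' he => by
    have := hw.vv _ _ (by omega) (by omega) he
    omega
  vv := fun i j h h' he => by
    have := hw.uu _ _ (by omega) (by omega) he
    omega
  uv := fun i j h h' he => hw.uv _ _ (by omega) (by omega) he.symm
  yy := fun i j h h' he => by
    have := hw.yy _ _ (by omega) (by omega) he
    omega
  pn := fun i j h h' => ⟨(hw.qn _ _ (by omega) (by omega)).2, (hw.qn _ _ (by omega) (by omega)).1⟩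
  qn := fun i j h h' => ⟨(hw.pn _ _ (by omega) (by omega)).2, (hw.pn _ _ (by omega) (by omega)).1⟩
  qU := fun i h r hr => by
    have e1 : k - 1 - (i + 1) = k - 2 - i := by omega
    have e2 : k - 1 - i = k - 2 - i + 1 := by omega
    simp only [e1, e2] at hr ⊢
    rcases hw.qV (k - 2 - i) (by omega) r hr with h1 | h1 | h1 | h1
    · exact Or.inr (Or.inl h1)
    · exact Or.inl h1
    · exact Or.inr (Or.inr (Or.inl h1))
    · exact Or.inr (Or.inr (Or.inr h1))
  qV := fun i h r hr => by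
    have e1 : k - 1 - (i + 1) = k - 2 - i := by omega
    have e2 : k - 1 - i = k - 2 - i + 1 := by omega
    simp only [e1, e2] at hr ⊢
    rcases hw.qU (k - 2 - i) (by omega) r hr with h1 | h1 | h1 | h1
    · exact Or.inr (Or.inl h1)
    · exact Or.inl h1
    · exact Or.inr (Or.inr (Or.inl h1))
    · exact Or.inr (Or.inr (Or.inr h1))
  cU := fun i h r hr hXr => by
    have e1 : k - 1 - (i + 1) = k - 2 - i := by omega
    simp only [e1] at hr ⊢
    exact hw.cV (k - 2 - i) (by omega) r hr hXr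
  cV := fun i h r hr hXr => by
    have e2 : k - 1 - i = k - 2 - i + 1 := by omega
    simp only [e2] at hr ⊢
    exact hw.cU (k - 2 - i) (by omega) r hr hXr
  qY := fun i h r hr => hw.qY (k - 2 - i) (by omega) r hr
  cY := fun i h r hr hXr => by
    have e1 : k - 1 - (i + 1) = k - 2 - i := by omega
    have e2 : k - 1 - i = k - 2 - i + 1 := by omega
    simp only [e1, e2] at hr ⊢
    exact (hw.cY (k - 2 - i) (by omega) r hr hXr).symm

/-- the reversed loop -/
theorem LoopR.rev (hl : LoopR A Q X k u v p q y o o' t z0 z1 m m' w w' x x') :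
    LoopR A Q X k (fun i => v (k - 1 - i)) (fun i => u (k - 1 - i)) (fun i => q (k - 1 - i))
      (fun i => p (k - 1 - i)) (fun i => y (k - 2 - i)) (fun i => o (k - 2 - i))
      (fun i => o' (k - 2 - i)) t z1 z0 m m' x x' w w' where
  toWire := hl.toWire.rev
  k0 := hl.k0
  Xp := fun i h => ⟨(hl.Xp _ (by omega)).2, (hl.Xp _ (by omega)).1⟩
  Xt := hl.Xt
  Z0 := hl.Z1
  Z1 := hl.Z0
  zz := hl.zz.symm
  tn := fun i h => ⟨(hl.tn _ (by omega)).2, (hl.tn _ (by omega)).1⟩
  zn := fun i h => ⟨(hl.zn _ (by omega)).2, (hl.zn _ (by omega)).1⟩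
  ends := by
    simp only [Nat.sub_zero, Nat.sub_self]
    exact ⟨hl.ends.2.2.2, hl.ends.2.2.1, hl.ends.2.1, hl.ends.1⟩
  Qt := fun r hr => by
    simp only [Nat.sub_zero, Nat.sub_self]
    rcases hl.Qt r hr with h | h | h | h
    · exact Or.inr (Or.inl h)
    · exact Or.inl h
    · exact Or.inr (Or.inr (Or.inl h))
    · exact Or.inr (Or.inr (Or.inr h))
  Qu := fun r hr => by
    simp only [Nat.sub_zero] at hr ⊢
    rcases hl.Qv r hr with h | h | h | h
    · exact Or.inr (Or.inl h)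
    · exact Or.inl h
    · exact Or.inr (Or.inr (Or.inl h))
    · exact Or.inr (Or.inr (Or.inr h))
  Qv := fun r hr => by
    simp only [Nat.sub_self] at hr ⊢
    rcases hl.Qu r hr with h | h | h | h
    · exact Or.inr (Or.inl h)
    · exact Or.inl h
    · exact Or.inr (Or.inr (Or.inl h))
    · exact Or.inr (Or.inr (Or.inr h))
  Qz := hl.Qz'
  Qz' := hl.Qz
  At := fun r hr hXr => (hl.At r hr hXr).symm
  Au := fun r hr hXr => by
    simp only [Nat.sub_zero] at hr
    exact hl.Av r hr hXr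
  Av := fun r hr hXr => by
    simp only [Nat.sub_self] at hr
    exact hl.Au r hr hXr
  Az := fun r hr hXr => by
    simp only [Nat.sub_zero]
    exact hl.Az' r hr hXr
  Az' := fun r hr hXr => by
    simp only [Nat.sub_self]
    exact hl.Az r hr hXr

end Helper17.L9
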