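import Pool.Agent.helper33.L9.OffWire
import Pool.Agent.helper33.L9.Config

/-!
# `U_5`'s in graph terms, local hypotheses

Like the second half of `Config`, for own paths of vertices which are not exempt.
-/

set_option linter.unusedSimpArgs false
set_option linter.unusedSectionVars false

namespace Helper33.Off

open Finset Classical Helper42.L9 Helper33.L9

variable {V : Type*} [Fintype V] {G : SimpleGraph V} {X : V → Prop} {Z S : Finset V}

section

variable {N : V → Prop} (hN : ∀ v, N v → Fr G X v) (hst : ∀ v, N v → StarAt G X v)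
  (hcub : ∀ v, (univ.filter fun b => G.Adj v b).card = 3)

include hcub in
/-- the outer link of an end of full degree -/
theorem outer_link (hI : InvZ G X Z) (h : StuckZ G X Z S) {a y z : V} (hF : Fr G X a)
    (haS : a ∈ S) (h2 : cc G X a = 2) (h4 : 4 ≤ Dq G X S a) (hcr : cr G X a = {y, z})
    (hyz : y ≠ z) : ∃ l, cr G X z = {a, l} ∧ z ∈ Z ∧ cc G X z = 2 ∧ l ∈ S ∧ l ≠ a := by
  have h3 := count_bound (fun v => (hcub v).le) S hF
  have h5 := cc_two.mp h2
  have h6 : (pt G X a).card ≤ (univ.filter fun b => G.Adj a b).card :=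
    Finset.card_le_card pt_subset
  have h7 := hcub a
  unfold Dq at h4
  have h8 : (pt G X a).card = 3 := by omega
  have h9 : pt G X a = univ.filter fun b => G.Adj a b :=
    Finset.eq_of_subset_of_card_le pt_subset (by omega)
  have h10 : ((pt G X a).filter fun w => partner G X w a ∉ S).card = 0 := by omega
  rw [Finset.card_eq_zero, Finset.filter_eq_empty_iff] at h10
  have hz : z ∈ cr G X a := by rw [hcr]; simp
  have hz' := mem_cr.mp hz
  have hzp : z ∈ pt G X a := by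
    rw [h9]
    simp [hz'.1]
  obtain ⟨g1, g2, g3⟩ := partner_spec hzp
  have hlS : partner G X z a ∈ S := not_not.mp (h10 hzp)
  have hzl : z ∈ cr G X (partner G X z a) := by
    refine mem_cr.mpr ⟨g2.symm, ?_⟩
    have h11 := hz'.2
    tauto
  obtain ⟨k1, k2, k3⟩ := inv_link hcub hI (hF.nb z hz'.1) (h.1 haS) (h.1 hlS) g1.symm hz hzl
  exact ⟨_, k3, k1, k2, hlS, g1⟩

/-- the vertices of the units are not exempt -/
def WN (N : V → Prop) (k : ℕ) (p u v q : ℕ → V) : Prop :=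
  ∀ i < k, N (p i) ∧ N (u i) ∧ N (v i) ∧ N (q i)

variable {k k' : ℕ} {p u v q y p' u' v' q' y' : ℕ → V} {σ τ σ' τ' : V}

theorem midN (h : Wire G X Z S k p u v q y σ τ) (hn : WN N k p u v q) {i : ℕ} (hi : i < k) :
    Mid (ownN G X N) (cc G X) (u i) (v i) := by
  have h1 := h.unit i hi
  obtain ⟨a, b, c, d⟩ := hn i hi
  exact ⟨h1.cu, h1.cv, ⟨h1.uv, b, c⟩, ⟨p i, ⟨ownR_symm h1.pu, b, a⟩, h1.cp⟩,
    ⟨q i, ⟨h1.vq, c, d⟩, h1.cq⟩⟩

theorem walk_midN (h : Wire G X Z S k p u v q y σ τ) (hn : WN N k p u v q) : ∀ n < 2 * k,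
    ∃ b, Mid (ownN G X N) (cc G X) (walkOf u v n) b := by
  intro n hm
  rcases Nat.mod_two_eq_zero_or_one n with hpar | hpar
  · obtain ⟨i, rfl⟩ : ∃ i, n = 2 * i := ⟨n / 2, by omega⟩
    rw [walkOf_even]
    exact ⟨v i, midN h hn (by omega)⟩
  · obtain ⟨i, rfl⟩ : ∃ i, n = 2 * i + 1 := ⟨n / 2, by omega⟩
    rw [walkOf_odd]
    exact ⟨u i, MidN_symm (midN h hn (by omega))⟩

theorem walk_evenN (h : Wire G X Z S k p u v q y σ τ) (hn : WN N k p u v q) : ∀ n, n + 1 < 2 * k → n % 2 = 0 →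
    Mid (ownN G X N) (cc G X) (walkOf u v n) (walkOf u v (n + 1)) := by
  intro n hm hpar
  obtain ⟨i, rfl⟩ : ∃ i, n = 2 * i := ⟨n / 2, by omega⟩
  rw [walkOf_even, walkOf_odd]
  exact midN h hn (by omega)

theorem NoMidN.ne (hσ : NoMidN G X N σ) {b : V} (hb : ∃ d, Mid (ownN G X N) (cc G X) b d) :
    b ≠ σ := by
  rintro rfl
  obtain ⟨d, hd⟩ := hb
  exact hσ d hd

include hN hcub in
/-- two wires with different ends have no common middle -/
theorem disjN (h : Wire G X Z S k p u v q y σ τ) (h' : Wire G X Z S k' p' u' v' q' y' σ' τ')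
    (hn : WN N k p u v q) (hn' : WN N k' p' u' v' q')
    (nσ : NoMidN G X N σ) (nσ' : NoMidN G X N σ') (nτ' : NoMidN G X N τ')
    (h1 : σ ≠ σ') (h2 : σ ≠ τ') :
    ∀ i < k, ∀ j < k', u i ≠ u' j ∧ u i ≠ v' j ∧ v i ≠ u' j ∧ v i ≠ v' j := by
  have main := walks_disjoint (Mid (ownN G X N) (cc G X)) (Lk G X) (2 * k) (2 * k')
    (walkOf u v) (walkOf u' v') (by omega) (by omega) (fun _ _ => MidN_symm)
    (fun _ _ => Lk_symm) (fun n _ x z hx hz => MidN_unique hN hx hz)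
    (by
      intro n hm x z hx hz
      obtain ⟨b, hb⟩ := walk_midN h' hn' n hm
      exact Lk_unique hcub (hN _ hb.2.2.1.2.1) hb.1 hx hz)
    (walk_evenN h hn) h.walk_odd (walk_evenN h' hn') h'.walk_odd σ σ' τ'
    (by
      intro hk
      have e := walkOf_even u v 0
      rw [Nat.mul_zero] at e
      rw [e]
      exact ⟨(h.nσ 0 (by omega)).1, y 0, h.yu (by omega), h.yσ⟩)
    (by
      intro hk
      have e := walkOf_even u' v' 0
      rw [Nat.mul_zero] at e
      rw [e]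
      exact ⟨(h'.nσ 0 (by omega)).1, y' 0, h'.yu (by omega), h'.yσ⟩)
    (by
      intro hk
      have e := walkOf_odd u' v' (k' - 1)
      have e2 : 2 * (k' - 1) + 1 = 2 * k' - 1 := by omega
      rw [e2] at e
      rw [e]
      have h3 := h'.yv (i := k' - 1) (by omega)
      have e3 : k' - 1 + 1 = k' := by omega
      rw [e3] at h3
      exact ⟨(h'.nτ (k' - 1) (by omega)).2, y' k', h3, h'.yτ⟩)
    (fun n hm => nσ.ne (walk_midN h' hn' n hm)) (fun n hm => nσ'.ne (walk_midN h hn n hm))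
    (fun n hm => nτ'.ne (walk_midN h hn n hm)) h1 h2
  intro i hi j hj
  refine ⟨?_, ?_, ?_, ?_⟩
  · have := main (2 * i) (by omega) (2 * j) (by omega)
    rwa [walkOf_even, walkOf_even] at this
  · have := main (2 * i) (by omega) (2 * j + 1) (by omega)
    rwa [walkOf_even, walkOf_odd] at this
  · have := main (2 * i + 1) (by omega) (2 * j) (by omega)
    rwa [walkOf_odd, walkOf_even] at this
  · have := main (2 * i + 1) (by omega) (2 * j + 1) (by omega)
    rwa [walkOf_odd, walkOf_odd] at this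

include hN hcub in
/-- the links of two wires with different ends are different -/
theorem disj_yN (h : Wire G X Z S k p u v q y σ τ)
    (hn : WN N k p u v q) (hn' : WN N k' p' u' v' q')
    (h' : Wire G X Z S k' p' u' v' q' y' σ' τ')
    (nσ : NoMidN G X N σ) (nτ : NoMidN G X N τ) (nσ' : NoMidN G X N σ') (nτ' : NoMidN G X N τ')
    (h1 : σ ≠ σ') (h2 : σ ≠ τ') (h3 : τ ≠ σ') (h4 : τ ≠ τ') :
    ∀ i ≤ k, ∀ j ≤ k', y i ≠ y' j := by
  have hd := disjN hN hcub h h' hn hn' nσ nσ' nτ' h1 h2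
  intro i hi j hj he
  have e1 := h.link i hi
  have e2 := h'.link j hj
  rw [he, e2] at e1
  have h5 : (if i = 0 then σ else v (i - 1)) ∈
      ({if j = 0 then σ' else v' (j - 1), if j = k' then τ' else u' j} : Finset V) := by
    rw [e1]; simp
  rw [Finset.mem_insert, Finset.mem_singleton] at h5
  have sv : ∀ j < k', σ ≠ v' j ∧ σ ≠ u' j := fun j hj =>
    ⟨(nσ.ne ⟨_, MidN_symm (midN h' hn' hj)⟩).symm, (nσ.ne ⟨_, midN h' hn' hj⟩).symm⟩
  have sv' : ∀ i < k, v i ≠ σ' ∧ v i ≠ τ' := fun i hi =>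
    ⟨nσ'.ne ⟨_, MidN_symm (midN h hn hi)⟩, nτ'.ne ⟨_, MidN_symm (midN h hn hi)⟩⟩
  by_cases hi0 : i = 0
  · simp only [hi0, if_true] at h5
    rcases h5 with h5 | h5
    · by_cases hj0 : j = 0
      · simp only [hj0, if_true] at h5
        exact h1 h5
      · simp only [hj0, if_false] at h5
        exact (sv (j - 1) (by omega)).1 h5
    · by_cases hjk : j = k'
      · simp only [hjk, if_true] at h5
        exact h2 h5
      · simp only [hjk, if_false] at h5
        exact (sv j (by omega)).2 h5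
  · simp only [hi0, if_false] at h5
    rcases h5 with h5 | h5
    · by_cases hj0 : j = 0
      · simp only [hj0, if_true] at h5
        exact (sv' (i - 1) (by omega)).1 h5
      · simp only [hj0, if_false] at h5
        exact (hd (i - 1) (by omega) (j - 1) (by omega)).2.2.2 h5
    · by_cases hjk : j = k'
      · simp only [hjk, if_true] at h5
        exact (sv' (i - 1) (by omega)).2 h5
      · simp only [hjk, if_false] at h5
        exact (hd (i - 1) (by omega) j (by omega)).2.2.1 h5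

/-- the inner vertices `v2`, `v4`, `v3` of a path `v1 .. v5` with ends `v1`, `v5` are no middles
of a `P_4` -/
theorem five_noMid {v1 v2 v3 v4 : V} (n2 : NM G X v2) (n3 : NM G X v3) (c1 : cc G X v1 = 2)
    (c2 : cc G X v2 = 3) (c3 : cc G X v3 = 3) (c4 : cc G X v4 = 3)
    (o12 : ownR G X v1 v2) (o23 : ownR G X v2 v3) (o34 : ownR G X v3 v4) (h24 : v2 ≠ v4) :
    NoMid G X v2 := by
  have n13 : v1 ≠ v3 := by rintro rfl; omega
  rintro b ⟨_, hb3, hb, _, ⟨s, hs, hs2⟩⟩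
  have hb3' : b = v3 := by
    rcases own_two n2 (ownR_symm o12) o23 hb with h' | h' | h'
    · exact absurd h' n13
    · rw [h'] at c1; omega
    · exact h'.symm
  subst hb3'
  rcases own_two n3 (ownR_symm o23) o34 hs with h' | h' | h'
  · exact h24 h'
  · rw [h'] at c2; omega
  · rw [h'] at c4; omega

include hcub in
/-- **`U_5`'s in graph terms**, from the two wires. -/
theorem u5_of_wires (hI : InvZ G X Z) (h : StuckZ G X Z S)
    {v1 v2 v3 v4 v5 : V} (f1 : Fr G X v1) (f2 : Fr G X v2) (f3 : Fr G X v3) (f4 : Fr G X v4)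
    (f5 : Fr G X v5) (s2 : StarAt G X v2) (s3 : StarAt G X v3)
    (c1 : cc G X v1 = 2) (c2 : cc G X v2 = 3) (c3 : cc G X v3 = 3)
    (c4 : cc G X v4 = 3) (c5 : cc G X v5 = 2) (o12 : ownR G X v1 v2) (o23 : ownR G X v2 v3)
    (o34 : ownR G X v3 v4) (o45 : ownR G X v4 v5) (h24 : v2 ≠ v4)
    (d1 : 4 ≤ dg (QE G X S).val v1) (d5 : 4 ≤ dg (QE G X S).val v5)
    {kA kB : ℕ} {pA uA vA qA yA pB uB vB qB yB : ℕ → V}
    (hA' : Wire G X Z S kA pA uA vA qA yA v4 v1) (hB' : Wire G X Z S kB pB uB vB qB yB v2 v5)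
    (dAB : ∀ i < kA, ∀ j < kB, uA i ≠ uB j ∧ uA i ≠ vB j ∧ vA i ≠ uB j ∧ vA i ≠ vB j)
    (dy : ∀ i ≤ kA, ∀ j ≤ kB, yA i ≠ yB j) :
    ∃ (z1 z3 z5 l1 l5 : V),
      U5 G X Z S v1 v2 v3 v4 v5 z1 z3 z5 l1 l5 kA kB pA uA vA qA yA pB uB vB qB yB := by
  have n12 := ownR_ne o12
  have n23 := ownR_ne o23
  have n34 := ownR_ne o34
  have n45 := ownR_ne o45
  have n13 : v1 ≠ v3 := by rintro rfl; omega
  have n14 : v1 ≠ v4 := by rintro rfl; omega
  have n25 : v2 ≠ v5 := by rintro rfl; omega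
  have n35 : v3 ≠ v5 := by rintro rfl; omega
  have n15 : v1 ≠ v5 := by
    rintro rfl
    exact h24 (own_one hcub c1 o12 (ownR_symm o45))
  -- membership
  have hv1S : v1 ∈ S := by
    by_contra hn
    rw [dg_QE_notMem hn] at d1
    omega
  have hv5S : v5 ∈ S := by
    by_contra hn
    rw [dg_QE_notMem hn] at d5
    omega
  rw [dg_QE hv1S] at d1
  rw [dg_QE hv5S] at d5
  -- the middles `v2`, `v4` are no middles of a `P_4`
  have m2 : NoMid G X v2 := five_noMid f2.self f3.self c1 c2 c3 c4 o12 o23 o34 h24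
  have m4 : NoMid G X v4 := five_noMid f4.self f3.self c5 c4 c3 c2 (ownR_symm o45)
    (ownR_symm o34) (ownR_symm o23) h24.symm
  have m1 : NoMid G X v1 := NoMid_of_end c1
  have m5 : NoMid G X v5 := NoMid_of_end c5
  have m3 : ∀ b, (∃ d, Mid (ownR G X) (cc G X) b d) → b ≠ v3 := by
    rintro b ⟨d, hd⟩ rfl
    obtain ⟨_, _, _, ⟨s, hs, hs2⟩, _⟩ := hd
    rcases own_two f3.self (ownR_symm o23) o34 hs with h' | h' | h'
    · exact h24 h'
    · rw [h'] at c2; omega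
    · rw [h'] at c4; omega
  have hv4S := hA'.σS
  have hv2S := hB'.σS
  have hv3S := inner_own hcub h f2 s2 hv2S c2 o23
  -- cross neighbours
  have second : ∀ a y, cc G X a = 2 → y ∈ cr G X a → ∃ z, z ≠ y ∧ cr G X a = {y, z} := by
    intro a y ha hy
    have h1 := cc_two.mp ha
    obtain ⟨b, d, hbd, he⟩ := Finset.card_eq_two.mp h1
    rw [he, Finset.mem_insert, Finset.mem_singleton] at hy
    rcases hy with rfl | rfl
    · exact ⟨d, hbd.symm, he⟩
    · exact ⟨b, hbd, by rw [he, Finset.pair_comm]⟩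
  obtain ⟨z1, hz1, cr1⟩ := second v1 (yA kA) c1 hA'.yτ
  obtain ⟨z5, hz5, cr5⟩ := second v5 (yB kB) c5 hB'.yτ
  obtain ⟨l1, a1, a2, a3, a4, a5⟩ := outer_link hcub hI h f1 hv1S c1 d1 cr1 hz1.symm
  obtain ⟨l5, b1, b2, b3, b4, b5⟩ := outer_link hcub hI h f5 hv5S c5 d5 cr5 hz5.symm
  obtain ⟨z3, hz3⟩ := Finset.card_eq_one.mp ((cc_three hcub f3.self).mp c3)
  obtain ⟨g1, g2, g3⟩ := beta hcub h f3 s3 hv3S c3 h24 (ownR_symm o23) o34 c2 c4
    (by rw [hz3]; simp : z3 ∈ cr G X v3)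
  have hz1v1 : v1 ∈ cr G X z1 := by rw [a1]; simp
  have hz5v5 : v5 ∈ cr G X z5 := by rw [b1]; simp
  -- an end which is no end of the wire sees no link
  have noy : ∀ {k : ℕ} {p u v q y : ℕ → V} {σ τ a : V}, Wire G X Z S k p u v q y σ τ →
      NoMid G X a → a ≠ σ → a ≠ τ → ∀ i ≤ k, a ∉ cr G X (y i) := by
    intro k p u v q y σ τ a hw ha h1 h2 i hi hmem
    rw [hw.link i hi, Finset.mem_insert, Finset.mem_singleton] at hmem
    rcases hmem with hm | hm
    · by_cases h0 : i = 0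
      · simp only [h0, if_true] at hm
        exact h1 hm
      · simp only [h0, if_false] at hm
        exact ha.ne ⟨_, Mid_symm (hw.mid (i := i - 1) (by omega))⟩ hm.symm
    · by_cases h0 : i = k
      · simp only [h0, if_true] at hm
        exact h2 hm
      · simp only [h0, if_false] at hm
        exact ha.ne ⟨_, hw.mid (i := i) (by omega)⟩ hm.symm
  -- the end `τ` sees only the last link
  have lasty : ∀ {k : ℕ} {p u v q y : ℕ → V} {σ τ : V}, Wire G X Z S k p u v q y σ τ →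
      NoMid G X τ → τ ≠ σ → ∀ i ≤ k, τ ∈ cr G X (y i) → i = k := by
    intro k p u v q y σ τ hw ha h1 i hi hmem
    by_contra h0
    rw [hw.link i hi, Finset.mem_insert, Finset.mem_singleton] at hmem
    simp only [h0, if_false] at hmem
    rcases hmem with hm | hm
    · by_cases h0 : i = 0
      · simp only [h0, if_true] at hm
        exact h1 hm
      · simp only [h0, if_false] at hm
        exact ha.ne ⟨_, Mid_symm (hw.mid (i := i - 1) (by omega))⟩ hm.symm
    · exact ha.ne ⟨_, hw.mid (i := i) (by omega)⟩ hm.symm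
  refine ⟨z1, z3, z5, l1, l5,
    ⟨o12, o23, o34, o45, c1, c2, c3, c4, c5, ?_, ⟨hv1S, hv2S, hv3S, hv4S, hv5S⟩, hA', hB', cr1,
    inner_cr_eq hcub f2.self c2 hB'.yσ, hz3, inner_cr_eq hcub f4.self c4 hA'.yσ, cr5, a1, g2, b1,
    ⟨a2, a3, a4, a5⟩, ⟨g3, g1⟩, ⟨b2, b3, b4, b5⟩, ?_, ?_, ?_, ?_, dAB, dy, ?_, ?_⟩⟩
  · simp only [List.nodup_cons, List.mem_cons, List.not_mem_nil, or_false, not_or,
      List.nodup_nil, and_true, not_false_eq_true]
    exact ⟨⟨n12, n13, n14, n15⟩, ⟨n23, h24, n25⟩, ⟨n34, n35⟩, n45⟩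
  · intro i hi he
    rw [he] at hz1v1
    have := lasty hA' m1 n14 i hi hz1v1
    rw [this] at he
    exact hz1 he
  · intro i hi he
    rw [he] at hz1v1
    exact noy hB' m1 n12 n15 i hi hz1v1
  · intro i hi he
    rw [he] at hz5v5
    exact noy hA' m5 n45.symm n15.symm i hi hz5v5
  · intro i hi he
    rw [he] at hz5v5
    have := lasty hB' m5 n25.symm i hi hz5v5
    rw [this] at he
    exact hz5 he
  · intro i hi
    have hu : ∃ d, Mid (ownR G X) (cc G X) (uA i) d := ⟨_, hA'.mid hi⟩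
    have hv : ∃ d, Mid (ownR G X) (cc G X) (vA i) d := ⟨_, Mid_symm (hA'.mid hi)⟩
    simp only [List.mem_cons, List.not_mem_nil, or_false, not_or]
    exact ⟨⟨m1.ne hu, m2.ne hu, m3 _ hu, m4.ne hu, m5.ne hu⟩,
      ⟨m1.ne hv, m2.ne hv, m3 _ hv, m4.ne hv, m5.ne hv⟩⟩
  · intro i hi
    have hu : ∃ d, Mid (ownR G X) (cc G X) (uB i) d := ⟨_, hB'.mid hi⟩
    have hv : ∃ d, Mid (ownR G X) (cc G X) (vB i) d := ⟨_, Mid_symm (hB'.mid hi)⟩
    simp only [List.mem_cons, List.not_mem_nil, or_false, not_or]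
    exact ⟨⟨m1.ne hu, m2.ne hu, m3 _ hu, m4.ne hu, m5.ne hu⟩,
      ⟨m1.ne hv, m2.ne hv, m3 _ hv, m4.ne hv, m5.ne hv⟩⟩

theorem NoMidN.of {x : V} (h : NoMid G X x) : NoMidN G X N x := by
  rintro b ⟨h1, h2, h3, ⟨s, h4, h5⟩, ⟨s', h6, h7⟩⟩
  exact h b ⟨h1, h2, h3.1, ⟨s, h4.1, h5⟩, ⟨s', h6.1, h7⟩⟩

include hN hst hcub in
/-- **`U_5`'s in graph terms.** -/
theorem u5_config (hI : InvZ G X Z) (h : StuckZ G X Z S)
    {v1 v2 v3 v4 v5 : V} (c1 : cc G X v1 = 2) (c2 : cc G X v2 = 3) (c3 : cc G X v3 = 3)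
    (c4 : cc G X v4 = 3) (c5 : cc G X v5 = 2) (o12 : ownN G X N v1 v2)
    (o23 : ownN G X N v2 v3) (o34 : ownN G X N v3 v4) (o45 : ownN G X N v4 v5) (h24 : v2 ≠ v4)
    (d1 : 4 ≤ dg (QE G X S).val v1) (d5 : 4 ≤ dg (QE G X S).val v5)
    (hB : Port (ownN G X N) (cc G X) (QE G X S).val v2 v5 ∨
      Lp (ownN G X N) (cc G X) (QE G X S).val v2 v5)
    (hA : Port (ownN G X N) (cc G X) (QE G X S).val v4 v1 ∨
      Lp (ownN G X N) (cc G X) (QE G X S).val v4 v1) :
    ∃ (z1 z3 z5 l1 l5 : V) (kA kB : ℕ) (pA uA vA qA yA pB uB vB qB yB : ℕ → V),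
      U5 G X Z S v1 v2 v3 v4 v5 z1 z3 z5 l1 l5 kA kB pA uA vA qA yA pB uB vB qB yB ∧
      WN N kA pA uA vA qA ∧ WN N kB pB uB vB qB := by
  have n1 := o12.2.1
  have n2 := o12.2.2
  have n3 := o23.2.2
  have n4 := o34.2.2
  have n5 := o45.2.2
  have f1 := hN v1 n1
  have f2 := hN v2 n2
  have f3 := hN v3 n3
  have f4 := hN v4 n4
  have f5 := hN v5 n5
  have m2 : NoMidN G X N v2 := NoMidN.of
    (five_noMid f2.self f3.self c1 c2 c3 c4 o12.1 o23.1 o34.1 h24)
  have m4 : NoMidN G X N v4 := NoMidN.of (five_noMid f4.self f3.self c5 c4 c3 c2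
    (ownR_symm o45.1) (ownR_symm o34.1) (ownR_symm o23.1) h24.symm)
  have m1 : NoMidN G X N v1 := NoMidN_of_end c1
  have m5 : NoMidN G X N v5 := NoMidN_of_end c5
  have wA : ∃ (k : ℕ) (p u v q y : ℕ → V), Wire G X Z S k p u v q y v4 v1 ∧ WN N k p u v q := by
    rcases hA with hA | hA
    · obtain ⟨y, hy⟩ := wire_of_port hN hcub hI h hA (fun _ => v1) (fun _ => v1) (fun _ => v1)
        (fun _ => v1)
      exact ⟨0, _, _, _, _, y, hy, fun i hi => absurd hi (by omega)⟩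
    · obtain ⟨k, p, u, v, q, y, _, hw, hn⟩ := wire_of_lp hN hst hcub hI h hA m4 m1
      exact ⟨k, p, u, v, q, y, hw, hn⟩
  have wB : ∃ (k : ℕ) (p u v q y : ℕ → V), Wire G X Z S k p u v q y v2 v5 ∧ WN N k p u v q := by
    rcases hB with hB | hB
    · obtain ⟨y, hy⟩ := wire_of_port hN hcub hI h hB (fun _ => v1) (fun _ => v1) (fun _ => v1)
        (fun _ => v1)
      exact ⟨0, _, _, _, _, y, hy, fun i hi => absurd hi (by omega)⟩
    · obtain ⟨k, p, u, v, q, y, _, hw, hn⟩ := wire_of_lp hN hst hcub hI h hB m2 m5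
      exact ⟨k, p, u, v, q, y, hw, hn⟩
  obtain ⟨kA, pA, uA, vA, qA, yA, hA', nA⟩ := wA
  obtain ⟨kB, pB, uB, vB, qB, yB, hB', nB⟩ := wB
  have n15 : v1 ≠ v5 := by
    rintro rfl
    exact h24 (own_one hcub c1 o12.1 (ownR_symm o45.1))
  have dAB := disjN hN hcub hA' hB' nA nB m4 m2 m5 h24.symm (ownR_ne o45.1)
  have dy := disj_yN hN hcub hA' nA nB hB' m4 m1 m2 m5 h24.symm (ownR_ne o45.1)
    (ownR_ne o12.1) n15
  obtain ⟨z1, z3, z5, l1, l5, hU⟩ := u5_of_wires hcub hI h f1 f2 f3 f4 f5 (hst v2 n2) (hst v3 n3)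
    c1 c2 c3 c4 c5 o12.1 o23.1 o34.1 o45.1 h24 d1 d5 hA' hB' dAB dy
  exact ⟨z1, z3, z5, l1, l5, kA, kB, pA, uA, vA, qA, yA, pB, uB, vB, qB, yB, hU, nA, nB⟩

end

end Helper33.Off
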