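import Pool.Agent.helper19.L9.PDeg
import Pool.Agent.helper33.L9.PlusBlk
import Pool.Agent.helper33.L9.BnC1

/-!
# The side of the roots: a cycle through both roots

`Cy q l b d`: own cycle `q 0, q 1, ..., q l, q (l + 1)` through the roots `q 0` and `q (l + 1)`,
with the short legs `b` of `q 0` and `d` of `q (l + 1)`.
-/

set_option linter.unusedSimpArgs false
set_option linter.unusedSectionVars false

namespace Helper17.PC

open Finset Classical Helper42.L9 Helper33.Off Helper97.L9
open Helper33.L9 (cc ownR ownR_ne StarAt QE mem_QE)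
open Helper19.P
open Helper85.Bn (Ctx pre mem_pre msk)
open Helper19.Gadget (cp)

variable {V : Type*} [Fintype V] {G : SimpleGraph V} {X D : V → Prop} {S' : Finset V}

/-- own cycle through both roots -/
structure Cy (G : SimpleGraph V) (X D : V → Prop) (q : ℕ → V) (l : ℕ) (b d : V) : Prop where
  hl : 3 ≤ l
  D0 : D (q 0)
  D1 : D (q (l + 1))
  nD : ∀ s < l, ¬ D (q (s + 1))
  nDb : ¬ D b
  nDd : ¬ D d
  own : ∀ s < l, ∀ w, ownR G X (q (s + 1)) w ↔ (w = q s ∨ w = q (s + 2))
  own0 : ∀ w, ownR G X (q 0) w ↔ (w = q (l + 1) ∨ w = q 1 ∨ w = b)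
  own1 : ∀ w, ownR G X (q (l + 1)) w ↔ (w = q 0 ∨ w = q l ∨ w = d)
  ob : ∀ w, ownR G X b w ↔ w = q 0
  od : ∀ w, ownR G X d w ↔ w = q (l + 1)
  inj : ∀ i j, i ≤ l + 1 → j ≤ l + 1 → q i = q j → i = j
  bq : ∀ t ≤ l + 1, b ≠ q t
  dq : ∀ t ≤ l + 1, d ≠ q t
  bd : b ≠ d

section

variable {q : ℕ → V} {l : ℕ} {b d : V}

/-- the cycle read backwards -/
theorem Cy.rev (h : Cy G X D q l b d) : Cy G X D (fun t => q (l + 1 - t)) l d b := by
  have e1 : ∀ s < l, l + 1 - (s + 1) = (l - s - 1) + 1 := fun s hs => by omega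
  refine
    { hl := h.hl
      D0 := by simpa using h.D1
      D1 := by simpa using h.D0
      nD := fun s hs => by
        have := h.nD (l - s - 1) (by omega)
        rwa [← e1 s hs] at this
      nDb := h.nDd
      nDd := h.nDb
      own := fun s hs w => ?_
      own0 := fun w => ?_
      own1 := fun w => ?_
      ob := fun w => by simpa using h.od w
      od := fun w => by simpa using h.ob w
      inj := fun i j hi hj e => by
        have := h.inj _ _ (by omega) (by omega) e
        omega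
      bq := fun t ht => h.dq _ (by omega)
      dq := fun t ht => h.bq _ (by omega)
      bd := h.bd.symm }
  · have h1 := h.own (l - s - 1) (by omega) w
    rw [← e1 s hs] at h1
    have e2 : l - s - 1 + 2 = l + 1 - s := by omega
    have e3 : l - s - 1 = l + 1 - (s + 2) := by omega
    rw [e2, e3] at h1
    exact h1.trans or_comm
  · have h1 := h.own1 w
    have e2 : l + 1 - 1 = l := by omega
    have e3 : l + 1 - (l + 1) = 0 := by omega
    simp only [Nat.sub_zero, e2, e3]
    exact h1
  · have h1 := h.own0 w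
    have e3 : l + 1 - (l + 1) = 0 := by omega
    have e4 : l + 1 - l = 1 := by omega
    simp only [Nat.sub_zero, e3, e4]
    exact h1

theorem Cy.ne (h : Cy G X D q l b d) {i j : ℕ} (hi : i ≤ l + 1) (hj : j ≤ l + 1) (hij : i ≠ j) :
    q i ≠ q j := fun e => hij (h.inj i j hi hj e)

/-! ### conflicts -/

omit [Fintype V] in
theorem ots_own {C : V → Prop} {v z : V} (h : OTs G X C v z) :
    ownR G X v z ∨ ∃ w, ownR G X v w ∧ ownR G X w z := by
  rcases h with h | ⟨w, h1, h2⟩
  · exact Or.inl h.1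
  · exact Or.inr ⟨w, h1.1, h2.1⟩

/-- conflicts of a root -/
theorem Cy.conf0 (h : Cy G X D q l b d) {C : V → Prop} {z : V} (hz : z ≠ q 0)
    (ho : OTs G X C (q 0) z) :
    z = q (l + 1) ∨ z = q 1 ∨ z = b ∨ z = q 2 ∨ z = q l ∨ z = d := by
  have hl := h.hl
  rcases ots_own ho with h1 | ⟨w, h1, h2⟩
  · rcases (h.own0 z).mp h1 with h3 | h3 | h3
    · exact Or.inl h3
    · exact Or.inr (Or.inl h3)
    · exact Or.inr (Or.inr (Or.inl h3))
  · rcases (h.own0 w).mp h1 with rfl | rfl | rfl
    · rcases (h.own1 z).mp h2 with h3 | h3 | h3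
      · exact absurd h3 hz
      · exact Or.inr (Or.inr (Or.inr (Or.inr (Or.inl h3))))
      · exact Or.inr (Or.inr (Or.inr (Or.inr (Or.inr h3))))
    · rcases (h.own 0 (by omega) z).mp h2 with h3 | h3
      · exact absurd h3 hz
      · exact Or.inr (Or.inr (Or.inr (Or.inl h3)))
    · exact absurd ((h.ob z).mp h2) hz

/-- conflicts of the first vertex -/
theorem Cy.conf1 (h : Cy G X D q l b d) {C : V → Prop} {z : V} (hz : z ≠ q 1)
    (ho : OTs G X C (q 1) z) :
    z = q 0 ∨ z = q 2 ∨ z = q (l + 1) ∨ z = b ∨ z = q 3 := by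
  have hl := h.hl
  rcases ots_own ho with h1 | ⟨w, h1, h2⟩
  · rcases (h.own 0 (by omega) z).mp h1 with h3 | h3
    · exact Or.inl h3
    · exact Or.inr (Or.inl h3)
  · rcases (h.own 0 (by omega) w).mp h1 with rfl | rfl
    · rcases (h.own0 z).mp h2 with h3 | h3 | h3
      · exact Or.inr (Or.inr (Or.inl h3))
      · exact absurd h3 hz
      · exact Or.inr (Or.inr (Or.inr (Or.inl h3)))
    · rcases (h.own 1 (by omega) z).mp h2 with h3 | h3
      · exact absurd h3 hz
      · exact Or.inr (Or.inr (Or.inr (Or.inr h3)))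

/-- conflicts of a middle vertex -/
theorem Cy.confm (h : Cy G X D q l b d) {C : V → Prop} {z : V} {t : ℕ} (ht : t + 2 < l + 1)
    (hz : z ≠ q (t + 2)) (ho : OTs G X C (q (t + 2)) z) :
    z = q t ∨ z = q (t + 1) ∨ z = q (t + 3) ∨ z = q (t + 4) ∨ (t + 3 = l + 1 ∧ (z = q 0 ∨ z = d)) := by
  have hl := h.hl
  rcases ots_own ho with h1 | ⟨w, h1, h2⟩
  · rcases (h.own (t + 1) (by omega) z).mp h1 with h3 | h3
    · exact Or.inr (Or.inl h3)
    · exact Or.inr (Or.inr (Or.inl h3))
  · rcases (h.own (t + 1) (by omega) w).mp h1 with rfl | rfl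
    · rcases (h.own t (by omega) z).mp h2 with h3 | h3
      · exact Or.inl h3
      · exact absurd h3 hz
    · by_cases h4 : t + 3 = l + 1
      · have h2' : ownR G X (q (l + 1)) z := by
          have e : t + 1 + 2 = l + 1 := by omega
          rw [e] at h2; exact h2
        rcases (h.own1 z).mp h2' with h3 | h3 | h3
        · exact Or.inr (Or.inr (Or.inr (Or.inr ⟨h4, Or.inl h3⟩)))
        · exfalso
          apply hz
          rw [h3]
          congr 1
          omega
        · exact Or.inr (Or.inr (Or.inr (Or.inr ⟨h4, Or.inr h3⟩)))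
      · rcases (h.own (t + 2) (by omega) z).mp h2 with h3 | h3
        · exact absurd h3 hz
        · exact Or.inr (Or.inr (Or.inr (Or.inl h3)))

/-- conflicts of a short leg -/
theorem Cy.confb (h : Cy G X D q l b d) {C : V → Prop} {z : V} (hz : z ≠ b)
    (ho : OTs G X C b z) : z = q 0 ∨ z = q (l + 1) ∨ z = q 1 := by
  rcases ots_own ho with h1 | ⟨w, h1, h2⟩
  · exact Or.inl ((h.ob z).mp h1)
  · obtain rfl := (h.ob w).mp h1
    rcases (h.own0 z).mp h2 with h3 | h3 | h3
    · exact Or.inr (Or.inl h3)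
    · exact Or.inr (Or.inr h3)
    · exact absurd h3 hz

/-! ### links -/

theorem Cy.lk (hcub : ∀ v, (univ.filter fun b => G.Adj v b).card = 3) (hA : StA G X D)
    (h : Cy G X D q l b d) {s : ℕ} (hs : s < l) : (lkS G X (q (s + 1))).card = 0 := by
  have hl := h.hl
  have h1 : ∃ w, w ≠ q (s + 1) ∧ ownR G X (q s) w := by
    cases s with
    | zero => exact ⟨b, h.bq _ (by omega), (h.own0 b).mpr (Or.inr (Or.inr rfl))⟩
    | succ s => exact ⟨q s, h.ne (by omega) (by omega) (by omega),
        (h.own s (by omega) _).mpr (Or.inl rfl)⟩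
  have h2 : ∃ w, w ≠ q (s + 1) ∧ ownR G X (q (s + 2)) w := by
    by_cases h3 : s + 1 < l
    · exact ⟨q (s + 3), h.ne (by omega) (by omega) (by omega),
        (h.own (s + 1) h3 _).mpr (Or.inr rfl)⟩
    · have e : s + 2 = l + 1 := by omega
      rw [e]
      exact ⟨d, h.dq _ (by omega), (h.own1 d).mpr (Or.inr (Or.inr rfl))⟩
  obtain ⟨w1, h3, h4⟩ := h1
  obtain ⟨w2, h5, h6⟩ := h2
  exact lk_zero hcub hA (h.nD s hs) (h.ne (by omega) (by omega) (by omega))
    ((h.own s hs _).mpr (Or.inl rfl)) ((h.own s hs _).mpr (Or.inr rfl)) h4 h6 h3 h5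

theorem lk_root (hA : StA G X D) {v : V} (hv : D v) : (lkS G X v).card = 0 := by
  unfold lkS
  rw [hA.cr_root hv]
  simp

theorem Cy.lkb (hcub : ∀ v, (univ.filter fun b => G.Adj v b).card = 3) (hA : StA G X D)
    (h : Cy G X D q l b d) : (lkS G X b).card ≤ 1 := by
  have h1 : ownR G X b (q 0) := (h.ob _).mpr rfl
  exact lk_short hcub hA h.D0 h.nDb h1.1.symm fun w hw => (h.ob w).mp hw

/-! ### the own component -/

theorem Cy.mem (h : Cy G X D q l b d) {t : ℕ} (ht : t ≤ l + 1) : CR G X D (q t) := by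
  induction t with
  | zero => exact CR.root h.D0
  | succ t ih =>
    by_cases h1 : t = l
    · subst h1; exact CR.root h.D1
    · have h2 := (h.own t (by omega) (q t)).mpr (Or.inl rfl)
      exact CR.closed ⟨h2.1.symm, h2.2.symm⟩ (ih (by omega))

theorem Cy.memb (h : Cy G X D q l b d) : CR G X D b :=
  CR.closed ((h.own0 b).mpr (Or.inr (Or.inr rfl))) (CR.root h.D0)

theorem Cy.comp (h : Cy G X D q l b d) (hD : ∀ v, D v → v = q 0 ∨ v = q (l + 1)) {v : V}
    (hv : CR G X D v) : (∃ t ≤ l + 1, v = q t) ∨ v = b ∨ v = d := by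
  have hl := h.hl
  refine CR.sub (P := fun v => (∃ t ≤ l + 1, v = q t) ∨ v = b ∨ v = d) ?_ ?_ hv
  · intro e he
    rcases hD e he with rfl | rfl
    · exact Or.inl ⟨0, by omega, rfl⟩
    · exact Or.inl ⟨l + 1, le_rfl, rfl⟩
  · rintro u w huw (⟨t, ht, rfl⟩ | rfl | rfl)
    · cases t with
      | zero =>
        rcases (h.own0 w).mp huw with rfl | rfl | rfl
        · exact Or.inl ⟨l + 1, le_rfl, rfl⟩
        · exact Or.inl ⟨1, by omega, rfl⟩
        · exact Or.inr (Or.inl rfl)
      | succ s =>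
        by_cases h1 : s = l
        · subst h1
          rcases (h.own1 w).mp huw with rfl | rfl | rfl
          · exact Or.inl ⟨0, by omega, rfl⟩
          · exact Or.inl ⟨s, by omega, rfl⟩
          · exact Or.inr (Or.inr rfl)
        · rcases (h.own s (by omega) w).mp huw with rfl | rfl
          · exact Or.inl ⟨s, by omega, rfl⟩
          · exact Or.inl ⟨s + 2, by omega, rfl⟩
    · rw [(h.ob w).mp huw]
      exact Or.inl ⟨0, by omega, rfl⟩
    · rw [(h.od w).mp huw]
      exact Or.inl ⟨l + 1, le_rfl, rfl⟩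

/-! ### slots -/

variable {K : Multiset (Sym2 V)}

theorem Cy.slot0 (hA : StA G X D) (h : Cy G X D q l b d)
    (k1 : s(q 0, q (l + 1)) ∈ K) (k2 : s(q 0, q 1) ∈ K) (k3 : s(q 0, b) ∈ K)
    (k4 : s(q 0, q 2) ∈ K) (k5 : s(q 0, q l) ∈ K) (k6 : s(q 0, d) ∈ K) :
    dg (LK G X S' K) (q 0) ≤ 0 := by
  refine (dg_LK_le2 hA (CR.root h.D0) [] ?_).trans (by rw [lk_root hA h.D0]; simp)
  intro z hz ho
  rcases h.conf0 hz ho with rfl | rfl | rfl | rfl | rfl | rfl
  · exact Or.inl k1
  · exact Or.inl k2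
  · exact Or.inl k3
  · exact Or.inl k4
  · exact Or.inl k5
  · exact Or.inl k6

theorem Cy.slot1 (hcub : ∀ v, (univ.filter fun b => G.Adj v b).card = 3) (hA : StA G X D)
    (h : Cy G X D q l b d)
    (k1 : s(q 1, q 0) ∈ K) (k2 : s(q 1, q 2) ∈ K) (k3 : s(q 1, q (l + 1)) ∈ K)
    (k4 : s(q 1, b) ∈ K) (L : List V) (k5 : s(q 1, q 3) ∈ K ∨ q 3 ∈ L) :
    dg (LK G X S' K) (q 1) ≤ L.length := by
  have hl := h.hl
  refine (dg_LK_le2 hA (h.mem (by omega)) L ?_).trans
    (by rw [h.lk hcub hA (s := 0) (by omega)]; simp)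
  intro z hz ho
  rcases h.conf1 hz ho with rfl | rfl | rfl | rfl | rfl
  · exact Or.inl k1
  · exact Or.inl k2
  · exact Or.inl k3
  · exact Or.inl k4
  · exact k5

theorem Cy.slotm (hcub : ∀ v, (univ.filter fun b => G.Adj v b).card = 3) (hA : StA G X D)
    (h : Cy G X D q l b d) {t : ℕ} (ht : t + 2 < l)
    (L : List V) (k1 : s(q (t + 2), q t) ∈ K ∨ q t ∈ L)
    (k2 : s(q (t + 2), q (t + 1)) ∈ K ∨ q (t + 1) ∈ L)
    (k3 : s(q (t + 2), q (t + 3)) ∈ K ∨ q (t + 3) ∈ L)
    (k4 : s(q (t + 2), q (t + 4)) ∈ K ∨ q (t + 4) ∈ L) :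
    dg (LK G X S' K) (q (t + 2)) ≤ L.length := by
  refine (dg_LK_le2 hA (h.mem (by omega)) L ?_).trans
    (by rw [h.lk hcub hA (s := t + 1) (by omega)]; simp)
  intro z hz ho
  rcases h.confm (by omega) hz ho with rfl | rfl | rfl | rfl | ⟨h3, _⟩
  · exact k1
  · exact k2
  · exact k3
  · exact k4
  · omega

theorem Cy.slotb (hcub : ∀ v, (univ.filter fun b => G.Adj v b).card = 3) (hA : StA G X D)
    (h : Cy G X D q l b d)
    (k1 : s(b, q 0) ∈ K) (k2 : s(b, q (l + 1)) ∈ K) (k3 : s(b, q 1) ∈ K) :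
    dg (LK G X S' K) b ≤ 1 := by
  refine (dg_LK_le2 hA h.memb [] ?_).trans (by have := h.lkb hcub hA; simpa using this)
  intro z hz ho
  rcases h.confb hz ho with rfl | rfl | rfl
  · exact Or.inl k1
  · exact Or.inl k2
  · exact Or.inl k3

end

/-- own block table of a cycle with two vertices between the legs or more -/
abbrev eTSTS : List (Fin 8 × Fin 8) :=
  [(0, 1), (0, 2), (0, 3), (0, 4), (0, 5), (0, 7), (1, 2), (1, 4), (1, 5), (1, 6), (1, 7),
    (2, 3), (2, 4), (5, 6), (5, 7)]

/-- own block table of a five-cycle -/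
abbrev eC5 : List (Fin 7 × Fin 7) :=
  [(0, 1), (0, 2), (0, 3), (0, 4), (0, 5), (0, 6), (1, 2), (1, 3), (1, 4), (1, 5), (1, 6), (2, 3),
    (2, 4), (2, 5), (3, 4), (4, 6)]

section

variable {q : ℕ → V} {l : ℕ} {b d : V}

theorem Cy.cap (hcub : ∀ v, (univ.filter fun b => G.Adj v b).card = 3)
    (h : Cy G X D q l b d) {s : ℕ} (hs : s < l) : 3 ≤ c3 G X D (q (s + 1)) := by
  unfold c3
  rw [if_neg (h.nD s hs)]
  rcases Helper33.L9.cc_cap (G := G) (X := X) (q (s + 1)) with h2 | h2
  · exfalso
    exact h.ne (by omega) (by omega) (by omega)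
      (own_one hcub h2 ((h.own s hs (q s)).mpr (Or.inl rfl))
        ((h.own s hs (q (s + 2))).mpr (Or.inr rfl)))
  · omega

theorem cap_root {v : V} (hv : D v) : 4 ≤ c3 G X D v := by
  unfold c3
  rw [if_pos hv]

/-- **cycles of length at least six** -/
theorem Cy.at_ge (hcub : ∀ v, (univ.filter fun b => G.Adj v b).card = 3) (hA : StA G X D)
    (h : Cy G X D q l b d) (h4 : 4 ≤ l) (hD : ∀ v, D v → v = q 0 ∨ v = q (l + 1))
    (hside : ∀ v ∈ S', ∃ d, D d ∧ (X v ↔ X d))
    (hE : ∀ N : V → Prop, (∀ v, N v → Far G D v ∧ ∃ d, D d ∧ (X v ↔ X d)) →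
      (∀ u v, ownR G X u v → N u → N v) →
      ENetX (ownN G X N) (cN G X N) (c3 G X D) (QE G X S').val)
    (hT : ∀ (g : Fin 8 → V) (c : V → ℕ), Function.Injective g →
      (∀ i : Fin 8, cp [4, 4, 3, 3, 2, 3, 3, 2] i ≤ c (g i)) → ∀ (W : List V)
      (N : Multiset (Sym2 V)), (∀ i : Fin 8, dg N (g i) ≤ [0, 0, 1, 2, 1, 1, 2, 1].getD i 0) →
      Ctx g (msk [false, false, true, true, false, true, true, false]) W N c →
      AT (emb g eTSTS + N) c) :
    AT (QE G X S').val (c3 G X D) := by
  have hr := h.rev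
  have e1 : l + 1 - 1 = l := by omega
  have e2 : l + 1 - 2 = l - 1 := by omega
  have e3 : l + 1 - 3 = l - 2 := by omega
  have e4 : l + 1 - 4 = l - 3 := by omega
  have e5 : l + 1 - (l + 1) = 0 := by omega
  have e6 : l + 1 - l = 1 := by omega
  set Lg : List V := [q 0, q (l + 1), q 1, q 2, b, q l, q (l - 1), d] with hLg
  have hnd : Lg.Nodup := by
    rw [hLg]
    simp only [List.nodup_cons, List.mem_cons, List.not_mem_nil, or_false, not_or,
      List.nodup_nil, and_true, not_false_eq_true]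
    refine ⟨⟨?_, ?_, ?_, ?_, ?_, ?_, ?_⟩, ⟨?_, ?_, ?_, ?_, ?_, ?_⟩, ⟨?_, ?_, ?_, ?_, ?_⟩,
      ⟨?_, ?_, ?_, ?_⟩, ⟨?_, ?_, ?_⟩, ⟨?_, ?_⟩, ?_⟩ <;>
    first
      | exact h.ne (by omega) (by omega) (by omega)
      | exact h.bq _ (by omega)
      | exact (h.bq _ (by omega)).symm
      | exact (h.dq _ (by omega)).symm
      | exact h.bd
  set g : Fin 8 → V := ![q 0, q (l + 1), q 1, q 2, b, q l, q (l - 1), d] with hg0
  have hg : Function.Injective g := List.nodup_ofFn.mp (by
    have : List.ofFn g = Lg := rfl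
    rw [this]; exact hnd)
  set T : Fin 8 → Prop := msk [false, false, true, true, false, true, true, false] with hT0
  set W : List V := (List.range (l - 4)).map fun i => q (i + 3) with hW0
  have memW : ∀ {w}, w ∈ W ↔ ∃ i < l - 4, q (i + 3) = w := by
    intro w
    rw [hW0, List.mem_map]
    simp only [List.mem_range]
  have hWn : W.Nodup := by
    rw [hW0]
    refine List.Nodup.map_on ?_ List.nodup_range
    intro i hi j hj e
    rw [List.mem_range] at hi hj
    have := h.inj _ _ (by omega) (by omega) e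
    omega
  have hWo : ∀ w ∈ W, ∀ i, g i ≠ w := by
    intro w hw i
    obtain ⟨j, hj, rfl⟩ := memW.mp hw
    fin_cases i
    · exact h.ne (by omega) (by omega) (by omega)
    · exact h.ne (by omega) (by omega) (by omega)
    · exact h.ne (by omega) (by omega) (by omega)
    · exact h.ne (by omega) (by omega) (by omega)
    · exact h.bq _ (by omega)
    · exact h.ne (by omega) (by omega) (by omega)
    · exact h.ne (by omega) (by omega) (by omega)
    · exact h.dq _ (by omega)
  have hC : ∀ v, CR G X D v ↔ (∃ i, g i = v) ∨ v ∈ W := by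
    intro v
    constructor
    · intro hv
      rcases h.comp hD hv with ⟨t, ht, rfl⟩ | rfl | rfl
      · by_cases t0 : t = 0
        · subst t0; exact Or.inl ⟨0, rfl⟩
        by_cases t1 : t = 1
        · subst t1; exact Or.inl ⟨2, rfl⟩
        by_cases t2 : t = 2
        · subst t2; exact Or.inl ⟨3, rfl⟩
        by_cases t3 : t = l + 1
        · subst t3; exact Or.inl ⟨1, rfl⟩
        by_cases t4 : t = l
        · subst t4; exact Or.inl ⟨5, rfl⟩
        by_cases t5 : t = l - 1
        · subst t5; exact Or.inl ⟨6, rfl⟩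
        refine Or.inr (memW.mpr ⟨t - 3, by omega, ?_⟩)
        congr 1
        omega
      · exact Or.inl ⟨4, rfl⟩
      · exact Or.inl ⟨7, rfl⟩
    · rintro (⟨i, rfl⟩ | hw)
      · fin_cases i
        · exact h.mem (by omega)
        · exact h.mem (by omega)
        · exact h.mem (by omega)
        · exact h.mem (by omega)
        · exact h.memb
        · exact h.mem (by omega)
        · exact h.mem (by omega)
        · exact hr.memb
      · obtain ⟨j, hj, rfl⟩ := memW.mp hw
        exact h.mem (by omega)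
  have hs : ∀ v ∈ S', (X v ↔ X (q 0)) := by
    intro v hv
    obtain ⟨e, he, h5⟩ := hside v hv
    exact h5.trans (hA.side he h.D0)
  have hK : ∀ i j : Fin 8, ((i, j) ∈ eTSTS ∨ (j, i) ∈ eTSTS) → s(g i, g j) ∈ emb g eTSTS :=
    fun i j hij => mem_emb_pair hij
  refine plus_block (C := CR G X D) (s := X (q 0)) hcub hA hs g T W hg hWn hWo hC
    (fun u v huv hu => CR.closed huv hu) (fun v _ hv => CR.far hA hv) eTSTS (by decide)
    [0, 0, 1, 2, 1, 1, 2, 1] ?_ ?_ ?_ ?_
  · intro i
    fin_cases i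
    · exact h.slot0 hA (hK 0 1 (by decide)) (hK 0 2 (by decide)) (hK 0 4 (by decide))
        (hK 0 3 (by decide)) (hK 0 5 (by decide)) (hK 0 7 (by decide))
    · refine hr.slot0 hA ?_ ?_ ?_ ?_ ?_ ?_
      · have := hK 1 0 (by decide)
        simp only [e5, Nat.sub_zero]
        exact this
      · exact hK 1 5 (by decide)
      · exact hK 1 7 (by decide)
      · exact hK 1 6 (by decide)
      · have := hK 1 2 (by decide)
        simp only [e6, Nat.sub_zero]
        exact this
      · exact hK 1 4 (by decide)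
    · exact h.slot1 hcub hA (hK 2 0 (by decide)) (hK 2 3 (by decide)) (hK 2 1 (by decide))
        (hK 2 4 (by decide)) [q 3] (Or.inr List.mem_cons_self)
    · exact h.slotm hcub hA (t := 0) (by omega) [q 3, q 4] (Or.inl (hK 3 0 (by decide)))
        (Or.inl (hK 3 2 (by decide))) (Or.inr (by simp)) (Or.inr (by simp))
    · exact h.slotb hcub hA (hK 4 0 (by decide)) (hK 4 1 (by decide)) (hK 4 2 (by decide))
    · refine hr.slot1 hcub hA (hK 5 1 (by decide)) (hK 5 6 (by decide)) ?_
        (hK 5 7 (by decide)) [q (l - 2)] (Or.inr ?_)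
      · have := hK 5 0 (by decide)
        simp only [e5]
        exact this
      · simp only [e3]
        exact List.mem_cons_self
    · refine hr.slotm hcub hA (t := 0) (by omega) [q (l - 2), q (l - 3)]
        (Or.inl (hK 6 1 (by decide))) (Or.inl (hK 6 5 (by decide))) (Or.inr ?_) (Or.inr ?_)
      · simp only [Nat.zero_add, e3]
        exact List.mem_cons_self
      · simp only [Nat.zero_add, e4]
        simp
    · refine hr.slotb hcub hA (hK 7 1 (by decide)) ?_ (hK 7 5 (by decide))
      have := hK 7 0 (by decide)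
      simp only [e5]
      exact this
  · intro l1 w l2 hw
    obtain ⟨hi, hwi⟩ : ∃ hi : l1.length < l - 4, w = q (l1.length + 3) := by
      have h5 : l1.length < W.length := by rw [hw]; simp
      have h6 : W.length = l - 4 := by rw [hW0]; simp
      refine ⟨by omega, ?_⟩
      have h7 : W[l1.length]'h5 = w := by
        simp only [hw]
        simp
      rw [← h7]
      simp [hW0]
    have hpre : ∀ j < l1.length, q (j + 3) ∈ l1 := by
      intro j hj
      have h5 : j < W.length := by rw [hw]; simp; omega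
      have h7 : W[j]'h5 = l1[j] := by
        simp only [hw]
        rw [List.getElem_append_left hj]
      have h8 : W[j]'h5 = q (j + 3) := by simp [hW0]
      rw [← h8, h7]
      exact List.getElem_mem hj
    have cw : CR G X D w := by rw [hwi]; exact h.mem (by omega)
    have h5 : dg (LL G X (CR G X D) S' (emb g eTSTS)) w = 0 := by
      have h6 := dg_LL_lk (S' := S') (K := emb g eTSTS) hA cw
      have h7 : (lkS G X w).card = 0 := by
        rw [hwi]
        exact h.lk hcub hA (s := l1.length + 2) (by omega)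
      omega
    have h6 : dg (outt (pre g T l1) (OO G X (CR G X D) S' (emb g eTSTS))) w ≤ 2 := by
      refine dg_outt_OO_le [q (l1.length + 4), q (l1.length + 5)] ?_
      intro z hz ho
      rw [hwi] at hz ho
      rcases h.confm (t := l1.length + 1) (by omega) hz ho with rfl | rfl | rfl | rfl | ⟨h7, _⟩
      · right; left
        rw [mem_pre]
        by_cases c0 : l1.length = 0
        · rw [c0]; exact Or.inr ⟨2, rfl, rfl⟩
        by_cases c1 : l1.length = 1
        · rw [c1]; exact Or.inr ⟨3, rfl, rfl⟩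
        left
        have := hpre (l1.length - 2) (by omega)
        rwa [show l1.length - 2 + 3 = l1.length + 1 by omega] at this
      · right; left
        rw [mem_pre]
        by_cases c0 : l1.length = 0
        · rw [c0]; exact Or.inr ⟨3, rfl, rfl⟩
        left
        have := hpre (l1.length - 1) (by omega)
        rwa [show l1.length - 1 + 3 = l1.length + 1 + 1 by omega] at this
      · right; right; simp
      · right; right; simp
      · omega
    omega
  · intro N hN hctx
    refine hT g (c3 G X D) hg ?_ W N hN hctx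
    intro i
    fin_cases i
    · exact cap_root h.D0
    · exact cap_root h.D1
    · exact h.cap hcub (s := 0) (by omega)
    · exact h.cap hcub (s := 1) (by omega)
    · exact c3_two _
    · have := h.cap hcub (s := l - 1) (by omega)
      rw [show l - 1 + 1 = l by omega] at this
      exact this
    · have := h.cap hcub (s := l - 2) (by omega)
      rw [show l - 2 + 1 = l - 1 by omega] at this
      exact this
    · exact c3_two _
  · refine hE _ ?_ ?_
    · rintro v ⟨h5, h6⟩
      exact ⟨CR.far hA h6, q 0, h.D0, h5⟩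
    · intro u v huv hu
      exact NC.closed (fun a b hab ha => CR.closed hab ha) huv hu

/-- **five-cycles** -/
theorem Cy.at_three (hcub : ∀ v, (univ.filter fun b => G.Adj v b).card = 3) (hA : StA G X D)
    (h : Cy G X D q 3 b d) (hD : ∀ v, D v → v = q 0 ∨ v = q 4)
    (hside : ∀ v ∈ S', ∃ d, D d ∧ (X v ↔ X d))
    (hE : ∀ N : V → Prop, (∀ v, N v → Far G D v ∧ ∃ d, D d ∧ (X v ↔ X d)) →
      (∀ u v, ownR G X u v → N u → N v) →
      ENetX (ownN G X N) (cN G X N) (c3 G X D) (QE G X S').val)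
    (hT : ∀ (g : Fin 7 → V) (c : V → ℕ), Function.Injective g →
      (∀ i : Fin 7, cp [4, 4, 3, 3, 3, 2, 2] i ≤ c (g i)) → ∀ (W : List V)
      (N : Multiset (Sym2 V)), (∀ i : Fin 7, dg N (g i) ≤ [0, 0, 0, 0, 0, 1, 1].getD i 0) →
      Ctx g (msk []) W N c → AT (emb g eC5 + N) c) :
    AT (QE G X S').val (c3 G X D) := by
  have hr := h.rev
  set Lg : List V := [q 0, q 4, q 1, q 2, q 3, b, d] with hLg
  have hnd : Lg.Nodup := by
    rw [hLg]
    simp only [List.nodup_cons, List.mem_cons, List.not_mem_nil, or_false, not_or,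
      List.nodup_nil, and_true, not_false_eq_true]
    refine ⟨⟨?_, ?_, ?_, ?_, ?_, ?_⟩, ⟨?_, ?_, ?_, ?_, ?_⟩, ⟨?_, ?_, ?_, ?_⟩, ⟨?_, ?_, ?_⟩,
      ⟨?_, ?_⟩, ?_⟩ <;>
    first
      | exact h.ne (by omega) (by omega) (by omega)
      | exact h.bq _ (by omega)
      | exact (h.bq _ (by omega)).symm
      | exact (h.dq _ (by omega)).symm
      | exact h.bd
  set g : Fin 7 → V := ![q 0, q 4, q 1, q 2, q 3, b, d] with hg0
  have hg : Function.Injective g := List.nodup_ofFn.mp (by
    have : List.ofFn g = Lg := rfl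
    rw [this]; exact hnd)
  have hC : ∀ v, CR G X D v ↔ (∃ i, g i = v) ∨ v ∈ ([] : List V) := by
    intro v
    constructor
    · intro hv
      rcases h.comp hD hv with ⟨t, ht, rfl⟩ | rfl | rfl
      · left
        obtain rfl | rfl | rfl | rfl | rfl : t = 0 ∨ t = 1 ∨ t = 2 ∨ t = 3 ∨ t = 4 := by omega
        · exact ⟨0, rfl⟩
        · exact ⟨2, rfl⟩
        · exact ⟨3, rfl⟩
        · exact ⟨4, rfl⟩
        · exact ⟨1, rfl⟩
      · exact Or.inl ⟨5, rfl⟩
      · exact Or.inl ⟨6, rfl⟩
    · rintro (⟨i, rfl⟩ | hw)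
      · fin_cases i
        · exact h.mem (by omega)
        · exact h.mem (by omega)
        · exact h.mem (by omega)
        · exact h.mem (by omega)
        · exact h.mem (by omega)
        · exact h.memb
        · exact hr.memb
      · simp at hw
  have hs : ∀ v ∈ S', (X v ↔ X (q 0)) := by
    intro v hv
    obtain ⟨e, he, h5⟩ := hside v hv
    exact h5.trans (hA.side he h.D0)
  have hK : ∀ i j : Fin 7, ((i, j) ∈ eC5 ∨ (j, i) ∈ eC5) → s(g i, g j) ∈ emb g eC5 :=
    fun i j hij => mem_emb_pair hij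
  refine plus_block (C := CR G X D) (s := X (q 0)) hcub hA hs g (msk []) [] hg List.nodup_nil
    (by simp) hC (fun u v huv hu => CR.closed huv hu) (fun v _ hv => CR.far hA hv) eC5 (by decide)
    [0, 0, 0, 0, 0, 1, 1] ?_ ?_ ?_ ?_
  · intro i
    fin_cases i
    · exact h.slot0 hA (hK 0 1 (by decide)) (hK 0 2 (by decide)) (hK 0 5 (by decide))
        (hK 0 3 (by decide)) (hK 0 4 (by decide)) (hK 0 6 (by decide))
    · exact hr.slot0 hA (hK 1 0 (by decide)) (hK 1 4 (by decide)) (hK 1 6 (by decide))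
        (hK 1 3 (by decide)) (hK 1 2 (by decide)) (hK 1 5 (by decide))
    · exact h.slot1 hcub hA (hK 2 0 (by decide)) (hK 2 3 (by decide)) (hK 2 1 (by decide))
        (hK 2 5 (by decide)) [] (Or.inl (hK 2 4 (by decide)))
    · exact h.slotm hcub hA (t := 0) (by omega) [] (Or.inl (hK 3 0 (by decide)))
        (Or.inl (hK 3 2 (by decide))) (Or.inl (hK 3 4 (by decide))) (Or.inl (hK 3 1 (by decide)))
    · exact hr.slot1 hcub hA (hK 4 1 (by decide)) (hK 4 3 (by decide)) (hK 4 0 (by decide))
        (hK 4 6 (by decide)) [] (Or.inl (hK 4 2 (by decide)))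
    · exact h.slotb hcub hA (hK 5 0 (by decide)) (hK 5 1 (by decide)) (hK 5 2 (by decide))
    · exact hr.slotb hcub hA (hK 6 1 (by decide)) (hK 6 0 (by decide)) (hK 6 4 (by decide))
  · intro l1 w l2 hw
    simp at hw
  · intro N hN hctx
    refine hT g (c3 G X D) hg ?_ [] N hN hctx
    intro i
    fin_cases i
    · exact cap_root h.D0
    · exact cap_root h.D1
    · exact h.cap hcub (s := 0) (by omega)
    · exact h.cap hcub (s := 1) (by omega)
    · exact h.cap hcub (s := 2) (by omega)
    · exact c3_two _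
    · exact c3_two _
  · refine hE _ ?_ ?_
    · rintro v ⟨h5, h6⟩
      exact ⟨CR.far hA h6, q 0, h.D0, h5⟩
    · intro u v huv hu
      exact NC.closed (fun a b hab ha => CR.closed hab ha) huv hu

/-! ### existence -/

/-- the third neighbour of a root -/
theorem third_nb (hcub : ∀ v, (univ.filter fun b => G.Adj v b).card = 3) {x z a : V}
    (h1 : G.Adj x z) (h2 : G.Adj x a) (hza : z ≠ a) :
    ∃ b, b ≠ z ∧ b ≠ a ∧ ∀ w, G.Adj x w ↔ (w = z ∨ w = a ∨ w = b) := by
  obtain ⟨u, v, w, huv, huw, hvw, he⟩ := Finset.card_eq_three.mp (hcub x)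
  have hm : ∀ y, G.Adj x y ↔ (y = u ∨ y = v ∨ y = w) := by
    intro y
    have : y ∈ (univ.filter fun b => G.Adj x b) ↔ y ∈ ({u, v, w} : Finset V) := by rw [he]
    simpa using this
  rcases (hm z).mp h1 with rfl | rfl | rfl <;> rcases (hm a).mp h2 with rfl | rfl | rfl
  · exact absurd rfl hza
  · exact ⟨w, huw.symm, hvw.symm, fun y => hm y⟩
  · exact ⟨v, huv.symm, hvw, fun y => (hm y).trans (by tauto)⟩
  · exact ⟨w, hvw.symm, huw.symm, fun y => (hm y).trans (by tauto)⟩
  · exact absurd rfl hza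
  · exact ⟨u, huv, huw, fun y => (hm y).trans (by tauto)⟩
  · exact ⟨v, hvw, huv.symm, fun y => (hm y).trans (by tauto)⟩
  · exact ⟨u, huw, huv, fun y => (hm y).trans (by tauto)⟩
  · exact absurd rfl hza

/-- the cycle of a path from one root to the other one -/
theorem exists_cy (hcub : ∀ v, (univ.filter fun b => G.Adj v b).card = 3) (hA : StA G X D)
    {x z : V} {p : ℕ → V} {l : ℕ} (hx : D x) (hz : D z) (hxz : x ≠ z)
    (hp : Pth G X D x p l (fun w => w = z)) (hl : 3 ≤ l) :
    ∃ q b d, Cy G X D q l b d ∧ ∀ v, D v → v = q 0 ∨ v = q (l + 1) := by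
  obtain ⟨m, rfl⟩ : ∃ m, l = m + 3 := ⟨l - 3, by omega⟩
  have axz : G.Adj x z := hA.adj x z hx hz hxz
  have sxz : X x ↔ X z := hA.side hx hz
  -- the two ends
  have o0 : ownR G X (p 0) x := (hp.nb 0 (by omega) x).mpr (Or.inl rfl)
  have o1 : ownR G X (p (m + 2)) z := (hp.nb (m + 2) (by omega) z).mpr (Or.inr (Or.inr ⟨rfl, rfl⟩))
  have n0 := hp.nD 0 (by omega)
  have n1 := hp.nD (m + 2) (by omega)
  obtain ⟨b, hbz, hba, hb⟩ := third_nb hcub axz o0.1.symm (fun e => n0 (e ▸ hz))
  obtain ⟨d, hdx, hdc, hd⟩ := third_nb hcub axz.symm o1.1.symm (fun e => n1 (e ▸ hx))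
  have abx : G.Adj x b := (hb b).mpr (Or.inr (Or.inr rfl))
  have adz : G.Adj z d := (hd d).mpr (Or.inr (Or.inr rfl))
  have hD : ∀ v, D v → v = x ∨ v = z := by
    obtain ⟨x', z', _, h1⟩ := hA.two
    intro v hv
    rcases (h1 x).mp hx with rfl | rfl <;> rcases (h1 z).mp hz with rfl | rfl <;>
      rcases (h1 v).mp hv with rfl | rfl
    · exact Or.inl rfl
    · exact absurd rfl hxz
    · exact Or.inl rfl
    · exact Or.inr rfl
    · exact Or.inr rfl
    · exact Or.inl rfl
    · exact absurd rfl hxz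
    · exact Or.inl rfl
  have nDb : ¬ D b := fun hDb => by
    rcases hD b hDb with rfl | rfl
    · exact G.loopless.irrefl _ abx
    · exact hbz rfl
  have nDd : ¬ D d := fun hDd => by
    rcases hD d hDd with rfl | rfl
    · exact hdx rfl
    · exact G.loopless.irrefl _ adz
  have obx : ownR G X b x := ⟨abx.symm, hA.k0 x b hx abx⟩
  have odz : ownR G X d z := ⟨adz.symm, hA.k0 z d hz adz⟩
  -- the legs are off the path
  have hbp : ∀ t < m + 3, b ≠ p t := by
    rintro t ht rfl
    rcases (hp.nb t ht x).mp obx with h1 | ⟨h1, h2⟩ | ⟨_, h2⟩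
    · cases t with
      | zero => exact hba rfl
      | succ t => exact hp.nD t (by omega) (by rw [← show x = p t from h1]; exact hx)
    · exact hp.nD _ h1 (h2 ▸ hx)
    · exact hxz h2
  have hdp : ∀ t < m + 3, d ≠ p t := by
    rintro t ht rfl
    rcases (hp.nb t ht z).mp odz with h1 | ⟨h1, h2⟩ | ⟨h1, _⟩
    · cases t with
      | zero => exact hxz.symm h1
      | succ t => exact hp.nD t (by omega) (by rw [← show z = p t from h1]; exact hz)
    · exact hp.nD _ h1 (h2 ▸ hz)
    · obtain rfl : t = m + 2 := by omega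
      exact hdc rfl
  -- they are short
  have nx : ∀ t, t + 1 < m + 3 → ownR G X (p t) (p (t + 1)) := fun t ht =>
    (hp.nb t (by omega) _).mpr (Or.inr (Or.inl ⟨ht, rfl⟩))
  have cb : cc G X b = 2 := by
    have h1 := nx 0 (by omega)
    have h2 := nx 1 (by omega)
    exact hA.tail2 x (p 0) (p 1) (p 2) b hx n0 (hp.nD 1 (by omega)) o0.1.symm h1.1 h1.2.symm
      h2.1 h2.2.symm (hp.ne 1 (by omega)) abx nDb (hbp 0 (by omega)) (hbp 1 (by omega))
  have cd : cc G X d = 2 := by
    have h1 := nx (m + 1) (by omega)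
    have h2 := nx m (by omega)
    exact hA.tail2 z (p (m + 2)) (p (m + 1)) (p m) d hz n1 (hp.nD (m + 1) (by omega)) o1.1.symm
      h1.1.symm h1.2 h2.1.symm h2.2 (hp.ne (m + 1) (by omega)).symm adz nDd
      (hdp (m + 2) (by omega)) (hdp (m + 1) (by omega))
  -- the cycle
  set q : ℕ → V := fun t => if t = 0 then x else if t ≤ m + 3 then p (t - 1) else z with hq
  have q0 : q 0 = x := rfl
  have qs : ∀ s < m + 3, q (s + 1) = p s := by
    intro s hs
    simp only [hq, Nat.add_eq_zero_iff, one_ne_zero, and_false, if_false]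
    rw [if_pos (by omega)]
    rfl
  have ql : q (m + 3 + 1) = z := by
    simp only [hq, Nat.add_eq_zero_iff, one_ne_zero, and_false, if_false]
    rw [if_neg (by omega)]
  have qp : ∀ s < m + 3, q s = prd x p s := by
    intro s hs
    cases s with
    | zero => rfl
    | succ s => exact qs s (by omega)
  refine ⟨q, b, d, ?_, fun v hv => by rw [q0, ql]; exact hD v hv⟩
  refine
    { hl := by omega
      D0 := by rw [q0]; exact hx
      D1 := by rw [ql]; exact hz
      nD := fun s hs => by rw [qs s hs]; exact hp.nD s hs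
      nDb := nDb
      nDd := nDd
      own := fun s hs w => ?_
      own0 := fun w => ?_
      own1 := fun w => ?_
      ob := fun w => ?_
      od := fun w => ?_
      inj := ?_
      bq := fun t ht => ?_
      dq := fun t ht => ?_
      bd := ?_ }
  · rw [qs s hs, qp s hs, hp.nb s hs w]
    by_cases h1 : s + 1 < m + 3
    · rw [qs (s + 1) h1]
      constructor
      · rintro (h2 | ⟨_, h2⟩ | ⟨h2, _⟩)
        · exact Or.inl h2
        · exact Or.inr h2
        · omega
      · rintro (h2 | h2)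
        · exact Or.inl h2
        · exact Or.inr (Or.inl ⟨h1, h2⟩)
    · have e : s + 2 = m + 3 + 1 := by omega
      rw [e, ql]
      constructor
      · rintro (h2 | ⟨h2, _⟩ | ⟨_, h2⟩)
        · exact Or.inl h2
        · exact absurd h2 h1
        · exact Or.inr h2
      · rintro (h2 | h2)
        · exact Or.inl h2
        · exact Or.inr (Or.inr ⟨by omega, h2⟩)
  · rw [q0, ql, show (1 : ℕ) = 0 + 1 from rfl, qs 0 (by omega)]
    constructor
    · intro h1
      exact (hb w).mp h1.1
    · intro h1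
      have h2 := (hb w).mpr h1
      exact ⟨h2, (hA.k0 x w hx h2).symm⟩
  · rw [q0, ql, qs (m + 2) (by omega)]
    constructor
    · intro h1
      exact (hd w).mp h1.1
    · intro h1
      have h2 := (hd w).mpr h1
      exact ⟨h2, (hA.k0 z w hz h2).symm⟩
  · rw [q0]
    refine ⟨fun h1 => own_one hcub cb h1 obx, ?_⟩
    rintro rfl
    exact obx
  · rw [ql]
    refine ⟨fun h1 => own_one hcub cd h1 odz, ?_⟩
    rintro rfl
    exact odz
  · have key : ∀ i j, i < j → j ≤ m + 3 + 1 → q i ≠ q j := by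
      intro i j hij hj e
      by_cases hj1 : j = m + 3 + 1
      · subst hj1
        rw [ql] at e
        cases i with
        | zero => exact hxz e
        | succ i =>
          rw [qs i (by omega)] at e
          exact hp.nD i (by omega) (e ▸ hz)
      · obtain ⟨j, rfl⟩ : ∃ j', j = j' + 1 := ⟨j - 1, by omega⟩
        rw [qs j (by omega)] at e
        cases i with
        | zero => exact hp.nD j (by omega) (by rw [← e]; exact hx)
        | succ i =>
          rw [qs i (by omega)] at e
          have := hp.inj' hx (by omega) (by omega) e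
          omega
    intro i j hi hj e
    rcases lt_trichotomy i j with h1 | h1 | h1
    · exact absurd e (key i j h1 hj)
    · exact h1
    · exact absurd e.symm (key j i h1 hi)
  · cases t with
    | zero =>
      rw [q0]
      rintro rfl
      exact G.loopless.irrefl _ abx
    | succ t =>
      by_cases h1 : t = m + 3
      · subst h1; rw [ql]; exact hbz
      · rw [qs t (by omega)]; exact hbp t (by omega)
  · cases t with
    | zero => rw [q0]; exact hdx
    | succ t =>
      by_cases h1 : t = m + 3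
      · subst h1
        rw [ql]
        rintro rfl
        exact G.loopless.irrefl _ adz
      · rw [qs t (by omega)]; exact hdp t (by omega)
  · rintro rfl
    exact hxz (hA.disj x z b hx hz nDb abx adz)

/-- **cycles through both roots** -/
theorem at_cyc (hcub : ∀ v, (univ.filter fun b => G.Adj v b).card = 3) (h : StA G X D)
    (hmin : MinN G X (c3 G X D) S') (hside : ∀ v ∈ S', ∃ d, D d ∧ (X v ↔ X d))
    (hE : ∀ N : V → Prop, (∀ v, N v → Far G D v ∧ ∃ d, D d ∧ (X v ↔ X d)) →
      (∀ u v, ownR G X u v → N u → N v) →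
      ENetX (ownN G X N) (cN G X N) (c3 G X D) (QE G X S').val)
    {x z : V} {p : ℕ → V} {l : ℕ} (hx : D x) (hz : D z) (hxz : x ≠ z)
    (hp : Pth G X D x p l (fun w => w = z)) (hl : 3 ≤ l)
    (hC1 : ∀ (g : Fin 7 → V) (c : V → ℕ), Function.Injective g →
      (∀ i : Fin 7, cp [4, 4, 3, 3, 3, 2, 2] i ≤ c (g i)) → ∀ (W : List V)
      (N : Multiset (Sym2 V)), (∀ i : Fin 7, dg N (g i) ≤ [0, 0, 0, 0, 0, 1, 1].getD i 0) →
      Ctx g (msk []) W N c → AT (emb g eC5 + N) c)
    (hTSTS : ∀ (g : Fin 8 → V) (c : V → ℕ), Function.Injective g →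
      (∀ i : Fin 8, cp [4, 4, 3, 3, 2, 3, 3, 2] i ≤ c (g i)) → ∀ (W : List V)
      (N : Multiset (Sym2 V)), (∀ i : Fin 8, dg N (g i) ≤ [0, 0, 1, 2, 1, 1, 2, 1].getD i 0) →
      Ctx g (msk [false, false, true, true, false, true, true, false]) W N c →
      AT (emb g eTSTS + N) c) : False := by
  obtain ⟨q, b, d, hc, hD⟩ := exists_cy hcub h hx hz hxz hp hl
  refine hmin.1 ?_
  by_cases h4 : 4 ≤ l
  · exact hc.at_ge hcub h h4 hD hside hE hTSTS
  · obtain rfl : l = 3 := by omega
    exact hc.at_three hcub h hD hside hE hC1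

/-- cycles through both roots, five-cycles included -/
theorem at_cyc' (hcub : ∀ v, (univ.filter fun b => G.Adj v b).card = 3) (h : StA G X D)
    (hmin : MinN G X (c3 G X D) S') (hside : ∀ v ∈ S', ∃ d, D d ∧ (X v ↔ X d))
    (hE : ∀ N : V → Prop, (∀ v, N v → Far G D v ∧ ∃ d, D d ∧ (X v ↔ X d)) →
      (∀ u v, ownR G X u v → N u → N v) →
      ENetX (ownN G X N) (cN G X N) (c3 G X D) (QE G X S').val)
    {x z : V} {p : ℕ → V} {l : ℕ} (hx : D x) (hz : D z) (hxz : x ≠ z)
    (hp : Pth G X D x p l (fun w => w = z)) (hl : 3 ≤ l)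
    (hTSTS : ∀ (g : Fin 8 → V) (c : V → ℕ), Function.Injective g →
      (∀ i : Fin 8, cp [4, 4, 3, 3, 2, 3, 3, 2] i ≤ c (g i)) → ∀ (W : List V)
      (N : Multiset (Sym2 V)), (∀ i : Fin 8, dg N (g i) ≤ [0, 0, 1, 2, 1, 1, 2, 1].getD i 0) →
      Ctx g (msk [false, false, true, true, false, true, true, false]) W N c →
      AT (emb g eTSTS + N) c) : False :=
  at_cyc hcub h hmin hside hE hx hz hxz hp hl
    (fun g c hg hc W N hd C => Helper33.Off.at_C1 hg hc W N hd C) hTSTS

end

end Helper17.PC
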