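import Pool.Agent.helper17.L9.JWire
import Pool.Agent.helper17.L9.JStep

/-!
# Neighbours of the vertices of a `U_5`

`near9`: the vertices at distance one or two.
`UNb`: the neighbours of all vertices of the core of a `U_5`, real and virtual chords together:
`yA0`, `yAk` are the first and the last link of the wire `A` (from `v4` to `v1`), `ua` the other end
of `yA0`, `va` the other end of `yAk` (real chord: `yA0 = yAk`, `ua = v1`, `va = v4`), `ba0`, `bak`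
the own neighbours of the links.
-/

set_option autoImplicit false
set_option linter.unusedSectionVars false

namespace Helper17.L9

open Finset Classical Helper33.L9
open Helper42.L9 hiding near
open Pool.Agent.helper58.L9
open Pool.Agent.helper40.L9 (ParOK JSt Bad Tol LamU JExt)

variable {V : Type*} {G : SimpleGraph V}

/-- the vertices near `v` -/
theorem near9 {v a b c a1 a2 b1 b2 c1 c2 x : V} (h : Nb G v a b c) (ha : Nb G a v a1 a2)
    (hb : Nb G b v b1 b2) (hc : Nb G c v c1 c2) (hn : Helper33.L9.near G v x) :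
    x = a ∨ x = b ∨ x = c ∨ x = a1 ∨ x = a2 ∨ x = b1 ∨ x = b2 ∨ x = c1 ∨ x = c2 := by
  obtain ⟨h1, h2 | ⟨w, h2, h3⟩⟩ := hn
  · rcases h.all x h2 with h4 | h4 | h4 <;> tauto
  · rcases h.all w h2 with h4 | h4 | h4
    · rw [h4] at h3
      rcases ha.all x h3 with h5 | h5 | h5
      · exact absurd h5.symm h1
      · tauto
      · tauto
    · rw [h4] at h3
      rcases hb.all x h3 with h5 | h5 | h5
      · exact absurd h5.symm h1
      · tauto
      · tauto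
    · rw [h4] at h3
      rcases hc.all x h3 with h5 | h5 | h5
      · exact absurd h5.symm h1
      · tauto
      · tauto

variable [Fintype V] {X : V → Prop} {Z S : Finset V}

omit [Fintype V] in
theorem nd5 {a b c d e : V} (h : [a, b, c, d, e].Nodup) : [e, d, c, b, a].Nodup := by
  have := List.nodup_reverse.mpr h
  exact this

/-- an end with its two cross neighbours and its own neighbour -/
theorem nb_end (hcub : ∀ v, (univ.filter fun b => G.Adj v b).card = 3) {v a b c : V}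
    (hcr : cr G X v = {a, b}) (hab : a ≠ b) (ho : ownR G X v c) : Nb G v a b c := by
  have h1 : a ∈ cr G X v := by rw [hcr]; simp
  have h2 : b ∈ cr G X v := by rw [hcr]; simp
  have h3 : ∀ d, d ∈ cr G X v → d ≠ c := by
    rintro d hd rfl
    exact (mem_cr.mp hd).2 ho.2.symm
  exact nb_of (fun v => (hcub v).le) (mem_cr.mp h1).1 (mem_cr.mp h2).1 ho.1 hab (h3 a h1)
    (h3 b h2)

/-- an inner vertex with its cross neighbour and its two own neighbours -/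
theorem nb_inner (hcub : ∀ v, (univ.filter fun b => G.Adj v b).card = 3) {v a b c : V}
    (hcr : cr G X v = {c}) (hab : a ≠ b) (h1 : ownR G X v a) (h2 : ownR G X v b) :
    Nb G v a b c := by
  have h3 : c ∈ cr G X v := by rw [hcr]; simp
  have h4 : ∀ d, ownR G X v d → d ≠ c := by
    rintro d hd rfl
    exact (mem_cr.mp h3).2 hd.2.symm
  exact nb_of (fun v => (hcub v).le) h1.1 h2.1 (mem_cr.mp h3).1 hab (h4 a h1) (h4 b h2)

/-- a vertex with two cross neighbours -/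
theorem nb_cr2 (hcub : ∀ v, (univ.filter fun b => G.Adj v b).card = 3) {v a b : V}
    (hcr : cr G X v = {a, b}) (hab : a ≠ b) : ∃ c, Nb G v a b c ∧ (X c ↔ X v) := by
  have h1 : a ∈ cr G X v := by rw [hcr]; simp
  have h2 : b ∈ cr G X v := by rw [hcr]; simp
  obtain ⟨c, hc⟩ := nb_third hcub (mem_cr.mp h1).1 (mem_cr.mp h2).1 hab
  refine ⟨c, hc, ?_⟩
  by_contra hh
  have h3 : c ∈ cr G X v := mem_cr.mpr ⟨hc.hc, hh⟩
  rw [hcr, Finset.mem_insert, Finset.mem_singleton] at h3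
  rcases h3 with h3 | h3
  · exact hc.ac h3.symm
  · exact hc.bc h3.symm

/-- a vertex with one cross neighbour -/
theorem nb_cr1 (hcub : ∀ v, (univ.filter fun b => G.Adj v b).card = 3) {v a : V}
    (hcr : cr G X v = {a}) : ∃ b c, Nb G v a b c ∧ (X b ↔ X v) ∧ (X c ↔ X v) := by
  have h1 : a ∈ cr G X v := by rw [hcr]; simp
  obtain ⟨b, c, hc⟩ := nb_one hcub (mem_cr.mp h1).1
  have key : ∀ d, G.Adj v d → d ≠ a → (X d ↔ X v) := by
    intro d hd hda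
    by_contra hh
    have h3 : d ∈ cr G X v := mem_cr.mpr ⟨hd, hh⟩
    rw [hcr, Finset.mem_singleton] at h3
    exact hda h3
  exact ⟨b, c, hc, key b hc.hb hc.ab.symm, key c hc.hc hc.ac.symm⟩

/-- the neighbours in the core of a `U_5` -/
structure UNb (G : SimpleGraph V) (X : V → Prop) (v1 v2 v3 v4 v5 z1 z3 z5 l1 l5 w1 w3 w3' w5
    yA0 yAk yB0 yBk ua va ub vb ba0 bak bb0 bbk : V) : Prop where
  n1 : Nb G v1 v2 z1 yAk
  n2 : Nb G v2 v1 v3 yB0
  n3 : Nb G v3 v2 v4 z3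
  n4 : Nb G v4 v3 v5 yA0
  n5 : Nb G v5 v4 z5 yBk
  m1 : Nb G z1 v1 l1 w1
  m3 : Nb G z3 v3 w3 w3'
  m5 : Nb G z5 v5 l5 w5
  a0 : Nb G yA0 v4 ua ba0
  ak : Nb G yAk v1 va bak
  b0 : Nb G yB0 v2 ub bb0
  bk : Nb G yBk v5 vb bbk
  X1 : X v1
  X2 : X v2
  X3 : X v3
  X4 : X v4
  X5 : X v5
  Xl1 : X l1
  Xl5 : X l5
  Xua : X ua
  Xva : X va
  Xub : X ub
  Xvb : X vb
  Z1 : ¬ X z1
  Z3 : ¬ X z3
  Z5 : ¬ X z5
  W1 : ¬ X w1
  W3 : ¬ X w3
  W3' : ¬ X w3'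
  W5 : ¬ X w5
  A0 : ¬ X yA0
  Ak : ¬ X yAk
  B0 : ¬ X yB0
  Bk : ¬ X yBk
  Ca0 : ¬ X ba0
  Cak : ¬ X bak
  Cb0 : ¬ X bb0
  Cbk : ¬ X bbk
  nd : [v1, v2, v3, v4, v5].Nodup
  dAB : yA0 ≠ yB0 ∧ yA0 ≠ yBk ∧ yAk ≠ yB0 ∧ yAk ≠ yBk
  z1y : z1 ≠ yA0 ∧ z1 ≠ yAk ∧ z1 ≠ yB0 ∧ z1 ≠ yBk
  z5y : z5 ≠ yA0 ∧ z5 ≠ yAk ∧ z5 ≠ yB0 ∧ z5 ≠ yBk
  z3y : z3 ≠ yA0 ∧ z3 ≠ yAk ∧ z3 ≠ yB0 ∧ z3 ≠ yBk
  z31 : z3 ≠ z1 ∧ z3 ≠ z5
  l1v : l1 ∉ [v1, v2, v3, v4]
  l5v : l5 ∉ [v2, v3, v4, v5]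
  uav : ua ∉ [v2, v3, v4, v5]
  vav : va ∉ [v1, v2, v3, v5]
  ubv : ub ∉ [v1, v2, v3, v4]
  vbv : vb ∉ [v1, v3, v4, v5]

section

variable {v1 v2 v3 v4 v5 z1 z3 z5 l1 l5 w1 w3 w3' w5 yA0 yAk yB0 yBk ua va ub vb ba0 bak bb0
  bbk x : V}
  (h : UNb G X v1 v2 v3 v4 v5 z1 z3 z5 l1 l5 w1 w3 w3' w5 yA0 yAk yB0 yBk ua va ub vb ba0 bak
    bb0 bbk)

include h

theorem UNb.near1 (hn : Helper33.L9.near G v1 x) :
    x = v2 ∨ x = z1 ∨ x = yAk ∨ x = v3 ∨ x = yB0 ∨ x = l1 ∨ x = w1 ∨ x = va ∨ x = bak :=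
  near9 h.n1 h.n2 h.m1 h.ak hn

theorem UNb.near2 (hn : Helper33.L9.near G v2 x) :
    x = v1 ∨ x = v3 ∨ x = yB0 ∨ x = z1 ∨ x = yAk ∨ x = v4 ∨ x = z3 ∨ x = ub ∨ x = bb0 :=
  near9 h.n2 h.n1 h.n3 h.b0 hn

theorem UNb.near3 (hn : Helper33.L9.near G v3 x) :
    x = v2 ∨ x = v4 ∨ x = z3 ∨ x = yB0 ∨ x = v1 ∨ x = v5 ∨ x = yA0 ∨ x = w3 ∨ x = w3' :=
  near9 h.n3 h.n2.rot h.n4 h.m3 hn

theorem UNb.near4 (hn : Helper33.L9.near G v4 x) :
    x = v3 ∨ x = v5 ∨ x = yA0 ∨ x = z3 ∨ x = v2 ∨ x = z5 ∨ x = yBk ∨ x = ua ∨ x = ba0 :=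
  near9 h.n4 h.n3.rot h.n5 h.a0 hn

theorem UNb.near5 (hn : Helper33.L9.near G v5 x) :
    x = v4 ∨ x = z5 ∨ x = yBk ∨ x = yA0 ∨ x = v3 ∨ x = l5 ∨ x = w5 ∨ x = vb ∨ x = bbk :=
  near9 h.n5 h.n4.rot h.m5 h.bk hn

/-- the reversed core -/
theorem UNb.rev : UNb G X v5 v4 v3 v2 v1 z5 z3 z1 l5 l1 w5 w3 w3' w1 yB0 yBk yA0 yAk ub vb ua va
    bb0 bbk ba0 bak where
  n1 := h.n5
  n2 := h.n4.swap
  n3 := h.n3.swap
  n4 := h.n2.swap
  n5 := h.n1
  m1 := h.m5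
  m3 := h.m3
  m5 := h.m1
  a0 := h.b0
  ak := h.bk
  b0 := h.a0
  bk := h.ak
  X1 := h.X5
  X2 := h.X4
  X3 := h.X3
  X4 := h.X2
  X5 := h.X1
  Xl1 := h.Xl5
  Xl5 := h.Xl1
  Xua := h.Xub
  Xva := h.Xvb
  Xub := h.Xua
  Xvb := h.Xva
  Z1 := h.Z5
  Z3 := h.Z3
  Z5 := h.Z1
  W1 := h.W5
  W3 := h.W3
  W3' := h.W3'
  W5 := h.W1
  A0 := h.B0
  Ak := h.Bk
  B0 := h.A0
  Bk := h.Ak
  Ca0 := h.Cb0
  Cak := h.Cbk
  Cb0 := h.Ca0
  Cbk := h.Cak
  nd := nd5 h.nd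
  dAB := ⟨h.dAB.1.symm, h.dAB.2.2.1.symm, h.dAB.2.1.symm, h.dAB.2.2.2.symm⟩
  z1y := ⟨h.z5y.2.2.1, h.z5y.2.2.2, h.z5y.1, h.z5y.2.1⟩
  z5y := ⟨h.z1y.2.2.1, h.z1y.2.2.2, h.z1y.1, h.z1y.2.1⟩
  z3y := ⟨h.z3y.2.2.1, h.z3y.2.2.2, h.z3y.1, h.z3y.2.1⟩
  z31 := ⟨h.z31.2, h.z31.1⟩
  l1v := by
    have := h.l5v
    simp only [List.mem_cons, List.not_mem_nil, or_false, not_or] at this ⊢
    tauto
  l5v := by
    have := h.l1v
    simp only [List.mem_cons, List.not_mem_nil, or_false, not_or] at this ⊢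
    tauto
  uav := by
    have := h.ubv
    simp only [List.mem_cons, List.not_mem_nil, or_false, not_or] at this ⊢
    tauto
  vav := by
    have := h.vbv
    simp only [List.mem_cons, List.not_mem_nil, or_false, not_or] at this ⊢
    tauto
  ubv := by
    have := h.uav
    simp only [List.mem_cons, List.not_mem_nil, or_false, not_or] at this ⊢
    tauto
  vbv := by
    have := h.vav
    simp only [List.mem_cons, List.not_mem_nil, or_false, not_or] at this ⊢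
    tauto

end

section

variable {v1 v2 v3 v4 v5 z1 z3 z5 l1 l5 : V} {kA kB : ℕ}
  {pA uA vA qA yA pB uB vB qB yB : ℕ → V}

/-- the reversed `U_5` -/
theorem u5_rev
    (h : U5 G X Z S v1 v2 v3 v4 v5 z1 z3 z5 l1 l5 kA kB pA uA vA qA yA pB uB vB qB yB) :
    U5 G X Z S v5 v4 v3 v2 v1 z5 z3 z1 l5 l1 kB kA pB uB vB qB yB pA uA vA qA yA where
  o12 := Helper33.L9.ownR_symm h.o45
  o23 := Helper33.L9.ownR_symm h.o34
  o34 := Helper33.L9.ownR_symm h.o23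
  o45 := Helper33.L9.ownR_symm h.o12
  c1 := h.c5
  c2 := h.c4
  c3 := h.c3
  c4 := h.c2
  c5 := h.c1
  nd := nd5 h.nd
  mem := ⟨h.mem.2.2.2.2, h.mem.2.2.2.1, h.mem.2.2.1, h.mem.2.1, h.mem.1⟩
  A := h.B
  B := h.A
  cr1 := h.cr5
  cr2 := h.cr4
  cr3 := h.cr3
  cr4 := h.cr2
  cr5 := h.cr1
  cz1 := h.cz5
  cz3 := h.cz3
  cz5 := h.cz1
  e1 := h.e5
  e3 := h.e3
  e5 := h.e1
  z1y := h.z5y'
  z1y' := h.z5y
  z5y := h.z1y'
  z5y' := h.z1y
  dAB := fun i hi j hj => by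
    obtain ⟨k1, k2, k3, k4⟩ := h.dAB j hj i hi
    exact ⟨k1.symm, k3.symm, k2.symm, k4.symm⟩
  dy := fun i hi j hj => (h.dy j hj i hi).symm
  noA := fun i hi => by
    have := h.noB i hi
    simp only [List.mem_cons, List.not_mem_nil, or_false, not_or] at this ⊢
    tauto
  noB := fun i hi => by
    have := h.noA i hi
    simp only [List.mem_cons, List.not_mem_nil, or_false, not_or] at this ⊢
    tauto

omit [Fintype V] in
theorem lamU_rev (x : V) : LamU v1 v2 v3 v4 v5 kA kB uA vA yA uB vB yB x ↔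
    LamU v5 v4 v3 v2 v1 kB kA uB vB yB uA vA yA x := by
  unfold LamU
  generalize (∃ i, i < kA ∧ (x = uA i ∨ x = vA i)) = P1
  generalize (∃ i, i < kB ∧ (x = uB i ∨ x = vB i)) = P2
  generalize (∃ i, i ≤ kA ∧ x = yA i) = P3
  generalize (∃ i, i ≤ kB ∧ x = yB i) = P4
  tauto

/-- reversal of the conclusion of `JExt` -/
theorem jextAt_rev
    (h : JExtAt G X v5 v4 v3 v2 v1 z5 z3 z1 l5 l1 kB kA uB vB yB uA vA yA) :
    JExtAt G X v1 v2 v3 v4 v5 z1 z3 z5 l1 l5 kA kB uA vA yA uB vB yB := by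
  intro L f hf h1 h2 h3 h4 h5 h6 h7 h8 h9 h10 h11 h12
  obtain ⟨f', hf'⟩ := h L f hf (fun x hx => h1 x ((lamU_rev x).mpr hx)) h4 h3 h2 h6 h5
    (fun w a b c => h8 w a b fun hh => c ((lamU_rev w).mp hh))
    (fun w a b c => h7 w a b fun hh => c ((lamU_rev w).mp hh))
    (fun w a b c => h10 w a b fun hh => c ((lamU_rev w).mp hh))
    (fun w a b c => h9 w a b fun hh => c ((lamU_rev w).mp hh)) h12 h11
  refine ⟨f', ?_⟩
  have e : (fun x => L x ∨ LamU v1 v2 v3 v4 v5 kA kB uA vA yA uB vB yB x) =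
      (fun x => L x ∨ LamU v5 v4 v3 v2 v1 kB kA uB vB yB uA vA yA x) := by
    funext x
    rw [lamU_rev]
  rw [e]
  exact hf'

end

section

variable (hcub : ∀ v, (univ.filter fun b => G.Adj v b).card = 3)
  {v1 v2 v3 v4 v5 z1 z3 z5 l1 l5 : V} {kA kB : ℕ} {pA uA vA qA yA pB uB vB qB yB : ℕ → V}

include hcub in
/-- **The neighbours in the core.** -/
theorem U5_nb
    (h : U5 G X Z S v1 v2 v3 v4 v5 z1 z3 z5 l1 l5 kA kB pA uA vA qA yA pB uB vB qB yB)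
    (X1 : X v1) :
    ∃ w1 w3 w3' w5 ba0 bak bb0 bbk : V,
      UNb G X v1 v2 v3 v4 v5 z1 z3 z5 l1 l5 w1 w3 w3' w5 (yA 0) (yA kA) (yB 0) (yB kB)
        (if 0 = kA then v1 else uA 0) (if kA = 0 then v4 else vA (kA - 1))
        (if 0 = kB then v5 else uB 0) (if kB = 0 then v2 else vB (kB - 1)) ba0 bak bb0 bbk ∧
      (kA = 0 → ba0 = bak) ∧ (kB = 0 → bb0 = bbk) := by
  have hnd := h.nd
  simp only [List.nodup_cons, List.mem_cons, List.not_mem_nil, or_false, not_or,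
    List.nodup_nil, and_true, not_false_eq_true] at hnd
  obtain ⟨⟨n12, n13, n14, n15⟩, ⟨n23, n24, n25⟩, ⟨n34, n35⟩, n45⟩ := hnd
  have X2 : X v2 := h.o12.2.mp X1
  have X3 : X v3 := h.o23.2.mp X2
  have X4 : X v4 := h.o34.2.mp X3
  have X5 : X v5 := h.o45.2.mp X4
  have YA : ∀ i, i ≤ kA → ¬ X (yA i) := fun i hi => wY h.A X4 hi
  have YB : ∀ i, i ≤ kB → ¬ X (yB i) := fun i hi => wY h.B X2 hi
  have crs : ∀ {a b : V}, b ∈ cr G X a → X a → ¬ X b := fun hb ha hh =>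
    (mem_cr.mp hb).2 (iff_of_true hh ha)
  have Z1 : ¬ X z1 := crs (by rw [h.cr1]; simp) X1
  have Z3 : ¬ X z3 := crs (by rw [h.cr3]; simp) X3
  have Z5 : ¬ X z5 := crs (by rw [h.cr5]; simp) X5
  have l1c : l1 ∈ cr G X z1 := by rw [h.cz1]; simp
  have l5c : l5 ∈ cr G X z5 := by rw [h.cz5]; simp
  have v1c : v1 ∈ cr G X z1 := by rw [h.cz1]; simp
  have v5c : v5 ∈ cr G X z5 := by rw [h.cz5]; simp
  have v3c : v3 ∈ cr G X z3 := by rw [h.cz3]; simp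
  have Xl1 : X l1 := by
    by_contra hh
    exact (mem_cr.mp l1c).2 (iff_of_false hh Z1)
  have Xl5 : X l5 := by
    by_contra hh
    exact (mem_cr.mp l5c).2 (iff_of_false hh Z5)
  have n1 : Nb G v1 v2 z1 (yA kA) :=
    (nb_end hcub h.cr1 (h.z1y kA le_rfl).symm h.o12).rot.swap
  have n5 : Nb G v5 v4 z5 (yB kB) :=
    (nb_end hcub h.cr5 (h.z5y' kB le_rfl).symm (Helper33.L9.ownR_symm h.o45)).rot.swap
  have n2 : Nb G v2 v1 v3 (yB 0) :=
    nb_inner hcub h.cr2 n13 (Helper33.L9.ownR_symm h.o12) h.o23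
  have n3 : Nb G v3 v2 v4 z3 :=
    nb_inner hcub h.cr3 n24 (Helper33.L9.ownR_symm h.o23) h.o34
  have n4 : Nb G v4 v3 v5 (yA 0) :=
    nb_inner hcub h.cr4 n35 (Helper33.L9.ownR_symm h.o34) h.o45
  obtain ⟨w1, m1, W1⟩ := nb_cr2 hcub h.cz1 h.e1.2.2.2.symm
  obtain ⟨w5, m5, W5⟩ := nb_cr2 hcub h.cz5 h.e5.2.2.2.symm
  obtain ⟨w3, w3', m3, W3, W3'⟩ := nb_cr1 hcub h.cz3
  obtain ⟨ba0, Ca0, a0⟩ := wN_y hcub h.A X4 (i := 0) (Nat.zero_le _)
  obtain ⟨bak, Cak, ak⟩ := wN_y hcub h.A X4 (i := kA) le_rfl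
  obtain ⟨bb0, Cb0, b0⟩ := wN_y hcub h.B X2 (i := 0) (Nat.zero_le _)
  obtain ⟨bbk, Cbk, bk⟩ := wN_y hcub h.B X2 (i := kB) le_rfl
  rw [if_pos rfl] at a0 b0
  rw [if_pos rfl] at ak bk
  have c1 := h.e1.2.1
  have c3 := h.e3.2
  have c5 := h.e5.2.1
  have z13 : z3 ≠ z1 := by
    intro he
    rw [he] at c3
    omega
  have z35 : z3 ≠ z5 := by
    intro he
    rw [he] at c3
    omega
  have z3A : ∀ i, i ≤ kA → z3 ≠ yA i := by
    intro i hi he
    have := h.A.y2 i hi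
    rw [← he] at this
    omega
  have z3B : ∀ i, i ≤ kB → z3 ≠ yB i := by
    intro i hi he
    have := h.B.y2 i hi
    rw [← he] at this
    omega
  have cz1 : z1 ∈ cr G X l1 := mem_crs.mp l1c
  have cz5 : z5 ∈ cr G X l5 := mem_crs.mp l5c
  refine ⟨w1, w3, w3', w5, ba0, bak, bb0, bbk,
    { n1 := n1, n2 := n2, n3 := n3, n4 := n4, n5 := n5, m1 := m1, m3 := m3, m5 := m5
      a0 := a0, ak := ak.swap, b0 := b0, bk := bk.swap
      X1 := X1, X2 := X2, X3 := X3, X4 := X4, X5 := X5, Xl1 := Xl1, Xl5 := Xl5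
      Xua := ?_, Xva := ?_, Xub := ?_, Xvb := ?_
      Z1 := Z1, Z3 := Z3, Z5 := Z5, W1 := fun hh => Z1 (W1.mp hh), W3 := fun hh => Z3 (W3.mp hh)
      W3' := fun hh => Z3 (W3'.mp hh), W5 := fun hh => Z5 (W5.mp hh)
      A0 := YA 0 (Nat.zero_le _), Ak := YA kA le_rfl, B0 := YB 0 (Nat.zero_le _)
      Bk := YB kB le_rfl, Ca0 := Ca0, Cak := Cak, Cb0 := Cb0, Cbk := Cbk
      nd := h.nd
      dAB := ⟨h.dy _ (Nat.zero_le _) _ (Nat.zero_le _), h.dy _ (Nat.zero_le _) _ le_rfl,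
        h.dy _ le_rfl _ (Nat.zero_le _), h.dy _ le_rfl _ le_rfl⟩
      z1y := ⟨h.z1y _ (Nat.zero_le _), h.z1y _ le_rfl, h.z1y' _ (Nat.zero_le _), h.z1y' _ le_rfl⟩
      z5y := ⟨h.z5y _ (Nat.zero_le _), h.z5y _ le_rfl, h.z5y' _ (Nat.zero_le _), h.z5y' _ le_rfl⟩
      z3y := ⟨z3A _ (Nat.zero_le _), z3A _ le_rfl, z3B _ (Nat.zero_le _), z3B _ le_rfl⟩
      z31 := ⟨z13, z35⟩
      l1v := ?_, l5v := ?_, uav := ?_, vav := ?_, ubv := ?_, vbv := ?_ }, ?_, ?_⟩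
  · split_ifs with hk
    · exact X1
    · exact wX_u h.A X4 (by omega)
  · split_ifs with hk
    · exact X4
    · exact wX_v h.A X4 (by omega)
  · split_ifs with hk
    · exact X5
    · exact wX_u h.B X2 (by omega)
  · split_ifs with hk
    · exact X2
    · exact wX_v h.B X2 (by omega)
  · simp only [List.mem_cons, List.not_mem_nil, or_false, not_or]
    refine ⟨h.e1.2.2.2, ?_, ?_, ?_⟩
    · intro he
      rw [he, h.cr2, Finset.mem_singleton] at cz1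
      exact h.z1y' 0 (Nat.zero_le _) cz1
    · intro he
      rw [he, h.cr3, Finset.mem_singleton] at cz1
      exact z13 cz1.symm
    · intro he
      rw [he, h.cr4, Finset.mem_singleton] at cz1
      exact h.z1y 0 (Nat.zero_le _) cz1
  · simp only [List.mem_cons, List.not_mem_nil, or_false, not_or]
    refine ⟨?_, ?_, ?_, h.e5.2.2.2⟩
    · intro he
      rw [he, h.cr2, Finset.mem_singleton] at cz5
      exact h.z5y' 0 (Nat.zero_le _) cz5
    · intro he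
      rw [he, h.cr3, Finset.mem_singleton] at cz5
      exact z35 cz5.symm
    · intro he
      rw [he, h.cr4, Finset.mem_singleton] at cz5
      exact h.z5y 0 (Nat.zero_le _) cz5
  · split_ifs with hk
    · simp only [List.mem_cons, List.not_mem_nil, or_false, not_or]
      exact ⟨n12, n13, n14, n15⟩
    · have := (h.noA 0 (by omega)).1
      simp only [List.mem_cons, List.not_mem_nil, or_false, not_or] at this ⊢
      exact this.2
  · split_ifs with hk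
    · simp only [List.mem_cons, List.not_mem_nil, or_false, not_or]
      exact ⟨Ne.symm n14, Ne.symm n24, Ne.symm n34, n45⟩
    · have := (h.noA (kA - 1) (by omega)).2
      simp only [List.mem_cons, List.not_mem_nil, or_false, not_or] at this ⊢
      exact ⟨this.1, this.2.1, this.2.2.1, this.2.2.2.2⟩
  · split_ifs with hk
    · simp only [List.mem_cons, List.not_mem_nil, or_false, not_or]
      exact ⟨Ne.symm n15, Ne.symm n25, Ne.symm n35, Ne.symm n45⟩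
    · have := (h.noB 0 (by omega)).1
      simp only [List.mem_cons, List.not_mem_nil, or_false, not_or] at this ⊢
      exact ⟨this.1, this.2.1, this.2.2.1, this.2.2.2.1⟩
  · split_ifs with hk
    · simp only [List.mem_cons, List.not_mem_nil, or_false, not_or]
      exact ⟨Ne.symm n12, n23, n24, n25⟩
    · have := (h.noB (kB - 1) (by omega)).2
      simp only [List.mem_cons, List.not_mem_nil, or_false, not_or] at this ⊢
      exact ⟨this.1, this.2.2.1, this.2.2.2.1, this.2.2.2.2⟩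
  · intro hk
    subst hk
    have h1 := a0.all bak ak.hc
    rcases h1 with h1 | h1 | h1
    · exact absurd (h1 ▸ X4) Cak
    · rw [if_pos rfl] at h1
      exact absurd (h1 ▸ X1) Cak
    · exact h1.symm
  · intro hk
    subst hk
    have h1 := b0.all bbk bk.hc
    rcases h1 with h1 | h1 | h1
    · exact absurd (h1 ▸ X2) Cbk
    · rw [if_pos rfl] at h1
      exact absurd (h1 ▸ X5) Cbk
    · exact h1.symm

end

end Helper17.L9
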