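import Mathlib.Tactic.Ring
import Mathlib.Tactic.IntervalCases
import Mathlib.Data.List.Basic

/-!
# Wires of middle pairs: the finite checks

A unit of a wire is a pair of adjacent vertices with a common list of even labels (at least three
of them); two consecutive units are connected by a link with an odd list (at least three labels).
-/

set_option autoImplicit false

namespace Helper17.L9

/-- even labels -/
def evs : List ℕ := [0, 2, 4, 6, 8]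
/-- odd labels -/
def ods : List ℕ := [1, 3, 5, 7, 9]
/-- pairs of even labels -/
def evp : List (ℕ × ℕ) :=
  [(0, 2), (0, 4), (0, 6), (0, 8), (2, 4), (2, 6), (2, 8), (4, 6), (4, 8), (6, 8)]
/-- pairs of odd labels -/
def odp : List (ℕ × ℕ) :=
  [(1, 3), (1, 5), (1, 7), (1, 9), (3, 5), (3, 7), (3, 9), (5, 7), (5, 9), (7, 9)]

/-- not at distance one -/
def far (x y : ℕ) : Bool := !(Nat.beq (x + 1) y) && !(Nat.beq (y + 1) x)
/-- different -/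
def dif (x y : ℕ) : Bool := !(Nat.beq x y)

theorem far_iff {x y : ℕ} : far x y = true ↔ x + 1 ≠ y ∧ y + 1 ≠ x := by
  unfold far
  rw [Bool.and_eq_true, Bool.not_eq_true', Bool.not_eq_true', ← Bool.not_eq_true,
    ← Bool.not_eq_true, Nat.beq_eq, Nat.beq_eq]

theorem dif_iff {x y : ℕ} : dif x y = true ↔ x ≠ y := by
  unfold dif
  rw [Bool.not_eq_true', ← Bool.not_eq_true, Nat.beq_eq]

theorem mem_evs {x : ℕ} : x ∈ evs ↔ x % 2 = 0 ∧ x ≤ 8 := by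
  unfold evs
  simp only [List.mem_cons, List.not_mem_nil, or_false]
  omega

theorem mem_ods {x : ℕ} : x ∈ ods ↔ x % 2 = 1 ∧ x ≤ 9 := by
  unfold ods
  simp only [List.mem_cons, List.not_mem_nil, or_false]
  omega

/-- the target condition: `v` is in the list avoiding `p, q`, and `v` is in `{a, b}` unless
`{a, b}` is not contained in the list -/
def Cnd (a b p q v : ℕ) : Prop :=
  v ∈ evs ∧ v ≠ p ∧ v ≠ q ∧ (v = a ∨ v = b ∨ a = p ∨ a = q ∨ b = p ∨ b = q)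

/-- one step through a link: labels of the next `u`, the link, the previous `v` -/
def stp (c d p q v v' : ℕ) : Bool :=
  ods.any fun y => dif y c && dif y d && far v' y &&
    evs.any fun u => dif u p && dif u q && dif u v && dif u v' && far u y

/-- `{a, b}` contained in both lists, or in the first list only -/
def chkA : Bool :=
  evp.all fun ab => odp.all fun cd => evp.all fun pq => evs.all fun v =>
    !(dif v pq.1 && dif v pq.2) ||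
    (dif v ab.1 && dif v ab.2 && dif ab.1 pq.1 && dif ab.1 pq.2 && dif ab.2 pq.1 &&
      dif ab.2 pq.2) ||
    stp cd.1 cd.2 pq.1 pq.2 v ab.1 || stp cd.1 cd.2 pq.1 pq.2 v ab.2

/-- a full list before the link -/
def chkB : Bool :=
  evp.all fun rs => odp.all fun cd => evp.all fun pq => evs.all fun v =>
    !(dif v pq.1 && dif v pq.2) ||
    evs.any fun v' => dif v' rs.1 && dif v' rs.2 && stp cd.1 cd.2 pq.1 pq.2 v v'

theorem chkA_true : chkA = true := by decide +kernel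
theorem chkB_true : chkB = true := by decide +kernel

theorem nrm1 (l : List ℕ) (p j : ℕ) (hj : j ∉ l) :
    ∃ p' ∈ (j :: l), (∀ w ∈ l, w ≠ p' → w ≠ p) ∧ ∀ w ∈ l, w ≠ p → w ≠ p' := by
  by_cases hp : p ∈ l
  · exact ⟨p, List.mem_cons_of_mem _ hp, fun w _ h => h, fun w _ h => h⟩
  · refine ⟨j, List.mem_cons_self, fun w hw _ he => hp (he ▸ hw), fun w hw _ he => hj (he ▸ hw)⟩

/-- replace the excluded labels by two different even labels, `v` stays admissible -/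
theorem nrmE (p q v : ℕ) (hv : v ∈ evs) (hp : v ≠ p) (hq : v ≠ q) :
    ∃ pq ∈ evp, v ≠ pq.1 ∧ v ≠ pq.2 ∧ ∀ w ∈ evs, w ≠ pq.1 → w ≠ pq.2 → w ≠ p ∧ w ≠ q := by
  obtain ⟨p', hp', h1, h2⟩ := nrm1 evs p 10 (by decide)
  obtain ⟨q', hq', h3, h4⟩ := nrm1 evs q 10 (by decide)
  have key : ∀ p' ∈ 10 :: evs, ∀ q' ∈ 10 :: evs, ∀ v ∈ evs, v ≠ p' → v ≠ q' →
      ∃ pq ∈ evp, v ≠ pq.1 ∧ v ≠ pq.2 ∧ ∀ w ∈ evs, w ≠ pq.1 → w ≠ pq.2 → w ≠ p' ∧ w ≠ q' := by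
    decide +kernel
  obtain ⟨pq, h5, h6, h7, h8⟩ := key p' hp' q' hq' v hv (h2 v hv hp) (h4 v hv hq)
  exact ⟨pq, h5, h6, h7, fun w hw h9 h10 =>
    ⟨h1 w hw (h8 w hw h9 h10).1, h3 w hw (h8 w hw h9 h10).2⟩⟩

theorem nrmE' (p q : ℕ) : ∃ pq ∈ evp, ∀ w ∈ evs, w ≠ pq.1 → w ≠ pq.2 → w ≠ p ∧ w ≠ q := by
  have key : ∀ p' ∈ 10 :: evs, ∀ q' ∈ 10 :: evs,
      ∃ pq ∈ evp, ∀ w ∈ evs, w ≠ pq.1 → w ≠ pq.2 → w ≠ p' ∧ w ≠ q' := by
    decide +kernel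
  obtain ⟨p', hp', h1, _⟩ := nrm1 evs p 10 (by decide)
  obtain ⟨q', hq', h3, _⟩ := nrm1 evs q 10 (by decide)
  obtain ⟨pq, h5, h8⟩ := key p' hp' q' hq'
  exact ⟨pq, h5, fun w hw h9 h10 => ⟨h1 w hw (h8 w hw h9 h10).1, h3 w hw (h8 w hw h9 h10).2⟩⟩

theorem nrmO (p q : ℕ) : ∃ pq ∈ odp, ∀ w ∈ ods, w ≠ pq.1 → w ≠ pq.2 → w ≠ p ∧ w ≠ q := by
  have key : ∀ p' ∈ 11 :: ods, ∀ q' ∈ 11 :: ods,
      ∃ pq ∈ odp, ∀ w ∈ ods, w ≠ pq.1 → w ≠ pq.2 → w ≠ p' ∧ w ≠ q' := by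
    decide +kernel
  obtain ⟨p', hp', h1, _⟩ := nrm1 ods p 11 (by decide)
  obtain ⟨q', hq', h3, _⟩ := nrm1 ods q 11 (by decide)
  obtain ⟨pq, h5, h8⟩ := key p' hp' q' hq'
  exact ⟨pq, h5, fun w hw h9 h10 => ⟨h1 w hw (h8 w hw h9 h10).1, h3 w hw (h8 w hw h9 h10).2⟩⟩

/-- a step through a link, in plain terms -/
def Stp (c d p q v v' y u : ℕ) : Prop :=
  (y ∈ ods ∧ y ≠ c ∧ y ≠ d) ∧ (u ∈ evs ∧ u ≠ p ∧ u ≠ q ∧ u ≠ v ∧ u ≠ v') ∧
    (v' + 1 ≠ y ∧ y + 1 ≠ v') ∧ (u + 1 ≠ y ∧ y + 1 ≠ u)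

theorem stp_iff {c d p q v v' : ℕ} (h : stp c d p q v v' = true) :
    ∃ y u, Stp c d p q v v' y u := by
  unfold stp at h
  rw [List.any_eq_true] at h
  obtain ⟨y, hy, h⟩ := h
  simp only [Bool.and_eq_true, List.any_eq_true, dif_iff, far_iff] at h
  obtain ⟨⟨⟨h1, h2⟩, h3⟩, u, hu, ⟨⟨⟨⟨h4, h5⟩, h6⟩, h7⟩, h8⟩⟩ := h
  exact ⟨y, u, ⟨hy, h1, h2⟩, ⟨hu, h4, h5, h6, h7⟩, h3, h8⟩

theorem Stp.mono {c d p q v v' y u c' d' p' q' : ℕ} (h : Stp c' d' p' q' v v' y u)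
    (h1 : ∀ w ∈ ods, w ≠ c' → w ≠ d' → w ≠ c ∧ w ≠ d)
    (h2 : ∀ w ∈ evs, w ≠ p' → w ≠ q' → w ≠ p ∧ w ≠ q) : Stp c d p q v v' y u := by
  obtain ⟨⟨a1, a2, a3⟩, ⟨b1, b2, b3, b4, b5⟩, h3, h4⟩ := h
  exact ⟨⟨a1, h1 y a1 a2 a3⟩, ⟨b1, (h2 u b1 b2 b3).1, (h2 u b1 b2 b3).2, b4, b5⟩, h3, h4⟩

/-- weak target condition: some sublist of length three contains `v`, and `v ∈ {a, b}` or the
sublist does not contain `{a, b}` -/
def CndS (a b p q v : ℕ) : Prop :=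
  ∃ pq ∈ evp, (∀ w ∈ evs, w ≠ pq.1 → w ≠ pq.2 → w ≠ p ∧ w ≠ q) ∧ v ∈ evs ∧ v ≠ pq.1 ∧
    v ≠ pq.2 ∧ (v = a ∨ v = b ∨ a = pq.1 ∨ a = pq.2 ∨ b = pq.1 ∨ b = pq.2)

theorem evp_evs {a b : ℕ} (hab : (a, b) ∈ evp) : a ∈ evs ∧ b ∈ evs ∧ a ≠ b := by
  have key : ∀ x ∈ evp, x.1 ∈ evs ∧ x.2 ∈ evs ∧ x.1 ≠ x.2 := by decide +kernel
  exact key _ hab

theorem Cnd.weak {a b p q v : ℕ} (hab : (a, b) ∈ evp) (h : Cnd a b p q v) :
    CndS a b p q v := by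
  obtain ⟨h1, h2, h3, h4⟩ := h
  obtain ⟨pq, hpq, n1, n2, hn⟩ := nrmE p q v h1 h2 h3
  obtain ⟨ha, hb, _⟩ := evp_evs hab
  have ht : ∀ w ∈ evs, w = p ∨ w = q → w = pq.1 ∨ w = pq.2 := by
    intro w hw h1
    by_contra hcon
    push Not at hcon
    have := hn w hw hcon.1 hcon.2
    tauto
  refine ⟨pq, hpq, hn, h1, n1, n2, ?_⟩
  have h5 := ht a ha
  have h6 := ht b hb
  tauto

theorem CndS.mem {a b p q v : ℕ} (h : CndS a b p q v) : v ∈ evs ∧ v ≠ p ∧ v ≠ q := by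
  obtain ⟨pq, _, hn, h1, h2, h3, _⟩ := h
  exact ⟨h1, hn v h1 h2 h3⟩

/-- **One step of the wire, backwards.** -/
theorem step_num {a b p' q' c d p q v : ℕ} (hab : (a, b) ∈ evp) (hv : CndS a b p q v) :
    ∃ v' y u, Cnd a b p' q' v' ∧ Stp c d p q v v' y u := by
  obtain ⟨pq, hpq, hn, hv1, n1, n2, hv4⟩ := hv
  obtain ⟨cd, hcd, hc⟩ := nrmO c d
  obtain ⟨hae, hbe, _⟩ := evp_evs hab
  by_cases hin : a ≠ p' ∧ a ≠ q' ∧ b ≠ p' ∧ b ≠ q'
  · have h := chkA_true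
    unfold chkA at h
    rw [List.all_eq_true] at h
    have h := h _ hab
    rw [List.all_eq_true] at h
    have h := h _ hcd
    rw [List.all_eq_true] at h
    have h := h _ hpq
    rw [List.all_eq_true] at h
    have h := h _ hv1
    simp only [Bool.or_eq_true, Bool.not_eq_true', Bool.and_eq_true,
      dif_iff, ← Bool.not_eq_true] at h
    rcases h with ((h | h) | h) | h
    · exact (h ⟨n1, n2⟩).elim
    · exfalso
      tauto
    · obtain ⟨y, u, hs⟩ := stp_iff h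
      exact ⟨a, y, u, ⟨hae, hin.1, hin.2.1, Or.inl rfl⟩, hs.mono hc hn⟩
    · obtain ⟨y, u, hs⟩ := stp_iff h
      exact ⟨b, y, u, ⟨hbe, hin.2.2.1, hin.2.2.2, Or.inr (Or.inl rfl)⟩, hs.mono hc hn⟩
  · obtain ⟨rs, hrs, hr⟩ := nrmE' p' q'
    have h := chkB_true
    unfold chkB at h
    rw [List.all_eq_true] at h
    have h := h _ hrs
    rw [List.all_eq_true] at h
    have h := h _ hcd
    rw [List.all_eq_true] at h
    have h := h _ hpq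
    rw [List.all_eq_true] at h
    have h := h _ hv1
    simp only [Bool.or_eq_true, Bool.not_eq_true', Bool.and_eq_true,
      dif_iff, ← Bool.not_eq_true, List.any_eq_true] at h
    rcases h with h | ⟨v', hv', ⟨h1, h2⟩, h3⟩
    · exact (h ⟨n1, n2⟩).elim
    · obtain ⟨y, u, hs⟩ := stp_iff h3
      refine ⟨v', y, u, ⟨hv', (hr v' hv' h1 h2).1, (hr v' hv' h1 h2).2, ?_⟩, hs.mono hc hn⟩
      by_contra hcon
      push Not at hcon
      exact hin ⟨hcon.2.2.1, hcon.2.2.2.1, hcon.2.2.2.2.1, hcon.2.2.2.2.2⟩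

end Helper17.L9
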