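import Pool.Agent.helper58.L9.K4Family
import Pool.Agent.helper17.L9.WireNum

/-!
# Wires of middle pairs, in states

`Wire A Q X k u v p q y o o'`: the units `u i, v i` (`i < k`) with ends `p i`, `q i`, the links
`y i` between `v i` and `u (i+1)`; `o i`, `o' i` are the two conflicts of `y i`.

`Wire.fill`: if `v (k-1)` is labelled by a label which satisfies `Cnd`, then the whole wire can be
labelled in parity with a given label at `u 0`.
-/

set_option autoImplicit false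

namespace Helper17.L9

open Pool.Agent.helper58.L9 Pool.Agent.helper40.L9

variable {V : Type*}

/-- a wire with `k` units -/
structure Wire (A Q : V → V → Prop) (X : V → Prop) (k : ℕ) (u v p q y o o' : ℕ → V) :
    Prop where
  Xu : ∀ i, i < k → X (u i)
  Xv : ∀ i, i < k → X (v i)
  Yy : ∀ i, i + 1 < k → ¬ X (y i)
  uu : ∀ i j, i < k → j < k → u i = u j → i = j
  vv : ∀ i j, i < k → j < k → v i = v j → i = j
  uv : ∀ i j, i < k → j < k → u i ≠ v j
  yy : ∀ i j, i + 1 < k → j + 1 < k → y i = y j → i = j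
  pn : ∀ i j, i < k → j < k → p i ≠ u j ∧ p i ≠ v j
  qn : ∀ i j, i < k → j < k → q i ≠ u j ∧ q i ≠ v j
  qU : ∀ i, i + 1 < k → ∀ x, Q (u (i + 1)) x →
    x = p (i + 1) ∨ x = q (i + 1) ∨ x = v (i + 1) ∨ x = v i
  qV : ∀ i, i + 1 < k → ∀ x, Q (v i) x → x = p i ∨ x = q i ∨ x = u i ∨ x = u (i + 1)
  cU : ∀ i, i + 1 < k → ∀ x, A (u (i + 1)) x → ¬ X x → x = y i
  cV : ∀ i, i + 1 < k → ∀ x, A (v i) x → ¬ X x → x = y i
  qY : ∀ i, i + 1 < k → ∀ x, Q (y i) x → x = o i ∨ x = o' i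
  cY : ∀ i, i + 1 < k → ∀ x, A (y i) x → X x → x = v i ∨ x = u (i + 1)

/-- the vertices of the wire behind unit `j`, without the last `v` -/
def Wset (k : ℕ) (u v y : ℕ → V) (j : ℕ) (x : V) : Prop :=
  ∃ i, i + 1 < k ∧ j ≤ i ∧ (x = u (i + 1) ∨ x = y i ∨ x = v i)

variable {A Q N : V → V → Prop} {X L E : V → Prop} {f : V → ℕ} {k : ℕ}
  {u v p q y o o' : ℕ → V}

theorem Wset_succ {j : ℕ} (hj : j + 1 < k) (x : V) :
    Wset k u v y j x ↔ Wset k u v y (j + 1) x ∨ x = u (j + 1) ∨ x = y j ∨ x = v j := by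
  constructor
  · rintro ⟨i, h1, h2, h3⟩
    rcases Nat.eq_or_lt_of_le h2 with h | h
    · subst h
      exact Or.inr h3
    · exact Or.inl ⟨i, h1, h, h3⟩
  · rintro (⟨i, h1, h2, h3⟩ | h)
    · exact ⟨i, h1, by omega, h3⟩
    · exact ⟨j, hj, le_rfl, h⟩

theorem Wset_mono {i j : ℕ} (hij : i ≤ j) {x : V} (h : Wset k u v y j x) :
    Wset k u v y i x := by
  obtain ⟨l, h1, h2, h3⟩ := h
  exact ⟨l, h1, by omega, h3⟩

section

variable (hw : Wire A Q X k u v p q y o o')

include hw in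
theorem Wire.not_u {i j : ℕ} (hi : i < k) (hij : i ≤ j) : ¬ Wset k u v y j (u i) := by
  rintro ⟨l, h1, h2, h3 | h3 | h3⟩
  · have := hw.uu _ _ hi h1 h3
    omega
  · exact hw.Yy l h1 (h3 ▸ hw.Xu i hi)
  · exact hw.uv _ _ hi (by omega) h3

include hw in
theorem Wire.not_v {i j : ℕ} (hi : i < k) (hij : i < j ∨ k ≤ i + 1) :
    ¬ Wset k u v y j (v i) := by
  rintro ⟨l, h1, h2, h3 | h3 | h3⟩
  · exact hw.uv _ _ h1 hi h3.symm
  · exact hw.Yy l h1 (h3 ▸ hw.Xv i hi)
  · have := hw.vv _ _ hi (by omega) h3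
    omega

include hw in
theorem Wire.not_y {i j : ℕ} (hi : i + 1 < k) (hij : i < j) : ¬ Wset k u v y j (y i) := by
  rintro ⟨l, h1, h2, h3 | h3 | h3⟩
  · exact hw.Yy i hi (h3 ▸ hw.Xu _ h1)
  · have := hw.yy _ _ hi h1 h3
    omega
  · exact hw.Yy i hi (h3 ▸ hw.Xv _ (by omega))

include hw in
theorem Wire.not_p {i j : ℕ} (hi : i < k) (hX : X (p i)) : ¬ Wset k u v y j (p i) := by
  rintro ⟨l, h1, h2, h3 | h3 | h3⟩
  · exact (hw.pn i (l + 1) hi h1).1 h3
  · exact hw.Yy l h1 (h3 ▸ hX)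
  · exact (hw.pn i l hi (by omega)).2 h3

include hw in
theorem Wire.not_q {i j : ℕ} (hi : i < k) (hX : X (q i)) : ¬ Wset k u v y j (q i) := by
  rintro ⟨l, h1, h2, h3 | h3 | h3⟩
  · exact (hw.qn i (l + 1) hi h1).1 h3
  · exact hw.Yy l h1 (h3 ▸ hX)
  · exact (hw.qn i l hi (by omega)).2 h3

include hw in
theorem Wire.fill_aux (hR : Rel A Q N X) (hQne : ∀ v, ¬ Q v v) (hk : 0 < k)
    (h : St A Q N X L E f) (hu0 : ¬ L (u 0)) (hL : ∀ x, Wset k u v y 0 x → ¬ L x) {a b : ℕ}
    (hab : (a, b) ∈ evp)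
    (hT : CndS a b (f (p (k - 1))) (f (q (k - 1))) (f (v (k - 1)))) (n : ℕ) :
    ∀ j, j + n + 1 = k → ∃ g : V → ℕ, St A Q N X (fun x => L x ∨ Wset k u v y j x) E g ∧
      (∀ x, ¬ Wset k u v y j x → g x = f x) ∧ CndS a b (f (p j)) (f (q j)) (g (v j)) ∧
      (j + 1 < k → Cnd a b (f (p j)) (f (q j)) (g (v j))) := by
  induction n with
  | zero =>
    intro j hj
    have hj' : j = k - 1 := by omega
    have hemp : ∀ x, ¬ Wset k u v y j x := by
      rintro x ⟨i, h1, h2, _⟩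
      omega
    refine ⟨f, h.congr (fun x => ?_) (fun x => Iff.rfl), fun _ _ => rfl, by rw [hj']; exact hT,
      fun hlt => by omega⟩
    simp [hemp x]
  | succ n ih =>
    intro j hj
    obtain ⟨g, st, g0, hc, _⟩ := ih (j + 1) (by omega)
    have hj1 : j + 1 < k := by omega
    obtain ⟨v', y', u', hv', hs⟩ := step_num (p' := f (p j)) (q' := f (q j)) (c := g (o j))
      (d := g (o' j)) hab hc
    obtain ⟨⟨s1, s2, s3⟩, ⟨s4, s5, s6, s7, s8⟩, s9, s10⟩ := hs
    rw [mem_ods] at s1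
    rw [mem_evs] at s4
    obtain ⟨w1, w2, w3, w4⟩ := hv'
    have w1' := mem_evs.mp w1
    -- sides
    have Xu1 : X (u (j + 1)) := hw.Xu _ hj1
    have Xv0 : X (v j) := hw.Xv _ (by omega)
    have Yj : ¬ X (y j) := hw.Yy _ hj1
    have yu : y j ≠ u (j + 1) := fun he => Yj (he ▸ Xu1)
    have vu : v j ≠ u (j + 1) := fun he => hw.uv _ _ hj1 (by omega) he.symm
    have vy : v j ≠ y j := fun he => Yj (he ▸ Xv0)
    -- unlabelled
    have nu : ¬ (L (u (j + 1)) ∨ Wset k u v y (j + 1) (u (j + 1))) := by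
      rintro (h1 | h1)
      · exact hL _ ⟨j, hj1, Nat.zero_le _, Or.inl rfl⟩ h1
      · exact hw.not_u hj1 le_rfl h1
    have ny : ¬ (L (y j) ∨ Wset k u v y (j + 1) (y j)) := by
      rintro (h1 | h1)
      · exact hL _ ⟨j, hj1, Nat.zero_le _, Or.inr (Or.inl rfl)⟩ h1
      · exact hw.not_y hj1 (Nat.lt_succ_self _) h1
    have nv : ¬ (L (v j) ∨ Wset k u v y (j + 1) (v j)) := by
      rintro (h1 | h1)
      · exact hL _ ⟨j, hj1, Nat.zero_le _, Or.inr (Or.inr rfl)⟩ h1
      · exact hw.not_v (by omega) (Or.inl (Nat.lt_succ_self _)) h1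
    have nu0 : ¬ (L (u j) ∨ Wset k u v y (j + 1) (u j)) := by
      rintro (h1 | h1)
      · rcases Nat.eq_zero_or_pos j with h0 | h0
        · subst h0
          exact hu0 h1
        · refine hL (u j) ⟨j - 1, by omega, Nat.zero_le _, Or.inl ?_⟩ h1
          rw [Nat.sub_add_cancel h0]
      · exact hw.not_u (by omega) (Nat.le_succ _) h1
    have qX : ∀ z x, X z → Q z x → X x := fun z x hz hq => (hR.QX _ _ hq).mp hz
    -- label `u (j+1)`
    obtain ⟨g1, e1, g10, st1⟩ := st.one hR hQne (u (j + 1)) u' nu (by omega)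
      (by rw [Nat.even_iff]; exact ⟨fun _ => s4.1, fun _ => Xu1⟩)
      (by
        intro x hx hLx _
        rcases hw.qU j hj1 x hx with rfl | rfl | rfl | rfl
        · rw [g0 _ (hw.not_p hj1 (qX _ _ Xu1 hx))]
          exact s5.symm
        · rw [g0 _ (hw.not_q hj1 (qX _ _ Xu1 hx))]
          exact s6.symm
        · exact s7.symm
        · exact absurd hLx nv)
      (by
        intro x hx hX hLx _
        have hXx : ¬ X x := fun hh => hX (iff_of_true Xu1 hh)
        have := hw.cU j hj1 x hx hXx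
        subst this
        exact absurd hLx ny)
    -- label `y j`
    obtain ⟨g2, e2, g20, st2⟩ := st1.one hR hQne (y j) y'
      (by rintro (h1 | h1)
          · exact ny h1
          · exact yu h1) (by omega)
      (by rw [Nat.even_iff]; exact ⟨fun hh => absurd hh Yj, fun hh => by omega⟩)
      (by
        intro x hx _ _
        have hXx : ¬ X x := fun hh => Yj ((hR.QX _ _ hx).mpr hh)
        have hxu : x ≠ u (j + 1) := fun he => hXx (he ▸ Xu1)
        rw [g10 x hxu]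
        rcases hw.qY j hj1 x hx with rfl | rfl
        · exact s2.symm
        · exact s3.symm)
      (by
        intro x hx hX hLx _
        have hXx : X x := by
          by_contra hh
          exact hX (iff_of_false Yj hh)
        rcases hw.cY j hj1 x hx hXx with rfl | rfl
        · rcases hLx with h1 | h1
          · exact absurd h1 nv
          · exact absurd h1 vu
        · rw [e1]
          exact ⟨s10.2, s10.1⟩)
    -- label `v j`
    obtain ⟨g3, e3, g30, st3⟩ := st2.one hR hQne (v j) v'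
      (by rintro ((h1 | h1) | h1)
          · exact nv h1
          · exact vu h1
          · exact vy h1) (by omega)
      (by rw [Nat.even_iff]; exact ⟨fun _ => w1'.1, fun _ => Xv0⟩)
      (by
        intro x hx hLx _
        rcases hw.qV j hj1 x hx with rfl | rfl | rfl | rfl
        · have hp := qX _ _ Xv0 hx
          rw [g20 _ (fun he => Yj (he ▸ hp)), g10 _ (hw.pn j (j + 1) (by omega) hj1).1,
            g0 _ (hw.not_p (by omega) hp)]
          exact w2.symm
        · have hp := qX _ _ Xv0 hx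
          rw [g20 _ (fun he => Yj (he ▸ hp)), g10 _ (hw.qn j (j + 1) (by omega) hj1).1,
            g0 _ (hw.not_q (by omega) hp)]
          exact w3.symm
        · exfalso
          rcases hLx with (h1 | h1) | h1
          · exact nu0 h1
          · have := hw.uu _ _ (by omega) hj1 h1
            omega
          · exact Yj (h1 ▸ hw.Xu j (by omega))
        · rw [g20 _ yu.symm, e1]
          exact s8)
      (by
        intro x hx hX _ _
        have hXx : ¬ X x := fun hh => hX (iff_of_true Xv0 hh)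
        have := hw.cV j hj1 x hx hXx
        subst this
        rw [e2]
        exact s9)
    refine ⟨g3, st3.congr (fun x => ?_) (fun x => Iff.rfl), ?_, ?_⟩
    · rw [Wset_succ hj1 x]
      tauto
    · intro x hx
      rw [Wset_succ hj1 x] at hx
      push Not at hx
      rw [g30 x hx.2.2.2, g20 x hx.2.2.1, g10 x hx.2.1, g0 x hx.1]
    · rw [e3]
      exact ⟨Cnd.weak hab ⟨w1, w2, w3, w4⟩, fun _ => ⟨w1, w2, w3, w4⟩⟩

include hw in
/-- **A wire can be filled backwards.** -/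
theorem Wire.fill (hR : Rel A Q N X) (hQne : ∀ v, ¬ Q v v) (hk : 0 < k)
    (h : St A Q N X L E f) (hu0 : ¬ L (u 0)) (hL : ∀ x, Wset k u v y 0 x → ¬ L x) {a b c0 : ℕ}
    (hab : (a, b) ∈ evp) (hc0 : c0 ∈ evs) (hcp : c0 ≠ f (p 0) ∧ c0 ≠ f (q 0))
    (ha : a ≠ c0 ∧ a ≠ f (p 0) ∧ a ≠ f (q 0)) (hb : b ≠ c0 ∧ b ≠ f (p 0) ∧ b ≠ f (q 0))
    (hQ0 : ∀ x, Q (u 0) x → x = p 0 ∨ x = q 0 ∨ x = v 0 ∨
      (¬ Wset k u v y 0 x ∧ (L x → ¬ E x → f x ≠ c0)))
    (hA0 : ∀ x, A (u 0) x → ¬ X x →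
      (¬ Wset k u v y 0 x ∧ (L x → ¬ E x → c0 + 1 ≠ f x ∧ f x + 1 ≠ c0)))
    (hT : CndS a b (f (p (k - 1))) (f (q (k - 1))) (f (v (k - 1))))
    (hT1 : k = 1 → f (v 0) ≠ c0) :
    ∃ g : V → ℕ, g (u 0) = c0 ∧
      St A Q N X (fun x => L x ∨ Wset k u v y 0 x ∨ x = u 0) E g ∧
      (∀ x, ¬ Wset k u v y 0 x → x ≠ u 0 → g x = f x) := by
  obtain ⟨g, st, g0, _, hc⟩ := hw.fill_aux hR hQne hk h hu0 hL hab hT (k - 1) 0 (by omega)
  have hc0' := mem_evs.mp hc0
  have Xu0 : X (u 0) := hw.Xu 0 hk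
  have nu : ¬ Wset k u v y 0 (u 0) := hw.not_u hk le_rfl
  have qX : ∀ z x, X z → Q z x → X x := fun z x hz hq => (hR.QX _ _ hq).mp hz
  obtain ⟨g1, e1, g10, st1⟩ := st.one hR hQne (u 0) c0
    (by rintro (h1 | h1)
        · exact hu0 h1
        · exact nu h1) (by omega)
    (by rw [Nat.even_iff]; exact ⟨fun _ => hc0'.1, fun _ => Xu0⟩)
    (by
      intro x hx hLx hEx
      rcases hQ0 x hx with rfl | rfl | rfl | ⟨h1, h2⟩
      · rw [g0 _ (hw.not_p hk (qX _ _ Xu0 hx))]
        exact hcp.1.symm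
      · rw [g0 _ (hw.not_q hk (qX _ _ Xu0 hx))]
        exact hcp.2.symm
      · rcases Nat.eq_or_lt_of_le hk with hk1 | hk1
        · rw [g0 _ (hw.not_v hk (Or.inr (by omega)))]
          exact hT1 hk1.symm
        obtain ⟨_, _, _, h4⟩ := hc hk1
        rcases h4 with h4 | h4 | h4 | h4 | h4 | h4
        · rw [h4]; exact ha.1
        · rw [h4]; exact hb.1
        · exact absurd h4 ha.2.1
        · exact absurd h4 ha.2.2
        · exact absurd h4 hb.2.1
        · exact absurd h4 hb.2.2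
      · rw [g0 x h1]
        exact h2 (hLx.resolve_right h1) hEx)
    (by
      intro x hx hX hLx hEx
      have hXx : ¬ X x := fun hh => hX (iff_of_true Xu0 hh)
      obtain ⟨h1, h2⟩ := hA0 x hx hXx
      rw [g0 x h1]
      exact h2 (hLx.resolve_right h1) hEx)
  refine ⟨g1, e1, st1.congr (fun x => ?_) (fun x => Iff.rfl), fun x h1 h2 => ?_⟩
  · tauto
  · rw [g10 x h2, g0 x h1]

end

end Helper17.L9
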